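import Mathlib

/-!
Drawings of graphs in the plane and the uncrossed number.
-/

set_option autoImplicit false

namespace OTh

open Set

/-- `A` is a simple arc in the plane with ends `p` and `q` -/
def IsArc (A : Set ℂ) (p q : ℂ) : Prop :=
  ∃ γ : ℝ → ℂ, ContinuousOn γ (Icc 0 1) ∧ InjOn γ (Icc 0 1) ∧ γ 0 = p ∧ γ 1 = q ∧
    γ '' Icc 0 1 = A

/-- `A` and `B` cross properly at `z`: there is a homeomorphism `h` from an open set which contains `z` onto an open set
which maps `z` to `0`, `A` to the real axis and `B` to the imaginary axis -/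
def CrossAt (A B : Set ℂ) (z : ℂ) : Prop :=
  ∃ h : OpenPartialHomeomorph ℂ ℂ, z ∈ h.source ∧ h z = 0 ∧
    ∀ w ∈ h.source, (w ∈ A ↔ (h w).im = 0) ∧ (w ∈ B ↔ (h w).re = 0)

/-- a drawing of the graph `G` in the plane `ℂ`: the vertex `v` is the point `pt v`, the edge `e` is the arc `arc e` -/
structure Drawing {V : Type*} (G : SimpleGraph V) where
  /-- the points of the vertices -/
  pt : V → ℂ
  /-- the arcs of the edges -/
  arc : Sym2 V → Set ℂ
  /-- the points are distinct -/
  pt_inj : Function.Injective pt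
  /-- the edge `uv` is a simple arc with ends `u` and `v` -/
  isArc : ∀ u v, G.Adj u v → IsArc (arc s(u, v)) (pt u) (pt v)
  /-- an arc contains no vertex other than its ends -/
  no_vertex : ∀ e ∈ G.edgeSet, ∀ w, pt w ∈ arc e → w ∈ e
  /-- any two arcs share only finitely many points -/
  finite_inter : ∀ e ∈ G.edgeSet, ∀ f ∈ G.edgeSet, e ≠ f → (arc e ∩ arc f).Finite
  /-- no two arcs touch at an interior point: they cross properly at each common interior point -/
  no_touch : ∀ e ∈ G.edgeSet, ∀ f ∈ G.edgeSet, e ≠ f → ∀ z ∈ arc e ∩ arc f, z ∉ range pt →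
    CrossAt (arc e) (arc f) z
  /-- no three arcs pass through a common interior point -/
  no_triple : ∀ e ∈ G.edgeSet, ∀ f ∈ G.edgeSet, ∀ g ∈ G.edgeSet, e ≠ f → e ≠ g → f ≠ g →
    ∀ z ∈ arc e ∩ arc f ∩ arc g, z ∈ range pt

/-- the point `z` is a crossing of the edges `e` and `f` of the drawing `D` -/
def Drawing.Crossing {V : Type*} {G : SimpleGraph V} (D : Drawing G) (e f : Sym2 V) (z : ℂ) : Prop :=
  e ∈ G.edgeSet ∧ f ∈ G.edgeSet ∧ e ≠ f ∧ z ∈ D.arc e ∩ D.arc f ∧ z ∉ range D.pt ∧
    CrossAt (D.arc e) (D.arc f) z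

/-- the edge `e` is uncrossed in `D`: no crossing lies on it -/
def Drawing.Uncrossed {V : Type*} {G : SimpleGraph V} (D : Drawing G) (e : Sym2 V) : Prop :=
  ∀ f z, ¬ D.Crossing e f z

/-- there is an uncrossed collection of `c` drawings of `G`: each edge is uncrossed in one of them -/
def UncrossedCollection {V : Type*} (G : SimpleGraph V) (c : ℕ) : Prop :=
  ∃ D : Fin c → Drawing G, ∀ e ∈ G.edgeSet, ∃ i, (D i).Uncrossed e

/-- the uncrossed number: the least size of an uncrossed collection -/
noncomputable def uncrossedNumber {V : Type*} (G : SimpleGraph V) : ℕ :=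
  sInf {c | UncrossedCollection G c}

end OTh
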