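import Mathlib

/-!
Outerplanar graphs and the outerthickness.

* `Outerplanar`: the vertices can be ordered such that no two edges interleave (equivalently: placed on a circle,
  the edges are chords that do not cross).
* `OuterPart G k`: the edge set of `G` can be partitioned into `k` outerplanar graphs; `outerthickness G` is the least `k`.
-/

namespace OTh

/-- no two edges interleave in the order given by `f` -/
def NonCr {V : Type*} (P : SimpleGraph V) (f : V → ℕ) : Prop :=
  ∀ a b c d, P.Adj a b → P.Adj c d → ¬ (f a < f c ∧ f c < f b ∧ f b < f d)

/-- outerplanar graphs: for some order of the vertices no two edges interleave -/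
def Outerplanar {V : Type*} (P : SimpleGraph V) : Prop :=
  ∃ f : V → ℕ, Function.Injective f ∧ NonCr P f

/-- the edge set of `G` can be partitioned into `k` outerplanar graphs -/
def OuterPart {V : Type*} (G : SimpleGraph V) (k : ℕ) : Prop :=
  ∃ P : Fin k → SimpleGraph V, (∀ i, P i ≤ G) ∧ (∀ i, Outerplanar (P i)) ∧
    ∀ u v, G.Adj u v → ∃! i, (P i).Adj u v

/-- the outerthickness -/
noncomputable def outerthickness {V : Type*} (G : SimpleGraph V) : ℕ := sInf {k | OuterPart G k}

end OTh
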