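import Pool.Agent.Lib.MP_9750df_co.DefOut

/-!
The combinatorial model of drawings.

* `Drawn E F`: some connected graph is drawn in the plane without crossings, `E` is the set of its edges and `F` the
  list of the boundary walks of its faces.  One draws the edges one by one.
* `Uncrossed G c`: there are `c` drawings of `G` such that each edge is uncrossed in one of them.  A set of edges is
  uncrossed in some drawing of `G` iff it can be drawn without crossings such that the two ends of each edge of `G` lie on the boundary
  of a common face (then the other edges are drawn inside the faces).  `unc G` is the least `c`.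
-/

namespace OTh

/-- `Drawn E F`: some connected plane graph (parallel edges are allowed) has the set of edges `E` and faces with
boundary walks `F` (cyclic sequences of vertices).  It is drawn edge by edge: the first edge `uv` (one face with boundary walk `u, v`);
an edge from the vertex `u` of a face to a new vertex `v` inside the face; an edge `uv` between two different vertices of
a face, which divides the face into two. -/
inductive Drawn {V : Type*} : Set (Sym2 V) → List (List V) → Prop
  | edge (u v : V) (huv : u ≠ v) : Drawn {s(u, v)} [[u, v]]
  | pendant (E : Set (Sym2 V)) (u v : V) (w : List V) (F : List (List V))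
      (h : Drawn E ((u :: w) :: F)) (hv : ∀ f ∈ (u :: w) :: F, v ∉ f) :
      Drawn (insert s(u, v) E) ((u :: v :: u :: w) :: F)
  | chord (E : Set (Sym2 V)) (u v : V) (w₁ w₂ : List V) (F : List (List V))
      (h : Drawn E ((u :: w₁ ++ v :: w₂) :: F)) (huv : u ≠ v) :
      Drawn (insert s(u, v) E) ((u :: w₁ ++ [v]) :: (v :: w₂ ++ [u]) :: F)
  | rotate (E : Set (Sym2 V)) (u : V) (w : List V) (F : List (List V))
      (h : Drawn E ((u :: w) :: F)) : Drawn E ((w ++ [u]) :: F)
  | perm (E : Set (Sym2 V)) (F F' : List (List V)) (h : Drawn E F) (hF : F.Perm F') : Drawn E F'

/-- `c` drawings of `G` such that each edge of `G` is uncrossed in one of them: for each `i` some plane graph with edges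
`E i` such that the ends of each edge of `G` lie on a common face; each edge of `G` belongs to some `E i` -/
def Uncrossed {V : Type*} (G : SimpleGraph V) (c : ℕ) : Prop :=
  ∃ E : Fin c → Set (Sym2 V), (∀ i, ∃ F, Drawn (E i) F ∧ ∀ u v, G.Adj u v → ∃ f ∈ F, u ∈ f ∧ v ∈ f) ∧
    ∀ u v, G.Adj u v → ∃ i, s(u, v) ∈ E i

/-- the uncrossed number -/
noncomputable def unc {V : Type*} (G : SimpleGraph V) : ℕ := sInf {c | Uncrossed G c}

end OTh
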