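import Pool.Agent.Lib.MP_9750df_co.Defs
import Pool.Agent.Lib.MP_9750df_co.DefDraw

section

/-!
Drawing: basic operations.

PROOFS.
`Drawn.rot`: iterate `rotate` (`List.IsRotated`, `List.rotate_cons_succ`).
`Drawn.chordAt`: `chord`, then rotate the second face `y :: w₂ ++ [x]` to `x :: y :: w₂` (and permute the two new faces).
`Drawn.leaf`: rotate `f` such that `u` comes first, `pendant`.  `Drawn.leaves`: induction on the list.
-/

set_option autoImplicit false

namespace OTh

variable {V : Type*}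

/-- the vertices on the faces -/
def vs (F : List (List V)) : Set V := {v | ∃ f ∈ F, v ∈ f}

/-- the edges of the path `x, g` -/
def pe (x : V) : List V → Set (Sym2 V)
  | [] => ∅
  | v :: g => insert s(x, v) (pe v g)

theorem Drawn.rot {E : Set (Sym2 V)} {w w' : List V} {F : List (List V)} (h : Drawn E (w :: F))
    (hw : w ~r w') : Drawn E (w' :: F) := by
  obtain ⟨n, rfl⟩ := hw
  induction n with
  | zero => rwa [List.rotate_zero]
  | succ n ih =>
    rw [← List.rotate_rotate]
    cases hq : w.rotate n with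
    | nil =>
      rw [hq] at ih
      rwa [List.rotate_nil]
    | cons a t =>
      rw [hq] at ih
      rw [List.rotate_cons_succ, List.rotate_zero]
      exact Drawn.rotate E a t F ih

theorem Drawn.chordAt {E : Set (Sym2 V)} {x y : V} {w₁ w₂ : List V} {F : List (List V)}
    (h : Drawn E ((x :: w₁ ++ y :: w₂) :: F)) (hxy : x ≠ y) :
    Drawn (insert s(x, y) E) ((x :: y :: w₂) :: (x :: w₁ ++ [y]) :: F) := by
  have h1 := Drawn.chord E x y w₁ w₂ F h hxy
  have h2 := Drawn.perm _ _ ((y :: w₂ ++ [x]) :: (x :: w₁ ++ [y]) :: F) h1 (List.Perm.swap _ _ _)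
  refine Drawn.rot h2 ?_
  refine List.IsRotated.symm ⟨1, ?_⟩
  rw [List.rotate_cons_succ, List.rotate_zero]

theorem Drawn.leaf {E : Set (Sym2 V)} {u v : V} {f : List V} {F : List (List V)}
    (h : Drawn E (f :: F)) (hu : u ∈ f) (hv : v ∉ vs (f :: F)) :
    ∃ f', Drawn (insert s(u, v) E) (f' :: F) ∧ (∀ x, x ∈ f' ↔ x ∈ f ∨ x = v) := by
  obtain ⟨s, t, rfl⟩ := List.append_of_mem hu
  have h1 : Drawn E ((u :: (t ++ s)) :: F) := by
    refine Drawn.rot h ⟨s.length, ?_⟩
    rw [List.rotate_append_length_eq, List.cons_append]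
  have hvf : v ∉ u :: (t ++ s) := by
    intro h2
    apply hv
    refine ⟨s ++ u :: t, List.mem_cons_self, ?_⟩
    simp only [List.mem_cons, List.mem_append] at h2 ⊢
    tauto
  refine ⟨u :: v :: u :: (t ++ s), Drawn.pendant E u v (t ++ s) F h1 ?_, ?_⟩
  · intro g hg
    rcases List.mem_cons.1 hg with rfl | hg
    · exact hvf
    · intro h3
      exact hv ⟨g, List.mem_cons_of_mem _ hg, h3⟩
  · intro x
    simp only [List.mem_cons, List.mem_append]
    tauto

theorem Drawn.leaves {E : Set (Sym2 V)} {f : List V} {F : List (List V)} (h : Drawn E (f :: F))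
    (l : List (V × V)) (hl : ∀ p ∈ l, p.1 ∈ f) (hnd : (l.map Prod.snd).Nodup)
    (hfr : ∀ p ∈ l, p.2 ∉ vs (f :: F)) :
    ∃ E' f', Drawn E' (f' :: F) ∧ E ⊆ E' ∧ (∀ p ∈ l, s(p.1, p.2) ∈ E') ∧
      (∀ x, x ∈ f' ↔ x ∈ f ∨ x ∈ l.map Prod.snd) := by
  induction l generalizing E f with
  | nil =>
    refine ⟨E, f, h, subset_rfl, ?_, ?_⟩
    · intro p hp
      exact absurd hp List.not_mem_nil
    · intro x
      simp
  | cons p l ih =>
    obtain ⟨f1, h1, hf1⟩ := Drawn.leaf h (hl p List.mem_cons_self) (hfr p List.mem_cons_self)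
    rw [List.map_cons, List.nodup_cons] at hnd
    obtain ⟨E', f', h2, h3, h4, h5⟩ := ih h1 (fun q hq => (hf1 _).2 (Or.inl (hl q
      (List.mem_cons_of_mem _ hq)))) hnd.2 (by
        rintro q hq ⟨g, hg, hqg⟩
        rcases List.mem_cons.1 hg with rfl | hg
        · rcases (hf1 _).1 hqg with h6 | h6
          · exact hfr q (List.mem_cons_of_mem _ hq) ⟨f, List.mem_cons_self, h6⟩
          · exact hnd.1 (h6 ▸ List.mem_map_of_mem hq)
        · exact hfr q (List.mem_cons_of_mem _ hq) ⟨g, List.mem_cons_of_mem _ hg, hqg⟩)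
    refine ⟨E', f', h2, (Set.subset_insert _ _).trans h3, ?_, ?_⟩
    · intro q hq
      rcases List.mem_cons.1 hq with rfl | hq
      · exact h3 (Set.mem_insert _ _)
      · exact h4 q hq
    · intro x
      rw [h5, hf1, List.map_cons, List.mem_cons]
      tauto

end OTh
end

section

/-!
Notions for the proof that the combinatorial drawings can be drawn in the plane.
-/

set_option autoImplicit false

namespace OTh

open Set Filter Topology

/-! ### Auxiliary notions for the proof that the combinatorial drawings `Drawn` can be drawn in the plane -/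

/-- the upper half plane -/
def HH : Set ℂ := {z | 0 < z.im}

/-- injective holomorphic maps from the upper half plane to itself -/
structure SelfMap (ψ : ℂ → ℂ) : Prop where
  diff : DifferentiableOn ℂ ψ HH
  inj : InjOn ψ HH
  maps : MapsTo ψ HH HH

/-- `ψ z` tends to the real number `s` when `z` tends to the real number `t` (in the upper half plane) -/
def CornerR (ψ : ℂ → ℂ) (t s : ℝ) : Prop := Tendsto ψ (𝓝[HH] (t : ℂ)) (𝓝[HH] (s : ℂ))

/-- `φ` maps the upper half plane injectively and holomorphically into the plane such that increasing real numbers are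
mapped to the vertices of the walk `f` -/
def FaceMap {V : Type*} (pt : V → ℂ) (f : List V) (φ : ℂ → ℂ) : Prop :=
  DifferentiableOn ℂ φ HH ∧ InjOn φ HH ∧ ∃ L : List (ℝ × V), L.map Prod.snd = f ∧
    L.Pairwise (fun p q => p.1 < q.1) ∧ ∀ p ∈ L, Tendsto φ (𝓝[HH] (p.1 : ℂ)) (𝓝 (pt p.2))

/-- the vertex `v` is on some face -/
def OnF {V : Type*} (F : List (List V)) (v : V) : Prop := ∃ f ∈ F, v ∈ f

/-- the plane graph with set of edges `E` and facial walks `F` is drawn by the points `pt` and the arcs `arc`; its faces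
contain the disjoint open sets `φ '' HH`, `φ ∈ Φ` -/
structure Realized {V : Type*} (E : Set (Sym2 V)) (F : List (List V)) (pt : V → ℂ)
    (arc : Sym2 V → Set ℂ) (Φ : List (ℂ → ℂ)) : Prop where
  face : List.Forall₂ (FaceMap pt) F Φ
  disj : Φ.Pairwise (fun φ ψ => Disjoint (φ '' HH) (ψ '' HH))
  pt_face : ∀ v, OnF F v → ∀ φ ∈ Φ, pt v ∉ φ '' HH
  arc_face : ∀ e ∈ E, ∀ φ ∈ Φ, Disjoint (arc e) (φ '' HH)
  ends : ∀ e ∈ E, ∀ v ∈ e, OnF F v
  pt_inj : ∀ u v, OnF F u → OnF F v → pt u = pt v → u = v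
  isArc : ∀ u v, s(u, v) ∈ E → IsArc (arc s(u, v)) (pt u) (pt v)
  no_vertex : ∀ e ∈ E, ∀ w, OnF F w → pt w ∈ arc e → w ∈ e
  inter : ∀ e ∈ E, ∀ f ∈ E, e ≠ f → ∀ z ∈ arc e ∩ arc f, ∃ w, OnF F w ∧ pt w = z

/-- the polygonal line `a, c, b` -/
def poly (a : ℝ) (c : ℂ) (b : ℝ) : Set ℂ := segment ℝ (a : ℂ) c ∪ segment ℝ c (b : ℂ)

/-- the cross product -/
def cro (u v : ℂ) : ℝ := u.re * v.im - u.im * v.re

/-- `A` is a line with direction `v` near the point `z` -/
def LocLine (A : Set ℂ) (z v : ℂ) : Prop := ∀ᶠ w in 𝓝 z, (w ∈ A ↔ cro (w - z) v = 0)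

end OTh
end

section

/-!
Connected sets in a graph without interleaving edges do not interleave.

PROOFS.
`nc_sets`.  Suppose `f a < f b < f a' < f b'`.  Call `p` inner if `f b < f p < f b'`.  `a` is not inner, `a'` is inner, so by
induction along the path from `a` to `a'` in `A` there are `p, q ∈ A`, `P.Adj p q`, `p` not inner, `q` inner; `p, q ∉ B`, so `p, q ≠ b, b'`.
So (`f` injective) exactly one of `b, b'` lies strictly between `p` and `q`: if `f p < f b` then `p < b < q < b'`; if `f p > f b'` then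
`b < q < b' < p`.  By induction along the path from `b` to `b'` in `B` there are adjacent `r, r' ∈ B` such that exactly one of them lies strictly
between `p` and `q`; so the edges `pq` and `rr'` interleave, contradiction.
(A general lemma: if `In P S x y`, `C x`, `¬ C y` then there are `p`, `q` with `P.Adj p q`, `C p`, `¬ C q`, `q ∈ S`, and `p = x ∨ p ∈ S`.)
-/

set_option autoImplicit false

namespace OTh

variable {V : Type*}

/-- reachable from `a`: all vertices after `a` lie in `S` -/
def In (P : SimpleGraph V) (S : Set V) (a b : V) : Prop :=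
  Relation.ReflTransGen (fun p q => P.Adj p q ∧ q ∈ S) a b

/-- a path from `x` to `y` with at least one inner vertex, all inner vertices lie in `S` -/
def Link (P : SimpleGraph V) (x y : V) (S : Set V) : Prop :=
  x ∉ S ∧ y ∉ S ∧ ∃ a b, a ∈ S ∧ b ∈ S ∧ P.Adj x a ∧ P.Adj b y ∧ In P S a b

theorem In.mono {P P' : SimpleGraph V} {S S' : Set V} (hP : P ≤ P') (hS : S ⊆ S') {a b : V}
    (h : In P S a b) : In P' S' a b := by
  unfold In at h ⊢
  induction h with
  | refl => exact Relation.ReflTransGen.refl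
  | tail _ hbc ih => exact Relation.ReflTransGen.tail ih ⟨hP hbc.1, hS hbc.2⟩

theorem In.symm {P : SimpleGraph V} {S : Set V} {a b : V} (h : In P S a b) (ha : a ∈ S) :
    In P S b a := by
  have key : In P S b a ∧ b ∈ S := by
    unfold In at h ⊢
    induction h with
    | refl => exact ⟨Relation.ReflTransGen.refl, ha⟩
    | tail _ hbc ih => exact ⟨Relation.ReflTransGen.head ⟨hbc.1.symm, ih.2⟩ ih.1, hbc.2⟩
  exact key.1

theorem Link.mono {P P' : SimpleGraph V} {S S' : Set V} (hP : P ≤ P') (hS : S ⊆ S') {x y : V}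
    (h : Link P x y S) (hx : x ∉ S') (hy : y ∉ S') : Link P' x y S' := by
  obtain ⟨_, _, a, b, ha, hb, h1, h2, h3⟩ := h
  exact ⟨hx, hy, a, b, hS ha, hS hb, hP h1, hP h2, h3.mono hP hS⟩

theorem Link.symm {P : SimpleGraph V} {S : Set V} {x y : V} (h : Link P x y S) :
    Link P y x S := by
  obtain ⟨hx, hy, a, b, ha, hb, h1, h2, h3⟩ := h
  exact ⟨hy, hx, b, a, hb, ha, h2.symm, h1.symm, h3.symm ha⟩

private theorem NC_mem {P : SimpleGraph V} {S : Set V} {a b : V} (ha : a ∈ S) (h : In P S a b) :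
    b ∈ S := by
  unfold In at h
  induction h with
  | refl => exact ha
  | tail _ hbc _ => exact hbc.2

/-- a path in `S` which leaves `C` has an edge which leaves `C` -/
private theorem NC_step {P : SimpleGraph V} {S : Set V} {x y : V} (hx : x ∈ S) (h : In P S x y)
    {C : V → Prop} (h1 : C x) (h2 : ¬ C y) :
    ∃ p q, p ∈ S ∧ q ∈ S ∧ P.Adj p q ∧ C p ∧ ¬ C q := by
  unfold In at h
  induction h with
  | refl => exact absurd h1 h2
  | tail hab hbc ih =>
    rename_i b c
    by_cases h3 : C b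
    · exact ⟨b, c, NC_mem hx hab, hbc.2, hbc.1, h3, h2⟩
    · exact ih h3

theorem nc_sets {P : SimpleGraph V} {f : V → ℕ} (hf : Function.Injective f) (h : NonCr P f)
    {A B : Set V} (hAB : Disjoint A B) {a a' b b' : V} (ha : a ∈ A) (hb : b ∈ B)
    (h1 : In P A a a') (h2 : In P B b b') : ¬ (f a < f b ∧ f b < f a' ∧ f a' < f b') := by
  rintro ⟨l1, l2, l3⟩
  -- an edge of `A` which leaves the outside
  obtain ⟨p, q, hpA, hqA, hpq, hp, hq⟩ := NC_step ha h1 (C := fun v => ¬ (f b < f v ∧ f v < f b'))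
    (fun h4 => by omega) (fun h4 => h4 ⟨l2, l3⟩)
  push Not at hq
  -- an edge of `B` with exactly one end strictly between `p` and `q`
  have hB : ∀ v ∈ B, f v ≠ f p ∧ f v ≠ f q := by
    intro v hv
    constructor
    · intro h4
      exact Set.disjoint_left.1 hAB hpA (hf h4 ▸ hv)
    · intro h4
      exact Set.disjoint_left.1 hAB hqA (hf h4 ▸ hv)
  have hb' : b' ∈ B := NC_mem hb h2
  have hbp := hB b hb
  have hbp' := hB b' hb'
  rcases lt_or_ge (f p) (f b) with h5 | h5
  · -- `p < b < q < b'`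
    obtain ⟨r, r', hr, hr', hrr, hc, hc'⟩ := NC_step hb h2 (C := fun v => f p < f v ∧ f v < f q)
      ⟨h5, by omega⟩ (fun h4 => by omega)
    have e1 := hB r' hr'
    simp only [not_and, not_lt] at hc'
    rcases lt_or_ge (f p) (f r') with h6 | h6
    · have h7 := hc' h6
      exact h p q r r' hpq hrr ⟨hc.1, hc.2, by omega⟩
    · exact h r' r p q hrr.symm hpq ⟨by omega, hc.1, hc.2⟩
  · -- `b < q < b' < p`
    have h6 : f b' < f p := by
      by_contra h7
      exact hp ⟨by omega, by omega⟩
    obtain ⟨r, r', hr, hr', hrr, hc, hc'⟩ := NC_step hb h2 (C := fun v => ¬ (f q < f v ∧ f v < f p))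
      (fun h4 => by omega) (fun h4 => h4 ⟨by omega, h6⟩)
    have e1 := hB r hr
    simp only [not_not] at hc'
    rcases lt_or_ge (f q) (f r) with h7 | h7
    · have h8 : f p < f r := by
        by_contra h9
        exact hc ⟨h7, by omega⟩
      exact h q p r' r hpq.symm hrr.symm ⟨hc'.1, hc'.2, h8⟩
    · exact h r r' q p hrr hpq.symm ⟨by omega, hc'.1, hc'.2⟩

end OTh
end
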