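import Pool.Agent.Lib.MP_9750df_co.TArc
import Pool.Agent.Lib.MP_9750df_co.NC

section

/-!
Drawing: the gaps of a pocket.

The gap between the hubs `x`, `x'` of the face `x, v, x', r` is filled with the path `x, al 0, bb 0, al 1, bb 1, .., al n, bb n, a, x'`, and `a` is joined with all `bb t` and with `x`.

PROOFS.
`draw_gap`.  `Drawn.between` with `w₁ = [v]`, `y = x'`, `g = gapl al bb a`: faces `x :: g ++ x' :: r` and `g.reverse ++ [x, v, x']`, and the edges of the path.  The second face is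
`a, bb n, al n, bb (n-1), al (n-1), .., bb 0, al 0, x, v, x'`.  By induction (on the length of the remaining part) `Drawn.chordAt` with `w₁ = [bb t, al t]`, `y = bb (t-1)` (`y = x` for
`t = 0`) draws the edges `a bb (t-1)`, finally `a x`: first face `a, x, v, x'`.  (A lemma for lists: from the face `a :: (pairs (b, a')).. ++ x :: r`.)
-/

set_option autoImplicit false

namespace OTh

variable {V : Type*}

/-- the inner vertices of the path of a gap -/
def gapl {n : ℕ} (al bb : Fin n → V) (a : V) : List V :=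
  (List.ofFn fun t => [al t, bb t]).flatten ++ [a]

private theorem drD_pe_mem {x u w : V} {l A B : List V} (h : x :: l = A ++ u :: w :: B) :
    s(u, w) ∈ pe x l := by
  induction l generalizing x A with
  | nil =>
    have h1 := congrArg List.length h
    simp only [List.length_cons, List.length_nil, List.length_append] at h1
    omega
  | cons y l ih =>
    cases A with
    | nil =>
      simp only [List.nil_append, List.cons.injEq] at h
      obtain ⟨rfl, rfl, -⟩ := h
      exact Set.mem_insert _ _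
    | cons a A =>
      simp only [List.cons_append, List.cons.injEq] at h
      exact Set.mem_insert_of_mem _ (ih h.2)

private theorem drD_rev (Q : List (V × V)) :
    ((Q.map fun p => [p.1, p.2]).flatten).reverse = (Q.reverse.map fun p => [p.2, p.1]).flatten := by
  induction Q with
  | nil => rfl
  | cons q Q ih =>
    simp only [List.map_cons, List.flatten_cons, List.reverse_append, ih, List.reverse_cons,
      List.map_append, List.flatten_append]
    simp

private theorem drD_vs_cons {f : List V} {F : List (List V)} :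
    vs (f :: F) = {u | u ∈ f} ∪ vs F := by
  ext u
  simp only [vs, List.mem_cons, Set.mem_ofPred_eq, Set.mem_union]
  constructor
  · rintro ⟨g, rfl | hg, hu⟩
    · exact Or.inl hu
    · exact Or.inr ⟨g, hg, hu⟩
  · rintro (hu | ⟨g, hg, hu⟩)
    · exact ⟨f, Or.inl rfl, hu⟩
    · exact ⟨g, Or.inr hg, hu⟩

private theorem drD_fan {a x : V} {s : List V} (F : List (List V)) (P : List (V × V))
    (hax : a ≠ x) (hP : ∀ p ∈ P, a ≠ p.2) (E : Set (Sym2 V)) (w₁ : List V)
    (h : Drawn E ((a :: w₁ ++ ((P.map fun p => [p.2, p.1]).flatten ++ x :: s)) :: F)) :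
    ∃ E' F', Drawn E' ((a :: x :: s) :: (F' ++ F)) ∧ E ⊆ E' ∧ (∀ p ∈ P, s(a, p.2) ∈ E') ∧
      s(a, x) ∈ E' ∧ ∀ f ∈ F', ∀ u ∈ f, u = a ∨ u = x ∨ u ∈ w₁ ∨
        u ∈ (P.map fun p => [p.2, p.1]).flatten := by
  induction P generalizing E w₁ F with
  | nil =>
    have h1 : Drawn E ((a :: w₁ ++ x :: s) :: F) := by simpa using h
    have h2 := Drawn.chordAt h1 hax
    refine ⟨_, [a :: w₁ ++ [x]], h2, Set.subset_insert _ _, ?_, Set.mem_insert _ _, ?_⟩
    · intro p hp
      exact absurd hp List.not_mem_nil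
    · intro f hf u hu
      rw [List.mem_singleton] at hf
      subst hf
      simp only [List.cons_append, List.mem_cons, List.mem_append, List.not_mem_nil,
        or_false] at hu
      tauto
  | cons p P ih =>
    have h1 : Drawn E ((a :: w₁ ++ p.2 :: (p.1 :: ((P.map fun p => [p.2, p.1]).flatten ++ x :: s)))
        :: F) := by
      simpa using h
    have h2 := Drawn.chordAt h1 (hP p List.mem_cons_self)
    have h3 : Drawn (insert s(a, p.2) E)
        ((a :: [p.2, p.1] ++ ((P.map fun p => [p.2, p.1]).flatten ++ x :: s)) ::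
          (a :: w₁ ++ [p.2]) :: F) := by
      simpa using h2
    obtain ⟨E', F', h4, h5, h6, h7, h8⟩ := ih ((a :: w₁ ++ [p.2]) :: F)
      (fun q hq => hP q (List.mem_cons_of_mem _ hq)) _ _ h3
    refine ⟨E', F' ++ [a :: w₁ ++ [p.2]], ?_, (Set.subset_insert _ _).trans h5, ?_, h7, ?_⟩
    · simpa using h4
    · intro q hq
      rcases List.mem_cons.1 hq with rfl | hq
      · exact h5 (Set.mem_insert _ _)
      · exact h6 q hq
    · intro f hf u hu
      rcases List.mem_append.1 hf with hf | hf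
      · have h9 := h8 f hf u hu
        simp only [List.map_cons, List.flatten_cons, List.mem_append, List.mem_cons,
          List.not_mem_nil, or_false] at h9 ⊢
        tauto
      · rw [List.mem_singleton] at hf
        subst hf
        simp only [List.map_cons, List.flatten_cons, List.mem_append, List.mem_cons,
          List.not_mem_nil, or_false, List.cons_append] at hu ⊢
        tauto

private theorem drD_split {W : Type*} (L : List W) (i : ℕ) (hi : i < L.length) :
    L = L.take i ++ L[i] :: L.drop (i + 1) := by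
  conv_lhs => rw [← List.take_append_drop i L]
  rw [List.drop_eq_getElem_cons hi]

private theorem drD_split2 {W : Type*} (L : List W) (i : ℕ) (hi : i + 1 < L.length) :
    L = L.take i ++ L[i] :: L[i + 1] :: L.drop (i + 2) := by
  conv_lhs => rw [← List.take_append_drop i L]
  rw [List.drop_eq_getElem_cons (by omega), List.drop_eq_getElem_cons hi]

theorem draw_gap {E : Set (Sym2 V)} {F : List (List V)} {n : ℕ} (x v x' : V) (r : List V)
    (al bb : Fin (n + 1) → V) (a : V) (h : Drawn E ((x :: v :: x' :: r) :: F))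
    (hnd : (x :: v :: x' :: r).Nodup) (hg : (gapl al bb a).Nodup)
    (hfr : ∀ u ∈ gapl al bb a, u ∉ vs ((x :: v :: x' :: r) :: F)) :
    ∃ E' F', Drawn E' ((x :: gapl al bb a ++ x' :: r) :: F') ∧ E ⊆ E' ∧
      s(x, al 0) ∈ E' ∧ (∀ t, s(al t, bb t) ∈ E') ∧
      (∀ t : Fin n, s(bb t.castSucc, al t.succ) ∈ E') ∧ (∀ t, s(a, bb t) ∈ E') ∧
      s(a, x) ∈ E' ∧ s(a, x') ∈ E' ∧ (∀ f ∈ F, f ∈ F') ∧
      vs F' ⊆ vs ((x :: v :: x' :: r) :: F) ∪ {u | u ∈ gapl al bb a} := by
  classical
  have hne : gapl al bb a ≠ [] := by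
    unfold gapl
    simp
  have h1 := Drawn.between (x := x) (y := x') (w₁ := [v]) (w₂ := r) (g := gapl al bb a) h hne hg hfr
  set Q : List (V × V) := List.ofFn fun t => (al t, bb t) with hQ
  have hQf : (List.ofFn fun t => [al t, bb t]) = Q.map fun p => [p.1, p.2] := by
    rw [hQ, List.map_ofFn]
    rfl
  have hgl : gapl al bb a = (Q.map fun p => [p.1, p.2]).flatten ++ [a] := by
    unfold gapl
    rw [hQf]
  have hmemQ : ∀ p ∈ Q, ∃ t, p = (al t, bb t) := by
    intro p hp
    rw [hQ, List.mem_ofFn] at hp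
    obtain ⟨t, ht⟩ := hp
    exact ⟨t, ht.symm⟩
  have hQm : ∀ t, (al t, bb t) ∈ Q := by
    intro t
    rw [hQ, List.mem_ofFn]
    exact ⟨t, rfl⟩
  have hag : a ∈ gapl al bb a := by
    rw [hgl]
    simp
  have hbg : ∀ t, bb t ∈ gapl al bb a := by
    intro t
    rw [hgl, List.mem_append]
    left
    rw [List.mem_flatten]
    exact ⟨[al t, bb t], List.mem_map.2 ⟨_, hQm t, rfl⟩, by simp⟩
  have hax : a ≠ x := by
    rintro rfl
    exact hfr a hag ⟨_, List.mem_cons_self, by simp⟩
  have hab : ∀ t, a ≠ bb t := by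
    intro t hab
    rw [hgl, List.nodup_append] at hg
    refine hg.2.2 (bb t) ?_ a (by simp) hab.symm
    rw [List.mem_flatten]
    exact ⟨[al t, bb t], List.mem_map.2 ⟨_, hQm t, rfl⟩, by simp⟩
  -- swap the two faces
  have h2 : Drawn (E ∪ pe x (gapl al bb a ++ [x'])) (((gapl al bb a).reverse ++ x :: [v] ++ [x']) ::
      (x :: gapl al bb a ++ x' :: r) :: F) := Drawn.perm _ _ _ h1 (List.Perm.swap _ _ _)
  have e1 : (gapl al bb a).reverse ++ x :: [v] ++ [x'] =
      a :: [] ++ ((Q.reverse.map fun p => [p.2, p.1]).flatten ++ x :: [v, x']) := by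
    rw [hgl, List.reverse_append, drD_rev]
    simp
  rw [e1] at h2
  obtain ⟨E', F', h3, h4, h5, h6, h7⟩ := drD_fan _ Q.reverse hax (by
    intro p hp
    obtain ⟨t, rfl⟩ := hmemQ p (List.mem_reverse.1 hp)
    exact hab t) _ [] h2
  have h8 : Drawn E' ((x :: gapl al bb a ++ x' :: r) :: ((a :: x :: [v, x']) :: (F' ++ F))) := by
    refine Drawn.perm _ _ _ h3 ?_
    have e2 : (a :: x :: [v, x']) :: (F' ++ (x :: gapl al bb a ++ x' :: r) :: F) =
        ((a :: x :: [v, x']) :: F') ++ (x :: gapl al bb a ++ x' :: r) :: F := by simp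
    have e3 : (x :: gapl al bb a ++ x' :: r) :: ((a :: x :: [v, x']) :: (F' ++ F)) =
        (x :: gapl al bb a ++ x' :: r) :: (((a :: x :: [v, x']) :: F') ++ F) := by simp
    rw [e2, e3]
    exact List.perm_middle
  have hpe : ∀ u w A B, x :: (gapl al bb a ++ [x']) = A ++ u :: w :: B → s(u, w) ∈ E' := by
    intro u w A B hAB
    exact h4 (Or.inr (drD_pe_mem hAB))
  have hlen : Q.length = n + 1 := by
    rw [hQ, List.length_ofFn]
  have hget : ∀ (i : ℕ) (hi : i < Q.length) (hi' : i < n + 1), Q[i] = (al ⟨i, hi'⟩, bb ⟨i, hi'⟩) := by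
    intro i hi hi'
    simp only [hQ, List.getElem_ofFn]
  refine ⟨E', _, h8, Set.subset_union_left.trans h4, ?_, ?_, ?_, ?_, h6, ?_, ?_, ?_⟩
  · -- x, al 0
    have hs := drD_split Q 0 (by omega)
    rw [hget 0 (by omega) (by omega)] at hs
    have hs2 : Q = (al 0, bb 0) :: Q.drop 1 := by
      simpa using hs
    refine hpe x (al 0) [] (bb 0 :: (((Q.drop 1).map fun p => [p.1, p.2]).flatten ++ [a] ++ [x'])) ?_
    rw [hgl]
    conv_lhs => rw [hs2]
    simp
  · intro t
    have hs := drD_split Q t (by rw [hlen]; exact t.2)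
    rw [hget t (by rw [hlen]; exact t.2) t.2] at hs
    refine hpe (al t) (bb t) (x :: ((Q.take t).map fun p => [p.1, p.2]).flatten)
      (((Q.drop (t + 1)).map fun p => [p.1, p.2]).flatten ++ [a] ++ [x']) ?_
    rw [hgl]
    conv_lhs => rw [hs]
    simp
  · intro t
    have ht := t.2
    have hs := drD_split2 Q t (by rw [hlen]; omega)
    rw [hget t (by rw [hlen]; omega) (by omega), hget (t + 1) (by rw [hlen]; omega) (by omega)] at hs
    have et : (⟨(t : ℕ), by omega⟩ : Fin (n + 1)) = t.castSucc := rfl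
    have et' : (⟨(t : ℕ) + 1, by omega⟩ : Fin (n + 1)) = t.succ := rfl
    rw [et, et'] at hs
    refine hpe (bb t.castSucc) (al t.succ)
      (x :: ((Q.take t).map fun p => [p.1, p.2]).flatten ++ [al t.castSucc])
      (bb t.succ :: (((Q.drop (t + 2)).map fun p => [p.1, p.2]).flatten ++ [a] ++ [x'])) ?_
    rw [hgl]
    conv_lhs => rw [hs]
    simp
  · intro t
    exact h5 (al t, bb t) (List.mem_reverse.2 (hQm t))
  · refine hpe a x' (x :: (Q.map fun p => [p.1, p.2]).flatten) [] ?_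
    rw [hgl]
    simp
  · intro f hf
    exact List.mem_cons_of_mem _ (List.mem_append_right _ hf)
  · rintro u ⟨f, hf, hu⟩
    rcases List.mem_cons.1 hf with rfl | hf
    · simp only [List.mem_cons, List.not_mem_nil, or_false] at hu
      rcases hu with rfl | rfl | rfl | rfl
      · exact Or.inr hag
      · exact Or.inl ⟨_, List.mem_cons_self, by simp⟩
      · exact Or.inl ⟨_, List.mem_cons_self, by simp⟩
      · exact Or.inl ⟨_, List.mem_cons_self, by simp⟩
    · rcases List.mem_append.1 hf with hf | hf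
      · rcases h7 f hf u hu with rfl | rfl | h9 | h9
        · exact Or.inr hag
        · exact Or.inl ⟨_, List.mem_cons_self, by simp⟩
        · exact absurd h9 List.not_mem_nil
        · right
          change u ∈ gapl al bb a
          rw [hgl, List.mem_append]
          left
          rw [← drD_rev, List.mem_reverse] at h9
          exact h9
      · exact Or.inl ⟨f, List.mem_cons_of_mem _ hf, hu⟩

end OTh
end

section

/-!
The image of a crossing.
-/

set_option autoImplicit false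

namespace OTh

open Set Filter Topology Complex

private theorem TCr_isOpen_HH : IsOpen HH := isOpen_lt continuous_const Complex.continuous_im

private theorem TCr_le_map {φ : ℂ → ℂ} (hd : DifferentiableOn ℂ φ HH) (hi : InjOn φ HH) {z : ℂ}
    (hz : z ∈ HH) : 𝓝 (φ z) ≤ map φ (𝓝 z) := by
  have ha : AnalyticAt ℂ φ z := hd.analyticAt (TCr_isOpen_HH.mem_nhds hz)
  rcases ha.eventually_constant_or_nhds_le_map_nhds with h | h
  · exfalso
    have h0 : ∀ᶠ w in 𝓝 z, w ∈ HH := TCr_isOpen_HH.mem_nhds hz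
    have h1 : ∀ᶠ w in 𝓝 z, w ∈ HH ∧ φ w = φ z := h0.and h
    have h2 : ∀ᶠ w in 𝓝 z, w = z := by
      filter_upwards [h1] with w hw
      exact hi hw.1 hz hw.2
    have h3 : ∀ᶠ w in 𝓝[≠] z, w = z := h2.filter_mono nhdsWithin_le_nhds
    have h4 : ∀ᶠ w in 𝓝[≠] z, w ≠ z := eventually_mem_nhdsWithin
    have h5 := (h3.and h4).exists
    obtain ⟨w, hw1, hw2⟩ := h5
    exact hw2 hw1
  · exact h

/-- injective holomorphic maps are open: `φ` gives a homeomorphism from `HH` onto an open set (e.g. by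
`AnalyticOnNhd.eqOn_or_eventually_ne..`/`AnalyticAt.eventually_constant_or_nhds_le_map_nhds` or by the nonvanishing of the derivative) -/
theorem exists_homeo {φ : ℂ → ℂ} (hd : DifferentiableOn ℂ φ HH) (hi : InjOn φ HH) :
    ∃ h : OpenPartialHomeomorph ℂ ℂ, h.source = HH ∧ ∀ z ∈ HH, h z = φ z := by
  have ho : IsOpenMap (HH.domRestrict φ) := by
    rw [isOpenMap_iff_nhds_le]
    intro x
    have h1 := TCr_le_map hd hi x.2
    have h2 : map (HH.domRestrict φ) (𝓝 x) = map φ (𝓝 (x : ℂ)) := by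
      rw [← (TCr_isOpen_HH.isOpenEmbedding_subtypeVal).map_nhds_eq x, Filter.map_map]
      rfl
    rw [h2]
    exact h1
  refine ⟨OpenPartialHomeomorph.ofContinuousOpenRestrict (hi.toPartialEquiv φ HH) hd.continuousOn ho
    TCr_isOpen_HH, rfl, fun z _ => rfl⟩

theorem crossAt_image {φ : ℂ → ℂ} (hd : DifferentiableOn ℂ φ HH) (hi : InjOn φ HH)
    {A B A' B' : Set ℂ} (hA : ∀ w ∈ HH, φ w ∈ A' ↔ w ∈ A) (hB : ∀ w ∈ HH, φ w ∈ B' ↔ w ∈ B)
    {z : ℂ} (hz : z ∈ HH) (h : CrossAt A B z) : CrossAt A' B' (φ z) := by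
  obtain ⟨k, hks, hk⟩ := exists_homeo hd hi
  obtain ⟨g, hg1, hg2, hg3⟩ := h
  have hzk : z ∈ k.source := by rw [hks]; exact hz
  have hkz : k z = φ z := hk z hz
  refine ⟨k.symm.trans g, ?_, ?_, ?_⟩
  · rw [OpenPartialHomeomorph.trans_source]
    refine ⟨?_, ?_⟩
    · rw [← hkz]
      exact k.map_source hzk
    · rw [mem_preimage, ← hkz, k.left_inv hzk]
      exact hg1
  · rw [OpenPartialHomeomorph.coe_trans, Function.comp_apply, ← hkz, k.left_inv hzk]
    exact hg2
  · intro w hw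
    rw [OpenPartialHomeomorph.trans_source] at hw
    obtain ⟨hw1, hw2⟩ := hw
    rw [mem_preimage] at hw2
    have hw1' : w ∈ k.target := hw1
    have h1 : k.symm w ∈ HH := by rw [← hks]; exact k.map_target hw1'
    have h2 : φ (k.symm w) = w := by rw [← hk _ h1]; exact k.right_inv hw1'
    rw [OpenPartialHomeomorph.coe_trans, Function.comp_apply]
    have h3 := hg3 _ hw2
    have h4 := hA _ h1
    have h5 := hB _ h1
    rw [h2] at h4 h5
    exact ⟨h4.trans h3.1, h5.trans h3.2⟩

end OTh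
end

section

/-!
Crossings of polygonal lines.

* `crossAt_of_loc`: `T x = cro x w + cro x v * I` is a real linear automorphism of `ℂ`; `h x = T (x - z)` restricted to an open neighbourhood of `z` where the two
  equivalences hold.
* `poly_loc`: `z` is in one of the two segments and different from its ends (one end is real, the other is `c`), and not in the other segment; near `z` the set `poly a c b` is
  the segment (the other one is closed), and near `z` the segment is the line.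
-/

set_option autoImplicit false

namespace OTh

open Set Filter Topology Complex

/-- the affine homeomorphism of the plane which straightens two lines through `z` -/
private noncomputable def TGenA_homeo (z v w : ℂ) (h : cro v w ≠ 0) : ℂ ≃ₜ ℂ where
  toFun x := ⟨cro (x - z) w, cro (x - z) v⟩
  invFun y := ⟨z.re + (y.re * v.re - y.im * w.re) / cro v w,
    z.im + (y.re * v.im - y.im * w.im) / cro v w⟩
  left_inv x := by
    have e1 : cro (x - z) w * v.re - cro (x - z) v * w.re = (x.re - z.re) * cro v w := by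
      simp only [cro, sub_re, sub_im]
      ring
    have e2 : cro (x - z) w * v.im - cro (x - z) v * w.im = (x.im - z.im) * cro v w := by
      simp only [cro, sub_re, sub_im]
      ring
    apply Complex.ext
    · simp only
      rw [e1, mul_div_cancel_right₀ _ h]
      ring
    · simp only
      rw [e2, mul_div_cancel_right₀ _ h]
      ring
  right_inv y := by
    apply Complex.ext
    · simp only [cro, sub_re, sub_im]
      rw [cro] at h
      generalize hd : v.re * w.im - v.im * w.re = d at h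
      have e1 : (z.re + (y.re * v.re - y.im * w.re) / d - z.re) * w.im -
          (z.im + (y.re * v.im - y.im * w.im) / d - z.im) * w.re =
          y.re * (v.re * w.im - v.im * w.re) / d := by ring
      rw [e1, hd, mul_div_cancel_right₀ _ h]
    · simp only [cro, sub_re, sub_im]
      rw [cro] at h
      generalize hd : v.re * w.im - v.im * w.re = d at h
      have e1 : (z.re + (y.re * v.re - y.im * w.re) / d - z.re) * v.im -
          (z.im + (y.re * v.im - y.im * w.im) / d - z.im) * v.re =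
          y.im * (v.re * w.im - v.im * w.re) / d := by ring
      rw [e1, hd, mul_div_cancel_right₀ _ h]
  continuous_toFun := by
    have h1 : Continuous fun x : ℂ => ((cro (x - z) w : ℝ) : ℂ) + ((cro (x - z) v : ℝ) : ℂ) * I := by
      unfold cro
      fun_prop
    refine h1.congr fun x => ?_
    apply Complex.ext <;> simp
  continuous_invFun := by
    have h1 : Continuous fun y : ℂ =>
        ((z.re + (y.re * v.re - y.im * w.re) / cro v w : ℝ) : ℂ) +
          ((z.im + (y.re * v.im - y.im * w.im) / cro v w : ℝ) : ℂ) * I := by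
      fun_prop
    refine h1.congr fun x => ?_
    apply Complex.ext <;> simp

/-- lines which are not parallel cross properly: use a real linear automorphism of `ℂ` which maps `v` to `1` and `w` to
`I` -/
theorem crossAt_of_loc {A B : Set ℂ} {z v w : ℂ} (hA : LocLine A z v) (hB : LocLine B z w)
    (h : cro v w ≠ 0) : CrossAt A B z := by
  obtain ⟨U, hU, hUo, hzU⟩ := eventually_nhds_iff.1 (hA.and hB)
  refine ⟨(TGenA_homeo z v w h).toOpenPartialHomeomorph.restr U, ?_, ?_, ?_⟩
  · rw [OpenPartialHomeomorph.restr_source, hUo.interior_eq]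
    exact ⟨mem_univ _, hzU⟩
  · change (⟨cro (z - z) w, cro (z - z) v⟩ : ℂ) = 0
    apply Complex.ext <;> simp [cro]
  · intro x hx
    rw [OpenPartialHomeomorph.restr_source, hUo.interior_eq] at hx
    exact hU x hx.2

private theorem TGenA_seg {a : ℝ} {c z : ℂ} (h : z ∈ segment ℝ (a : ℂ) c) :
    ∃ t : ℝ, 0 ≤ t ∧ t ≤ 1 ∧ z.re = a + t * (c.re - a) ∧ z.im = t * c.im := by
  rw [segment_eq_image'] at h
  obtain ⟨t, ⟨h0, h1⟩, rfl⟩ := h
  refine ⟨t, h0, h1, ?_, ?_⟩ <;> simp

private theorem TGenA_loc {a b : ℝ} {c : ℂ} (hab : a ≠ b) (hc : c ∈ HH) {z : ℂ} (hz : z ∈ HH)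
    (hzp : z ∈ segment ℝ (a : ℂ) c) (hzc : z ≠ c) : LocLine (poly a c b) z (c - a) := by
  have hc' : 0 < c.im := hc
  have hz' : 0 < z.im := hz
  obtain ⟨t, h0, h1, hre, him⟩ := TGenA_seg hzp
  have ht1 : t < 1 := by
    refine lt_of_le_of_ne h1 fun h2 => hzc ?_
    subst h2
    apply Complex.ext
    · rw [hre]; ring
    · rw [him]; ring
  have hlt : z.im < c.im := by rw [him]; nlinarith
  have hnb : z ∉ segment ℝ c (b : ℂ) := by
    rw [segment_symm]
    intro h3
    obtain ⟨s, h4, h5, h6, h7⟩ := TGenA_seg h3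
    have hst : s = t := mul_right_cancel₀ hc'.ne' (h7.symm.trans him)
    subst hst
    apply hab
    have h8 : a * (1 - s) = b * (1 - s) := by linarith
    exact mul_right_cancel₀ (by linarith) h8
  have hcl : IsClosed (segment ℝ c (b : ℂ)) := by
    rw [← convexHull_pair (𝕜 := ℝ)]
    exact (Set.toFinite {c, (b : ℂ)}).isClosed_convexHull ℝ
  have e1 : ∀ᶠ w in 𝓝 z, w ∉ segment ℝ c (b : ℂ) := hcl.isOpen_compl.mem_nhds hnb
  have e2 : ∀ᶠ w : ℂ in 𝓝 z, 0 < w.im :=
    continuous_im.continuousAt.eventually (lt_mem_nhds hz')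
  have e3 : ∀ᶠ w : ℂ in 𝓝 z, w.im < c.im :=
    continuous_im.continuousAt.eventually (gt_mem_nhds hlt)
  unfold LocLine
  filter_upwards [e1, e2, e3] with w h2 h3 h4
  rw [poly, mem_union, or_iff_left h2]
  constructor
  · intro h5
    obtain ⟨s, -, -, h8, h9⟩ := TGenA_seg h5
    simp only [cro, sub_re, sub_im, ofReal_re, ofReal_im, sub_zero]
    rw [h8, h9, hre, him]
    ring
  · intro h5
    simp only [cro, sub_re, sub_im, ofReal_re, ofReal_im, sub_zero] at h5
    rw [segment_eq_image']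
    refine ⟨w.im / c.im, ⟨by positivity, (div_le_one hc').2 h4.le⟩, ?_⟩
    have h6 : (w.re - a) * c.im = w.im * (c.re - a) := by
      rw [hre, him] at h5
      linarith
    apply Complex.ext
    · simp only [add_re, ofReal_re, real_smul, mul_re, sub_re, ofReal_im, sub_im, zero_mul,
        sub_zero]
      field_simp
      linarith
    · simp only [add_im, ofReal_re, real_smul, mul_im, sub_re, ofReal_im, sub_im, zero_mul,
        sub_zero, add_zero, zero_add]
      field_simp

/-- a polygonal line `a, c, b` is a line near each point of the upper half plane other than `c` -/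
theorem poly_loc {a b : ℝ} {c : ℂ} (hab : a ≠ b) (hc : c ∈ HH) {z : ℂ} (hz : z ∈ HH)
    (hzp : z ∈ poly a c b) (hzc : z ≠ c) :
    (z ∈ segment ℝ (a : ℂ) c ∧ LocLine (poly a c b) z (c - a)) ∨
      (z ∈ segment ℝ (b : ℂ) c ∧ LocLine (poly a c b) z (c - b)) := by
  rcases hzp with h | h
  · exact Or.inl ⟨h, TGenA_loc hab hc hz h hzc⟩
  · rw [segment_symm] at h
    refine Or.inr ⟨h, ?_⟩
    have h1 : poly a c b = poly b c a := by
      rw [poly, poly, union_comm, segment_symm ℝ c, segment_symm ℝ (a : ℂ)]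
    rw [h1]
    exact TGenA_loc hab.symm hc hz h hzc

end OTh
end

section

/-!
Two polygonal lines.

Finiteness: the line through `a` and `c` meets the segment from `c'` to `a'` in at most one point since `c'` is not on the line (two points `x ≠ y` of the segment on the line: then
`cro (x - a) (c - a) = cro (y - a) (c - a) = 0`, the function `cro (· - a) (c - a)` is affine on the segment and vanishes at two points, so at `c'`).
The same for the other three pairs of segments.  Crossing: let `z` be a common point in `HH`.  `z ≠ c` since `c` is on none of the lines `a'c'`, `b'c'`; `z ≠ c'` similarly.  By `poly_loc`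
both are lines near `z` with directions `v ∈ {c - a, c - b}`, `v' ∈ {c' - a', c' - b'}`.  If `cro v v' = 0` then `c' - z`, a multiple of `v'`, is parallel to `v`, so `c'` is on the line
through `z` with direction `v`: contradiction.  So `crossAt_of_loc` applies.
-/

set_option autoImplicit false

namespace OTh

open Set Filter Topology Complex

private theorem TGenB_seg {p c x : ℂ} (hx : x ∈ segment ℝ p c) :
    ∃ t : ℝ, x = p + (t : ℂ) * (c - p) := by
  obtain ⟨s, t, _, _, hst, rfl⟩ := hx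
  refine ⟨t, ?_⟩
  have : (s : ℂ) = 1 - (t : ℂ) := by
    rw [eq_sub_iff_add_eq]; exact_mod_cast hst
  simp only [real_smul, this]
  ring

private theorem TGenB_cro_add (u v w : ℂ) : cro (u + v) w = cro u w + cro v w := by
  simp only [cro, add_re, add_im]; ring

private theorem TGenB_cro_mul (t : ℝ) (u w : ℂ) : cro ((t : ℂ) * u) w = t * cro u w := by
  simp only [cro, mul_re, mul_im, ofReal_re, ofReal_im]; ring

private theorem TGenB_cro_self (u : ℂ) : cro u u = 0 := by
  simp only [cro]; ring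

private theorem TGenB_cro_swap (u v : ℂ) : cro u v = - cro v u := by
  simp only [cro]; ring

private theorem TGenB_on {p c x : ℂ} (hx : x ∈ segment ℝ p c) : cro (x - p) (c - p) = 0 := by
  obtain ⟨t, rfl⟩ := TGenB_seg hx
  rw [add_sub_cancel_left, TGenB_cro_mul, TGenB_cro_self, mul_zero]

private theorem TGenB_sub {p c p' c' : ℂ} (h : cro (c' - p) (c - p) ≠ 0) :
    (segment ℝ p c ∩ segment ℝ p' c').Subsingleton := by
  rintro x ⟨hx, hx'⟩ y ⟨hy, hy'⟩
  have ex := TGenB_on hx
  have ey := TGenB_on hy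
  obtain ⟨s, rfl⟩ := TGenB_seg hx'
  obtain ⟨r, rfl⟩ := TGenB_seg hy'
  have key : ∀ s : ℝ, cro (p' + (s : ℂ) * (c' - p') - p) (c - p)
      = (1 - s) * cro (p' - p) (c - p) + s * cro (c' - p) (c - p) := by
    intro s
    simp only [cro, sub_re, sub_im, add_re, add_im, mul_re, mul_im, ofReal_re, ofReal_im]
    ring
  rw [key] at ex ey
  by_contra hne
  have hsr : s - r ≠ 0 := by
    intro h0
    apply hne
    rw [sub_eq_zero.mp h0]
  have h1 : (s - r) * (cro (c' - p) (c - p) - cro (p' - p) (c - p)) = 0 := by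
    linear_combination ex - ey
  have h2 : cro (c' - p) (c - p) - cro (p' - p) (c - p) = 0 :=
    (mul_eq_zero.mp h1).resolve_left hsr
  apply h
  linear_combination ex + (1 - s) * h2

private theorem TGenB_dir {p c p' c' z : ℂ} (hz : z ∈ segment ℝ p c)
    (hz' : z ∈ segment ℝ p' c') (h : cro (c' - p) (c - p) ≠ 0) :
    cro (c - p) (c' - p') ≠ 0 := by
  intro h0
  apply h
  have e := TGenB_on hz
  obtain ⟨s, hs⟩ := TGenB_seg hz'
  have h1 : c' - p = ((1 - s : ℝ) : ℂ) * (c' - p') + (z - p) := by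
    rw [hs]; push_cast; ring
  rw [h1, TGenB_cro_add, TGenB_cro_mul, e, TGenB_cro_swap (c' - p'), h0]
  ring

/-- two polygonal lines `a, c, b` and `a', c', b'` such that `c'` is not on the lines `ac, bc` and `c` is not on the
lines `a'c', b'c'` share only finitely many points and cross properly -/
theorem poly_pair {a b a' b' : ℝ} {c c' : ℂ} (hab : a ≠ b) (hab' : a' ≠ b') (hc : c ∈ HH)
    (hc' : c' ∈ HH) (h1 : cro (c' - a) (c - a) ≠ 0) (h2 : cro (c' - b) (c - b) ≠ 0)
    (h3 : cro (c - a') (c' - a') ≠ 0) (h4 : cro (c - b') (c' - b') ≠ 0) :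
    (poly a c b ∩ poly a' c' b').Finite ∧
      ∀ z ∈ poly a c b ∩ poly a' c' b', z ∈ HH → CrossAt (poly a c b) (poly a' c' b') z := by
  have e1 : poly a c b = segment ℝ (a : ℂ) c ∪ segment ℝ (b : ℂ) c := by
    rw [poly, segment_symm ℝ c]
  have e2 : poly a' c' b' = segment ℝ (a' : ℂ) c' ∪ segment ℝ (b' : ℂ) c' := by
    rw [poly, segment_symm ℝ c']
  constructor
  · rw [e1, e2, inter_union_distrib_left, union_inter_distrib_right, union_inter_distrib_right]
    exact ((TGenB_sub h1).finite.union (TGenB_sub h2).finite).union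
      ((TGenB_sub h1).finite.union (TGenB_sub h2).finite)
  · rintro z ⟨hz, hz'⟩ hH
    have hzc : z ≠ c := by
      rintro rfl
      rw [e2] at hz'
      rcases hz' with h | h
      · exact h3 (TGenB_on h)
      · exact h4 (TGenB_on h)
    have hzc' : z ≠ c' := by
      rintro rfl
      rw [e1] at hz
      rcases hz with h | h
      · exact h1 (TGenB_on h)
      · exact h2 (TGenB_on h)
    rcases poly_loc hab hc hH hz hzc with ⟨hs, hl⟩ | ⟨hs, hl⟩ <;>
      rcases poly_loc hab' hc' hH hz' hzc' with ⟨hs', hl'⟩ | ⟨hs', hl'⟩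
    · exact crossAt_of_loc hl hl' (TGenB_dir hs hs' h1)
    · exact crossAt_of_loc hl hl' (TGenB_dir hs hs' h1)
    · exact crossAt_of_loc hl hl' (TGenB_dir hs hs' h2)
    · exact crossAt_of_loc hl hl' (TGenB_dir hs hs' h2)

end OTh
end

section

/-!
The map of the upper half plane onto the upper half plane with a slit.

Let `ζ = z - a`.  For `z ∈ HH` the number `1 - ζ ^ 2` is in `slitPlane` (otherwise `ζ ^ 2` is real and `≥ 1`, so `ζ` is real), so
`ψ z = a + I * csq (1 - ζ ^ 2)` is holomorphic, its imaginary part is `(csq (1 - ζ ^ 2)).re > 0`; injective since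
`(ψ z - a) ^ 2 = ζ ^ 2 - 1` and `ζ ^ 2` determines `ζ` in `HH`.  Corners: if `ζ → ± 1` then `1 - ζ ^ 2 → 0` and `csq` is continuous at `0`; if `ζ → 0` then
`csq (1 - ζ ^ 2) → csq 1 = 1`.  For real `t > a` let `x = t - a`, `ζ → √ (x ^ 2 + 1)`; on `HH` near this point
`I * csq (1 - ζ ^ 2) = csq (ζ ^ 2 - 1)` (`csq_neg` for `ζ ^ 2 - 1 ∈ HH`), which is continuous there with value `csq (x ^ 2) = x`.
If `ψ z = a + y * I` with `0 ≤ y ≤ 1` then `ζ ^ 2 = 1 - y ^ 2 ≥ 0`, so `ζ` is real.
-/

set_option autoImplicit false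

namespace OTh

open Set Filter Topology Complex

/-- the slit map -/
private noncomputable def TSlit_psi (a : ℝ) (z : ℂ) : ℂ := a + I * csq (1 - (z - a) ^ 2)

private theorem TSlit_slit (a : ℝ) {z : ℂ} (hz : z ∈ HH) : 1 - (z - a) ^ 2 ∈ slitPlane := by
  have hz' : 0 < z.im := hz
  rw [Complex.mem_slitPlane_iff]
  have h1 : (1 - (z - a) ^ 2 : ℂ).re = 1 - (z.re - a) ^ 2 + z.im ^ 2 := by
    simp [pow_two]
    ring
  have h2 : (1 - (z - a) ^ 2 : ℂ).im = -(2 * (z.re - a) * z.im) := by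
    simp [pow_two]
    ring
  rw [h1, h2]
  by_cases h : z.re - a = 0
  · left
    rw [h]
    nlinarith
  · right
    have h3 : 2 * (z.re - a) * z.im ≠ 0 := mul_ne_zero (mul_ne_zero two_ne_zero h) hz'.ne'
    exact neg_ne_zero.2 h3

private theorem TSlit_im (a : ℝ) (z : ℂ) : (TSlit_psi a z).im = (csq (1 - (z - a) ^ 2)).re := by
  unfold TSlit_psi
  simp

private theorem TSlit_maps (a : ℝ) {z : ℂ} (hz : z ∈ HH) : TSlit_psi a z ∈ HH := by
  show 0 < (TSlit_psi a z).im
  rw [TSlit_im]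
  exact csq_re_pos (TSlit_slit a hz)

private theorem TSlit_diff (a : ℝ) {z : ℂ} (hz : z ∈ HH) : DifferentiableAt ℂ (TSlit_psi a) z := by
  unfold TSlit_psi
  have h1 : DifferentiableAt ℂ (fun z : ℂ => 1 - (z - a) ^ 2) z := by fun_prop
  have h2 : DifferentiableAt ℂ csq (1 - (z - a) ^ 2) := csq_differentiableAt (TSlit_slit a hz)
  have h3 : DifferentiableAt ℂ (fun z : ℂ => csq (1 - (z - a) ^ 2)) z :=
    DifferentiableAt.comp z (g := csq) (f := fun z : ℂ => 1 - (z - a) ^ 2) h2 h1
  exact (h3.const_mul I).const_add (a : ℂ)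

private theorem TSlit_sq_inj {z w : ℂ} (hz : 0 < z.im) (hw : 0 < w.im) (h : z ^ 2 = w ^ 2) : z = w := by
  rcases sq_eq_sq_iff_eq_or_eq_neg.1 h with h | h
  · exact h
  · rw [h] at hz
    simp at hz
    linarith

private theorem TSlit_self (a : ℝ) : SelfMap (TSlit_psi a) where
  diff := fun z hz => (TSlit_diff a hz).differentiableWithinAt
  inj := by
    intro z hz w hw h
    have hz' : 0 < z.im := hz
    have hw' : 0 < w.im := hw
    unfold TSlit_psi at h
    have h1 : csq (1 - (z - a) ^ 2) = csq (1 - (w - a) ^ 2) :=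
      mul_left_cancel₀ I_ne_zero (add_left_cancel h)
    have h2 : (1 - (z - a) ^ 2 : ℂ) = 1 - (w - a) ^ 2 := by
      rw [← csq_sq (1 - (z - a) ^ 2), h1, csq_sq]
    have h3 : (z - a) ^ 2 = (w - a) ^ 2 := by
      have := congrArg (fun t => 1 - t) h2
      simpa using this
    have h4 := TSlit_sq_inj (by simpa using hz') (by simpa using hw') h3
    exact sub_left_injective h4
  maps := fun z hz => TSlit_maps a hz

private theorem TSlit_corner (a : ℝ) {t s : ℝ} (h : Tendsto (TSlit_psi a) (𝓝[HH] (t : ℂ)) (𝓝 (s : ℂ))) :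
    CornerR (TSlit_psi a) t s := by
  unfold CornerR
  rw [tendsto_nhdsWithin_iff]
  refine ⟨h, ?_⟩
  filter_upwards [self_mem_nhdsWithin] with z hz
  exact TSlit_maps a hz

private theorem TSlit_tend (a : ℝ) {t : ℝ} (h : ContinuousAt csq (1 - ((t : ℂ) - a) ^ 2)) :
    Tendsto (TSlit_psi a) (𝓝[HH] (t : ℂ)) (𝓝 (a + I * csq (1 - ((t : ℂ) - a) ^ 2))) := by
  have h1 : ContinuousAt (fun z : ℂ => 1 - (z - a) ^ 2) (t : ℂ) := by fun_prop
  have h2 : ContinuousAt (fun z : ℂ => csq (1 - (z - a) ^ 2)) (t : ℂ) :=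
    ContinuousAt.comp (g := csq) (f := fun z : ℂ => 1 - (z - a) ^ 2) h h1
  have h3 : ContinuousAt (fun z : ℂ => (a : ℂ) + I * csq (1 - (z - a) ^ 2)) (t : ℂ) :=
    (h2.const_mul I).const_add (a : ℂ)
  exact h3.tendsto.mono_left nhdsWithin_le_nhds

private theorem TSlit_far (a : ℝ) {t : ℝ} (ht : a < t) :
    Tendsto (TSlit_psi a) (𝓝[HH] ((a + Real.sqrt ((t - a) ^ 2 + 1) : ℝ) : ℂ)) (𝓝 (t : ℂ)) := by
  have hx : 0 < t - a := sub_pos.2 ht
  have hs0 : 0 < Real.sqrt ((t - a) ^ 2 + 1) := Real.sqrt_pos.2 (by positivity)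
  have hsq : Real.sqrt ((t - a) ^ 2 + 1) ^ 2 = (t - a) ^ 2 + 1 := Real.sq_sqrt (by positivity)
  set s : ℝ := a + Real.sqrt ((t - a) ^ 2 + 1) with hs
  have hval : ((s : ℂ) - a) ^ 2 - 1 = (((t - a) ^ 2 : ℝ) : ℂ) := by
    have : s - a = Real.sqrt ((t - a) ^ 2 + 1) := by rw [hs]; ring
    rw [← Complex.ofReal_sub, this, ← Complex.ofReal_pow, hsq]
    push_cast
    ring
  have hc : ContinuousAt csq (((s : ℂ) - a) ^ 2 - 1) := by
    apply csq_continuousAt
    rw [hval]
    left
    rw [Complex.ofReal_re]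
    positivity
  have h1 : ContinuousAt (fun z : ℂ => (z - a) ^ 2 - 1) (s : ℂ) := by fun_prop
  have h2 : ContinuousAt (fun z : ℂ => csq ((z - a) ^ 2 - 1)) (s : ℂ) :=
    ContinuousAt.comp (g := csq) (f := fun z : ℂ => (z - a) ^ 2 - 1) hc h1
  have h3 : ContinuousAt (fun z : ℂ => (a : ℂ) + csq ((z - a) ^ 2 - 1)) (s : ℂ) := h2.const_add (a : ℂ)
  have h4 : (a : ℂ) + csq (((s : ℂ) - a) ^ 2 - 1) = (t : ℂ) := by
    rw [hval, csq_ofReal (by positivity), Real.sqrt_sq hx.le]
    push_cast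
    ring
  have h5 : Tendsto (fun z : ℂ => (a : ℂ) + csq ((z - a) ^ 2 - 1)) (𝓝[HH] (s : ℂ)) (𝓝 (t : ℂ)) := by
    rw [← h4]
    exact h3.tendsto.mono_left nhdsWithin_le_nhds
  refine h5.congr' ?_
  have h6 : ∀ᶠ z : ℂ in 𝓝[HH] (s : ℂ), a < z.re := by
    apply Filter.Eventually.filter_mono nhdsWithin_le_nhds
    have : IsOpen {z : ℂ | a < z.re} := isOpen_lt continuous_const Complex.continuous_re
    apply this.mem_nhds
    show a < (s : ℂ).re
    rw [Complex.ofReal_re, hs]
    linarith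
  filter_upwards [self_mem_nhdsWithin, h6] with z hz hza
  have hz' : 0 < z.im := hz
  have him : 0 < ((z - a) ^ 2 - 1 : ℂ).im := by
    have : ((z - a) ^ 2 - 1 : ℂ).im = 2 * (z.re - a) * z.im := by
      simp [pow_two]
      ring
    rw [this]
    have : 0 < z.re - a := sub_pos.2 hza
    positivity
  have h7 := csq_neg him
  have h8 : (-((z - a) ^ 2 - 1) : ℂ) = 1 - (z - a) ^ 2 := by ring
  rw [h8] at h7
  unfold TSlit_psi
  rw [h7]
  have h9 : I * -(I * csq ((z - a) ^ 2 - 1)) = -(I * I) * csq ((z - a) ^ 2 - 1) := by ring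
  rw [h9, I_mul_I]
  ring

private theorem TSlit_not (a : ℝ) {y : ℝ} (hy : y ∈ Icc (0 : ℝ) 1) :
    (a + y * I : ℂ) ∉ TSlit_psi a '' HH := by
  rintro ⟨z, hz, h⟩
  have hz' : 0 < z.im := hz
  unfold TSlit_psi at h
  have h1 : I * csq (1 - (z - a) ^ 2) = I * (y : ℂ) := by
    rw [add_left_cancel h]
    ring
  have h2 : csq (1 - (z - a) ^ 2) = (y : ℂ) := mul_left_cancel₀ I_ne_zero h1
  have h3 : (1 - (z - a) ^ 2 : ℂ) = ((y ^ 2 : ℝ) : ℂ) := by
    rw [← csq_sq (1 - (z - a) ^ 2), h2]
    push_cast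
    ring
  have h4 : 1 - (z.re - a) ^ 2 + z.im ^ 2 = y ^ 2 := by
    have := congrArg Complex.re h3
    rw [Complex.ofReal_re] at this
    rw [← this]
    simp [pow_two]
    ring
  have h5 : -(2 * (z.re - a) * z.im) = 0 := by
    have := congrArg Complex.im h3
    rw [Complex.ofReal_im] at this
    rw [← this]
    simp [pow_two]
    ring
  have h6 : z.re - a = 0 := by
    have h7 : (z.re - a) * z.im = 0 := by linarith
    rcases mul_eq_zero.1 h7 with h8 | h8
    · exact h8
    · exact absurd h8 hz'.ne'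
  rw [h6] at h4
  nlinarith [hy.1, hy.2, mul_pos hz' hz']

/-- Take `ψ z = a + I * csq (1 - (z - a) ^ 2)`, `g t = a + √ ((t - a) ^ 2 + 1)`.  Note that
`I * csq (1 - (z - a) ^ 2) = csq ((z - a) ^ 2 - 1)` if `z` is in the upper half plane and its real part is greater than `a`
(`csq_neg`). -/
theorem exists_slit (a : ℝ) : ∃ (ψ : ℂ → ℂ) (g : ℝ → ℝ), SelfMap ψ ∧ StrictMonoOn g (Ioi a) ∧
    MapsTo g (Ioi a) (Ioi (a + 1)) ∧ (∀ t, a < t → CornerR ψ (g t) t) ∧
    CornerR ψ (a - 1) a ∧ CornerR ψ (a + 1) a ∧ Tendsto ψ (𝓝[HH] (a : ℂ)) (𝓝 (a + I)) ∧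
    ∀ y : ℝ, y ∈ Icc 0 1 → (a + y * I : ℂ) ∉ ψ '' HH := by
  refine ⟨TSlit_psi a, fun t => a + Real.sqrt ((t - a) ^ 2 + 1), TSlit_self a, ?_, ?_, ?_, ?_, ?_, ?_, ?_⟩
  · intro s hs t ht hst
    have hs' : a < s := hs
    show a + Real.sqrt ((s - a) ^ 2 + 1) < a + Real.sqrt ((t - a) ^ 2 + 1)
    have h1 : (s - a) ^ 2 + 1 < (t - a) ^ 2 + 1 := by nlinarith
    have h2 := Real.sqrt_lt_sqrt (by positivity) h1
    linarith
  · intro t ht
    have ht' : a < t := ht
    show a + 1 < a + Real.sqrt ((t - a) ^ 2 + 1)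
    have h1 : (1 : ℝ) < (t - a) ^ 2 + 1 := by nlinarith
    have h2 : (1 : ℝ) < Real.sqrt ((t - a) ^ 2 + 1) := by
      rw [show (1 : ℝ) = Real.sqrt 1 from Real.sqrt_one.symm]
      rw [Real.sqrt_one]
      exact Real.lt_sqrt_of_sq_lt (by linarith)
    linarith
  · intro t ht
    exact TSlit_corner a (TSlit_far a ht)
  · apply TSlit_corner
    have h0 : (1 - (((a - 1 : ℝ) : ℂ) - a) ^ 2 : ℂ) = 0 := by
      push_cast
      ring
    have h1 := TSlit_tend a (t := a - 1) (by rw [h0]; exact csq_continuousAt_zero)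
    rw [h0, csq_zero, mul_zero, add_zero] at h1
    exact h1
  · apply TSlit_corner
    have h0 : (1 - (((a + 1 : ℝ) : ℂ) - a) ^ 2 : ℂ) = 0 := by
      push_cast
      ring
    have h1 := TSlit_tend a (t := a + 1) (by rw [h0]; exact csq_continuousAt_zero)
    rw [h0, csq_zero, mul_zero, add_zero] at h1
    exact h1
  · have h0 : (1 - ((a : ℂ) - a) ^ 2 : ℂ) = 1 := by ring
    have h2 : csq 1 = 1 := by
      have := csq_ofReal (r := 1) (by norm_num)
      rw [Real.sqrt_one] at this
      simpa using this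
    have h1 := TSlit_tend a (t := a) (by rw [h0]; exact csq_continuousAt (by left; simp))
    rw [h0, h2, mul_one] at h1
    exact h1
  · intro y hy
    exact TSlit_not a hy

end OTh
end

section

/-!
A pendant edge in a face.

Let `L = (a, u) :: L'` be the list of corners.  With `ψ, g` of `exists_slit a` the new list of corners is
`(a - 1, u) :: (a, v) :: (a + 1, u) :: L'.map (fun p => (g p.1, p.2))` (use `StrictMonoOn g (Ioi a)` and `g t > a + 1`).  At `a` the map `φ ∘ ψ` tends to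
`φ (a + I)` since `φ` is continuous at `a + I ∈ HH` (`HH` is open).  `Function.update pt v _` does not change the points of the vertices of
`u :: w`.
-/

set_option autoImplicit false

namespace OTh

open Set Filter Topology Complex

theorem faceMap_pendant {V : Type*} [DecidableEq V] {pt : V → ℂ} {u v : V} {w : List V}
    {φ : ℂ → ℂ} (h : FaceMap pt (u :: w) φ) (hvu : v ≠ u) (hvw : v ∉ w) :
    ∃ (ψ : ℂ → ℂ) (a : ℝ), SelfMap ψ ∧ Tendsto φ (𝓝[HH] (a : ℂ)) (𝓝 (pt u)) ∧
      (∀ y : ℝ, y ∈ Icc 0 1 → (a + y * I : ℂ) ∉ ψ '' HH) ∧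
      FaceMap (Function.update pt v (φ (a + I))) (u :: v :: u :: w) (φ ∘ ψ) := by
  obtain ⟨hd, hi, L, hL, hP, hT⟩ := h
  obtain ⟨⟨a, u'⟩, L', rfl⟩ : ∃ (p : ℝ × V) (L' : List (ℝ × V)), L = p :: L' := by
    cases L with
    | nil => simp at hL
    | cons p L' => exact ⟨p, L', rfl⟩
  rw [List.map_cons, List.cons.injEq] at hL
  obtain ⟨hu, hw⟩ := hL
  simp only at hu
  subst hu
  rw [List.pairwise_cons] at hP
  obtain ⟨hP1, hP2⟩ := hP
  have hP1' : ∀ p ∈ L', a < p.1 := fun p hp => hP1 p hp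
  obtain ⟨ψ, g, hψ, hg, hgm, hgc, hm, hp, h0, hn⟩ := exists_slit a
  have hTa : Tendsto φ (𝓝[HH] (a : ℂ)) (𝓝 (pt u')) := hT (a, u') List.mem_cons_self
  have hopen : IsOpen HH := isOpen_lt continuous_const Complex.continuous_im
  have haI : (a + I : ℂ) ∈ HH := by
    show 0 < (a + I : ℂ).im
    simp
  have hcont : ContinuousAt φ (a + I : ℂ) :=
    (hd.differentiableAt (hopen.mem_nhds haI)).continuousAt
  have hgt : ∀ p ∈ L', a + 1 < g p.1 := fun p hp' => hgm (hP1' p hp')
  have hup : ∀ x, x ≠ v → Function.update pt v (φ (a + I)) x = pt x := fun x hx =>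
    Function.update_of_ne hx _ _
  refine ⟨ψ, a, hψ, hTa, hn, hd.comp hψ.diff hψ.maps, hi.comp hψ.inj hψ.maps,
    (a - 1, u') :: (a, v) :: (a + 1, u') :: L'.map (fun p => (g p.1, p.2)), ?_, ?_, ?_⟩
  · simp only [List.map_cons, List.map_map]
    congr 3
  · rw [List.pairwise_cons, List.pairwise_cons, List.pairwise_cons, List.pairwise_map]
    refine ⟨?_, ?_, ?_, ?_⟩
    · intro q hq
      rcases List.mem_cons.1 hq with rfl | hq
      · show a - 1 < a
        linarith
      rcases List.mem_cons.1 hq with rfl | hq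
      · show a - 1 < a + 1
        linarith
      obtain ⟨r, hr, rfl⟩ := List.mem_map.1 hq
      have := hgt r hr
      show a - 1 < g r.1
      linarith
    · intro q hq
      rcases List.mem_cons.1 hq with rfl | hq
      · show a < a + 1
        linarith
      obtain ⟨r, hr, rfl⟩ := List.mem_map.1 hq
      have := hgt r hr
      show a < g r.1
      linarith
    · intro q hq
      obtain ⟨r, hr, rfl⟩ := List.mem_map.1 hq
      exact hgt r hr
    · refine List.Pairwise.imp_of_mem ?_ hP2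
      intro q r hq hr hqr
      exact hg (hP1' q hq) (hP1' r hr) hqr
  · intro q hq
    rcases List.mem_cons.1 hq with rfl | hq
    · show Tendsto (φ ∘ ψ) (𝓝[HH] ((a - 1 : ℝ) : ℂ)) (𝓝 (Function.update pt v (φ (a + I)) u'))
      rw [hup u' (Ne.symm hvu)]
      exact hTa.comp hm
    rcases List.mem_cons.1 hq with rfl | hq
    · show Tendsto (φ ∘ ψ) (𝓝[HH] (a : ℂ)) (𝓝 (Function.update pt v (φ (a + I)) v))
      rw [Function.update_self]
      exact hcont.tendsto.comp h0
    rcases List.mem_cons.1 hq with rfl | hq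
    · show Tendsto (φ ∘ ψ) (𝓝[HH] ((a + 1 : ℝ) : ℂ)) (𝓝 (Function.update pt v (φ (a + I)) u'))
      rw [hup u' (Ne.symm hvu)]
      exact hTa.comp hp
    · obtain ⟨r, hr, rfl⟩ := List.mem_map.1 hq
      have hrv : r.2 ≠ v := by
        intro hcon
        apply hvw
        rw [← hw, ← hcon]
        exact List.mem_map_of_mem hr
      show Tendsto (φ ∘ ψ) (𝓝[HH] ((g r.1 : ℝ) : ℂ)) (𝓝 (Function.update pt v (φ (a + I)) r.2))
      rw [hup r.2 hrv]
      exact (hT r (List.mem_cons_of_mem _ hr)).comp (hgc r.1 (hP1' r hr))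

end OTh
end

section

/-!
General position.

* `exists_avoid`: for `p = (x, v)`, `v ≠ 0` the condition `cro (t + (1 + t ^ 2) * I - x) v = 0` is a nonzero polynomial of degree at most `2` in `t`, so finitely many `t` are
  bad for each `p`.
* `genpos`: induction on the number of polygonal lines (e.g. for `ι = Fin n` or for `Finset`s of indices).  Let `c i` be chosen for the first ones, `Q` the finite set which consists of `Z`, of the `c i` and of the
  common points in `HH` of two of the polygonal lines.  By `exists_avoid` choose the new `c' ∈ HH` with: `cro (c' - a') (q - a') ≠ 0` and `cro (c' - b') (q - b') ≠ 0` for `q ∈ Q`,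
  `cro (c' - a i) (c i - a i) ≠ 0`, `cro (c' - b i) (c i - b i) ≠ 0` for all `i`.  (`cro (q - a') (c' - a') ≠ 0` is the same as `cro (c' - a') (q - a') ≠ 0` up to sign.)  Then `poly_pair` applies to the new line and
  each old one (`q = c i`), no point `q ∈ Q` is on the new line.
-/

set_option autoImplicit false

namespace OTh

open Set Filter Topology Complex

private theorem tgenc_bad (x v : ℂ) (hv : v ≠ 0) :
    {t : ℝ | cro ((t : ℂ) + (1 + (t : ℂ) ^ 2) * I - x) v = 0}.Finite := by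
  set P : Polynomial ℝ := Polynomial.C (-v.re) * Polynomial.X ^ 2 +
    Polynomial.C v.im * Polynomial.X + Polynomial.C (-x.re * v.im - v.re + x.im * v.re) with hP
  have hP0 : P ≠ 0 := by
    intro h
    have h2 : P.coeff 2 = 0 := by rw [h]; simp
    have h1 : P.coeff 1 = 0 := by rw [h]; simp
    rw [hP] at h1 h2
    simp [Polynomial.coeff_C] at h1 h2
    exact hv (Complex.ext h2 h1)
  refine (P.roots.toFinset.finite_toSet).subset ?_
  intro t ht
  simp only [Set.mem_ofPred_eq] at ht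
  simp only [Finset.mem_coe, Multiset.mem_toFinset, Polynomial.mem_roots hP0,
    Polynomial.IsRoot.def]
  rw [hP]
  simp only [Polynomial.eval_add, Polynomial.eval_mul, Polynomial.eval_C, Polynomial.eval_pow,
    Polynomial.eval_X]
  unfold cro at ht
  have e1 : ((t : ℂ) + (1 + (t : ℂ) ^ 2) * I - x).re = t - x.re := by
    simp [pow_two]
  have e2 : ((t : ℂ) + (1 + (t : ℂ) ^ 2) * I - x).im = 1 + t ^ 2 - x.im := by
    simp [pow_two]
  rw [e1, e2] at ht
  linarith

/-- finitely many lines do not cover the upper half plane: there is a point `t + (1 + t ^ 2) * I` on none of them -/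
theorem exists_avoid (S : Set (ℂ × ℂ)) (hS : S.Finite) (h : ∀ p ∈ S, p.2 ≠ 0) :
    ∃ c ∈ HH, ∀ p ∈ S, cro (c - p.1) p.2 ≠ 0 := by
  have h1 : (⋃ p ∈ S, {t : ℝ | cro ((t : ℂ) + (1 + (t : ℂ) ^ 2) * I - p.1) p.2 = 0}).Finite :=
    hS.biUnion fun p hp => tgenc_bad p.1 p.2 (h p hp)
  obtain ⟨t, ht⟩ := h1.infinite_compl.nonempty
  refine ⟨(t : ℂ) + (1 + (t : ℂ) ^ 2) * I, ?_, ?_⟩
  · show 0 < ((t : ℂ) + (1 + (t : ℂ) ^ 2) * I).im
    have : ((t : ℂ) + (1 + (t : ℂ) ^ 2) * I).im = 1 + t ^ 2 := by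
      simp [pow_two]
    rw [this]
    positivity
  · intro p hp h0
    refine ht ?_
    simp only [Set.mem_iUnion]
    exact ⟨p, hp, h0⟩

private theorem tgenc_cro_symm (u v : ℂ) : cro u v = -cro v u := by
  unfold cro
  ring

private theorem tgenc_seg {a c z : ℂ} (h : z ∈ segment ℝ a c) : cro (c - a) (z - a) = 0 := by
  obtain ⟨s, t, hs, ht, hst, rfl⟩ := h
  unfold cro
  have : s = 1 - t := by linarith
  subst this
  simp
  ring

private theorem tgenc_poly {a b : ℝ} {c z : ℂ} (h : z ∈ poly a c b) :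
    cro (c - a) (z - a) = 0 ∨ cro (c - b) (z - b) = 0 := by
  rcases h with h | h
  · exact Or.inl (tgenc_seg h)
  · right
    rw [segment_symm] at h
    exact tgenc_seg h

private theorem tgenc_ne {z : ℂ} (hz : z ∈ HH) (a : ℝ) : z - (a : ℂ) ≠ 0 := by
  intro h
  have h1 : (z - (a : ℂ)).im = 0 := by rw [h]; simp
  have h2 : 0 < z.im := hz
  simp at h1
  linarith

/-- polygonal lines in general position -/
theorem genpos {ι : Type*} [Finite ι] (a b : ι → ℝ) (hab : ∀ i, a i ≠ b i) (Z : Set ℂ)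
    (hZ : Z.Finite) (hZH : Z ⊆ HH) : ∃ c : ι → ℂ, (∀ i, c i ∈ HH) ∧
      (∀ i, Disjoint (poly (a i) (c i) (b i)) Z) ∧
      (∀ i j, i ≠ j → (poly (a i) (c i) (b i) ∩ poly (a j) (c j) (b j)).Finite) ∧
      (∀ i j, i ≠ j → ∀ z ∈ poly (a i) (c i) (b i) ∩ poly (a j) (c j) (b j), z ∈ HH →
        CrossAt (poly (a i) (c i) (b i)) (poly (a j) (c j) (b j)) z) ∧
      (∀ i j k, i ≠ j → i ≠ k → j ≠ k → ∀ z ∈ HH, z ∈ poly (a i) (c i) (b i) →
        z ∈ poly (a j) (c j) (b j) → z ∉ poly (a k) (c k) (b k)) := by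
  revert a b
  refine Finite.induction_empty_option (P := fun ι => ∀ (a b : ι → ℝ), (∀ i, a i ≠ b i) →
    ∃ c : ι → ℂ, (∀ i, c i ∈ HH) ∧
      (∀ i, Disjoint (poly (a i) (c i) (b i)) Z) ∧
      (∀ i j, i ≠ j → (poly (a i) (c i) (b i) ∩ poly (a j) (c j) (b j)).Finite) ∧
      (∀ i j, i ≠ j → ∀ z ∈ poly (a i) (c i) (b i) ∩ poly (a j) (c j) (b j), z ∈ HH →
        CrossAt (poly (a i) (c i) (b i)) (poly (a j) (c j) (b j)) z) ∧
      (∀ i j k, i ≠ j → i ≠ k → j ≠ k → ∀ z ∈ HH, z ∈ poly (a i) (c i) (b i) →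
        z ∈ poly (a j) (c j) (b j) → z ∉ poly (a k) (c k) (b k))) ?_ ?_ ?_ ι
  · intro α β e h a b hab
    obtain ⟨c, c1, c2, c3, c4, c5⟩ := h (fun i => a (e i)) (fun i => b (e i)) fun i => hab (e i)
    refine ⟨fun i => c (e.symm i), fun i => c1 _, ?_, ?_, ?_, ?_⟩
    · intro i
      have := c2 (e.symm i)
      simpa using this
    · intro i j hij
      have := c3 (e.symm i) (e.symm j) (fun h => hij (e.symm.injective h))
      simpa using this
    · intro i j hij
      have := c4 (e.symm i) (e.symm j) (fun h => hij (e.symm.injective h))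
      simpa using this
    · intro i j k hij hik hjk
      have := c5 (e.symm i) (e.symm j) (e.symm k) (fun h => hij (e.symm.injective h))
        (fun h => hik (e.symm.injective h)) (fun h => hjk (e.symm.injective h))
      simpa using this
  · intro a b _
    exact ⟨fun i => i.elim, fun i => i.elim, fun i => i.elim, fun i => i.elim, fun i => i.elim,
      fun i => i.elim⟩
  · intro α _ ih a b hab
    obtain ⟨c, c1, c2, c3, c4, c5⟩ := ih (fun i => a (some i)) (fun i => b (some i))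
      fun i => hab (some i)
    -- the points to be avoided
    set Q : Set ℂ := Z ∪ range c ∪ ⋃ i : α, ⋃ j : α, {z | i ≠ j ∧
      z ∈ poly (a (some i)) (c i) (b (some i)) ∩ poly (a (some j)) (c j) (b (some j))} with hQ
    have hQf : Q.Finite := by
      refine (hZ.union (Set.finite_range c)).union ?_
      refine Set.finite_iUnion fun i => Set.finite_iUnion fun j => ?_
      by_cases hij : i = j
      · simp [hij]
      · exact (c3 i j hij).subset fun z hz => hz.2
    set S : Set (ℂ × ℂ) := ((fun q : ℂ => (((a none : ℝ) : ℂ), q - (a none : ℝ))) '' (Q ∩ HH)) ∪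
      ((fun q : ℂ => (((b none : ℝ) : ℂ), q - (b none : ℝ))) '' (Q ∩ HH)) ∪
      (range fun i : α => (((a (some i) : ℝ) : ℂ), c i - (a (some i) : ℝ))) ∪
      (range fun i : α => (((b (some i) : ℝ) : ℂ), c i - (b (some i) : ℝ))) with hSd
    have hSf : S.Finite := by
      have h1 : (Q ∩ HH).Finite := hQf.subset Set.inter_subset_left
      exact (((h1.image _).union (h1.image _)).union (Set.finite_range _)).union
        (Set.finite_range _)
    have hS0 : ∀ p ∈ S, p.2 ≠ 0 := by
      intro p hp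
      rcases hp with ((⟨q, hq, rfl⟩ | ⟨q, hq, rfl⟩) | ⟨i, rfl⟩) | ⟨i, rfl⟩
      · exact tgenc_ne hq.2 _
      · exact tgenc_ne hq.2 _
      · exact tgenc_ne (c1 i) _
      · exact tgenc_ne (c1 i) _
    obtain ⟨c', hc', hav⟩ := exists_avoid S hSf hS0
    have q1 : ∀ q ∈ Q, q ∈ HH → cro (c' - (a none : ℝ)) (q - (a none : ℝ)) ≠ 0 := fun q hq hq' =>
      hav _ (Or.inl (Or.inl (Or.inl ⟨q, ⟨hq, hq'⟩, rfl⟩)))
    have q2 : ∀ q ∈ Q, q ∈ HH → cro (c' - (b none : ℝ)) (q - (b none : ℝ)) ≠ 0 := fun q hq hq' =>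
      hav _ (Or.inl (Or.inl (Or.inr ⟨q, ⟨hq, hq'⟩, rfl⟩)))
    have q3 : ∀ i, cro (c' - (a (some i) : ℝ)) (c i - (a (some i) : ℝ)) ≠ 0 := fun i =>
      hav _ (Or.inl (Or.inr ⟨i, rfl⟩))
    have q4 : ∀ i, cro (c' - (b (some i) : ℝ)) (c i - (b (some i) : ℝ)) ≠ 0 := fun i =>
      hav _ (Or.inr ⟨i, rfl⟩)
    have hcQ : ∀ i, c i ∈ Q := fun i => Or.inl (Or.inr ⟨i, rfl⟩)
    have q5 : ∀ i, cro (c i - (a none : ℝ)) (c' - (a none : ℝ)) ≠ 0 := by
      intro i
      rw [tgenc_cro_symm]
      exact neg_ne_zero.2 (q1 _ (hcQ i) (c1 i))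
    have q6 : ∀ i, cro (c i - (b none : ℝ)) (c' - (b none : ℝ)) ≠ 0 := by
      intro i
      rw [tgenc_cro_symm]
      exact neg_ne_zero.2 (q2 _ (hcQ i) (c1 i))
    have onnew : ∀ q ∈ Q, q ∈ HH → q ∉ poly (a none) c' (b none) := by
      intro q hq hq' h
      rcases tgenc_poly h with h | h
      · exact q1 q hq hq' h
      · exact q2 q hq hq' h
    have pq : ∀ i j, i ≠ j → ∀ z ∈ HH, z ∈ poly (a (some i)) (c i) (b (some i)) →
        z ∈ poly (a (some j)) (c j) (b (some j)) → z ∉ poly (a none) c' (b none) := by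
      intro i j hij z hz hi hj
      refine onnew z (Or.inr ?_) hz
      simp only [Set.mem_iUnion]
      exact ⟨i, j, hij, hi, hj⟩
    have pair1 := fun i => poly_pair (hab (some i)) (hab none) (c1 i) hc' (q3 i) (q4 i) (q5 i) (q6 i)
    have pair2 := fun i => poly_pair (hab none) (hab (some i)) hc' (c1 i) (q5 i) (q6 i) (q3 i) (q4 i)
    refine ⟨fun o => o.elim c' c, ?_, ?_, ?_, ?_, ?_⟩
    · rintro (_ | i)
      · exact hc'
      · exact c1 i
    · rintro (_ | i)
      · rw [Set.disjoint_left]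
        intro z hz hzZ
        exact onnew z (Or.inl (Or.inl hzZ)) (hZH hzZ) hz
      · exact c2 i
    · rintro (_ | i) (_ | j) hij
      · exact absurd rfl hij
      · exact (pair2 j).1
      · exact (pair1 i).1
      · exact c3 i j fun h => hij (by rw [h])
    · rintro (_ | i) (_ | j) hij
      · exact absurd rfl hij
      · exact (pair2 j).2
      · exact (pair1 i).2
      · exact c4 i j fun h => hij (by rw [h])
    · rintro (_ | i) (_ | j) (_ | k) hij hik hjk z hz hi hj
      · exact absurd rfl hij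
      · exact absurd rfl hij
      · exact absurd rfl hik
      · exact fun hk => pq j k (fun h => hjk (by rw [h])) z hz hj hk hi
      · exact absurd rfl hjk
      · exact fun hk => pq i k (fun h => hik (by rw [h])) z hz hi hk hj
      · exact pq i j (fun h => hij (by rw [h])) z hz hi hj
      · exact c5 i j k (fun h => hij (by rw [h])) (fun h => hik (by rw [h]))
          (fun h => hjk (by rw [h])) z hz hi hj

end OTh
end

section

/-!
A pendant edge.

`Φ = φ :: Φ₀`; `ψ, a` of `faceMap_pendant` (it is stated with `Function.update`, so `classical`), `q = φ (a + I)`, `pt' = Function.update pt v q`,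
`arc' = Function.update arc s(u, v) (insert (pt u) (insert q ((fun s => φ (γ s)) '' Ioo 0 1)))` with `γ s = a + s * I`, which is an arc by `arc_image`
(in both orientations by `isArc_symm`), `Φ' = φ ∘ ψ :: Φ₀`.  The edge `s(u, v)` is not in `E` since `v` is not on the faces (`ends`).  `q` and the points `φ (γ s)`, `0 < s ≤ 1`, are in `φ '' HH`, so they are
not points of old vertices, not on old arcs and not in the other faces; they are not in `(φ ∘ ψ) '' HH` since `φ` is injective on `HH`.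
-/

set_option autoImplicit false

namespace OTh

open Set Filter Topology Complex

/-- the points of a face which does not contain `v` do not change -/
private theorem TStB_face {V : Type*} [DecidableEq V] {v : V} {pt : V → ℂ} {q : ℂ}
    {F : List (List V)} {Φ : List (ℂ → ℂ)} (h : List.Forall₂ (FaceMap pt) F Φ)
    (hv : ∀ f ∈ F, v ∉ f) : List.Forall₂ (FaceMap (Function.update pt v q)) F Φ := by
  induction h with
  | nil => exact List.Forall₂.nil
  | @cons f φ F Φ h1 _ ih =>
    refine List.Forall₂.cons ?_ (ih fun g hg => hv g (List.mem_cons_of_mem _ hg))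
    obtain ⟨hd, hi, L, hL, hp, hT⟩ := h1
    refine ⟨hd, hi, L, hL, hp, fun p hpL => ?_⟩
    have h2 : p.2 ≠ v := by
      intro h3
      apply hv f List.mem_cons_self
      rw [← hL, ← h3]
      exact List.mem_map_of_mem hpL
    rw [Function.update_of_ne h2]
    exact hT p hpL

private theorem TStB_onF {V : Type*} {u v : V} {w : List V} {F : List (List V)} {x : V}
    (h : OnF ((u :: v :: u :: w) :: F) x) : x = v ∨ OnF ((u :: w) :: F) x := by
  obtain ⟨f, hf, hx⟩ := h
  rcases List.mem_cons.1 hf with rfl | hf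
  · rcases List.mem_cons.1 hx with rfl | hx
    · exact Or.inr ⟨_, List.mem_cons_self, List.mem_cons_self⟩
    · rcases List.mem_cons.1 hx with rfl | hx
      · exact Or.inl rfl
      · exact Or.inr ⟨_, List.mem_cons_self, hx⟩
  · exact Or.inr ⟨f, List.mem_cons_of_mem _ hf, hx⟩

private theorem TStB_onF' {V : Type*} {u v : V} {w : List V} {F : List (List V)} {x : V}
    (h : OnF ((u :: w) :: F) x) : OnF ((u :: v :: u :: w) :: F) x := by
  obtain ⟨f, hf, hx⟩ := h
  rcases List.mem_cons.1 hf with rfl | hf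
  · exact ⟨_, List.mem_cons_self, List.mem_cons_of_mem _ (List.mem_cons_of_mem _ hx)⟩
  · exact ⟨f, List.mem_cons_of_mem _ hf, hx⟩

/-- By `faceMap_pendant`; the new point is `φ (a + I)`, the new arc is the image of the segment from `a` to `a + I`. -/
theorem realized_pendant {V : Type*} {E : Set (Sym2 V)} {u v : V} {w : List V}
    {F : List (List V)} {pt : V → ℂ} {arc : Sym2 V → Set ℂ} {Φ : List (ℂ → ℂ)}
    (h : Realized E ((u :: w) :: F) pt arc Φ) (hv : ∀ f ∈ (u :: w) :: F, v ∉ f) :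
    ∃ pt' arc' Φ', Realized (insert s(u, v) E) ((u :: v :: u :: w) :: F) pt' arc' Φ' := by
  classical
  obtain ⟨face, disj, pt_face, arc_face, ends, pt_inj, isArc, no_vertex, inter⟩ := h
  cases face with
  | @cons _ φ _ Φ₀ hφ hF =>
  have hvF : ¬ OnF ((u :: w) :: F) v := fun ⟨f, hf, hvf⟩ => hv f hf hvf
  have huF : OnF ((u :: w) :: F) u := ⟨_, List.mem_cons_self, List.mem_cons_self⟩
  have hvw' : v ∉ u :: w := hv _ List.mem_cons_self
  have hvu : v ≠ u := fun e => hvw' (e ▸ List.mem_cons_self)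
  have hvw : v ∉ w := fun e => hvw' (List.mem_cons_of_mem _ e)
  obtain ⟨ψ, a, hψ, hlim, hslit, hfm⟩ := faceMap_pendant hφ hvu hvw
  have hφc : ContinuousOn φ HH := hφ.1.continuousOn
  have hφi : InjOn φ HH := hφ.2.1
  -- points of the new arc
  have hγH : ∀ s : ℝ, 0 < s → (a + s * I : ℂ) ∈ HH := by
    intro s hs
    show 0 < (a + s * I : ℂ).im
    simp [hs]
  have hγinj : ∀ s t : ℝ, (a + s * I : ℂ) = a + t * I → s = t := by
    intro s t hst
    have h1 := congrArg Complex.im hst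
    simpa using h1
  have hq1 : (a + I : ℂ) = a + (1 : ℝ) * I := by simp
  -- the images of the points of the segment are in no new face
  have hnew : ∀ s : ℝ, 0 < s → s ≤ 1 → ∀ χ ∈ (φ ∘ ψ) :: Φ₀, φ (a + s * I) ∉ χ '' HH := by
    intro s hs hs1 χ hχ
    rcases List.mem_cons.1 hχ with rfl | hχ
    · rintro ⟨z, hz, hz2⟩
      have h1 : ψ z = a + s * I := hφi (hψ.maps hz) (hγH s hs) hz2
      exact hslit s ⟨hs.le, hs1⟩ ⟨z, hz, h1⟩
    · intro h1
      exact Set.disjoint_left.1 ((List.pairwise_cons.1 disj).1 χ hχ)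
        ⟨_, hγH s hs, rfl⟩ h1
  have hsub : (φ ∘ ψ) '' HH ⊆ φ '' HH := by
    rintro _ ⟨z, hz, rfl⟩
    exact ⟨ψ z, hψ.maps hz, rfl⟩
  -- old points are in no new face
  have hold : ∀ x, OnF ((u :: w) :: F) x → ∀ χ ∈ (φ ∘ ψ) :: Φ₀, pt x ∉ χ '' HH := by
    intro x hx χ hχ
    rcases List.mem_cons.1 hχ with rfl | hχ
    · exact fun h1 => pt_face x hx φ List.mem_cons_self (hsub h1)
    · exact pt_face x hx χ (List.mem_cons_of_mem _ hχ)
  have holdγ : ∀ x, OnF ((u :: w) :: F) x → ∀ s : ℝ, 0 < s → φ (a + s * I) ≠ pt x := by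
    intro x hx s hs h1
    exact pt_face x hx φ List.mem_cons_self (h1 ▸ ⟨_, hγH s hs, rfl⟩)
  have holdq : ∀ x, OnF ((u :: w) :: F) x → φ (a + I) ≠ pt x := by
    intro x hx
    rw [hq1]
    exact holdγ x hx 1 one_pos
  have hqnew : ∀ χ ∈ (φ ∘ ψ) :: Φ₀, φ (a + I) ∉ χ '' HH := by
    rw [hq1]
    exact hnew 1 one_pos le_rfl
  have hEv : ∀ e ∈ E, v ∉ e := fun e he h1 => hvF (ends e he v h1)
  have hEne : ∀ e ∈ E, e ≠ s(u, v) := by
    rintro e he rfl
    exact hEv _ he (Sym2.mem_mk_right u v)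
  have harcγ : ∀ e ∈ E, ∀ s : ℝ, 0 < s → φ (a + s * I) ∉ arc e := by
    intro e he s hs h1
    exact Set.disjoint_left.1 (arc_face e he φ List.mem_cons_self) h1 ⟨_, hγH s hs, rfl⟩
  have harcq : ∀ e ∈ E, φ (a + I) ∉ arc e := by
    intro e he
    rw [hq1]
    exact harcγ e he 1 one_pos
  have hxv : ∀ x, OnF ((u :: w) :: F) x → x ≠ v := fun x hx e => hvF (e ▸ hx)
  have hpt : ∀ x, OnF ((u :: w) :: F) x → Function.update pt v (φ (a + I)) x = pt x :=
    fun x hx => Function.update_of_ne (hxv x hx) _ _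
  have hptv : Function.update pt v (φ (a + I)) v = φ (a + I) := Function.update_self _ _ _
  -- the new arc
  let A : Set ℂ := insert (pt u) (insert (φ (a + I))
    ((fun s : ℝ => φ (a + s * I)) '' Ioo 0 1))
  have hA : IsArc A (pt u) (φ (a + I)) := by
    have h1 : ContinuousOn (fun s : ℝ => (a + s * I : ℂ)) (Icc 0 1) := by
      apply Continuous.continuousOn
      fun_prop
    refine arc_image (γ := fun s : ℝ => (a + s * I : ℂ)) h1 ?_ ?_ hφc hφi ?_ ?_ ?_ ?_ ?_
    · intro s _ t _ hst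
      exact hγinj s t hst
    · intro s hs
      exact hγH s hs.1
    · simpa using hlim
    · show Tendsto φ (𝓝[HH] (a + (1 : ℝ) * I : ℂ)) (𝓝 (φ (a + I)))
      rw [← hq1]
      have h3 : (a + I : ℂ) ∈ HH := by
        rw [hq1]
        exact hγH 1 one_pos
      exact hφc _ h3
    · exact fun h2 => holdq u huF h2.symm
    · intro s hs
      exact holdγ u huF s hs.1
    · intro s hs h2
      rw [hq1] at h2
      have h3 := hγinj s 1 (hφi (hγH s hs.1) (hγH 1 one_pos) h2)
      exact hs.2.ne h3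
  have harc : ∀ e ∈ E, Function.update arc s(u, v) A e = arc e :=
    fun e he => Function.update_of_ne (hEne e he) _ _
  have harcv : Function.update arc s(u, v) A s(u, v) = A := Function.update_self _ _ _
  refine ⟨Function.update pt v (φ (a + I)), Function.update arc s(u, v) A, (φ ∘ ψ) :: Φ₀,
    ?_, ?_, ?_, ?_, ?_, ?_, ?_, ?_, ?_⟩
  · -- face
    exact List.Forall₂.cons hfm
      (TStB_face hF fun f hf => hv f (List.mem_cons_of_mem _ hf))
  · -- disj
    have h1 := List.pairwise_cons.1 disj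
    refine List.pairwise_cons.2 ⟨fun χ hχ => (h1.1 χ hχ).mono_left hsub, h1.2⟩
  · -- pt_face
    intro x hx χ hχ
    rcases TStB_onF hx with rfl | hx
    · rw [hptv]
      exact hqnew χ hχ
    · rw [hpt x hx]
      exact hold x hx χ hχ
  · -- arc_face
    intro e he χ hχ
    rcases Set.mem_insert_iff.1 he with rfl | he
    · rw [harcv, Set.disjoint_left]
      rintro z hz h1
      rcases Set.mem_insert_iff.1 hz with rfl | hz
      · exact hold u huF χ hχ h1
      · rcases Set.mem_insert_iff.1 hz with rfl | hz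
        · exact hqnew χ hχ h1
        · obtain ⟨s, hs, rfl⟩ := hz
          exact hnew s hs.1 hs.2.le χ hχ h1
    · rw [harc e he]
      rcases List.mem_cons.1 hχ with rfl | hχ
      · exact (arc_face e he φ List.mem_cons_self).mono_right hsub
      · exact arc_face e he χ (List.mem_cons_of_mem _ hχ)
  · -- ends
    intro e he x hx
    rcases Set.mem_insert_iff.1 he with rfl | he
    · rcases Sym2.mem_iff.1 hx with rfl | rfl
      · exact ⟨_, List.mem_cons_self, List.mem_cons_self⟩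
      · exact ⟨_, List.mem_cons_self, List.mem_cons_of_mem _ List.mem_cons_self⟩
    · exact TStB_onF' (ends e he x hx)
  · -- pt_inj
    intro x y hx hy hxy
    rcases TStB_onF hx with hx1 | hx
    · rcases TStB_onF hy with hy1 | hy
      · rw [hx1, hy1]
      · rw [hx1, hptv, hpt y hy] at hxy
        exact absurd hxy (holdq y hy)
    · rcases TStB_onF hy with hy1 | hy
      · rw [hy1, hptv, hpt x hx] at hxy
        exact absurd hxy.symm (holdq x hx)
      · rw [hpt x hx, hpt y hy] at hxy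
        exact pt_inj x y hx hy hxy
  · -- isArc
    intro x y hxy
    rcases Set.mem_insert_iff.1 hxy with h1 | h1
    · rw [h1, harcv]
      rcases Sym2.eq_iff.1 h1 with ⟨hx, hy⟩ | ⟨hx, hy⟩
      · rw [hx, hy, hptv, hpt u huF]
        exact hA
      · rw [hx, hy, hptv, hpt u huF]
        exact isArc_symm hA
    · rw [harc _ h1, hpt x (ends _ h1 x (Sym2.mem_mk_left x y)),
        hpt y (ends _ h1 y (Sym2.mem_mk_right x y))]
      exact isArc x y h1
  · -- no_vertex
    intro e he x hx hxe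
    rcases Set.mem_insert_iff.1 he with rfl | he'
    · rw [harcv] at hxe
      rcases TStB_onF hx with hxv | hx
      · rw [hxv]
        exact Sym2.mem_mk_right _ _
      · rw [hpt x hx] at hxe
        rcases Set.mem_insert_iff.1 hxe with h1 | h1
        · rw [pt_inj x u hx huF h1]
          exact Sym2.mem_mk_left _ _
        · rcases Set.mem_insert_iff.1 h1 with h1 | h1
          · exact absurd h1.symm (holdq x hx)
          · obtain ⟨s, hs, h2⟩ := h1
            exact absurd h2 (holdγ x hx s hs.1)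
    · rw [harc e he'] at hxe
      rcases TStB_onF hx with hxv | hx
      · rw [hxv, hptv] at hxe
        exact absurd hxe (harcq e he')
      · rw [hpt x hx] at hxe
        exact no_vertex e he' x hx hxe
  · -- inter
    have key : ∀ f ∈ E, ∀ z ∈ A ∩ arc f, ∃ x, OnF ((u :: v :: u :: w) :: F) x ∧
        Function.update pt v (φ (a + I)) x = z := by
      rintro f hf z ⟨hz1, hz2⟩
      rcases Set.mem_insert_iff.1 hz1 with rfl | hz1
      · exact ⟨u, TStB_onF' huF, hpt u huF⟩
      · rcases Set.mem_insert_iff.1 hz1 with rfl | hz1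
        · exact absurd hz2 (harcq f hf)
        · obtain ⟨s, hs, rfl⟩ := hz1
          exact absurd hz2 (harcγ f hf s hs.1)
    intro e he f hf hef z hz
    rcases Set.mem_insert_iff.1 he with rfl | he
    · rcases Set.mem_insert_iff.1 hf with rfl | hf
      · exact absurd rfl hef
      · rw [harcv, harc f hf] at hz
        exact key f hf z hz
    · rcases Set.mem_insert_iff.1 hf with rfl | hf
      · rw [harcv, harc e he] at hz
        exact key e he z ⟨hz.2, hz.1⟩
      · rw [harc e he, harc f hf] at hz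
        obtain ⟨x, hx, hxz⟩ := inter e he f hf hef z hz
        exact ⟨x, TStB_onF' hx, (hpt x hx).trans hxz⟩

end OTh
end

section

/-!
The drawing of a graph `G` given by a plane graph such that the ends of each edge of `G` are on a common face.
-/

set_option autoImplicit false

namespace OTh

open Set Filter Topology Complex

private theorem tfin_forall₂_left {α β : Type*} {R : α → β → Prop} {l : List α} {m : List β}
    (h : List.Forall₂ R l m) {x : α} (hx : x ∈ l) : ∃ y ∈ m, R x y := by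
  induction h with
  | nil => simp at hx
  | cons h1 h2 ih =>
    rcases List.mem_cons.1 hx with rfl | hx
    · exact ⟨_, List.mem_cons_self, h1⟩
    · obtain ⟨y, hy, h3⟩ := ih hx
      exact ⟨y, List.mem_cons_of_mem _ hy, h3⟩

private theorem tfin_forall₂_right {α β : Type*} {R : α → β → Prop} {l : List α} {m : List β}
    (h : List.Forall₂ R l m) {y : β} (hy : y ∈ m) : ∃ x ∈ l, R x y := by
  induction h with
  | nil => simp at hy
  | cons h1 h2 ih =>
    rcases List.mem_cons.1 hy with rfl | hy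
    · exact ⟨_, List.mem_cons_self, h1⟩
    · obtain ⟨x, hx, h3⟩ := ih hy
      exact ⟨x, List.mem_cons_of_mem _ hx, h3⟩

private theorem tfin_disj {Φ : List (ℂ → ℂ)}
    (h : Φ.Pairwise (fun φ ψ => Disjoint (φ '' HH) (ψ '' HH))) {φ ψ : ℂ → ℂ} (hφ : φ ∈ Φ)
    (hψ : ψ ∈ Φ) : φ = ψ ∨ Disjoint (φ '' HH) (ψ '' HH) := by
  have h1 : Φ.Pairwise (fun φ ψ => φ = ψ ∨ Disjoint (φ '' HH) (ψ '' HH)) :=
    h.imp fun h => Or.inr h
  induction Φ with
  | nil => simp at hφ
  | cons x l ih =>
    rw [List.pairwise_cons] at h h1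
    rcases List.mem_cons.1 hφ with rfl | hφ' <;> rcases List.mem_cons.1 hψ with rfl | hψ'
    · exact Or.inl rfl
    · exact h1.1 _ hψ'
    · exact (h1.1 _ hφ').elim (fun h => Or.inl h.symm) fun h => Or.inr h.symm
    · exact ih h.2 hφ' hψ' h1.2

/-- the data of an edge which is drawn as the image of a polygonal line -/
private theorem tfin_edge {V : Type*} {G : SimpleGraph V} {E : Set (Sym2 V)}
    {F : List (List V)} {pt : V → ℂ} {arc : Sym2 V → Set ℂ} {Φ : List (ℂ → ℂ)}
    (h : Realized E F pt arc Φ) (hG : ∀ u v, G.Adj u v → ∃ f ∈ F, u ∈ f ∧ v ∈ f)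
    (e : Sym2 V) (he : e ∈ G.edgeSet) : ∃ (u v : V) (φ : ℂ → ℂ) (a b : ℝ), e = s(u, v) ∧
      OnF F u ∧ OnF F v ∧ u ≠ v ∧ φ ∈ Φ ∧ Tendsto φ (𝓝[HH] (a : ℂ)) (𝓝 (pt u)) ∧
      Tendsto φ (𝓝[HH] (b : ℂ)) (𝓝 (pt v)) ∧ a ≠ b := by
  induction e using Sym2.ind with
  | _ u v =>
    have huv : G.Adj u v := he
    obtain ⟨f, hf, hu, hv⟩ := hG u v huv
    obtain ⟨φ, hφ, -, -, L, hL, -, hT⟩ := tfin_forall₂_left h.face hf
    rw [← hL] at hu hv
    obtain ⟨⟨a, u'⟩, ha, rfl⟩ := List.mem_map.1 hu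
    obtain ⟨⟨b, v'⟩, hb, rfl⟩ := List.mem_map.1 hv
    refine ⟨u', v', φ, a, b, rfl, ⟨f, hf, by rwa [← hL]⟩, ⟨f, hf, by rwa [← hL]⟩, huv.ne, hφ,
      hT _ ha, hT _ hb, ?_⟩
    rintro rfl
    have := neBot_HH a
    have h3 : pt u' = pt v' := tendsto_nhds_unique (hT _ ha) (hT _ hb)
    exact huv.ne (h.pt_inj _ _ ⟨f, hf, by rwa [← hL]⟩ ⟨f, hf, by rwa [← hL]⟩ h3)

theorem drawing_of_realized {V : Type*} [Finite V] (G : SimpleGraph V) {E : Set (Sym2 V)}
    {F : List (List V)} {pt : V → ℂ} {arc : Sym2 V → Set ℂ} {Φ : List (ℂ → ℂ)}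
    (h : Realized E F pt arc Φ) (hF : F ≠ [])
    (hG : ∀ u v, G.Adj u v → ∃ f ∈ F, u ∈ f ∧ v ∈ f) :
    ∃ D : Drawing G, ∀ e ∈ E, D.Uncrossed e := by
  classical
  -- the face for the other vertices
  obtain ⟨f₀, hf₀⟩ := List.exists_mem_of_ne_nil F hF
  obtain ⟨φ₀, hφ₀, hfm₀⟩ := tfin_forall₂_left h.face hf₀
  have hinj : ∀ φ ∈ Φ, InjOn φ HH := fun φ hφ => by
    obtain ⟨f, -, hfm⟩ := tfin_forall₂_right h.face hφ
    exact hfm.2.1
  have hdif : ∀ φ ∈ Φ, DifferentiableOn ℂ φ HH := fun φ hφ => by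
    obtain ⟨f, -, hfm⟩ := tfin_forall₂_right h.face hφ
    exact hfm.1
  -- their points
  obtain ⟨z0, hz0, hz0H⟩ : ∃ z0 : V → ℂ, Function.Injective z0 ∧ ∀ w, z0 w ∈ HH := by
    obtain ⟨n, ⟨ε⟩⟩ := Finite.exists_equiv_fin V
    refine ⟨fun w => ((ε w : ℕ) : ℂ) + I, ?_, ?_⟩
    · intro x y hxy
      have h1 : (((ε x : ℕ) : ℂ)) = ((ε y : ℕ) : ℂ) := by simpa using hxy
      have h2 : (ε x : ℕ) = ε y := by exact_mod_cast h1
      exact ε.injective (Fin.ext h2)
    · intro w
      show 0 < (((ε w : ℕ) : ℂ) + I).im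
      simp
  -- the other edges
  obtain ⟨u, v, φ, a, b, heq, hu, hv, huv, hφ, hau, hbv, hab⟩ : ∃ (u v : {e // e ∈ G.edgeSet ∧ e ∉ E} → V)
      (φ : {e // e ∈ G.edgeSet ∧ e ∉ E} → ℂ → ℂ) (a b : {e // e ∈ G.edgeSet ∧ e ∉ E} → ℝ),
      (∀ i, i.1 = s(u i, v i)) ∧ (∀ i, OnF F (u i)) ∧ (∀ i, OnF F (v i)) ∧ (∀ i, u i ≠ v i) ∧
      (∀ i, φ i ∈ Φ) ∧ (∀ i, Tendsto (φ i) (𝓝[HH] (a i : ℂ)) (𝓝 (pt (u i)))) ∧
      (∀ i, Tendsto (φ i) (𝓝[HH] (b i : ℂ)) (𝓝 (pt (v i)))) ∧ ∀ i, a i ≠ b i := by
    choose u v φ a b h1 h2 h3 h4 h5 h6 h7 h8 using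
      fun i : {e // e ∈ G.edgeSet ∧ e ∉ E} => tfin_edge h hG i.1 i.2.1
    exact ⟨u, v, φ, a, b, h1, h2, h3, h4, h5, h6, h7, h8⟩
  obtain ⟨c, hc, hcZ, hfin, hcr, htr⟩ := genpos a b hab (range z0) (finite_range z0)
    (by rintro _ ⟨w, rfl⟩; exact hz0H w)
  obtain ⟨P, hP⟩ : ∃ P : {e // e ∈ G.edgeSet ∧ e ∉ E} → Set ℂ, ∀ i, P i = poly (a i) (c i) (b i) :=
    ⟨_, fun i => rfl⟩
  simp only [← hP] at hcZ hfin hcr htr
  obtain ⟨arcN, hN⟩ : ∃ arcN : {e // e ∈ G.edgeSet ∧ e ∉ E} → Set ℂ, ∀ i, arcN i =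
      insert (pt (u i)) (insert (pt (v i)) (φ i '' (P i ∩ HH))) := ⟨_, fun i => rfl⟩
  obtain ⟨pt', hpt1, hpt2⟩ : ∃ pt' : V → ℂ, (∀ w, OnF F w → pt' w = pt w) ∧
      ∀ w, ¬ OnF F w → pt' w = φ₀ (z0 w) :=
    ⟨fun w => if OnF F w then pt w else φ₀ (z0 w), fun w hw => if_pos hw, fun w hw => if_neg hw⟩
  obtain ⟨arc', harc1, harc2⟩ : ∃ arc' : Sym2 V → Set ℂ, (∀ e ∈ E, arc' e = arc e) ∧
      ∀ i : {e // e ∈ G.edgeSet ∧ e ∉ E}, arc' i.1 = arcN i :=
    ⟨fun e => if he : e ∈ G.edgeSet ∧ e ∉ E then arcN ⟨e, he⟩ else arc e,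
      fun e he => dif_neg fun h' => h'.2 he, fun i => dif_pos i.2⟩
  have hφd : ∀ ψ ∈ Φ, ∀ χ ∈ Φ, ∀ x ∈ HH, ∀ y ∈ HH, ψ x = χ y → ψ = χ ∧ x = y := by
    intro ψ hψ χ hχ x hx y hy hxy
    rcases tfin_disj h.disj hψ hχ with rfl | hd
    · exact ⟨rfl, hinj _ hψ hx hy hxy⟩
    · exact absurd (mem_image_of_mem ψ hx) (Set.disjoint_right.1 hd (hxy ▸ mem_image_of_mem χ hy))
  have hK1 : ∀ ψ ∈ Φ, ∀ x ∈ HH, ∀ w, pt' w = ψ x → x = z0 w := by
    intro ψ hψ x hx w hw
    by_cases hw' : OnF F w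
    · rw [hpt1 w hw'] at hw
      exact absurd (hw ▸ mem_image_of_mem ψ hx) (h.pt_face w hw' ψ hψ)
    · rw [hpt2 w hw'] at hw
      exact (hφd _ hψ _ hφ₀ x hx _ (hz0H w) hw.symm).2
  have hK1' : ∀ w, OnF F w → ∀ ψ ∈ Φ, ∀ x ∈ HH, ψ x ≠ pt w := by
    intro w hw ψ hψ x hx hxw
    exact h.pt_face w hw ψ hψ (hxw ▸ mem_image_of_mem ψ hx)
  -- edges with points which are no vertices
  have hK2 : ∀ e ∈ G.edgeSet, ∀ z ∈ arc' e, z ∉ range pt' → (e ∈ E ∧ z ∈ arc e) ∨
      ∃ i : {e // e ∈ G.edgeSet ∧ e ∉ E}, i.1 = e ∧ ∃ x ∈ HH, x ∈ P i ∧ φ i x = z := by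
    intro e he z hz hzr
    by_cases heE : e ∈ E
    · left
      rw [harc1 e heE] at hz
      exact ⟨heE, hz⟩
    · right
      refine ⟨⟨e, he, heE⟩, rfl, ?_⟩
      have h1 := harc2 ⟨e, he, heE⟩
      simp only at h1
      rw [h1, hN] at hz
      rcases hz with hz | hz | ⟨x, ⟨hx1, hx2⟩, hx3⟩
      · exact absurd ⟨_, (hpt1 _ (hu _)).trans hz.symm⟩ hzr
      · exact absurd ⟨_, (hpt1 _ (hv _)).trans hz.symm⟩ hzr
      · exact ⟨x, hx2, hx1, hx3⟩
  have hK3 : ∀ e ∈ G.edgeSet, ∀ f ∈ G.edgeSet, e ≠ f → ∀ z ∈ arc' e, z ∈ arc' f →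
      z ∉ range pt' → ∃ i j : {e // e ∈ G.edgeSet ∧ e ∉ E}, i.1 = e ∧ j.1 = f ∧ φ i = φ j ∧
        ∃ x ∈ HH, x ∈ P i ∧ x ∈ P j ∧ φ i x = z := by
    intro e he f hf hef z hze hzf hzr
    rcases hK2 e he z hze hzr with ⟨h1, h2⟩ | ⟨i, rfl, x, hx1, hx2, hx3⟩ <;>
      rcases hK2 f hf z hzf hzr with ⟨h3, h4⟩ | ⟨j, rfl, y, hy1, hy2, hy3⟩
    · obtain ⟨w, hw1, hw2⟩ := h.inter e h1 f h3 hef z ⟨h2, h4⟩
      exact absurd ⟨w, (hpt1 w hw1).trans hw2⟩ hzr
    · exact absurd h2 (Set.disjoint_right.1 (h.arc_face e h1 (φ j) (hφ j)) ⟨y, hy1, hy3⟩)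
    · exact absurd h4 (Set.disjoint_right.1 (h.arc_face f h3 (φ i) (hφ i)) ⟨x, hx1, hx3⟩)
    · obtain ⟨h5, h6⟩ := hφd _ (hφ i) _ (hφ j) x hx1 y hy1 (hx3.trans hy3.symm)
      exact ⟨i, j, rfl, rfl, h5, x, hx1, hx2, h6 ▸ hy2, hx3⟩
  -- membership
  have hK4 : ∀ i : {e // e ∈ G.edgeSet ∧ e ∉ E}, ∀ w ∈ HH, (φ i w ∈ arc' i.1 ↔ w ∈ P i) := by
    intro i w hw
    rw [harc2 i, hN]
    constructor
    · rintro (h1 | h1 | ⟨x, ⟨hx1, hx2⟩, hx3⟩)
      · exact absurd h1 (hK1' _ (hu i) _ (hφ i) w hw)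
      · exact absurd h1 (hK1' _ (hv i) _ (hφ i) w hw)
      · rwa [hinj _ (hφ i) hx2 hw hx3] at hx1
    · intro h1
      exact Or.inr (Or.inr ⟨w, ⟨h1, hw⟩, rfl⟩)
  refine ⟨⟨pt', arc', ?_, ?_, ?_, ?_, ?_, ?_⟩, ?_⟩
  · -- pt_inj
    intro x y hxy
    by_cases hx : OnF F x <;> by_cases hy : OnF F y
    · rw [hpt1 x hx, hpt1 y hy] at hxy
      exact h.pt_inj x y hx hy hxy
    · rw [hpt1 x hx, hpt2 y hy] at hxy
      exact absurd hxy.symm (hK1' x hx _ hφ₀ _ (hz0H y))
    · rw [hpt2 x hx, hpt1 y hy] at hxy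
      exact absurd hxy (hK1' y hy _ hφ₀ _ (hz0H x))
    · rw [hpt2 x hx, hpt2 y hy] at hxy
      exact hz0 (hinj _ hφ₀ (hz0H x) (hz0H y) hxy)
  · -- isArc
    intro x y hxy
    by_cases heE : s(x, y) ∈ E
    · rw [harc1 _ heE, hpt1 x (h.ends _ heE x (Sym2.mem_mk_left _ _)),
        hpt1 y (h.ends _ heE y (Sym2.mem_mk_right _ _))]
      exact h.isArc x y heE
    · obtain ⟨i, hi⟩ : ∃ i : {e // e ∈ G.edgeSet ∧ e ∉ E}, i = ⟨s(x, y), hxy, heE⟩ := ⟨_, rfl⟩
      have hi' : s(x, y) = i.1 := by rw [hi]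
      have h1 : IsArc (arcN i) (pt (u i)) (pt (v i)) := by
        obtain ⟨γ, hγ1, hγ2, hγ3, hγ4, hγ5, hγ6⟩ := poly_arc (hab i) (hc i)
        have h2 := arc_image (φ := φ i) (p := pt (u i)) (q := pt (v i)) hγ1 hγ2 hγ3
          (hdif _ (hφ i)).continuousOn (hinj _ (hφ i)) (by rw [hγ4]; exact hau i)
          (by rw [hγ5]; exact hbv i) (fun h' => huv i (h.pt_inj _ _ (hu i) (hv i) h'))
          (fun s hs => hK1' _ (hu i) _ (hφ i) _ (hγ3 s hs))
          (fun s hs => hK1' _ (hv i) _ (hφ i) _ (hγ3 s hs))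
        have h3 : (fun s => φ i (γ s)) '' Ioo 0 1 = φ i '' (P i ∩ HH) := by
          rw [hP, ← hγ6, image_image]
        rw [hN, ← h3]
        exact h2
      rw [hi', harc2 i]
      have h4 : s(x, y) = s(u i, v i) := by rw [hi', heq i]
      rcases Sym2.eq_iff.1 h4 with ⟨rfl, rfl⟩ | ⟨rfl, rfl⟩
      · rw [hpt1 _ (hu i), hpt1 _ (hv i)]
        exact h1
      · rw [hpt1 _ (hu i), hpt1 _ (hv i)]
        exact isArc_symm h1
  · -- no_vertex
    intro e he w hw
    by_cases heE : e ∈ E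
    · rw [harc1 e heE] at hw
      by_cases hwF : OnF F w
      · rw [hpt1 w hwF] at hw
        exact h.no_vertex e heE w hwF hw
      · rw [hpt2 w hwF] at hw
        exact absurd hw (Set.disjoint_right.1 (h.arc_face e heE _ hφ₀) ⟨_, hz0H w, rfl⟩)
    · obtain ⟨i, hi⟩ : ∃ i : {e // e ∈ G.edgeSet ∧ e ∉ E}, i = ⟨e, he, heE⟩ := ⟨_, rfl⟩
      have hi' : e = i.1 := by rw [hi]
      rw [hi', harc2 i, hN] at hw
      rw [hi', heq i]
      have h1 : ∀ x, OnF F x → pt' w = pt x → w = x := by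
        intro x hx hwx
        by_cases hwF : OnF F w
        · rw [hpt1 w hwF] at hwx
          exact h.pt_inj w x hwF hx hwx
        · rw [hpt2 w hwF] at hwx
          exact absurd hwx (hK1' x hx _ hφ₀ _ (hz0H w))
      rcases hw with hw | hw | ⟨x, ⟨hx1, hx2⟩, hx3⟩
      · rw [h1 _ (hu i) hw]
        exact Sym2.mem_mk_left _ _
      · rw [h1 _ (hv i) hw]
        exact Sym2.mem_mk_right _ _
      · have h2 := hK1 _ (hφ i) x hx2 w hx3.symm
        rw [h2] at hx1
        exact absurd ⟨w, rfl⟩ (Set.disjoint_left.1 (hcZ i) hx1)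
  · -- finite_inter
    intro e he f hf hef
    have h1 : (range pt' ∪ ⋃ (i : {e // e ∈ G.edgeSet ∧ e ∉ E}) (j : {e // e ∈ G.edgeSet ∧ e ∉ E})
        (_ : i ≠ j), φ i '' (P i ∩ P j)).Finite := by
      refine (finite_range pt').union ?_
      refine finite_iUnion fun i => finite_iUnion fun j => finite_iUnion fun hij => ?_
      exact (hfin i j hij).image _
    refine h1.subset ?_
    rintro z ⟨hz1, hz2⟩
    by_cases hzr : z ∈ range pt'
    · exact Or.inl hzr
    · right
      obtain ⟨i, j, rfl, rfl, -, x, -, hx2, hx3, hx4⟩ := hK3 e he f hf hef z hz1 hz2 hzr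
      simp only [mem_iUnion]
      exact ⟨i, j, fun h' => hef (by rw [h']), x, ⟨hx2, hx3⟩, hx4⟩
  · -- no_touch
    intro e he f hf hef z hz hzr
    obtain ⟨i, j, rfl, rfl, hij, x, hx1, hx2, hx3, rfl⟩ := hK3 e he f hf hef z hz.1 hz.2 hzr
    have h1 := hK4 j
    rw [← hij] at h1
    exact crossAt_image (hdif _ (hφ i)) (hinj _ (hφ i)) (hK4 i) h1 hx1
      (hcr i j (fun h' => hef (by rw [h'])) x ⟨hx2, hx3⟩ hx1)
  · -- no_triple
    intro e he f hf g hg hef heg hfg z hz
    by_contra hzr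
    obtain ⟨i, j, rfl, rfl, hij, x, hx1, hx2, hx3, hx4⟩ := hK3 e he f hf hef z hz.1.1 hz.1.2 hzr
    obtain ⟨i', k, hi', rfl, hik, y, hy1, hy2, hy3, hy4⟩ := hK3 _ he _ hg heg z hz.1.1 hz.2 hzr
    have h1 : i' = i := Subtype.ext hi'
    subst h1
    have h2 : y = x := hinj _ (hφ i') hy1 hx1 (hy4.trans hx4.symm)
    subst h2
    exact htr i' j k (fun h' => hef (by rw [h'])) (fun h' => heg (by rw [h']))
      (fun h' => hfg (by rw [h'])) y hy1 hx2 hx3 hy3
  · -- uncrossed
    rintro e heE f z ⟨he, hf, hef, hz, hzr, -⟩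
    obtain ⟨i, j, rfl, -⟩ := hK3 e he f hf hef z hz.1 hz.2 hzr
    exact i.2.2 heE

end OTh
end

section

/-!
Drawing: all gaps of a pocket.

PROOF of `draw_gaps`.  Induction on `j ≤ s` as in `cut_blocks`: first face, up to rotation, `(x k, v k)` for `k = j .. s - 1`, then `x k :: gapl ..` for `k = 0 .. j - 1`; the vertex after `x k, v k` is
`x (k+1)` (cyclic).  All lists stay `Nodup`.
-/

set_option autoImplicit false

namespace OTh

variable {V : Type*}

private theorem drd2_split {s : ℕ} [NeZero s] (hs : 2 ≤ s) (B : Fin s → List V) (j : Fin s)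
    (x : Fin s → V) (hB : ∀ k, ∃ C, B k = x k :: C) :
    ∃ L1 L2 : List V, (∀ B' : Fin s → List V, (∀ k, k ≠ j → B' k = B k) →
      (List.ofFn B').flatten = L1 ++ B' j ++ L2) ∧ ∃ r, L2 ++ L1 = x (j + 1) :: r := by
  refine ⟨((List.ofFn B).take j).flatten, ((List.ofFn B).drop (j + 1)).flatten, ?_, ?_⟩
  · intro B' hB'
    have h1 : (List.ofFn B').take j = (List.ofFn B).take j := by
      apply List.ext_getElem
      · simp
      · intro i h h'
        rw [List.getElem_take, List.getElem_take, List.getElem_ofFn, List.getElem_ofFn]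
        apply hB'
        intro h2
        rw [List.length_take] at h
        have h3 := congrArg Fin.val h2
        simp only at h3
        omega
    have h2 : (List.ofFn B').drop (j + 1) = (List.ofFn B).drop (j + 1) := by
      apply List.ext_getElem
      · simp
      · intro i h h'
        rw [List.getElem_drop, List.getElem_drop, List.getElem_ofFn, List.getElem_ofFn]
        apply hB'
        intro h2
        have h3 := congrArg Fin.val h2
        simp only at h3
        omega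
    have hj : (j : ℕ) < (List.ofFn B').length := by
      rw [List.length_ofFn]
      exact j.2
    have h3 := List.take_append_drop j (List.ofFn B')
    rw [List.drop_eq_getElem_cons hj, h1, h2, List.getElem_ofFn] at h3
    rw [← h3, List.flatten_append, List.flatten_cons, List.append_assoc]
  · by_cases hj : (j : ℕ) + 1 < s
    · obtain ⟨C, hC⟩ := hB (j + 1)
      have h0 : (j : ℕ) + 1 < (List.ofFn B).length := by
        rw [List.length_ofFn]
        exact hj
      have h1 : ((j + 1 : Fin s) : ℕ) = j + 1 := by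
        rw [Fin.val_add, Fin.val_one', Nat.add_mod_mod, Nat.mod_eq_of_lt hj]
      have h2 : (⟨(j : ℕ) + 1, hj⟩ : Fin s) = j + 1 := Fin.ext h1.symm
      rw [List.drop_eq_getElem_cons h0, List.getElem_ofFn, h2, hC]
      exact ⟨_, rfl⟩
    · have hjs : (j : ℕ) + 1 = s := by omega
      obtain ⟨C, hC⟩ := hB (j + 1)
      have h1 : ((j + 1 : Fin s) : ℕ) = 0 := by
        rw [Fin.val_add, Fin.val_one', Nat.add_mod_mod, hjs, Nat.mod_self]
      have h2 : (⟨0, by omega⟩ : Fin s) = j + 1 := Fin.ext h1.symm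
      have h3 : (List.ofFn B).drop (j + 1) = [] := by
        rw [List.drop_eq_nil_iff, List.length_ofFn]
        omega
      have h4 : 0 < ((List.ofFn B).take j).length := by
        rw [List.length_take, List.length_ofFn]
        omega
      have h5 : (List.ofFn B).take j = B (j + 1) :: ((List.ofFn B).take j).drop 1 := by
        have h6 := List.drop_eq_getElem_cons h4
        rw [List.drop_zero, List.getElem_take, List.getElem_ofFn, h2] at h6
        exact h6
      rw [h3, List.flatten_nil, List.nil_append, h5, List.flatten_cons, hC]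
      exact ⟨_, rfl⟩

private theorem drd2_vs_perm {w w' : List V} (h : w.Perm w') (F : List (List V)) :
    vs (w :: F) = vs (w' :: F) := by
  ext u
  simp only [vs, Set.mem_ofPred_eq, List.mem_cons]
  constructor
  · rintro ⟨f, rfl | hf, hu⟩
    · exact ⟨w', Or.inl rfl, h.mem_iff.1 hu⟩
    · exact ⟨f, Or.inr hf, hu⟩
  · rintro ⟨f, rfl | hf, hu⟩
    · exact ⟨w, Or.inl rfl, h.mem_iff.2 hu⟩
    · exact ⟨f, Or.inr hf, hu⟩

private def drd2B {s n : ℕ} (x v : Fin s → V) (al bb : Fin s → Fin (n + 1) → V) (a : Fin s → V)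
    (j : ℕ) (k : Fin s) : List V :=
  if (k : ℕ) < j then x k :: gapl (al k) (bb k) (a k) else [x k, v k]

theorem draw_gaps {s : ℕ} [NeZero s] (hs : 2 ≤ s) {E : Set (Sym2 V)} {F : List (List V)} {n : ℕ}
    (x v : Fin s → V) (al bb : Fin s → Fin (n + 1) → V) (a : Fin s → V)
    (h : Drawn E (((List.ofFn fun k => [x k, v k]).flatten) :: F))
    (hnd : ((List.ofFn fun k => [x k, v k]).flatten).Nodup)
    (hg : ((List.ofFn fun k => gapl (al k) (bb k) (a k)).flatten).Nodup)
    (hfr : ∀ u ∈ (List.ofFn fun k => gapl (al k) (bb k) (a k)).flatten,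
      u ∉ vs (((List.ofFn fun k => [x k, v k]).flatten) :: F)) :
    ∃ E' w' F', Drawn E' (w' :: F') ∧ E ⊆ E' ∧ (∀ k, s(x k, al k 0) ∈ E') ∧
      (∀ k t, s(al k t, bb k t) ∈ E') ∧
      (∀ k, ∀ t : Fin n, s(bb k t.castSucc, al k t.succ) ∈ E') ∧ (∀ k t, s(a k, bb k t) ∈ E') ∧
      (∀ k, s(a k, x k) ∈ E') ∧ (∀ k, s(a k, x (k + 1)) ∈ E') ∧ (∀ f ∈ F, f ∈ F') ∧
      (∀ k, x k ∈ w' ∧ a k ∈ w' ∧ ∀ t, al k t ∈ w' ∧ bb k t ∈ w') ∧
      vs (w' :: F') ⊆ vs (((List.ofFn fun k => [x k, v k]).flatten) :: F) ∪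
        {u | u ∈ (List.ofFn fun k => gapl (al k) (bb k) (a k)).flatten} := by
  set W : List V := (List.ofFn fun k => [x k, v k]).flatten with hW
  set G : List V := (List.ofFn fun k => gapl (al k) (bb k) (a k)).flatten with hG
  -- facts on the gaps
  have hmem : ∀ k u, u ∈ gapl (al k) (bb k) (a k) → u ∈ G := by
    intro k u hu
    rw [hG, List.mem_flatten]
    exact ⟨_, List.mem_ofFn.2 ⟨k, rfl⟩, hu⟩
  rw [hG, List.nodup_flatten] at hg
  have hgn : ∀ k, (gapl (al k) (bb k) (a k)).Nodup := fun k =>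
    hg.1 _ (List.mem_ofFn.2 ⟨k, rfl⟩)
  have hgd : ∀ k k' : Fin s, k < k' → ∀ u, u ∈ gapl (al k) (bb k) (a k) →
      u ∉ gapl (al k') (bb k') (a k') := by
    intro k k' hk u hu hu'
    have h1 := List.pairwise_ofFn.1 hg.2 hk
    exact h1 hu hu'
  -- the induction
  have key : ∀ j : ℕ, j ≤ s → ∃ E' F',
      Drawn E' (((List.ofFn (drd2B x v al bb a j)).flatten) :: F') ∧ E ⊆ E' ∧
      (∀ k : Fin s, (k : ℕ) < j → s(x k, al k 0) ∈ E' ∧ (∀ t, s(al k t, bb k t) ∈ E') ∧
        (∀ t : Fin n, s(bb k t.castSucc, al k t.succ) ∈ E') ∧ (∀ t, s(a k, bb k t) ∈ E') ∧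
        s(a k, x k) ∈ E' ∧ s(a k, x (k + 1)) ∈ E') ∧ (∀ f ∈ F, f ∈ F') ∧
      ((List.ofFn (drd2B x v al bb a j)).flatten).Nodup ∧
      vs (((List.ofFn (drd2B x v al bb a j)).flatten) :: F') ⊆ vs (W :: F) ∪
        {u | ∃ k : Fin s, (k : ℕ) < j ∧ u ∈ gapl (al k) (bb k) (a k)} := by
    intro j
    induction j with
    | zero =>
      intro _
      have h0 : drd2B x v al bb a 0 = fun k => [x k, v k] := by
        funext k
        unfold drd2B
        rw [if_neg (Nat.not_lt_zero _)]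
      rw [h0]
      exact ⟨E, F, h, subset_rfl, fun k hk => absurd hk (Nat.not_lt_zero _), fun f hf => hf, hnd,
        Set.subset_union_left⟩
    | succ j ih =>
      intro hj
      obtain ⟨E', F', h1, h2, h3, h4, h5, h6⟩ := ih (by omega)
      let J : Fin s := ⟨j, by omega⟩
      have hhead : ∀ k, ∃ C, drd2B x v al bb a j k = x k :: C := by
        intro k
        unfold drd2B
        split_ifs
        · exact ⟨_, rfl⟩
        · exact ⟨_, rfl⟩
      obtain ⟨L1, L2, hL, r, hr⟩ := drd2_split hs (drd2B x v al bb a j) J x hhead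
      have e1 := hL (drd2B x v al bb a j) (fun _ _ => rfl)
      have e2 := hL (drd2B x v al bb a (j + 1)) (by
        intro k hk
        have hk' : (k : ℕ) ≠ j := fun h => hk (Fin.ext h)
        unfold drd2B
        by_cases hkj : (k : ℕ) < j
        · rw [if_pos hkj, if_pos (by omega)]
        · rw [if_neg hkj, if_neg (by omega)])
      have e3 : drd2B x v al bb a j J = [x J, v J] := by
        unfold drd2B
        rw [if_neg (lt_irrefl j)]
      have e4 : drd2B x v al bb a (j + 1) J = x J :: gapl (al J) (bb J) (a J) := by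
        unfold drd2B
        rw [if_pos (Nat.lt_succ_self j)]
      rw [e3] at e1
      rw [e4] at e2
      -- rotation to the front
      have hrot : (List.ofFn (drd2B x v al bb a j)).flatten ~r
          (x J :: v J :: x (J + 1) :: r) := by
        rw [e1, ← hr, List.append_assoc]
        exact List.isRotated_append
      have hrot2 : (x J :: gapl (al J) (bb J) (a J) ++ x (J + 1) :: r) ~r
          (List.ofFn (drd2B x v al bb a (j + 1))).flatten := by
        rw [e2, ← hr, ← List.append_assoc, List.append_assoc L1]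
        exact List.isRotated_append
      have hfresh : ∀ u ∈ gapl (al J) (bb J) (a J),
          u ∉ vs ((x J :: v J :: x (J + 1) :: r) :: F') := by
        intro u hu hu'
        rw [← drd2_vs_perm hrot.perm] at hu'
        rcases h6 hu' with h7 | ⟨k, hk, hk'⟩
        · exact hfr u (hmem J u hu) h7
        · exact hgd k J hk u hk' hu
      obtain ⟨E'', F'', g1, g2, g3, g4, g5, g6, g7, g8, g9, g10⟩ :=
        draw_gap (x J) (v J) (x (J + 1)) r (al J) (bb J) (a J) (h1.rot hrot)
          (hrot.nodup_iff.1 h5) (hgn J) hfresh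
      refine ⟨E'', F'', g1.rot hrot2, h2.trans g2, ?_, fun f hf => g9 f (h4 f hf), ?_, ?_⟩
      · intro k hk
        by_cases hkj : (k : ℕ) < j
        · obtain ⟨m1, m2, m3, m4, m5, m6⟩ := h3 k hkj
          exact ⟨g2 m1, fun t => g2 (m2 t), fun t => g2 (m3 t), fun t => g2 (m4 t), g2 m5, g2 m6⟩
        · have hkJ : k = J := Fin.ext (by show (k : ℕ) = j; omega)
          subst hkJ
          exact ⟨g3, g4, g5, g6, g7, g8⟩
      · rw [← hrot2.nodup_iff]
        have n1 := hrot.nodup_iff.1 h5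
        rw [List.cons_append, List.nodup_cons]
        rw [List.nodup_cons, List.nodup_cons] at n1
        have n2 : ∀ u ∈ gapl (al J) (bb J) (a J), u ∉ (x J :: v J :: x (J + 1) :: r) := by
          intro u hu hu'
          exact hfresh u hu ⟨_, List.mem_cons_self, hu'⟩
        refine ⟨?_, ?_⟩
        · rw [List.mem_append, not_or]
          refine ⟨fun hx => n2 _ hx List.mem_cons_self, fun hx => n1.1 (List.mem_cons_of_mem _ hx)⟩
        · rw [List.nodup_append]
          refine ⟨hgn J, n1.2.2, ?_⟩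
          intro u hu u' hu' huu
          subst huu
          exact n2 u hu (List.mem_cons_of_mem _ (List.mem_cons_of_mem _ hu'))
      · rw [← drd2_vs_perm hrot2.perm]
        have hsub : vs ((x J :: v J :: x (J + 1) :: r) :: F') ⊆ vs (W :: F) ∪
            {u | ∃ k : Fin s, (k : ℕ) < j + 1 ∧ u ∈ gapl (al k) (bb k) (a k)} := by
          rw [← drd2_vs_perm hrot.perm]
          refine h6.trans (Set.union_subset_union_right _ ?_)
          rintro u ⟨k, hk, hu⟩
          exact ⟨k, by omega, hu⟩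
        have hJ : ∀ u ∈ gapl (al J) (bb J) (a J), u ∈ vs (W :: F) ∪
            {u | ∃ k : Fin s, (k : ℕ) < j + 1 ∧ u ∈ gapl (al k) (bb k) (a k)} :=
          fun u hu => Or.inr ⟨J, Nat.lt_succ_self j, hu⟩
        rintro u ⟨f, hf, hu⟩
        rcases List.mem_cons.1 hf with rfl | hf
        · rw [List.cons_append, List.mem_cons, List.mem_append] at hu
          rcases hu with rfl | hu | hu
          · exact hsub ⟨_, List.mem_cons_self, List.mem_cons_self⟩
          · exact hJ u hu
          · exact hsub ⟨_, List.mem_cons_self,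
              List.mem_cons_of_mem _ (List.mem_cons_of_mem _ hu)⟩
        · rcases g10 ⟨f, hf, hu⟩ with h8 | h8
          · exact hsub h8
          · exact hJ u h8
  obtain ⟨E', F', h1, h2, h3, h4, h5, h6⟩ := key s le_rfl
  have hB : drd2B x v al bb a s = fun k => x k :: gapl (al k) (bb k) (a k) := by
    funext k
    unfold drd2B
    rw [if_pos k.2]
  have hw : ∀ k u, u ∈ x k :: gapl (al k) (bb k) (a k) →
      u ∈ (List.ofFn (drd2B x v al bb a s)).flatten := by
    intro k u hu
    rw [hB, List.mem_flatten]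
    exact ⟨_, List.mem_ofFn.2 ⟨k, rfl⟩, hu⟩
  refine ⟨E', _, F', h1, h2, fun k => (h3 k k.2).1, fun k => (h3 k k.2).2.1,
    fun k => (h3 k k.2).2.2.1, fun k => (h3 k k.2).2.2.2.1, fun k => (h3 k k.2).2.2.2.2.1,
    fun k => (h3 k k.2).2.2.2.2.2, h4, ?_, ?_⟩
  · intro k
    refine ⟨hw k _ List.mem_cons_self, hw k _ (List.mem_cons_of_mem _ ?_), fun t =>
      ⟨hw k _ (List.mem_cons_of_mem _ ?_), hw k _ (List.mem_cons_of_mem _ ?_)⟩⟩
    · unfold gapl
      exact List.mem_append_right _ (List.mem_singleton_self _)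
    · unfold gapl
      refine List.mem_append_left _ (List.mem_flatten.2 ⟨_, List.mem_ofFn.2 ⟨t, rfl⟩, ?_⟩)
      exact List.mem_cons_self
    · unfold gapl
      refine List.mem_append_left _ (List.mem_flatten.2 ⟨_, List.mem_ofFn.2 ⟨t, rfl⟩, ?_⟩)
      exact List.mem_cons_of_mem _ (List.mem_singleton_self _)
  · refine h6.trans (Set.union_subset_union_right _ ?_)
    rintro u ⟨k, _, hu⟩
    exact hmem k u hu

end OTh
end
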