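import Pool.Agent.Lib.MP_9750df_co.TArc

section

/-!
The device.  Two fixed vertices `x`, `y` and for each colour `i` three private vertices `v i`, `t i`, `b i` with the edges `xv, vt, xt, xb, tb, ty, by`
(a triangulated pentagon `x v t y b` with the chords `xt`, `tb`), with weights `w2`.  `X` = set of edges (colour, edge) of an outerplanar
subgraph.

PROOF of `device`.  `R = lgr dep X`; `Q i e = decide ((i, e) ∈ X)`.  By `table` for each colour
`w2 of colour i + 2 (rT + rB + rV) + 2 (sT + rB) ≤ 10 + tau (Q i)`.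
`Rx` = all `t i` with `rT (Q i)`, all `b i` with `rB (Q i)`, all `v i` with `rV (Q i)`, and `y` if `y` is not reachable from `x`.
`Rv` = all `t i` with `sT (Q i)`, all `b i` with `rB (Q i)`, and `x` if no `v i` is reachable from `x`, and `y` if neither `x` nor any `v i` is reachable
from `y`.
 * `t i`: if `bT` then `t i` is reachable from `x` or `y` (case distinction), otherwise `rT`, `t i ∈ Rx`; for `Rv`: if `¬ bT` and `vt` then `t i` reaches `v i`;
   if `¬ bT` and `¬ vt` then `sT`.  `b i`: if `bB` it reaches `x` or `y`; if `¬ bB` and `tb` then it reaches `t i`, and `¬ bT`; if `¬ bB`, `¬ tb`: `rB`.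
   `v i`: if `bV` it reaches `x` or `y`; if `¬ bV` and `vt`: it reaches `t i` and `¬ bT`, `t i ∈ Rx`; else `rV`.
 * If `conn (Q i)` then there is a link `Link R x y S` with `S ⊆ {v i, t i, b i}` (six cases); if `thick (Q i)` then there are links with
   `{b i}` and with `{t i}` or `{v i, t i}`.  By `k23`: if `thick (Q i)` then no other colour is `conn`; and at most two colours are `conn`.
   If some colour is `conn` then `y` is reachable from `x`.  If `conn (Q i)` and `bV (Q i)` then `v i` is reachable from `x`.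
 * So `∑ tau + 2 [y not reachable from x] + 2 [no v reachable from x] + 2 [y reaches neither x nor a v] ≤ 6`:
   no colour `conn`: `tau = 0`; some colour `conn`: the first and the third bracket are `0`; if one of the `conn` colours has `bV` then the second is `0`
   and `∑ tau ≤ 6`; otherwise `∑ tau ≤ 4`.
-/

set_option autoImplicit false

namespace OTh

open Finset
open scoped Classical

/-- the edges of the device -/
inductive Ed
  | xv | vt | xt | xb | tb | ty | yb
  deriving DecidableEq, Fintype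

/-- weights -/
def w2 : Ed → ℕ
  | .xv => 2
  | .vt => 2
  | .xt => 2
  | .xb => 3
  | .tb => 1
  | .ty => 3
  | .yb => 3

/-- the graph of a set of labelled edges -/
def lgr {Λ W : Type*} (ep : Λ → W × W) (X : Set Λ) : SimpleGraph W where
  Adj u v := u ≠ v ∧ ∃ e ∈ X, ep e = (u, v) ∨ ep e = (v, u)
  symm := ⟨by rintro u v ⟨h, e, he, h'⟩; exact ⟨h.symm, e, he, h'.symm⟩⟩
  loopless := ⟨fun u h => h.1 rfl⟩

theorem lgr_mono {Λ W : Type*} (ep : Λ → W × W) {X Y : Set Λ} (h : X ⊆ Y) :
    lgr ep X ≤ lgr ep Y := by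
  rintro u v ⟨h1, e, he, h2⟩
  exact ⟨h1, e, h he, h2⟩

/-- vertices of the device -/
inductive Dv (I : Type)
  | x
  | y
  | v (i : I)
  | t (i : I)
  | b (i : I)
  deriving DecidableEq

/-- ends of the edges -/
def dep {I : Type} : I × Ed → Dv I × Dv I
  | (i, .xv) => (.x, .v i)
  | (i, .vt) => (.v i, .t i)
  | (i, .xt) => (.x, .t i)
  | (i, .xb) => (.x, .b i)
  | (i, .tb) => (.t i, .b i)
  | (i, .ty) => (.t i, .y)
  | (i, .yb) => (.b i, .y)

/-! ### patterns of one colour -/

/-- `t` is joined with `x` or `y` -/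
def bT (Q : Ed → Bool) : Bool :=
  Q .xt || Q .ty || (Q .vt && Q .xv) || (Q .tb && (Q .xb || Q .yb))

/-- `b` is joined with `x` or `y` -/
def bB (Q : Ed → Bool) : Bool :=
  Q .xb || Q .yb || (Q .tb && (Q .xt || Q .ty || (Q .vt && Q .xv)))

/-- `v` is joined with `x` or `y` -/
def bV (Q : Ed → Bool) : Bool := Q .xv || (Q .vt && bT Q)

def rT (Q : Ed → Bool) : Bool := !bT Q
def rB (Q : Ed → Bool) : Bool := !bB Q && !Q .tb
def rV (Q : Ed → Bool) : Bool := !bV Q && !Q .vt
def sT (Q : Ed → Bool) : Bool := !bT Q && !Q .vt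

/-- `x` and `y` are joined -/
def conn (Q : Ed → Bool) : Bool :=
  (Q .xb && Q .yb) || (Q .xt && Q .ty) || (Q .xv && Q .vt && Q .ty) || (Q .xb && Q .tb && Q .ty) ||
    (Q .xt && Q .tb && Q .yb) || (Q .xv && Q .vt && Q .tb && Q .yb)

/-- `x` and `y` are joined by two disjoint paths -/
def thick (Q : Ed → Bool) : Bool := Q .ty && Q .yb && Q .xb && (Q .xt || (Q .xv && Q .vt))

/-- the bonus of a pattern -/
def tau (Q : Ed → Bool) : ℕ :=
  if thick Q then 4 + 2 * (bV Q).toNat else if conn Q then 2 + (bV Q).toNat else 0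

theorem table (Q : Ed → Bool) :
    (∑ e : Ed, if Q e then w2 e else 0) + 2 * ((rT Q).toNat + (rB Q).toNat + (rV Q).toNat) +
      2 * ((sT Q).toNat + (rB Q).toNat) ≤ 10 + tau Q := by
  have h : (∑ e : Ed, if Q e then w2 e else 0) = (if Q .xv then 2 else 0) +
      ((if Q .vt then 2 else 0) + ((if Q .xt then 2 else 0) + ((if Q .xb then 3 else 0) +
      ((if Q .tb then 1 else 0) + ((if Q .ty then 3 else 0) +
      ((if Q .yb then 3 else 0) + 0)))))) := rfl
  rw [h]
  unfold rT rB rV sT tau conn thick bV bB bT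
  generalize Q .xv = a1
  generalize Q .vt = a2
  generalize Q .xt = a3
  generalize Q .xb = a4
  generalize Q .tb = a5
  generalize Q .ty = a6
  generalize Q .yb = a7
  revert a1 a2 a3 a4 a5 a6 a7
  decide

theorem Dev_adj {I : Type} (X : Finset (I × Ed)) {i : I} {e : Ed} {a b : Dv I}
    (h : (i, e) ∈ X) (hd : dep (i, e) = (a, b)) (hab : a ≠ b) :
    (lgr dep (X : Set (I × Ed))).Adj a b :=
  ⟨hab, (i, e), h, Or.inl hd⟩

/-- the seven adjacencies -/
structure DevF {I : Type} (G : SimpleGraph (Dv I)) (i : I) (Q : Ed → Bool) : Prop where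
  xv : Q .xv = true → G.Adj .x (.v i)
  vt : Q .vt = true → G.Adj (.v i) (.t i)
  xt : Q .xt = true → G.Adj .x (.t i)
  xb : Q .xb = true → G.Adj .x (.b i)
  tb : Q .tb = true → G.Adj (.t i) (.b i)
  ty : Q .ty = true → G.Adj (.t i) .y
  yb : Q .yb = true → G.Adj (.b i) .y

theorem Dev_facts {I : Type} (X : Finset (I × Ed)) (i : I) (Q : Ed → Bool)
    (hQ : ∀ e, Q e = true → (i, e) ∈ X) : DevF (lgr dep (X : Set (I × Ed))) i Q where
  xv h := Dev_adj X (hQ _ h) rfl (by simp)
  vt h := Dev_adj X (hQ _ h) rfl (by simp)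
  xt h := Dev_adj X (hQ _ h) rfl (by simp)
  xb h := Dev_adj X (hQ _ h) rfl (by simp)
  tb h := Dev_adj X (hQ _ h) rfl (by simp)
  ty h := Dev_adj X (hQ _ h) rfl (by simp)
  yb h := Dev_adj X (hQ _ h) rfl (by simp)

theorem Dev_bT {I : Type} {G : SimpleGraph (Dv I)} {i : I} {Q : Ed → Bool} (F : DevF G i Q)
    (h : bT Q = true) : G.Reachable (.t i) .x ∨ G.Reachable (.t i) .y := by
  simp only [bT, Bool.or_eq_true, Bool.and_eq_true] at h
  rcases h with ((h | h) | ⟨h, h'⟩) | ⟨h, h' | h'⟩
  · exact Or.inl (F.xt h).reachable.symm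
  · exact Or.inr (F.ty h).reachable
  · exact Or.inl ((F.vt h).reachable.symm.trans (F.xv h').reachable.symm)
  · exact Or.inl ((F.tb h).reachable.trans (F.xb h').reachable.symm)
  · exact Or.inr ((F.tb h).reachable.trans (F.yb h').reachable)

theorem Dev_bB {I : Type} {G : SimpleGraph (Dv I)} {i : I} {Q : Ed → Bool} (F : DevF G i Q)
    (h : bB Q = true) : G.Reachable (.b i) .x ∨ G.Reachable (.b i) .y := by
  simp only [bB, Bool.or_eq_true, Bool.and_eq_true] at h
  rcases h with (h | h) | ⟨h, (h' | h') | ⟨h', h''⟩⟩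
  · exact Or.inl (F.xb h).reachable.symm
  · exact Or.inr (F.yb h).reachable
  · exact Or.inl ((F.tb h).reachable.symm.trans (F.xt h').reachable.symm)
  · exact Or.inr ((F.tb h).reachable.symm.trans (F.ty h').reachable)
  · exact Or.inl ((F.tb h).reachable.symm.trans ((F.vt h').reachable.symm.trans
      (F.xv h'').reachable.symm))

theorem Dev_bV {I : Type} {G : SimpleGraph (Dv I)} {i : I} {Q : Ed → Bool} (F : DevF G i Q)
    (h : bV Q = true) : G.Reachable (.v i) .x ∨ G.Reachable (.v i) .y := by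
  simp only [bV, Bool.or_eq_true, Bool.and_eq_true] at h
  rcases h with h | ⟨h, h'⟩
  · exact Or.inl (F.xv h).reachable.symm
  · rcases Dev_bT F h' with h1 | h1
    · exact Or.inl ((F.vt h).reachable.trans h1)
    · exact Or.inr ((F.vt h).reachable.trans h1)

/-- the private vertices of a colour -/
def DevS {I : Type} (i : I) : Set (Dv I) := {Dv.v i, Dv.t i, Dv.b i}

theorem Dev_link {I : Type} {G : SimpleGraph (Dv I)} {i : I} {Q : Ed → Bool} (F : DevF G i Q)
    (h : conn Q = true) : Link G .x .y (DevS i) := by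
  have hx : (Dv.x : Dv I) ∉ DevS i := by simp [DevS]
  have hy : (Dv.y : Dv I) ∉ DevS i := by simp [DevS]
  have hv : (Dv.v i : Dv I) ∈ DevS i := by simp [DevS]
  have ht : (Dv.t i : Dv I) ∈ DevS i := by simp [DevS]
  have hb : (Dv.b i : Dv I) ∈ DevS i := by simp [DevS]
  simp only [conn, Bool.or_eq_true, Bool.and_eq_true] at h
  rcases h with ((((⟨h1, h2⟩ | ⟨h1, h2⟩) | ⟨⟨h1, h2⟩, h3⟩) | ⟨⟨h1, h2⟩, h3⟩) | ⟨⟨h1, h2⟩, h3⟩) |
    ⟨⟨⟨h1, h2⟩, h3⟩, h4⟩
  · exact ⟨hx, hy, .b i, .b i, hb, hb, F.xb h1, F.yb h2, Relation.ReflTransGen.refl⟩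
  · exact ⟨hx, hy, .t i, .t i, ht, ht, F.xt h1, F.ty h2, Relation.ReflTransGen.refl⟩
  · exact ⟨hx, hy, .v i, .t i, hv, ht, F.xv h1, F.ty h3,
      Relation.ReflTransGen.single ⟨F.vt h2, ht⟩⟩
  · exact ⟨hx, hy, .b i, .t i, hb, ht, F.xb h1, F.ty h3,
      Relation.ReflTransGen.single ⟨(F.tb h2).symm, ht⟩⟩
  · exact ⟨hx, hy, .t i, .b i, ht, hb, F.xt h1, F.yb h3,
      Relation.ReflTransGen.single ⟨F.tb h2, hb⟩⟩
  · exact ⟨hx, hy, .v i, .b i, hv, hb, F.xv h1, F.yb h4,
      (Relation.ReflTransGen.single ⟨F.vt h2, ht⟩).tail ⟨F.tb h3, hb⟩⟩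

theorem Dev_thick {I : Type} {G : SimpleGraph (Dv I)} {i : I} {Q : Ed → Bool} (F : DevF G i Q)
    (h : thick Q = true) :
    Link G .x .y ({Dv.b i} : Set (Dv I)) ∧ Link G .x .y ({Dv.v i, Dv.t i} : Set (Dv I)) := by
  simp only [thick, Bool.or_eq_true, Bool.and_eq_true] at h
  obtain ⟨⟨⟨h1, h2⟩, h3⟩, h4⟩ := h
  refine ⟨⟨by simp, by simp, .b i, .b i, by simp, by simp, F.xb h3, F.yb h2,
    Relation.ReflTransGen.refl⟩, by simp, by simp, ?_⟩
  rcases h4 with h4 | ⟨h4, h5⟩
  · exact ⟨.t i, .t i, by simp, by simp, F.xt h4, F.ty h1, Relation.ReflTransGen.refl⟩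
  · exact ⟨.v i, .t i, by simp, by simp, F.xv h4, F.ty h1,
      Relation.ReflTransGen.single ⟨F.vt h5, by simp⟩⟩

theorem Dev_disj {I : Type} {i j : I} (h : i ≠ j) : Disjoint (DevS i) (DevS j) := by
  rw [Set.disjoint_left]
  intro u hu hu'
  simp only [DevS, Set.mem_insert_iff, Set.mem_singleton_iff] at hu hu'
  rcases hu with rfl | rfl | rfl <;> rcases hu' with h' | h' | h' <;> cases h' <;> exact h rfl

theorem Dev_thick_conn (Q : Ed → Bool) (h : thick Q = true) : conn Q = true := by
  simp only [thick, Bool.and_eq_true] at h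
  simp only [conn, Bool.or_eq_true, Bool.and_eq_true]
  tauto

theorem Dev_link_reach {V : Type*} {G : SimpleGraph V} {S : Set V} {x y : V}
    (h : Link G x y S) : G.Reachable x y := by
  obtain ⟨_, _, a, b, _, hb, h1, h2, h3⟩ := h
  have h4 : G.Reachable a b := by
    clear h2 hb
    induction h3 with
    | refl => exact SimpleGraph.Reachable.refl _
    | tail _ h5 ih => exact ih.trans h5.1.reachable
  exact h1.reachable.trans (h4.trans h2.reachable)

theorem Dev_card {I : Type} [Fintype I] (c : I → Dv I) (p : I → Bool) :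
    ((univ.filter (fun i => p i = true)).image c).card ≤ ∑ i, (p i).toNat := by
  refine card_image_le.trans ?_
  rw [card_filter]
  refine sum_le_sum (fun i _ => ?_)
  cases p i <;> simp

theorem Dev_tau {I : Type} [Fintype I] (Q : I → Ed → Bool) (xy xv yxv : Prop)
    (h1 : ∀ i j k, conn (Q i) = true → conn (Q j) = true → conn (Q k) = true →
      i = j ∨ i = k ∨ j = k)
    (h2 : ∀ i j, thick (Q i) = true → conn (Q j) = true → i = j)
    (h3 : ∀ i, conn (Q i) = true → xy)
    (h4 : ∀ i, conn (Q i) = true → bV (Q i) = true → xv)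
    (h5 : xy → yxv) :
    ∑ i, tau (Q i) + 2 * (if xy then 0 else 1) + 2 * (if xv then 0 else 1) +
      2 * (if yxv then 0 else 1) ≤ 6 := by
  by_cases hc : ∃ i, conn (Q i) = true
  · obtain ⟨i, hi⟩ := hc
    have hxy := h3 i hi
    have hyxv := h5 hxy
    rw [if_pos hxy, if_pos hyxv]
    by_cases ht : ∃ k, thick (Q k) = true
    · obtain ⟨k, hk⟩ := ht
      have hs : ∑ i, tau (Q i) = tau (Q k) := by
        refine Finset.sum_eq_single k (fun j _ hj => ?_) (fun h => absurd (mem_univ k) h)
        have hjc : conn (Q j) = false := by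
          by_contra hh
          exact hj (h2 k j hk (by simpa using hh)).symm
        have hjt : thick (Q j) = false := by
          by_contra hh
          have := Dev_thick_conn (Q j) (by simpa using hh)
          rw [hjc] at this
          exact absurd this (by simp)
        simp [tau, hjc, hjt]
      rw [hs]
      have hkc := Dev_thick_conn _ hk
      have ht : tau (Q k) = 4 + 2 * (bV (Q k)).toNat := by simp [tau, hk]
      rw [ht]
      by_cases hb : bV (Q k) = true
      · rw [if_pos (h4 k hkc hb)]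
        simp [hb]
      · have hb' : bV (Q k) = false := by simpa using hb
        rw [hb']
        split_ifs <;> simp
    · push Not at ht
      -- at most two colours
      have ht0 : ∀ j, tau (Q j) = if conn (Q j) = true then 2 + (bV (Q j)).toNat else 0 := by
        intro j
        have : thick (Q j) = false := by simpa using ht j
        simp [tau, this]
      obtain ⟨j, hj⟩ : ∃ j, ∀ k, conn (Q k) = true → k = i ∨ k = j := by
        by_cases h6 : ∃ j, conn (Q j) = true ∧ j ≠ i
        · obtain ⟨j, hj, hji⟩ := h6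
          refine ⟨j, fun k hk => ?_⟩
          rcases h1 i j k hi hj hk with h | h | h
          · exact absurd h.symm hji
          · exact Or.inl h.symm
          · exact Or.inr h.symm
        · push Not at h6
          exact ⟨i, fun k hk => Or.inl (h6 k hk)⟩
      have hs : ∑ k, tau (Q k) ≤ ∑ k ∈ ({i, j} : Finset I), tau (Q k) := by
        refine (Finset.sum_subset (subset_univ _) (fun k _ hk => ?_)).ge
        rw [ht0]
        rw [if_neg]
        intro hh
        rcases hj k hh with rfl | rfl <;> simp at hk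
      have hle : ∀ k, tau (Q k) ≤ 3 := by
        intro k
        rw [ht0]
        split_ifs
        · cases bV (Q k) <;> simp
        · simp
      have hcard : ({i, j} : Finset I).card ≤ 2 := Finset.card_le_two
      by_cases hb : ∃ k, conn (Q k) = true ∧ bV (Q k) = true
      · obtain ⟨k, hk, hk'⟩ := hb
        rw [if_pos (h4 k hk hk')]
        have : ∑ k ∈ ({i, j} : Finset I), tau (Q k) ≤ ({i, j} : Finset I).card * 3 := by
          rw [← smul_eq_mul]
          exact Finset.sum_le_card_nsmul _ _ _ (fun k _ => hle k)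
        omega
      · push Not at hb
        have hle2 : ∀ k, tau (Q k) ≤ 2 := by
          intro k
          rw [ht0]
          split_ifs with hk
          · have : bV (Q k) = false := by simpa using hb k hk
            simp [this]
          · simp
        have : ∑ k ∈ ({i, j} : Finset I), tau (Q k) ≤ ({i, j} : Finset I).card * 2 := by
          rw [← smul_eq_mul]
          exact Finset.sum_le_card_nsmul _ _ _ (fun k _ => hle2 k)
        split_ifs <;> omega
  · push Not at hc
    have hs : ∑ i, tau (Q i) = 0 := by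
      refine Finset.sum_eq_zero (fun j _ => ?_)
      have hjc : conn (Q j) = false := by simpa using hc j
      have hjt : thick (Q j) = false := by
        by_contra hh
        exact hc j (Dev_thick_conn (Q j) (by simpa using hh))
      simp [tau, hjc, hjt]
    rw [hs]
    split_ifs <;> omega

theorem device {I : Type} [Fintype I] (X : Finset (I × Ed)) (f : Dv I → ℕ)
    (hf : Function.Injective f) (h : NonCr (lgr dep (X : Set (I × Ed))) f) :
    ∃ Rx Rv : Finset (Dv I),
      (∀ u, (lgr dep (X : Set (I × Ed))).Reachable u .x ∨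
        ∃ ρ ∈ Rx, (lgr dep (X : Set (I × Ed))).Reachable u ρ) ∧
      (∀ u, (∃ i, (lgr dep (X : Set (I × Ed))).Reachable u (.v i)) ∨
        ∃ ρ ∈ Rv, (lgr dep (X : Set (I × Ed))).Reachable u ρ) ∧
      (∑ e ∈ X, w2 e.2) + 2 * Rx.card + 2 * Rv.card ≤ 6 + 10 * Fintype.card I := by
  set G := lgr dep (X : Set (I × Ed)) with hG
  let Q : I → Ed → Bool := fun i e => decide ((i, e) ∈ X)
  have F : ∀ i, DevF G i (Q i) := fun i =>
    Dev_facts X i (Q i) (fun e he => by simpa [Q] using he)
  let xy : Prop := G.Reachable .y .x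
  let xv : Prop := ∃ i, G.Reachable .x (.v i)
  let yxv : Prop := G.Reachable .y .x ∨ ∃ i, G.Reachable .y (.v i)
  let Rx : Finset (Dv I) := (((univ.filter (fun i => rT (Q i) = true)).image Dv.t ∪
    (univ.filter (fun i => rB (Q i) = true)).image Dv.b) ∪
    (univ.filter (fun i => rV (Q i) = true)).image Dv.v) ∪ (if xy then ∅ else {Dv.y})
  let Rv : Finset (Dv I) := (((univ.filter (fun i => sT (Q i) = true)).image Dv.t ∪
    (univ.filter (fun i => rB (Q i) = true)).image Dv.b) ∪ (if xv then ∅ else {Dv.x})) ∪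
    (if yxv then ∅ else {Dv.y})
  have hRxy : ¬ xy → Dv.y ∈ Rx := by
    intro hh
    simp [Rx, hh]
  have hRxt : ∀ i, rT (Q i) = true → Dv.t i ∈ Rx := by
    intro i hi
    simp only [Rx, mem_union, mem_image, mem_filter, mem_univ, true_and]
    exact Or.inl (Or.inl (Or.inl ⟨i, hi, rfl⟩))
  have hRxb : ∀ i, rB (Q i) = true → Dv.b i ∈ Rx := by
    intro i hi
    simp only [Rx, mem_union, mem_image, mem_filter, mem_univ, true_and]
    exact Or.inl (Or.inl (Or.inr ⟨i, hi, rfl⟩))
  have hRxv : ∀ i, rV (Q i) = true → Dv.v i ∈ Rx := by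
    intro i hi
    simp only [Rx, mem_union, mem_image, mem_filter, mem_univ, true_and]
    exact Or.inl (Or.inr ⟨i, hi, rfl⟩)
  have hRvx : ¬ xv → Dv.x ∈ Rv := by
    intro hh
    simp [Rv, hh]
  have hRvy : ¬ yxv → Dv.y ∈ Rv := by
    intro hh
    simp [Rv, hh]
  have hRvt : ∀ i, sT (Q i) = true → Dv.t i ∈ Rv := by
    intro i hi
    simp only [Rv, mem_union, mem_image, mem_filter, mem_univ, true_and]
    exact Or.inl (Or.inl (Or.inl ⟨i, hi, rfl⟩))
  have hRvb : ∀ i, rB (Q i) = true → Dv.b i ∈ Rv := by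
    intro i hi
    simp only [Rv, mem_union, mem_image, mem_filter, mem_univ, true_and]
    exact Or.inl (Or.inl (Or.inr ⟨i, hi, rfl⟩))
  -- first set
  let A : Dv I → Prop := fun u => G.Reachable u .x ∨ ∃ ρ ∈ Rx, G.Reachable u ρ
  have Atr : ∀ u w, G.Reachable u w → A w → A u := by
    rintro u w huw (h1 | ⟨ρ, h1, h2⟩)
    · exact Or.inl (huw.trans h1)
    · exact Or.inr ⟨ρ, h1, huw.trans h2⟩
  have Ax : A .x := Or.inl (SimpleGraph.Reachable.refl _)
  have Ay : A .y := by
    by_cases hh : xy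
    · exact Or.inl hh
    · exact Or.inr ⟨.y, hRxy hh, SimpleGraph.Reachable.refl _⟩
  have Axy : ∀ u, (G.Reachable u .x ∨ G.Reachable u .y) → A u := by
    rintro u (h1 | h1)
    · exact Atr _ _ h1 Ax
    · exact Atr _ _ h1 Ay
  have At : ∀ i, A (.t i) := by
    intro i
    by_cases hh : bT (Q i) = true
    · exact Axy _ (Dev_bT (F i) hh)
    · exact Or.inr ⟨.t i, hRxt i (by simp [rT, hh]), SimpleGraph.Reachable.refl _⟩
  have Ab : ∀ i, A (.b i) := by
    intro i
    by_cases hh : bB (Q i) = true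
    · exact Axy _ (Dev_bB (F i) hh)
    · by_cases h2 : Q i .tb = true
      · exact Atr _ _ ((F i).tb h2).reachable.symm (At i)
      · exact Or.inr ⟨.b i, hRxb i (by simp [rB, hh, h2]), SimpleGraph.Reachable.refl _⟩
  have Av : ∀ i, A (.v i) := by
    intro i
    by_cases hh : bV (Q i) = true
    · exact Axy _ (Dev_bV (F i) hh)
    · by_cases h2 : Q i .vt = true
      · exact Atr _ _ ((F i).vt h2).reachable (At i)
      · exact Or.inr ⟨.v i, hRxv i (by simp [rV, hh, h2]), SimpleGraph.Reachable.refl _⟩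
  -- second set
  let B : Dv I → Prop := fun u => (∃ i, G.Reachable u (.v i)) ∨ ∃ ρ ∈ Rv, G.Reachable u ρ
  have Btr : ∀ u w, G.Reachable u w → B w → B u := by
    rintro u w huw (⟨i, h1⟩ | ⟨ρ, h1, h2⟩)
    · exact Or.inl ⟨i, huw.trans h1⟩
    · exact Or.inr ⟨ρ, h1, huw.trans h2⟩
  have Bx : B .x := by
    by_cases hh : xv
    · exact Or.inl hh
    · exact Or.inr ⟨.x, hRvx hh, SimpleGraph.Reachable.refl _⟩
  have By : B .y := by
    by_cases hh : yxv
    · rcases hh with hh | hh
      · exact Btr _ _ hh Bx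
      · exact Or.inl hh
    · exact Or.inr ⟨.y, hRvy hh, SimpleGraph.Reachable.refl _⟩
  have Bxy : ∀ u, (G.Reachable u .x ∨ G.Reachable u .y) → B u := by
    rintro u (h1 | h1)
    · exact Btr _ _ h1 Bx
    · exact Btr _ _ h1 By
  have Bv : ∀ i, B (.v i) := fun i => Or.inl ⟨i, SimpleGraph.Reachable.refl _⟩
  have Bt : ∀ i, B (.t i) := by
    intro i
    by_cases hh : bT (Q i) = true
    · exact Bxy _ (Dev_bT (F i) hh)
    · by_cases h2 : Q i .vt = true
      · exact Btr _ _ ((F i).vt h2).reachable.symm (Bv i)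
      · exact Or.inr ⟨.t i, hRvt i (by simp [sT, hh, h2]), SimpleGraph.Reachable.refl _⟩
  have Bb : ∀ i, B (.b i) := by
    intro i
    by_cases hh : bB (Q i) = true
    · exact Bxy _ (Dev_bB (F i) hh)
    · by_cases h2 : Q i .tb = true
      · exact Btr _ _ ((F i).tb h2).reachable.symm (Bt i)
      · exact Or.inr ⟨.b i, hRvb i (by simp [rB, hh, h2]), SimpleGraph.Reachable.refl _⟩
  refine ⟨Rx, Rv, ?_, ?_, ?_⟩
  · intro u
    cases u with
    | x => exact Ax
    | y => exact Ay
    | v i => exact Av i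
    | t i => exact At i
    | b i => exact Ab i
  · intro u
    cases u with
    | x => exact Bx
    | y => exact By
    | v i => exact Bv i
    | t i => exact Bt i
    | b i => exact Bb i
  · have hxne : (Dv.x : Dv I) ≠ Dv.y := by simp
    let bxy : ℕ := @ite ℕ xy (Classical.propDecidable xy) 0 1
    let bxv : ℕ := @ite ℕ xv (Classical.propDecidable xv) 0 1
    let byxv : ℕ := @ite ℕ yxv (Classical.propDecidable yxv) 0 1
    have htau : ∑ i, tau (Q i) + 2 * bxy + 2 * bxv + 2 * byxv ≤ 6 := Dev_tau Q xy xv yxv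
      (by
        intro i j k hi hj hk
        by_contra hh
        push Not at hh
        exact k23 hf h hxne (Dev_disj hh.1) (Dev_disj hh.2.1) (Dev_disj hh.2.2)
          (Dev_link (F i) hi) (Dev_link (F j) hj) (Dev_link (F k) hk))
      (by
        intro i j hi hj
        by_contra hh
        obtain ⟨l1, l2⟩ := Dev_thick (F i) hi
        have hd := Dev_disj hh
        refine k23 hf h hxne ?_ ?_ ?_ l1 l2 (Dev_link (F j) hj)
        · rw [Set.disjoint_left]
          intro u hu hu'
          simp only [Set.mem_singleton_iff, Set.mem_insert_iff] at hu hu'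
          subst hu
          simp at hu'
        · refine Set.disjoint_of_subset_left ?_ hd
          intro u hu
          simp only [Set.mem_singleton_iff] at hu
          subst hu
          simp [DevS]
        · refine Set.disjoint_of_subset_left ?_ hd
          intro u hu
          simp only [Set.mem_singleton_iff, Set.mem_insert_iff] at hu
          rcases hu with rfl | rfl <;> simp [DevS])
      (fun i hi => (Dev_link_reach (Dev_link (F i) hi)).symm)
      (by
        intro i hi hb
        have h1 := Dev_link_reach (Dev_link (F i) hi)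
        rcases Dev_bV (F i) hb with h2 | h2
        · exact ⟨i, h2.symm⟩
        · exact ⟨i, h1.trans h2.symm⟩)
      (fun hh => Or.inl hh)
    have hw : ∑ e ∈ X, w2 e.2 = ∑ i, ∑ e : Ed, if Q i e then w2 e else 0 := by
      have e1 : ∑ e ∈ X, w2 e.2 = ∑ e : I × Ed, if e ∈ X then w2 e.2 else 0 := by
        rw [← Finset.sum_filter]
        congr 1
        ext e
        simp
      rw [e1, Fintype.sum_prod_type]
      refine sum_congr rfl (fun i _ => sum_congr rfl (fun e _ => ?_))
      by_cases hh : (i, e) ∈ X <;> simp [Q, hh]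
    have htab : ∑ i, ((∑ e : Ed, if Q i e then w2 e else 0) +
        2 * ((rT (Q i)).toNat + (rB (Q i)).toNat + (rV (Q i)).toNat) +
        2 * ((sT (Q i)).toNat + (rB (Q i)).toNat)) ≤ ∑ i, (10 + tau (Q i)) :=
      sum_le_sum (fun i _ => table (Q i))
    simp only [sum_add_distrib, ← Finset.mul_sum, sum_const, card_univ, smul_eq_mul] at htab
    have c1 : Rx.card ≤ ∑ i, (rT (Q i)).toNat + ∑ i, (rB (Q i)).toNat +
        ∑ i, (rV (Q i)).toNat + bxy := by
      refine (card_union_le _ _).trans ?_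
      refine Nat.add_le_add ?_ (by by_cases hh : xy <;> simp [bxy, hh])
      refine (card_union_le _ _).trans ?_
      refine Nat.add_le_add ?_ (Dev_card _ _)
      refine (card_union_le _ _).trans ?_
      exact Nat.add_le_add (Dev_card _ _) (Dev_card _ _)
    have c2 : Rv.card ≤ ∑ i, (sT (Q i)).toNat + ∑ i, (rB (Q i)).toNat +
        bxv + byxv := by
      refine (card_union_le _ _).trans ?_
      refine Nat.add_le_add ?_ (by by_cases hh : yxv <;> simp [byxv, hh])
      refine (card_union_le _ _).trans ?_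
      refine Nat.add_le_add ?_ (by by_cases hh : xv <;> simp [bxv, hh])
      refine (card_union_le _ _).trans ?_
      exact Nat.add_le_add (Dev_card _ _) (Dev_card _ _)
    rw [hw]
    omega

end OTh
end

section

/-!
The rotation of the real line at `c`.

`ψ w = c - 1 / w` maps `HH` into `HH` (`Im (- 1 / w) = Im w / |w| ^ 2`), it is injective and holomorphic on `HH` and continuous at the real
numbers `x ≠ 0`; with `g t = - 1 / (t - c)` we have `ψ (g t) = t` for `t ≠ c`.
-/

set_option autoImplicit false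

namespace OTh

open Set Filter Topology Complex

/-- the rotation -/
noncomputable def TRot_psi (c : ℝ) (w : ℂ) : ℂ := c - w⁻¹

theorem TRot_ne {w : ℂ} (hw : w ∈ HH) : w ≠ 0 := by
  rintro rfl
  simp [HH] at hw

theorem TRot_maps (c : ℝ) : MapsTo (TRot_psi c) HH HH := by
  intro w hw
  have h0 := TRot_ne hw
  have h1 : 0 < w.im := hw
  have h2 : 0 < Complex.normSq w := Complex.normSq_pos.2 h0
  show 0 < (TRot_psi c w).im
  have h3 : (TRot_psi c w).im = w.im / Complex.normSq w := by
    simp [TRot_psi, Complex.inv_im, neg_div]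
  rw [h3]
  exact div_pos h1 h2

theorem TRot_selfMap (c : ℝ) : SelfMap (TRot_psi c) where
  diff := by
    intro w hw
    have h0 := TRot_ne hw
    unfold TRot_psi
    exact ((differentiableAt_const _).sub (differentiableAt_inv h0)).differentiableWithinAt
  inj := by
    intro w _ z _ h
    have h1 : (c : ℂ) - w⁻¹ = c - z⁻¹ := h
    have h2 : w⁻¹ = z⁻¹ := by linear_combination -h1
    exact inv_injective h2
  maps := TRot_maps c

theorem TRot_corner (c t : ℝ) (ht : t ≠ c) : CornerR (TRot_psi c) (-(t - c)⁻¹) t := by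
  have h0 : (t : ℂ) - c ≠ 0 := by
    rw [sub_ne_zero]
    exact_mod_cast ht
  have h1 : ((-(t - c)⁻¹ : ℝ) : ℂ) ≠ 0 := by
    push_cast
    exact neg_ne_zero.2 (inv_ne_zero h0)
  have h2 : ContinuousAt (TRot_psi c) ((-(t - c)⁻¹ : ℝ) : ℂ) := by
    unfold TRot_psi
    exact continuousAt_const.sub (continuousAt_inv₀ h1)
  have h3 : TRot_psi c ((-(t - c)⁻¹ : ℝ) : ℂ) = t := by
    unfold TRot_psi
    push_cast
    rw [inv_neg, inv_inv]
    ring
  unfold CornerR
  refine tendsto_nhdsWithin_iff.2 ⟨?_, ?_⟩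
  · have h4 := h2.tendsto
    rw [h3] at h4
    exact h4.mono_left nhdsWithin_le_nhds
  · exact eventually_nhdsWithin_of_forall (fun w hw => TRot_maps c hw)

/-- Take `ψ w = c - 1 / w` and `g t = - 1 / (t - c)`. -/
theorem exists_rot (c : ℝ) : ∃ (ψ : ℂ → ℂ) (g : ℝ → ℝ), SelfMap ψ ∧ StrictMonoOn g (Iio c) ∧
    StrictMonoOn g (Ioi c) ∧ MapsTo g (Iio c) (Ioi 0) ∧ MapsTo g (Ioi c) (Iio 0) ∧
    ∀ t, t ≠ c → CornerR ψ (g t) t := by
  refine ⟨TRot_psi c, fun t => -(t - c)⁻¹, TRot_selfMap c, ?_, ?_, ?_, ?_,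
    fun t ht => TRot_corner c t ht⟩
  · intro x hx y hy hxy
    have hx' : x - c < 0 := sub_neg.2 hx
    have hy' : y - c < 0 := sub_neg.2 hy
    show -(x - c)⁻¹ < -(y - c)⁻¹
    rw [neg_lt_neg_iff]
    exact (inv_lt_inv_of_neg hy' hx').2 (by linarith)
  · intro x hx y hy hxy
    have hx' : 0 < x - c := sub_pos.2 hx
    have hy' : 0 < y - c := sub_pos.2 hy
    show -(x - c)⁻¹ < -(y - c)⁻¹
    rw [neg_lt_neg_iff]
    exact (inv_lt_inv₀ hy' hx').2 (by linarith)
  · intro x hx
    have hx' : x - c < 0 := sub_neg.2 hx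
    show 0 < -(x - c)⁻¹
    have := inv_lt_zero.2 hx'
    linarith
  · intro x hx
    have hx' : 0 < x - c := sub_pos.2 hx
    show -(x - c)⁻¹ < 0
    have := inv_pos.2 hx'
    linarith

end OTh
end

section

/-!
Rotation of the boundary walk of a face.

Let `L = (t, u) :: L'` be the list of corners.  Choose `c` with `t < c` and `c < p.1` for all `p ∈ L'` (`L'` is empty or take the mean of
`t` and the first number of `L'`).  With `ψ, g` of `exists_rot c` the new list of corners is
`L'.map (fun p => (g p.1, p.2)) ++ [(g t, u)]` (negative numbers in increasing order, then a positive number), and `φ ∘ ψ` tends to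
`pt p.2` at `g p.1` by composition.
-/

set_option autoImplicit false

namespace OTh

open Set Filter Topology Complex

theorem faceMap_rotate {V : Type*} {pt : V → ℂ} {u : V} {w : List V} {φ : ℂ → ℂ}
    (h : FaceMap pt (u :: w) φ) : ∃ ψ, SelfMap ψ ∧ FaceMap pt (w ++ [u]) (φ ∘ ψ) := by
  obtain ⟨hd, hi, L, hL1, hL2, hL3⟩ := h
  cases L with
  | nil => simp at hL1
  | cons q L' =>
    obtain ⟨t, u'⟩ := q
    simp only [List.map_cons, List.cons.injEq] at hL1
    obtain ⟨rfl, hw⟩ := hL1
    rw [List.pairwise_cons] at hL2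
    obtain ⟨ht, hP⟩ := hL2
    have hc : ∃ c : ℝ, t < c ∧ ∀ p ∈ L', c < p.1 := by
      cases L' with
      | nil => exact ⟨t + 1, by linarith, by simp⟩
      | cons q L'' =>
        have h1 : t < q.1 := ht q (by simp)
        rw [List.pairwise_cons] at hP
        refine ⟨(t + q.1) / 2, by linarith, ?_⟩
        intro p hp
        rcases List.mem_cons.1 hp with rfl | hp
        · linarith
        · have := hP.1 p hp
          linarith
    obtain ⟨c, hc1, hc2⟩ := hc
    obtain ⟨ψ, g, hψ, hg1, hg2, hg3, hg4, hg5⟩ := exists_rot c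
    refine ⟨ψ, hψ, hd.comp hψ.diff hψ.maps, hi.comp hψ.inj hψ.maps,
      L'.map (fun p => (g p.1, p.2)) ++ [(g t, u')], ?_, ?_, ?_⟩
    · rw [List.map_append, List.map_map, ← hw]
      rfl
    · rw [List.pairwise_append]
      refine ⟨?_, List.pairwise_singleton _ _, ?_⟩
      · rw [List.pairwise_map]
        refine hP.imp_of_mem ?_
        intro a b ha hb hab
        exact hg2 (hc2 a ha) (hc2 b hb) hab
      · intro a ha b hb
        rw [List.mem_singleton] at hb
        subst hb
        obtain ⟨p, hp, rfl⟩ := List.mem_map.1 ha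
        have h1 : g p.1 < 0 := hg4 (hc2 p hp)
        have h2 : 0 < g t := hg3 hc1
        exact h1.trans h2
    · intro p hp
      rcases List.mem_append.1 hp with hp | hp
      · obtain ⟨a, ha, rfl⟩ := List.mem_map.1 hp
        exact (hL3 a (List.mem_cons_of_mem _ ha)).comp (hg5 a.1 (hc2 a ha).ne')
      · rw [List.mem_singleton] at hp
        subst hp
        exact (hL3 (t, u') (by simp)).comp (hg5 t hc1.ne)

end OTh
end

section

/-!
The ring: `s` hubs `x k`, between `x k` and `x (k + 1)` (cyclic) the two sides `(k, true)` (device with the hub `x k`) and `(k, false)` (device with the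
hub `x (k + 1)`), which share the vertices `v k i`.

PROOF of `side`.  The map `ds m : Dv I → Rg s I` (`x ↦ x (hub m)`, `y ↦ y m`, `v i ↦ v m.1 i`, `t i ↦ t m i`, `b i ↦ b m i`) is injective and
`rep (m, i, e) = (ds m (dep (i, e)).1, ds m (dep (i, e)).2)`.  Apply `device` to `{(i, e) | (m, i, e) ∈ X}` and `f ∘ ds m`; the graph is mapped
into `lgr rep {e ∈ X | e.1 = m}` (reachability by `SimpleGraph.Reachable.map` of the homomorphism).  `Rx`, `Rv`: images under `ds m`.
-/

set_option autoImplicit false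

namespace OTh

open Finset
open scoped Classical

/-- vertices of the ring -/
inductive Rg (s : ℕ) (I : Type)
  | x (k : Fin s)
  | y (m : Fin s × Bool)
  | v (k : Fin s) (i : I)
  | t (m : Fin s × Bool) (i : I)
  | b (m : Fin s × Bool) (i : I)
  deriving DecidableEq, Fintype

/-- labels of the edges of the ring -/
abbrev Lb (s : ℕ) (I : Type) := (Fin s × Bool) × I × Ed

variable {s : ℕ} [NeZero s] {I : Type}

/-- the hub of a side -/
def hub (m : Fin s × Bool) : Fin s := if m.2 then m.1 else m.1 + 1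

/-- the side `m` as a device -/
def ds (m : Fin s × Bool) : Dv I → Rg s I
  | .x => .x (hub m)
  | .y => .y m
  | .v i => .v m.1 i
  | .t i => .t m i
  | .b i => .b m i

/-- ends of the edges -/
def rep (e : Lb s I) : Rg s I × Rg s I := (ds e.1 (dep e.2).1, ds e.1 (dep e.2).2)

/-- all consecutive hubs are joined inside the slots -/
def full (X : Finset (Lb s I)) : Prop :=
  ∀ k : Fin s, (lgr rep {e | e ∈ X ∧ e.1.1 = k}).Reachable (Rg.x k) (Rg.x (k + 1))

theorem Ring_ds_inj (m : Fin s × Bool) : Function.Injective (ds (I := I) m) := by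
  intro a b h
  cases a <;> cases b <;> simp_all [ds]

theorem Ring_hom (X : Finset (Lb s I)) (X' : Finset (I × Ed)) (m : Fin s × Bool)
    (hX' : ∀ p, p ∈ X' → (m, p) ∈ X) {a b : Dv I}
    (h : (lgr dep (X' : Set (I × Ed))).Adj a b) :
    (lgr rep {e | e ∈ X ∧ e.1 = m}).Adj (ds m a) (ds m b) := by
  obtain ⟨h1, p, hp, h2⟩ := h
  refine ⟨fun h => h1 (Ring_ds_inj m h), (m, p), ⟨hX' p (by simpa using hp), rfl⟩, ?_⟩
  rcases h2 with h2 | h2
  · left
    simp only [rep, h2]
  · right
    simp only [rep, h2]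

theorem Ring_reach (X : Finset (Lb s I)) (X' : Finset (I × Ed)) (m : Fin s × Bool)
    (hX' : ∀ p, p ∈ X' → (m, p) ∈ X) {a b : Dv I}
    (h : (lgr dep (X' : Set (I × Ed))).Reachable a b) :
    (lgr rep {e | e ∈ X ∧ e.1 = m}).Reachable (ds m a) (ds m b) :=
  SimpleGraph.Reachable.map (G := lgr dep (X' : Set (I × Ed)))
    (G' := lgr rep {e | e ∈ X ∧ e.1 = m}) ⟨ds m, fun h => Ring_hom X X' m hX' h⟩ h

theorem side [Fintype I] (X : Finset (Lb s I)) (f : Rg s I → ℕ) (hf : Function.Injective f)
    (h : NonCr (lgr rep (X : Set (Lb s I))) f) (m : Fin s × Bool) :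
    ∃ Rx Rv : Finset (Rg s I),
      (∀ u : Dv I, (lgr rep {e | e ∈ X ∧ e.1 = m}).Reachable (ds m u) (.x (hub m)) ∨
        ∃ ρ ∈ Rx, (lgr rep {e | e ∈ X ∧ e.1 = m}).Reachable (ds m u) ρ) ∧
      (∀ u : Dv I, (∃ i, (lgr rep {e | e ∈ X ∧ e.1 = m}).Reachable (ds m u) (.v m.1 i)) ∨
        ∃ ρ ∈ Rv, (lgr rep {e | e ∈ X ∧ e.1 = m}).Reachable (ds m u) ρ) ∧
      (∑ e ∈ X.filter (fun e => e.1 = m), w2 e.2.2) + 2 * Rx.card + 2 * Rv.card ≤
        6 + 10 * Fintype.card I := by
  let X' : Finset (I × Ed) := Finset.univ.filter (fun p => (m, p) ∈ X)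
  have hX' : ∀ p, p ∈ X' ↔ (m, p) ∈ X := by
    intro p
    simp [X']
  have hX1 : ∀ p, p ∈ X' → (m, p) ∈ X := fun p hp => (hX' p).1 hp
  have hle : lgr rep {e | e ∈ X ∧ e.1 = m} ≤ lgr rep (X : Set (Lb s I)) :=
    lgr_mono _ (fun e he => by simpa using he.1)
  have hN : NonCr (lgr dep (X' : Set (I × Ed))) (fun u => f (ds m u)) := by
    intro a b c d hab hcd
    exact h _ _ _ _ (hle (Ring_hom X X' m hX1 hab)) (hle (Ring_hom X X' m hX1 hcd))
  obtain ⟨Rx, Rv, h1, h2, h3⟩ := device X' (fun u => f (ds m u))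
    (fun a b hab => Ring_ds_inj m (hf hab)) hN
  refine ⟨Rx.image (ds m), Rv.image (ds m), ?_, ?_, ?_⟩
  · intro u
    rcases h1 u with h4 | ⟨ρ, hρ, h4⟩
    · exact Or.inl (Ring_reach X X' m hX1 h4)
    · exact Or.inr ⟨ds m ρ, mem_image_of_mem _ hρ, Ring_reach X X' m hX1 h4⟩
  · intro u
    rcases h2 u with ⟨i, h4⟩ | ⟨ρ, hρ, h4⟩
    · exact Or.inl ⟨i, Ring_reach X X' m hX1 h4⟩
    · exact Or.inr ⟨ds m ρ, mem_image_of_mem _ hρ, Ring_reach X X' m hX1 h4⟩
  · have hs : ∑ e ∈ X.filter (fun e => e.1 = m), w2 e.2.2 = ∑ p ∈ X', w2 p.2 := by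
      refine Finset.sum_bij' (fun e _ => e.2) (fun p _ => (m, p)) ?_ ?_ ?_ ?_ ?_
      · rintro ⟨m', p⟩ he
        rw [mem_filter] at he
        obtain ⟨he, rfl⟩ := he
        exact (hX' p).2 he
      · intro p hp
        rw [mem_filter]
        exact ⟨(hX' p).1 hp, rfl⟩
      · rintro ⟨m', p⟩ he
        rw [mem_filter] at he
        obtain ⟨_, rfl⟩ := he
        rfl
      · intro p _
        rfl
      · intro e _
        rfl
    rw [hs]
    have c1 : (Rx.image (ds m)).card ≤ Rx.card := card_image_le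
    have c2 : (Rv.image (ds m)).card ≤ Rv.card := card_image_le
    omega

/-- the vertices of the ring as a sum -/
def Ring_equiv : Rg s I ≃ Fin s ⊕ (Fin s × Bool) ⊕ (Fin s × I) ⊕ ((Fin s × Bool) × I) ⊕
    ((Fin s × Bool) × I) where
  toFun
    | .x k => .inl k
    | .y m => .inr (.inl m)
    | .v k i => .inr (.inr (.inl (k, i)))
    | .t m i => .inr (.inr (.inr (.inl (m, i))))
    | .b m i => .inr (.inr (.inr (.inr (m, i))))
  invFun
    | .inl k => .x k
    | .inr (.inl m) => .y m
    | .inr (.inr (.inl (k, i))) => .v k i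
    | .inr (.inr (.inr (.inl (m, i)))) => .t m i
    | .inr (.inr (.inr (.inr (m, i)))) => .b m i
  left_inv u := by cases u <;> rfl
  right_inv u := by
    rcases u with k | m | ⟨k, i⟩ | ⟨m, i⟩ | ⟨m, i⟩ <;> rfl

theorem card_Rg [Fintype I] : Fintype.card (Rg s I) = 3 * s + 5 * s * Fintype.card I := by
  rw [Fintype.card_congr (Ring_equiv (s := s) (I := I))]
  simp only [Fintype.card_sum, Fintype.card_prod, Fintype.card_fin, Fintype.card_bool]
  ring

end OTh
end
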