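import Pool.Agent.Lib.MP_9750df_co.Defs
import Pool.Agent.Lib.MP_9750df_co.Ring

section

/-!
Spanning forests.

PROOF of `exists_forest`.  Choose a root in each connected component: `rt c` with `R.connectedComponentMk (rt c) = c`, `root u = rt (component of u)`,
`d u = R.dist u (root u)`.  A vertex `u ≠ root u` has a neighbour `par u` (for `R`) with `d (par u) + 1 = d u` (`par u` lies in the same component, so
it has the same root; next vertex on a shortest walk).  `T.Adj u v ↔ (u ≠ root u ∧ v = par u) ∨ (v ≠ root v ∧ u = par v)`.  The map `u ↦ s(u, par u)` from the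
non-roots to `T.edgeSet` is a bijection (injective by `d`: `s(u, par u) = s(v, par v)`, `u ≠ v` gives `v = par u`, `u = par v`), the number
of roots is the number of components.  `R.ConnectedComponent` is finite: `Nat.card`, `Set.ncard`.
Cycle: let `k ≤ r` be such that `d (p k)` is maximal.  For a neighbour `v` of `p k` for `T`: `v = par (p k)` (otherwise `p k = par v`, `d v = d (p k) + 1`; the
neighbours in question are among the `p i`).  So the two neighbours of `p k` on the cycle (`p (k-1)`, `p (k+1)`, cyclically, different from each other as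
`2 ≤ r`) are both `par (p k)`, contradiction.
(Another way: `SimpleGraph.exists_isAcyclic_reachable_eq_le` and induction over edges.)
-/

set_option autoImplicit false

namespace OTh

/-- there is no cycle -/
def NoCyc {W : Type*} (T : SimpleGraph W) : Prop :=
  ∀ (r : ℕ) (p : ℕ → W), 2 ≤ r → (∀ i ≤ r, ∀ j ≤ r, p i = p j → i = j) →
    (∀ i < r, T.Adj (p i) (p (i + 1))) → T.Adj (p r) (p 0) → False

private theorem Forest_step {W : Type*} (R : SimpleGraph W) {u v : W} (h : R.Reachable u v) (huv : u ≠ v) :
    ∃ w, R.Adj u w ∧ R.Reachable w v ∧ R.dist w v + 1 = R.dist u v := by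
  obtain ⟨p, hp⟩ := h.exists_walk_length_eq_dist
  cases p with
  | nil => exact absurd rfl huv
  | cons hadj q =>
    rename_i w
    refine ⟨w, hadj, ⟨q⟩, ?_⟩
    have h1 : R.dist w v ≤ q.length := SimpleGraph.dist_le q
    obtain ⟨q', hq'⟩ := (SimpleGraph.Walk.reachable q).exists_walk_length_eq_dist
    have h2 : R.dist u v ≤ (SimpleGraph.Walk.cons hadj q').length := SimpleGraph.dist_le _
    simp only [SimpleGraph.Walk.length_cons] at hp h2
    omega

theorem exists_forest {W : Type*} [Fintype W] (R : SimpleGraph W) :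
    ∃ T : SimpleGraph W, T ≤ R ∧ T.edgeSet.ncard + Nat.card R.ConnectedComponent = Fintype.card W ∧
      NoCyc T := by
  classical
  let rt : R.ConnectedComponent → W := fun c => Quot.out c
  have hrt : ∀ c, R.connectedComponentMk (rt c) = c := fun c => Quot.out_eq c
  let root : W → W := fun u => rt (R.connectedComponentMk u)
  have hroot : ∀ u, R.connectedComponentMk (root u) = R.connectedComponentMk u := fun u => hrt _
  have hreach : ∀ u, R.Reachable u (root u) := fun u =>
    (SimpleGraph.ConnectedComponent.exact (hroot u)).symm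
  let d : W → ℕ := fun u => R.dist u (root u)
  have hex : ∀ u, ∃ v, u ≠ root u → (R.Adj u v ∧ d v + 1 = d u) := by
    intro u
    by_cases hu : u = root u
    · exact ⟨u, fun h => absurd hu h⟩
    · obtain ⟨v, hv1, hv2, hv3⟩ := Forest_step R (hreach u) hu
      refine ⟨v, fun _ => ⟨hv1, ?_⟩⟩
      have hr : root v = root u := by
        have : R.connectedComponentMk v = R.connectedComponentMk u :=
          SimpleGraph.ConnectedComponent.sound hv1.symm.reachable
        simp only [root, this]
      show R.dist v (root v) + 1 = R.dist u (root u)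
      rw [hr]
      exact hv3
  choose par hpar using hex
  have hne : ∀ u, u ≠ root u → u ≠ par u := fun u hu => (hpar u hu).1.ne
  let T : SimpleGraph W :=
    { Adj := fun u v => (u ≠ root u ∧ v = par u) ∨ (v ≠ root v ∧ u = par v)
      symm := ⟨fun u v h => Or.symm h⟩
      loopless := ⟨fun u h => by
        rcases h with ⟨h1, h2⟩ | ⟨h1, h2⟩
        · exact hne u h1 h2
        · exact hne u h1 h2⟩ }
  have hT : ∀ u v, T.Adj u v ↔ ((u ≠ root u ∧ v = par u) ∨ (v ≠ root v ∧ u = par v)) :=
    fun u v => Iff.rfl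
  refine ⟨T, ?_, ?_, ?_⟩
  · intro u v h
    rcases (hT u v).1 h with ⟨h1, h2⟩ | ⟨h1, h2⟩
    · rw [h2]; exact (hpar u h1).1
    · rw [h2]; exact (hpar v h1).1.symm
  · -- counting
    let S : Set W := Set.range rt
    have hinj : Function.Injective rt := by
      intro a b hab
      rw [← hrt a, ← hrt b, hab]
    have hS : ∀ u, u ∈ S ↔ u = root u := by
      intro u
      constructor
      · rintro ⟨c, rfl⟩
        show rt c = rt (R.connectedComponentMk (rt c))
        rw [hrt]
      · intro h
        exact ⟨R.connectedComponentMk u, h.symm⟩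
    have hE : T.edgeSet = (fun u => s(u, par u)) '' Sᶜ := by
      ext e
      induction e using Sym2.ind with
      | _ u v =>
        rw [SimpleGraph.mem_edgeSet, hT]
        constructor
        · rintro (⟨h1, h2⟩ | ⟨h1, h2⟩)
          · exact ⟨u, fun h => h1 ((hS u).1 h), by simp only [h2]⟩
          · refine ⟨v, fun h => h1 ((hS v).1 h), ?_⟩
            simp only [h2]
            exact Sym2.eq_swap
        · rintro ⟨w, hw, he⟩
          have hw' : w ≠ root w := fun h => hw ((hS w).2 h)
          simp only [Sym2.eq_iff] at he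
          rcases he with ⟨h1, h2⟩ | ⟨h1, h2⟩
          · left; rw [← h1]; exact ⟨hw', h2.symm⟩
          · right; rw [← h1]; exact ⟨hw', h2.symm⟩
    have hcard : T.edgeSet.ncard = (Sᶜ).ncard := by
      rw [hE]
      apply Set.ncard_image_of_injOn
      intro u hu v hv huv
      have hu' : u ≠ root u := fun h => hu ((hS u).2 h)
      have hv' : v ≠ root v := fun h => hv ((hS v).2 h)
      simp only [Sym2.eq_iff] at huv
      rcases huv with ⟨h1, _⟩ | ⟨h1, h2⟩
      · exact h1
      · have a1 := (hpar u hu').2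
        have a2 := (hpar v hv').2
        rw [h2] at a1
        rw [← h1] at a2
        omega
    have hSc : S.ncard = Nat.card R.ConnectedComponent := by
      show (Set.range rt).ncard = _
      rw [← Set.image_univ, Set.ncard_image_of_injective _ hinj, Set.ncard_univ]
    have htot := Set.ncard_add_ncard_compl S
    rw [Nat.card_eq_fintype_card] at htot
    rw [hcard, ← hSc]
    omega
  · intro r p hr hinj hadj hclose
    obtain ⟨k, hk, hmax⟩ := Finset.exists_max_image (Finset.range (r + 1)) (fun i => d (p i))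
      ⟨0, by simp⟩
    have hkr : k ≤ r := by have := Finset.mem_range.1 hk; omega
    have key : ∀ j ≤ r, T.Adj (p k) (p j) → p j = par (p k) := by
      intro j hj h
      rcases (hT _ _).1 h with ⟨_, h2⟩ | ⟨h1, h2⟩
      · exact h2
      · have a1 := (hpar (p j) h1).2
        rw [← h2] at a1
        have a2 := hmax j (Finset.mem_range.2 (by omega))
        omega
    have hnext : ∃ j ≤ r, T.Adj (p k) (p j) ∧ j = (if k < r then k + 1 else 0) := by
      by_cases h : k < r
      · exact ⟨k + 1, by omega, hadj k h, by simp [h]⟩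
      · have : k = r := by omega
        subst this
        exact ⟨0, by omega, hclose, by simp⟩
    have hprev : ∃ j ≤ r, T.Adj (p k) (p j) ∧ j = (if 0 < k then k - 1 else r) := by
      by_cases h : 0 < k
      · refine ⟨k - 1, by omega, ?_, by simp [h]⟩
        have := (hadj (k - 1) (by omega)).symm
        rwa [Nat.sub_add_cancel h] at this
      · have : k = 0 := by omega
        subst this
        exact ⟨r, le_refl _, hclose.symm, by simp⟩
    obtain ⟨j1, hj1, ha1, he1⟩ := hnext
    obtain ⟨j2, hj2, ha2, he2⟩ := hprev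
    have e := hinj j1 hj1 j2 hj2 ((key j1 hj1 ha1).trans (key j2 hj2 ha2).symm)
    rw [he1, he2] at e
    split_ifs at e <;> omega

end OTh
end

section

/-!
Edges of outerplanar graphs of large girth: the induction over intervals.

`E` is a set of pairs `a < b`; `e a b` = number of pairs of `E` inside the interval `[a, b]`.

PROOF of `girth_core`.  By strong induction on `b - a` (`a ≤ b`) we prove both
 (A) `g * e a b ≤ (g + 1) * (b - a)`;
 (B) if `(a, b) ∈ E` then `g * e a b + 1 ≤ (g + 1) * (b - a)`.
(B) implies (A) for this interval; `b = a`: `e = 0`; `b = a + 1`: `e ≤ 1`.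
(A), `(a, b) ∉ E`, `a < b`: if `a` has no neighbour in `(a, b]`: `e a b = e (a+1) b`.  Otherwise let `m` be the largest neighbour of `a` in `(a, b]`; `m < b`
and `e a b = e a m + e m b` (a pair `(c, d)` with `c < m < d`: `c ≠ a` by the choice of `m`, so `a < c < m < d` interleaves with `(a, m)`).
(B), `a + 1 < b`: let `e' q` be the number of pairs of `E` inside `[q, b]` different from `(a, b)`, so `e a b = e' a + 1`.  Claim, by induction on `b - q`
for `a ≤ q < b` and an increasing path from `a` to `q` with `t` edges of `E` (`MPath`, `q = a` iff `t = 0`), none of whose edges is `(a, b)`: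
 (C) `g * e' q + (g + 1 - t) ≤ (g + 1) * (b - q)` (truncated subtraction in `ℕ`).
For `q = a`, `t = 0` this gives `g * e a b + 1 = g * e' a + g + 1 ≤ (g + 1) * (b - a)`.
Proof of (C).  If `q` has no neighbour in `(q, b]` (for `q = a`: in `(a, b)`): `e' q ≤ e (q+1) b`, (A) for `[q+1, b]`.  Otherwise let `p` be the largest such neighbour.
 * `p < b`: `e' q ≤ e q p + e' p` (as in (A); for `q = a` the pair `(a, b)` is excluded in `e'`), use (B) for `[q, p]` and (C) for `p`, `t + 1`.
 * `p = b` (so `q ≠ a`, `1 ≤ t`): `hcyc` gives `g ≤ t`, so `g + 1 - t ≤ 1`; `e' q ≤ e q b`, use (B) for `[q, b]` (`b - q < b - a`).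
Finally apply (A) to `[0, n - 1]`.
-/

set_option autoImplicit false

namespace OTh

open Finset
open scoped Classical

/-- increasing path from `a` with `t` edges of `E` -/
inductive MPath (E : Finset (ℕ × ℕ)) (a : ℕ) : ℕ → ℕ → Prop
  | nil : MPath E a a 0
  | snoc {q p t : ℕ} (h : MPath E a q t) (hqp : (q, p) ∈ E) : MPath E a p (t + 1)

/-- number of pairs of `E` inside `[a, b]` -/
private noncomputable def GirA_cnt (E : Finset (ℕ × ℕ)) (a b : ℕ) : ℕ :=
  (E.filter fun e => a ≤ e.1 ∧ e.2 ≤ b).card

/-- number of pairs of `E` inside `[q, b]` different from `(a, b)` -/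
private noncomputable def GirA_cnt' (E : Finset (ℕ × ℕ)) (a b q : ℕ) : ℕ :=
  (E.filter fun e => q ≤ e.1 ∧ e.2 ≤ b ∧ e ≠ (a, b)).card

private theorem GirA_cnt_self {E : Finset (ℕ × ℕ)} (hlt : ∀ e ∈ E, e.1 < e.2) (a : ℕ) :
    GirA_cnt E a a = 0 := by
  unfold GirA_cnt
  rw [Finset.card_eq_zero, Finset.filter_eq_empty_iff]
  intro e he h
  have := hlt e he
  omega

private theorem GirA_cnt_succ {E : Finset (ℕ × ℕ)} (hlt : ∀ e ∈ E, e.1 < e.2) (a : ℕ) :
    GirA_cnt E a (a + 1) ≤ 1 := by
  unfold GirA_cnt
  have h : (E.filter fun e => a ≤ e.1 ∧ e.2 ≤ a + 1) ⊆ {(a, a + 1)} := by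
    intro e he
    rw [Finset.mem_filter] at he
    have := hlt e he.1
    rw [Finset.mem_singleton]
    ext <;> simp <;> omega
  exact (Finset.card_le_card h).trans (by simp)

/-- the splitting at the largest neighbour -/
private theorem GirA_split {E : Finset (ℕ × ℕ)}
    (hnc : ∀ e ∈ E, ∀ e' ∈ E, ¬ (e.1 < e'.1 ∧ e'.1 < e.2 ∧ e.2 < e'.2)) {q p b : ℕ}
    (hqp : (q, p) ∈ E) (hmax : ∀ d, (q, d) ∈ E → d ≤ b → d ≤ p) :
    GirA_cnt E q b ≤ GirA_cnt E q p + GirA_cnt E p b := by
  unfold GirA_cnt
  refine (Finset.card_le_card (t := (E.filter fun e => q ≤ e.1 ∧ e.2 ≤ p) ∪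
    (E.filter fun e => p ≤ e.1 ∧ e.2 ≤ b)) ?_).trans (Finset.card_union_le _ _)
  rintro ⟨c, d⟩ he
  rw [Finset.mem_filter] at he
  rw [Finset.mem_union, Finset.mem_filter, Finset.mem_filter]
  obtain ⟨hE, h1, h2⟩ := he
  dsimp only at h1 h2 ⊢
  by_cases h3 : d ≤ p
  · exact Or.inl ⟨hE, h1, h3⟩
  · right
    refine ⟨hE, ?_, h2⟩
    by_contra h4
    rcases Nat.eq_or_lt_of_le h1 with h5 | h5
    · subst h5
      exact h3 (hmax d hE h2)
    · exact hnc _ hqp _ hE ⟨h5, by dsimp only; omega, by dsimp only; omega⟩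

private theorem GirA_split' {E : Finset (ℕ × ℕ)}
    (hnc : ∀ e ∈ E, ∀ e' ∈ E, ¬ (e.1 < e'.1 ∧ e'.1 < e.2 ∧ e.2 < e'.2)) {a q p b : ℕ}
    (hqp : (q, p) ∈ E) (hmax : ∀ d, (q, d) ∈ E → d ≤ b → (q, d) ≠ (a, b) → d ≤ p) :
    GirA_cnt' E a b q ≤ GirA_cnt E q p + GirA_cnt' E a b p := by
  unfold GirA_cnt GirA_cnt'
  refine (Finset.card_le_card (t := (E.filter fun e => q ≤ e.1 ∧ e.2 ≤ p) ∪
    (E.filter fun e => p ≤ e.1 ∧ e.2 ≤ b ∧ e ≠ (a, b))) ?_).trans (Finset.card_union_le _ _)
  rintro ⟨c, d⟩ he
  rw [Finset.mem_filter] at he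
  rw [Finset.mem_union, Finset.mem_filter, Finset.mem_filter]
  obtain ⟨hE, h1, h2, h6⟩ := he
  dsimp only at h1 h2 ⊢
  by_cases h3 : d ≤ p
  · exact Or.inl ⟨hE, h1, h3⟩
  · right
    refine ⟨hE, ?_, h2, h6⟩
    by_contra h4
    rcases Nat.eq_or_lt_of_le h1 with h5 | h5
    · subst h5
      exact h3 (hmax d hE h2 h6)
    · exact hnc _ hqp _ hE ⟨h5, by dsimp only; omega, by dsimp only; omega⟩

private theorem GirA_none {E : Finset (ℕ × ℕ)} {q b : ℕ}
    (h : ∀ d, (q, d) ∈ E → ¬ d ≤ b) : GirA_cnt E q b ≤ GirA_cnt E (q + 1) b := by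
  unfold GirA_cnt
  refine Finset.card_le_card ?_
  rintro ⟨c, d⟩ he
  rw [Finset.mem_filter] at he ⊢
  obtain ⟨hE, h1, h2⟩ := he
  dsimp only at h1 h2 ⊢
  refine ⟨hE, ?_, h2⟩
  rcases Nat.eq_or_lt_of_le h1 with h5 | h5
  · subst h5
    exact absurd h2 (h d hE)
  · exact h5

private theorem GirA_none' {E : Finset (ℕ × ℕ)} {a q b : ℕ}
    (h : ∀ d, (q, d) ∈ E → d ≤ b → (q, d) = (a, b)) :
    GirA_cnt' E a b q ≤ GirA_cnt E (q + 1) b := by
  unfold GirA_cnt GirA_cnt'
  refine Finset.card_le_card ?_
  rintro ⟨c, d⟩ he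
  rw [Finset.mem_filter] at he ⊢
  obtain ⟨hE, h1, h2, h6⟩ := he
  dsimp only at h1 h2 ⊢
  refine ⟨hE, ?_, h2⟩
  rcases Nat.eq_or_lt_of_le h1 with h5 | h5
  · subst h5
    exact absurd (h d hE h2) h6
  · exact h5

private theorem GirA_le {E : Finset (ℕ × ℕ)} (a b q : ℕ) :
    GirA_cnt' E a b q ≤ GirA_cnt E q b := by
  unfold GirA_cnt GirA_cnt'
  refine Finset.card_le_card ?_
  intro e he
  rw [Finset.mem_filter] at he ⊢
  exact ⟨he.1, he.2.1, he.2.2.1⟩

private theorem GirA_succ {E : Finset (ℕ × ℕ)} {a b : ℕ} :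
    GirA_cnt E a b ≤ GirA_cnt' E a b a + 1 := by
  unfold GirA_cnt GirA_cnt'
  have h : (E.filter fun e => a ≤ e.1 ∧ e.2 ≤ b) ⊆
      insert (a, b) (E.filter fun e => a ≤ e.1 ∧ e.2 ≤ b ∧ e ≠ (a, b)) := by
    intro e he
    rw [Finset.mem_filter] at he
    rw [Finset.mem_insert, Finset.mem_filter]
    by_cases h1 : e = (a, b)
    · exact Or.inl h1
    · exact Or.inr ⟨he.1, he.2.1, he.2.2, h1⟩
  exact (Finset.card_le_card h).trans (Finset.card_insert_le _ _)

/-- a largest neighbour -/
private theorem GirA_max {P : ℕ → Prop} {b : ℕ} (h : ∃ d, P d ∧ d ≤ b) :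
    ∃ p, P p ∧ p ≤ b ∧ ∀ d, P d → d ≤ b → d ≤ p := by
  have hne : ((Finset.range (b + 1)).filter P).Nonempty := by
    obtain ⟨d, h1, h2⟩ := h
    exact ⟨d, by rw [Finset.mem_filter, Finset.mem_range]; exact ⟨by omega, h1⟩⟩
  refine ⟨((Finset.range (b + 1)).filter P).max' hne, ?_, ?_, ?_⟩
  · exact (Finset.mem_filter.1 (Finset.max'_mem _ hne)).2
  · have := Finset.mem_range.1 (Finset.mem_filter.1 (Finset.max'_mem _ hne)).1
    omega
  · intro d h1 h2
    refine Finset.le_max' _ _ ?_
    rw [Finset.mem_filter, Finset.mem_range]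
    exact ⟨by omega, h1⟩

private theorem GirA_main {g : ℕ} {E : Finset (ℕ × ℕ)} (hlt : ∀ e ∈ E, e.1 < e.2)
    (hnc : ∀ e ∈ E, ∀ e' ∈ E, ¬ (e.1 < e'.1 ∧ e'.1 < e.2 ∧ e.2 < e'.2))
    (hcyc : ∀ a q b t : ℕ, MPath E a q t → 1 ≤ t → (q, b) ∈ E → (a, b) ∈ E → g ≤ t) (s : ℕ) :
    ∀ a b : ℕ, b = a + s → (g * GirA_cnt E a b ≤ (g + 1) * s ∧
      ((a, b) ∈ E → g * GirA_cnt E a b + 1 ≤ (g + 1) * s)) := by
  induction s using Nat.strong_induction_on with
  | _ s ih =>
    have hB : ∀ a b : ℕ, b = a + s → (a, b) ∈ E → g * GirA_cnt E a b + 1 ≤ (g + 1) * s := by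
      intro a b hab hE
      have hs : 1 ≤ s := by
        have := hlt _ hE
        dsimp only at this
        omega
      rcases Nat.eq_or_lt_of_le hs with h1 | h1
      · subst h1
        subst hab
        have h2 := GirA_cnt_succ hlt a
        have h3 := Nat.mul_le_mul_left g h2
        omega
      · have hC : ∀ r q t : ℕ, q + r = b → a ≤ q → 1 ≤ r → MPath E a q t → (q ≠ a → 1 ≤ t) →
            g * GirA_cnt' E a b q + (g + 1 - t) ≤ (g + 1) * r := by
          intro r
          induction r using Nat.strong_induction_on with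
          | _ r ihr =>
            intro q t hqr haq hr hpath hqt
            by_cases hex : ∃ d, ((q, d) ∈ E ∧ (q, d) ≠ (a, b)) ∧ d ≤ b
            · obtain ⟨p, ⟨hp1, hp2⟩, hpb, hmax⟩ := GirA_max (P := fun d => (q, d) ∈ E ∧
                (q, d) ≠ (a, b)) hex
              have hqp : q < p := hlt _ hp1
              rcases Nat.eq_or_lt_of_le hpb with h5 | h5
              · subst h5
                have hqa : q ≠ a := fun h => hp2 (by rw [h])
                have h6 := hcyc a q p t hpath (hqt hqa) hp1 hE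
                have h7 := (ih r (by omega) q p hqr.symm).2 hp1
                have h8 := Nat.mul_le_mul_left g (GirA_le (E := E) a p q)
                omega
              · have h6 := GirA_split' (a := a) (b := b) hnc hp1
                  (fun d h1 h2 h3 => hmax d ⟨h1, h3⟩ h2)
                have h7 := (ih (p - q) (by omega) q p (by omega)).2 hp1
                have h8 := ihr (b - p) (by omega) p (t + 1) (by omega) (by omega) (by omega)
                  (MPath.snoc hpath hp1) (fun _ => by omega)
                have h9 := Nat.mul_le_mul_left g h6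
                have h10 : (g + 1) * r = (g + 1) * (p - q) + (g + 1) * (b - p) := by
                  rw [← Nat.mul_add]
                  congr 1
                  omega
                rw [Nat.mul_add] at h9
                omega
            · have h6 : ∀ d, (q, d) ∈ E → d ≤ b → (q, d) = (a, b) := by
                intro d h1 h2
                by_contra h3
                exact hex ⟨d, ⟨h1, h3⟩, h2⟩
              have h7 := Nat.mul_le_mul_left g (GirA_none' h6)
              have h8 := (ih (r - 1) (by omega) (q + 1) b (by omega)).1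
              have h9 : (g + 1) * r = (g + 1) * (r - 1) + (g + 1) := by
                conv_lhs => rw [show r = (r - 1) + 1 by omega]
                rw [Nat.mul_add, Nat.mul_one]
              omega
        have h2 := hC s a 0 hab.symm le_rfl hs MPath.nil (fun h => absurd rfl h)
        have h3 := Nat.mul_le_mul_left g (GirA_succ (E := E) (a := a) (b := b))
        rw [Nat.mul_add] at h3
        omega
    intro a b hab
    refine ⟨?_, hB a b hab⟩
    by_cases hE : (a, b) ∈ E
    · have := hB a b hab hE
      omega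
    · rcases Nat.eq_zero_or_pos s with h0 | h0
      · subst h0
        subst hab
        rw [Nat.add_zero, GirA_cnt_self hlt, Nat.mul_zero]
        exact Nat.zero_le _
      · by_cases hex : ∃ d, (a, d) ∈ E ∧ d ≤ b
        · obtain ⟨m, hm1, hm2, hmax⟩ := GirA_max (P := fun d => (a, d) ∈ E) hex
          have ham : a < m := hlt _ hm1
          have hmb : m ≠ b := fun h => hE (h ▸ hm1)
          have h6 := GirA_split (b := b) hnc hm1 hmax
          have h7 := (ih (m - a) (by omega) a m (by omega)).1
          have h8 := (ih (b - m) (by omega) m b (by omega)).1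
          have h9 := Nat.mul_le_mul_left g h6
          have h10 : (g + 1) * s = (g + 1) * (m - a) + (g + 1) * (b - m) := by
            rw [← Nat.mul_add]
            congr 1
            omega
          rw [Nat.mul_add] at h9
          omega
        · have h6 : ∀ d, (a, d) ∈ E → ¬ d ≤ b := fun d h1 h2 => hex ⟨d, h1, h2⟩
          have h7 := Nat.mul_le_mul_left g (GirA_none h6)
          have h8 := (ih (s - 1) (by omega) (a + 1) b (by omega)).1
          have h9 : (g + 1) * (s - 1) ≤ (g + 1) * s := Nat.mul_le_mul_left _ (by omega)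
          omega

theorem girth_core (n g : ℕ) (hg : 1 ≤ g) (E : Finset (ℕ × ℕ)) (hlt : ∀ e ∈ E, e.1 < e.2 ∧ e.2 < n)
    (hnc : ∀ e ∈ E, ∀ e' ∈ E, ¬ (e.1 < e'.1 ∧ e'.1 < e.2 ∧ e.2 < e'.2))
    (hcyc : ∀ a q b t : ℕ, MPath E a q t → 1 ≤ t → (q, b) ∈ E → (a, b) ∈ E → g ≤ t) :
    g * E.card ≤ (g + 1) * n := by
  have h1 := (GirA_main (fun e he => (hlt e he).1) hnc hcyc (n - 1) 0 (n - 1) (by omega)).1
  have h2 : E.card ≤ GirA_cnt E 0 (n - 1) := by
    unfold GirA_cnt
    refine Finset.card_le_card ?_
    intro e he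
    rw [Finset.mem_filter]
    have := hlt e he
    exact ⟨he, by omega, by omega⟩
  have h3 := Nat.mul_le_mul_left g h2
  have h4 : (g + 1) * (n - 1) ≤ (g + 1) * n := Nat.mul_le_mul_left _ (by omega)
  omega

end OTh
end

section

/-!
A finite group generated by involutions without short relations.

PROOF of `exists_group`.  Let `X` be the (finite) set of all lists `w : List Γ` with `w.length ≤ n` in which neighbouring entries are different
(`List.IsChain (· ≠ ·)`); `Q = Equiv.Perm X`.  The involution `γ g` of `X`:  `g :: w ↦ w`; `w ↦ g :: w` if `w` does not begin with `g` and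
`w.length < n`; and `w ↦ w` if `w` does not begin with `g` and `w.length = n`.  For a nonempty list `w` of length at most `n` with different
neighbouring entries `(w.map γ).prod` maps the empty list to `w` (induction on `w`, `Equiv.Perm.mul_apply`), so it is not `1`.
-/

set_option autoImplicit false

namespace OTh

private def grpStep {Γ : Type} [DecidableEq Γ] (n : ℕ) (g : Γ) (w : List Γ) : List Γ :=
  if w.head? = some g then w.tail else if w.length < n then g :: w else w

private theorem grpStep_mem {Γ : Type} [DecidableEq Γ] (n : ℕ) (g : Γ) (w : List Γ)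
    (h : w.length ≤ n ∧ w.IsChain (· ≠ ·)) :
    (grpStep n g w).length ≤ n ∧ (grpStep n g w).IsChain (· ≠ ·) := by
  obtain ⟨h1, h2⟩ := h
  unfold grpStep
  split_ifs with h3 h4
  · constructor
    · rw [List.length_tail]; omega
    · exact h2.tail
  · constructor
    · simp only [List.length_cons]; omega
    · cases w with
      | nil => simp
      | cons a t =>
        rw [List.isChain_cons_cons]
        refine ⟨fun hg => h3 ?_, h2⟩
        simp [hg]
  · exact ⟨h1, h2⟩

private theorem grpStep_cons {Γ : Type} [DecidableEq Γ] (n : ℕ) (g : Γ) (t : List Γ)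
    (h : (g :: t).length ≤ n) (h2 : (g :: t).IsChain (· ≠ ·)) : grpStep n g t = g :: t := by
  have h3 : t.head? ≠ some g := by
    cases t with
    | nil => simp
    | cons b s =>
      rw [List.isChain_cons_cons] at h2
      simp only [List.head?_cons, ne_eq, Option.some.injEq]
      exact fun hb => h2.1 hb.symm
  have h4 : t.length < n := by
    simp only [List.length_cons] at h
    omega
  unfold grpStep
  rw [if_neg h3, if_pos h4]

private theorem grpStep_invol {Γ : Type} [DecidableEq Γ] (n : ℕ) (g : Γ) (w : List Γ)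
    (h : w.length ≤ n ∧ w.IsChain (· ≠ ·)) : grpStep n g (grpStep n g w) = w := by
  obtain ⟨h1, h2⟩ := h
  by_cases h3 : w.head? = some g
  · cases w with
    | nil => simp at h3
    | cons a t =>
      simp only [List.head?_cons, Option.some.injEq] at h3
      subst h3
      have h5 : grpStep n a (a :: t) = t := by
        unfold grpStep
        simp
      rw [h5]
      exact grpStep_cons n a t h1 h2
  · by_cases h4 : w.length < n
    · have h5 : grpStep n g w = g :: w := by
        unfold grpStep
        rw [if_neg h3, if_pos h4]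
      rw [h5]
      unfold grpStep
      simp
    · have h5 : grpStep n g w = w := by
        unfold grpStep
        rw [if_neg h3, if_neg h4]
      rw [h5, h5]

theorem exists_group (Γ : Type) [Fintype Γ] [DecidableEq Γ] (n : ℕ) :
    ∃ (Q : Type) (_ : Group Q) (_ : Fintype Q) (γ : Γ → Q), (∀ g, γ g * γ g = 1) ∧
      ∀ w : List Γ, w ≠ [] → w.length ≤ n → w.IsChain (· ≠ ·) → (w.map γ).prod ≠ 1 := by
  classical
  have hfin : Finite {w : List Γ // w.length ≤ n ∧ w.IsChain (· ≠ ·)} := by
    have h1 : ({w : List Γ | w.length ≤ n ∧ w.IsChain (· ≠ ·)}).Finite :=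
      (List.finite_length_le Γ n).subset fun w hw => hw.1
    exact h1.to_subtype
  have hft : Fintype (Equiv.Perm {w : List Γ // w.length ≤ n ∧ w.IsChain (· ≠ ·)}) :=
    Fintype.ofFinite _
  have hinv : ∀ g : Γ, Function.Involutive
      (fun w : {w : List Γ // w.length ≤ n ∧ w.IsChain (· ≠ ·)} =>
        (⟨grpStep n g w.1, grpStep_mem n g w.1 w.2⟩ :
          {w : List Γ // w.length ≤ n ∧ w.IsChain (· ≠ ·)})) := by
    intro g w
    apply Subtype.ext
    exact grpStep_invol n g w.1 w.2
  refine ⟨Equiv.Perm {w : List Γ // w.length ≤ n ∧ w.IsChain (· ≠ ·)}, inferInstance, hft,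
    fun g => (hinv g).toPerm, ?_, ?_⟩
  · intro g
    ext w
    simp only [Equiv.Perm.mul_apply, Function.Involutive.coe_toPerm, Equiv.Perm.one_apply]
    rw [grpStep_invol n g w.1 w.2]
  · intro w hw hl hch hprod
    have key : ∀ (w : List Γ) (h : w.length ≤ n ∧ w.IsChain (· ≠ ·)),
        (w.map fun g => (hinv g).toPerm).prod ⟨[], by simp⟩ = ⟨w, h⟩ := by
      intro w
      induction w with
      | nil =>
        intro h
        simp
      | cons g t ih =>
        intro h
        have ht : t.length ≤ n ∧ t.IsChain (· ≠ ·) := by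
          refine ⟨?_, h.2.tail⟩
          have := h.1
          simp only [List.length_cons] at this
          omega
        rw [List.map_cons, List.prod_cons, Equiv.Perm.mul_apply, ih ht]
        apply Subtype.ext
        exact grpStep_cons n g t h.1 h.2
    have h1 := key w ⟨hl, hch⟩
    rw [hprod, Equiv.Perm.one_apply] at h1
    exact hw (congrArg Subtype.val h1).symm

end OTh
end

section

/-!
Edges of outerplanar graphs of large girth.

PROOF of `girth_bound`.  Let `r u = #{w ∈ W | f w < f u}`; on `W` the map `r` is injective and `r u < r v ↔ f u < f v`; `r u < |W|`.  Let `E` be the set of all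
`(r u, r v)` with `T.Adj u v`, `f u < f v`; `E.card = T.edgeSet.ncard` (bijection; both ends of each edge lie in `W`).  Apply
`girth_core` with `n = |W|`.  `hcyc`: from `MPath E a q t`, `(q, b) ∈ E`, `(a, b) ∈ E` we get `t + 2` vertices `p 0, .., p (t + 1)` of `W` with
increasing `f`, consecutive ones adjacent, and `p 0`, `p (t + 1)` adjacent; if `t < g` this contradicts `hcyc` with `r = t + 1`.
(Auxiliary lemma by induction: `MPath E a q t` gives `p : ℕ → V` with `r (p 0) = a`, `r (p t) = q`, `T.Adj (p i) (p (i+1))`, `f (p i) < f (p (i+1))` for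
`i < t`; then extend `p` by the vertex of `b`.)
-/

set_option autoImplicit false

namespace OTh

open Finset
open scoped Classical

private noncomputable def GirB_r {V : Type*} (f : V → ℕ) (W : Finset V) (u : V) : ℕ :=
  (W.filter (fun w => f w < f u)).card

private theorem GirB_le {V : Type*} {f : V → ℕ} {W : Finset V} {u v : V} (h : f u ≤ f v) :
    GirB_r f W u ≤ GirB_r f W v := by
  unfold GirB_r
  apply Finset.card_le_card
  intro w hw
  rw [Finset.mem_filter] at hw ⊢
  exact ⟨hw.1, by omega⟩

private theorem GirB_lt {V : Type*} {f : V → ℕ} {W : Finset V} {u v : V} (hu : u ∈ W)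
    (h : f u < f v) : GirB_r f W u < GirB_r f W v := by
  unfold GirB_r
  apply Finset.card_lt_card
  rw [Finset.ssubset_iff_of_subset]
  · exact ⟨u, by rw [Finset.mem_filter]; exact ⟨hu, h⟩, by simp⟩
  · intro w hw
    rw [Finset.mem_filter] at hw ⊢
    exact ⟨hw.1, by omega⟩

private theorem GirB_inj {V : Type*} {f : V → ℕ} (hf : Function.Injective f) {W : Finset V}
    {u v : V} (hu : u ∈ W) (hv : v ∈ W) (h : GirB_r f W u = GirB_r f W v) : u = v := by
  rcases lt_trichotomy (f u) (f v) with h1 | h1 | h1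
  · exact absurd h (GirB_lt hu h1).ne
  · exact hf h1
  · exact absurd h.symm (GirB_lt hv h1).ne

private theorem GirB_lt_card {V : Type*} {f : V → ℕ} {W : Finset V} {u : V} (hu : u ∈ W) :
    GirB_r f W u < W.card := by
  unfold GirB_r
  apply Finset.card_lt_card
  rw [Finset.ssubset_iff_of_subset (Finset.filter_subset _ _)]
  exact ⟨u, hu, by simp⟩

private theorem GirB_lt_of {V : Type*} {f : V → ℕ} {W : Finset V} {u v : V}
    (h : GirB_r f W u < GirB_r f W v) : f u < f v := by
  by_contra h1
  have := GirB_le (W := W) (not_lt.1 h1)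
  omega

private theorem GirB_path {V : Type*} {T : SimpleGraph V} {f : V → ℕ}
    (hf : Function.Injective f) {W : Finset V} (hW : ∀ u v, T.Adj u v → u ∈ W)
    {E : Finset (ℕ × ℕ)}
    (hE : ∀ x y, (x, y) ∈ E → ∃ u v, T.Adj u v ∧ f u < f v ∧ x = GirB_r f W u ∧ y = GirB_r f W v)
    {a q t : ℕ} (h : MPath E a q t) (u₀ : V) (hu₀ : u₀ ∈ W) (ha : a = GirB_r f W u₀) :
    ∃ p : ℕ → V, p 0 = u₀ ∧ p t ∈ W ∧ q = GirB_r f W (p t) ∧
      ∀ i < t, T.Adj (p i) (p (i + 1)) ∧ f (p i) < f (p (i + 1)) := by
  induction h with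
  | nil => exact ⟨fun _ => u₀, rfl, hu₀, ha, fun i hi => absurd hi (Nat.not_lt_zero _)⟩
  | snoc h hqp ih =>
    rename_i q p' t
    obtain ⟨p, hp0, hpt, hq, hp⟩ := ih
    obtain ⟨u, v, huv, hfuv, h1, h2⟩ := hE _ _ hqp
    have h3 : p t = u := GirB_inj hf hpt (hW _ _ huv) (by rw [← hq, h1])
    refine ⟨fun i => if i ≤ t then p i else v, by simp [hp0], ?_, ?_, ?_⟩
    · simp only [show ¬ (t + 1 ≤ t) by omega, if_false]
      exact hW _ _ huv.symm
    · simp only [show ¬ (t + 1 ≤ t) by omega, if_false]
      exact h2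
    · intro i hi
      by_cases h4 : i < t
      · simp only [show i ≤ t by omega, show i + 1 ≤ t by omega, if_true]
        exact hp i h4
      · have h5 : i = t := by omega
        subst h5
        simp only [le_refl, if_true, show ¬ (i + 1 ≤ i) by omega, if_false]
        rw [h3]
        exact ⟨huv, hfuv⟩

theorem girth_bound {V : Type*} [Fintype V] (T : SimpleGraph V) {f : V → ℕ}
    (hf : Function.Injective f) (hnc : NonCr T f) (W : Finset V) (hW : ∀ u v, T.Adj u v → u ∈ W)
    (g : ℕ) (hg : 1 ≤ g)
    (hcyc : ∀ (r : ℕ) (p : ℕ → V), 2 ≤ r → r ≤ g → (∀ i ≤ r, ∀ j ≤ r, p i = p j → i = j) →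
      (∀ i < r, T.Adj (p i) (p (i + 1))) → T.Adj (p r) (p 0) → False) :
    g * T.edgeSet.ncard ≤ (g + 1) * W.card := by
  obtain ⟨S, hS⟩ : ∃ S : Finset (V × V), S = univ.filter (fun e : V × V => T.Adj e.1 e.2 ∧ f e.1 < f e.2) :=
    ⟨_, rfl⟩
  have hSm : ∀ u v, (u, v) ∈ S ↔ T.Adj u v ∧ f u < f v := by
    intro u v
    rw [hS, Finset.mem_filter]
    simp
  obtain ⟨E, hE⟩ : ∃ E : Finset (ℕ × ℕ), E = S.image (fun e => (GirB_r f W e.1, GirB_r f W e.2)) :=
    ⟨_, rfl⟩
  have hEm : ∀ x y, (x, y) ∈ E → ∃ u v, T.Adj u v ∧ f u < f v ∧ x = GirB_r f W u ∧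
      y = GirB_r f W v := by
    intro x y hxy
    rw [hE, Finset.mem_image] at hxy
    obtain ⟨⟨u, v⟩, h1, h2⟩ := hxy
    rw [hSm] at h1
    simp only [Prod.mk.injEq] at h2
    exact ⟨u, v, h1.1, h1.2, h2.1.symm, h2.2.symm⟩
  have hcard : E.card = T.edgeSet.ncard := by
    rw [hE, Finset.card_image_of_injOn]
    · have h1 : T.edgeSet = (fun e : V × V => s(e.1, e.2)) '' (S : Set (V × V)) := by
        ext e
        induction e using Sym2.ind with
        | _ u v =>
          rw [SimpleGraph.mem_edgeSet, Set.mem_image]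
          constructor
          · intro h
            rcases lt_or_gt_of_ne (fun h' => h.ne (hf h') : f u ≠ f v) with h2 | h2
            · exact ⟨(u, v), by rw [Finset.mem_coe, hSm]; exact ⟨h, h2⟩, rfl⟩
            · exact ⟨(v, u), by rw [Finset.mem_coe, hSm]; exact ⟨h.symm, h2⟩, Sym2.eq_swap⟩
          · rintro ⟨⟨u', v'⟩, h2, h3⟩
            rw [Finset.mem_coe, hSm] at h2
            rcases Sym2.eq_iff.1 h3 with ⟨rfl, rfl⟩ | ⟨rfl, rfl⟩
            · exact h2.1
            · exact h2.1.symm
      rw [h1, Set.InjOn.ncard_image, Set.ncard_coe_finset]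
      rintro ⟨u, v⟩ h2 ⟨u', v'⟩ h3 h4
      rw [Finset.mem_coe, hSm] at h2 h3
      rcases Sym2.eq_iff.1 h4 with ⟨h5, h6⟩ | ⟨h5, h6⟩
      · simp only at h5 h6
        rw [h5, h6]
      · simp only at h5 h6
        rw [h5, h6] at h2
        omega
    · rintro ⟨u, v⟩ h2 ⟨u', v'⟩ h3 h4
      rw [Finset.mem_coe, hSm] at h2 h3
      simp only [Prod.mk.injEq] at h4
      rw [GirB_inj hf (hW _ _ h2.1) (hW _ _ h3.1) h4.1,
        GirB_inj hf (hW _ _ h2.1.symm) (hW _ _ h3.1.symm) h4.2]
  rw [← hcard]
  apply girth_core W.card g hg E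
  · rintro ⟨x, y⟩ hxy
    obtain ⟨u, v, h1, h2, rfl, rfl⟩ := hEm _ _ hxy
    exact ⟨GirB_lt (hW _ _ h1) h2, GirB_lt_card (hW _ _ h1.symm)⟩
  · rintro ⟨x, y⟩ hxy ⟨x', y'⟩ hxy' ⟨h3, h4, h5⟩
    obtain ⟨u, v, h1, h2, rfl, rfl⟩ := hEm _ _ hxy
    obtain ⟨u', v', h1', h2', rfl, rfl⟩ := hEm _ _ hxy'
    exact hnc u v u' v' h1 h1' ⟨GirB_lt_of h3, GirB_lt_of h4, GirB_lt_of h5⟩
  · intro a q b t hp ht hqb hab
    by_contra hgt
    obtain ⟨u, v, h1, h2, h3, h4⟩ := hEm _ _ hab
    obtain ⟨u', v', h1', h2', h3', h4'⟩ := hEm _ _ hqb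
    have hvv : v = v' := GirB_inj hf (hW _ _ h1.symm) (hW _ _ h1'.symm) (by rw [← h4, ← h4'])
    subst hvv
    obtain ⟨p, hp0, hpt, hq, hpa⟩ := GirB_path hf hW hEm hp u (hW _ _ h1) h3
    have hpt' : p t = u' := GirB_inj hf hpt (hW _ _ h1') (by rw [← hq, h3'])
    have hstep : ∀ i < t + 1, T.Adj (if i ≤ t then p i else v) (if i + 1 ≤ t then p (i + 1) else v) ∧
        f (if i ≤ t then p i else v) < f (if i + 1 ≤ t then p (i + 1) else v) := by
      intro i hi
      by_cases h5 : i < t
      · simp only [show i ≤ t by omega, show i + 1 ≤ t by omega, if_true]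
        exact hpa i h5
      · have h6 : i = t := by omega
        subst h6
        simp only [le_refl, if_true, show ¬ (i + 1 ≤ i) by omega, if_false]
        rw [hpt']
        exact ⟨h1', h2'⟩
    have hmono : ∀ i j, i < j → j ≤ t + 1 → f (if i ≤ t then p i else v) <
        f (if j ≤ t then p j else v) := by
      intro i j hij
      induction j with
      | zero => omega
      | succ j ih =>
        intro hj
        rcases Nat.lt_or_ge i j with h7 | h7
        · exact (ih h7 (by omega)).trans (hstep j (by omega)).2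
        · have h8 : i = j := by omega
          subst h8
          exact (hstep i (by omega)).2
    refine hcyc (t + 1) (fun i => if i ≤ t then p i else v) (by omega) (by omega) ?_
      (fun i hi => (hstep i hi).1) ?_
    · intro i hi j hj hij
      rcases lt_trichotomy i j with h7 | h7 | h7
      · have := hmono i j h7 hj
        rw [hij] at this
        omega
      · exact h7
      · have := hmono j i h7 hi
        rw [hij] at this
        omega
    · simp only [show ¬ (t + 1 ≤ t) by omega, if_false, Nat.zero_le, if_true]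
      rw [hp0]
      exact h1.symm

end OTh
end

section

/-!
The vertices of the graph, the units `(j, l)` (`j ∈ Q`, `l < L`): rings with a pocket.  The rings `(j, l)`, `l < L`, share the vertex `z j` (in the
place of `y (0, true)`); the private vertex of the role `ρ` and the colour `i` of the unit `(j, l)` is `u (j * γ (i, l, ρ)) l ρ`.

PROOF of `emb_inj`.  Two private vertices: `u (j * γ g) l ρ = u (j * γ g') l ρ` gives `γ g = γ g'`, so `g = g'` (otherwise the word `[g, g']` of
length `2` has product `1`).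

PROOF of `card_W`.  `z`: `|Q|`; `fx`: `|Q| L s`; `fy` with `m ≠ (0, true)`: `|Q| L (2 s - 1)`; `u`: `|Q| L (5 s)`.
-/

set_option autoImplicit false

namespace OTh

open Finset
open scoped Classical

/-- the roles of private vertices in a ring -/
inductive Ro (s : ℕ)
  | v (k : Fin s)
  | t (m : Fin s × Bool)
  | b (m : Fin s × Bool)
  deriving DecidableEq, Fintype

/-- the vertices of the graph; `π`: the vertices of a pocket -/
inductive Vx (Q : Type) (s L : ℕ) (π : Type)
  | z (j : Q)
  | fx (j : Q) (l : Fin L) (k : Fin s)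
  | fy (j : Q) (l : Fin L) (m : Fin s × Bool)
  | u (w : Q) (l : Fin L) (ρ : Ro s)
  | p (j : Q) (l : Fin L) (q : π)
  deriving DecidableEq, Fintype

/-- the generators of the group -/
abbrev Gam (s L : ℕ) (I : Type) := I × Fin L × Ro s

variable {Q : Type} [Group Q] {s L : ℕ} [NeZero s] {I π : Type}

/-- the ring of the unit `U` in the graph -/
def emb (γ : Gam s L I → Q) (U : Q × Fin L) : Rg s I → Vx Q s L π
  | .x k => .fx U.1 U.2 k
  | .y m => if m = (0, true) then .z U.1 else .fy U.1 U.2 m
  | .v k i => .u (U.1 * γ (i, U.2, .v k)) U.2 (.v k)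
  | .t m i => .u (U.1 * γ (i, U.2, .t m)) U.2 (.t m)
  | .b m i => .u (U.1 * γ (i, U.2, .b m)) U.2 (.b m)

/-- involutions without relations of length at most `n` -/
structure GoodG (γ : Gam s L I → Q) (n : ℕ) : Prop where
  inv : ∀ g, γ g * γ g = 1
  rel : ∀ w : List (Gam s L I), w ≠ [] → w.length ≤ n → w.IsChain (· ≠ ·) → (w.map γ).prod ≠ 1

private theorem fr_gen_inj {γ : Gam s L I → Q} {n : ℕ} (hγ : GoodG γ n) (hn : 2 ≤ n)
    {g g' : Gam s L I} (h : γ g = γ g') : g = g' := by
  by_contra hne
  refine hγ.rel [g, g'] (by simp) (by simpa using hn) (by simpa using hne) ?_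
  simp only [List.map_cons, List.map_nil, List.prod_cons, List.prod_nil, mul_one]
  rw [← h]
  exact hγ.inv g

theorem emb_inj {γ : Gam s L I → Q} {n : ℕ} (hγ : GoodG γ n) (hn : 2 ≤ n) (U : Q × Fin L) :
    Function.Injective (emb (π := π) γ U) := by
  intro a b hab
  rcases a with k | m | ⟨k, i⟩ | ⟨m, i⟩ | ⟨m, i⟩ <;> rcases b with k' | m' | ⟨k', i'⟩ | ⟨m', i'⟩ | ⟨m', i'⟩ <;>
    simp only [emb] at hab
  · simpa using hab
  · split_ifs at hab
  · exact absurd hab (by simp)
  · exact absurd hab (by simp)
  · exact absurd hab (by simp)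
  · split_ifs at hab
  · split_ifs at hab with h1 h2 h2
    · rw [h1, h2]
    · simpa using hab
  · split_ifs at hab
  · split_ifs at hab
  · split_ifs at hab
  · exact absurd hab (by simp)
  · split_ifs at hab
  · simp only [Vx.u.injEq, true_and, Ro.v.injEq] at hab
    obtain ⟨h1, h2⟩ := hab
    subst h2
    have h3 := fr_gen_inj hγ hn (mul_left_cancel h1)
    simp only [Prod.mk.injEq] at h3
    rw [h3.1]
  · exact absurd hab (by simp)
  · exact absurd hab (by simp)
  · exact absurd hab (by simp)
  · split_ifs at hab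
  · exact absurd hab (by simp)
  · simp only [Vx.u.injEq, true_and, Ro.t.injEq] at hab
    obtain ⟨h1, h2⟩ := hab
    subst h2
    have h3 := fr_gen_inj hγ hn (mul_left_cancel h1)
    simp only [Prod.mk.injEq] at h3
    rw [h3.1]
  · exact absurd hab (by simp)
  · exact absurd hab (by simp)
  · split_ifs at hab
  · exact absurd hab (by simp)
  · exact absurd hab (by simp)
  · simp only [Vx.u.injEq, true_and, Ro.b.injEq] at hab
    obtain ⟨h1, h2⟩ := hab
    subst h2
    have h3 := fr_gen_inj hγ hn (mul_left_cancel h1)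
    simp only [Prod.mk.injEq] at h3
    rw [h3.1]

/-- the vertices of all rings -/
noncomputable def Wset [Fintype Q] [Fintype I] (γ : Gam s L I → Q) : Finset (Vx Q s L π) :=
  (univ : Finset ((Q × Fin L) × Rg s I)).image fun p => emb γ p.1 p.2

private theorem fr_card_ro : Fintype.card (Ro s) = 5 * s := by
  let e : (Fin s ⊕ (Fin s × Bool) ⊕ (Fin s × Bool)) ≃ Ro s :=
    { toFun := fun
        | .inl k => .v k
        | .inr (.inl m) => .t m
        | .inr (.inr m) => .b m
      invFun := fun
        | .v k => .inl k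
        | .t m => .inr (.inl m)
        | .b m => .inr (.inr m)
      left_inv := by
        rintro (k | m | m) <;> rfl
      right_inv := by
        rintro (k | m | m) <;> rfl }
  rw [← Fintype.card_congr e]
  simp only [Fintype.card_sum, Fintype.card_prod, Fintype.card_fin, Fintype.card_bool]
  omega

theorem card_W [Fintype Q] [Fintype I] (γ : Gam s L I → Q) (hs : 1 ≤ s) :
    (Wset (π := π) γ).card ≤ Fintype.card Q * (L * (8 * s - 1) + 1) := by
  have hsub : Wset (π := π) γ ⊆
      ((univ : Finset Q).image fun j => (Vx.z j : Vx Q s L π)) ∪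
      ((univ : Finset (Q × Fin L × Fin s)).image fun p => (Vx.fx p.1 p.2.1 p.2.2 : Vx Q s L π)) ∪
      (((univ : Finset (Q × Fin L)) ×ˢ ((univ : Finset (Fin s × Bool)).erase (0, true))).image
        fun p => (Vx.fy p.1.1 p.1.2 p.2 : Vx Q s L π)) ∪
      ((univ : Finset (Q × Fin L × Ro s)).image
        fun p => (Vx.u p.1 p.2.1 p.2.2 : Vx Q s L π)) := by
    intro v hv
    obtain ⟨⟨U, a⟩, -, rfl⟩ := Finset.mem_image.1 hv
    simp only [Finset.mem_union, Finset.mem_image, Finset.mem_univ, true_and,
      Finset.mem_product, Finset.mem_erase]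
    rcases a with k | m | ⟨k, i⟩ | ⟨m, i⟩ | ⟨m, i⟩
    · left; left; right
      exact ⟨(U.1, U.2, k), rfl⟩
    · by_cases hm : m = (0, true)
      · left; left; left
        exact ⟨U.1, by simp only [emb]; rw [if_pos hm]⟩
      · left; right
        exact ⟨((U.1, U.2), m), ⟨hm, trivial⟩, by simp only [emb]; rw [if_neg hm]⟩
    · right
      exact ⟨(_, U.2, .v k), rfl⟩
    · right
      exact ⟨(_, U.2, .t m), rfl⟩
    · right
      exact ⟨(_, U.2, .b m), rfl⟩
  refine (Finset.card_le_card hsub).trans ?_
  refine (Finset.card_union_le _ _).trans ?_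
  refine (Nat.add_le_add_right (Finset.card_union_le _ _) _).trans ?_
  refine (Nat.add_le_add_right (Nat.add_le_add_right (Finset.card_union_le _ _) _) _).trans ?_
  have h1 : ((univ : Finset Q).image fun j => (Vx.z j : Vx Q s L π)).card ≤ Fintype.card Q :=
    Finset.card_image_le
  have h2 : ((univ : Finset (Q × Fin L × Fin s)).image
      fun p => (Vx.fx p.1 p.2.1 p.2.2 : Vx Q s L π)).card ≤ Fintype.card Q * (L * s) := by
    refine Finset.card_image_le.trans (le_of_eq ?_)
    rw [Finset.card_univ, Fintype.card_prod, Fintype.card_prod, Fintype.card_fin, Fintype.card_fin]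
  have h3 : (((univ : Finset (Q × Fin L)) ×ˢ ((univ : Finset (Fin s × Bool)).erase (0, true))).image
        fun p => (Vx.fy p.1.1 p.1.2 p.2 : Vx Q s L π)).card ≤
        Fintype.card Q * (L * (2 * s - 1)) := by
    refine Finset.card_image_le.trans (le_of_eq ?_)
    rw [Finset.card_product, Finset.card_erase_of_mem (Finset.mem_univ _), Finset.card_univ,
      Finset.card_univ, Fintype.card_prod, Fintype.card_prod, Fintype.card_fin, Fintype.card_fin,
      Fintype.card_bool, mul_comm s 2, mul_assoc]
  have h4 : ((univ : Finset (Q × Fin L × Ro s)).image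
        fun p => (Vx.u p.1 p.2.1 p.2.2 : Vx Q s L π)).card ≤ Fintype.card Q * (L * (5 * s)) := by
    refine Finset.card_image_le.trans (le_of_eq ?_)
    rw [Finset.card_univ, Fintype.card_prod, Fintype.card_prod, Fintype.card_fin, fr_card_ro]
  have h5 : Fintype.card Q * (L * (8 * s - 1) + 1) = Fintype.card Q + Fintype.card Q * (L * s) +
      Fintype.card Q * (L * (2 * s - 1)) + Fintype.card Q * (L * (5 * s)) := by
    have h6 : 8 * s - 1 = s + (2 * s - 1) + 5 * s := by omega
    rw [h6]
    ring
  rw [h5]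
  omega

end OTh
end
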