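import Pool.Agent.Lib.MP_9750df_co.TArc

/-!
Links around a ring of hubs.

PROOFS.
`link_arc`: induction on `n` (`1 ≤ n < s`), with `Link.trans`; the set is the union of the `Sl (a + i)`, `i < n`, and of the hubs
`hb (a + i)`, `0 < i < n`.  Here `a + i` is addition in `Fin s` (cyclic); the elements `a + i`, `i < s`, are pairwise
different.

`sep_hubs`: let `n = (b - a).val`, `0 < n < s`; `b = a + n`, `a = b + (s - n)`.  By `link_arc` there are links from `hb a` to `hb b` in `arc a n` and
from `hb b` to `hb a` in `arc b (s - n)`; these sets are disjoint from each other and from `Z`.  Apply `k23`.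
-/

set_option autoImplicit false

namespace OTh

variable {V : Type*}

variable {s : ℕ} [NeZero s]

/-- the slots `a, .., a + n - 1` and the hubs strictly between -/
def arc (hb : Fin s → V) (Sl : Fin s → Set V) (a : Fin s) (n : ℕ) : Set V :=
  {v | ∃ i : ℕ, i < n ∧ (v ∈ Sl (a + Fin.ofNat s i) ∨ (0 < i ∧ v = hb (a + Fin.ofNat s i)))}

private theorem NCc_ofNat_add (i j : ℕ) :
    Fin.ofNat s i + Fin.ofNat s j = Fin.ofNat s (i + j) := by
  apply Fin.ext
  rw [Fin.val_add, Fin.val_ofNat, Fin.val_ofNat, Fin.val_ofNat, ← Nat.add_mod]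

private theorem NCc_inj (a : Fin s) {i j : ℕ} (hi : i < s) (hj : j < s)
    (h : a + Fin.ofNat s i = a + Fin.ofNat s j) : i = j := by
  have h1 : Fin.ofNat s i = Fin.ofNat s j := add_left_cancel h
  have h2 := congrArg Fin.val h1
  rw [Fin.val_ofNat, Fin.val_ofNat, Nat.mod_eq_of_lt hi, Nat.mod_eq_of_lt hj] at h2
  exact h2

private theorem NCc_zero (a : Fin s) : a + Fin.ofNat s 0 = a := by
  apply Fin.ext
  rw [Fin.val_add, Fin.val_ofNat, Nat.zero_mod, Nat.add_zero, Nat.mod_eq_of_lt a.isLt]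

private theorem NCc_one (a : Fin s) : a + 1 = a + Fin.ofNat s 1 := rfl

private theorem NCc_out {hb : Fin s → V} (hinj : Function.Injective hb)
    {Sl : Fin s → Set V} (hh : ∀ k l, hb k ∉ Sl l) (a : Fin s) {n m : ℕ} (hn : n ≤ s) (hm : m < s)
    (hmn : m = 0 ∨ n ≤ m) : hb (a + Fin.ofNat s m) ∉ arc hb Sl a n := by
  rintro ⟨i, hi, h1 | ⟨h1, h2⟩⟩
  · exact hh _ _ h1
  · have h3 := NCc_inj a hm (lt_of_lt_of_le hi hn) (hinj h2)
    omega

theorem link_arc {P : SimpleGraph V} {hb : Fin s → V} (hinj : Function.Injective hb)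
    {Sl : Fin s → Set V} (hSl : ∀ k l, k ≠ l → Disjoint (Sl k) (Sl l)) (hh : ∀ k l, hb k ∉ Sl l)
    (hL : ∀ k, Link P (hb k) (hb (k + 1)) (Sl k)) (a : Fin s) (n : ℕ) (hn : 1 ≤ n) (hns : n < s) :
    Link P (hb a) (hb (a + Fin.ofNat s n)) (arc hb Sl a n) := by
  induction n with
  | zero => omega
  | succ n ih =>
    rcases Nat.eq_zero_or_pos n with h0 | h0
    · subst h0
      have h1 := hL a
      rw [NCc_one] at h1
      refine Link.mono le_rfl ?_ h1 ?_ ?_
      · intro v hv
        refine ⟨0, by omega, Or.inl ?_⟩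
        rw [NCc_zero]
        exact hv
      · have h2 := NCc_out hinj hh a (n := 0 + 1) (m := 0) (by omega) (by omega) (Or.inl rfl)
        rw [NCc_zero] at h2
        exact h2
      · exact NCc_out hinj hh a (by omega) hns (Or.inr le_rfl)
    · have h1 := ih h0 (by omega)
      have h2 := hL (a + Fin.ofNat s n)
      have e : a + Fin.ofNat s n + 1 = a + Fin.ofNat s (n + 1) := by
        rw [NCc_one, add_assoc, NCc_ofNat_add]
      rw [e] at h2
      have h3 : hb (a + Fin.ofNat s (n + 1)) ∉ arc hb Sl a n :=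
        NCc_out hinj hh a (by omega) hns (Or.inr (by omega))
      have h4 : hb a ≠ hb (a + Fin.ofNat s n) := by
        intro h
        have h5 := hinj h
        have h6 : a + Fin.ofNat s 0 = a + Fin.ofNat s n := by rw [NCc_zero]; exact h5
        have := NCc_inj a (by omega) (by omega) h6
        omega
      have h5 : hb (a + Fin.ofNat s n) ≠ hb (a + Fin.ofNat s (n + 1)) := by
        intro h
        have := NCc_inj a (by omega) (by omega) (hinj h)
        omega
      have h6 := Link.trans h1 h2 (hh _ _) h3 h4 h5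
      refine Link.mono le_rfl ?_ h6 ?_ ?_
      · rintro v ((⟨i, hi, hv⟩ | hv) | hv)
        · exact ⟨i, by omega, hv⟩
        · exact ⟨n, by omega, Or.inl hv⟩
        · exact ⟨n, by omega, Or.inr ⟨h0, hv⟩⟩
      · have h7 := NCc_out hinj hh a (n := n + 1) (m := 0) (by omega) (by omega) (Or.inl rfl)
        rw [NCc_zero] at h7
        exact h7
      · exact NCc_out hinj hh a (by omega) hns (Or.inr le_rfl)

theorem sep_hubs {P : SimpleGraph V} {f : V → ℕ} (hf : Function.Injective f) (h : NonCr P f)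
    {hb : Fin s → V} (hinj : Function.Injective hb)
    {Sl : Fin s → Set V} (hSl : ∀ k l, k ≠ l → Disjoint (Sl k) (Sl l)) (hh : ∀ k l, hb k ∉ Sl l)
    (hL : ∀ k, Link P (hb k) (hb (k + 1)) (Sl k)) {Z : Set V} (hZ : ∀ k, Disjoint Z (Sl k))
    (hZh : ∀ k, hb k ∉ Z) {a b : Fin s} (hab : a ≠ b) : ¬ Link P (hb a) (hb b) Z := by
  intro hlink
  have hs : 0 < s := Nat.pos_of_ne_zero (NeZero.ne s)
  set n : ℕ := (b - a).val with hn
  have hns : n < s := (b - a).isLt
  have hb1 : a + Fin.ofNat s n = b := by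
    have h1 : Fin.ofNat s n = b - a := by
      apply Fin.ext
      rw [Fin.val_ofNat, Nat.mod_eq_of_lt hns]
    rw [h1]
    exact add_sub_cancel a b
  have hn0 : 0 < n := by
    rcases Nat.eq_zero_or_pos n with h0 | h0
    · exfalso
      apply hab
      rw [← hb1, h0, NCc_zero]
    · exact h0
  have hb2 : b + Fin.ofNat s (s - n) = a := by
    rw [← hb1, add_assoc, NCc_ofNat_add]
    have e : n + (s - n) = s := by omega
    rw [e]
    have e2 : Fin.ofNat s s = Fin.ofNat s 0 := by
      apply Fin.ext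
      rw [Fin.val_ofNat, Fin.val_ofNat, Nat.mod_self, Nat.zero_mod]
    rw [e2, NCc_zero]
  have l1 := link_arc hinj hSl hh hL a n hn0 hns
  rw [hb1] at l1
  have l2 := link_arc hinj hSl hh hL b (s - n) (by omega) (by omega)
  rw [hb2] at l2
  have hne : hb a ≠ hb b := fun h => hab (hinj h)
  have hZarc : ∀ (c : Fin s) (m : ℕ), Disjoint (arc hb Sl c m) Z := by
    intro c m
    rw [Set.disjoint_left]
    rintro v ⟨i, -, hv | ⟨-, hv⟩⟩ hvZ
    · exact Set.disjoint_left.1 (hZ _) hvZ hv
    · rw [hv] at hvZ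
      exact hZh _ hvZ
  have hAA : Disjoint (arc hb Sl a n) (arc hb Sl b (s - n)) := by
    rw [Set.disjoint_left]
    rintro v ⟨i, hi, hv⟩ ⟨j, hj, hw⟩
    rw [← hb1, add_assoc, NCc_ofNat_add] at hw
    have hij : a + Fin.ofNat s i ≠ a + Fin.ofNat s (n + j) := by
      intro h
      have := NCc_inj a (by omega) (by omega) h
      omega
    rcases hv with hv | ⟨-, hv⟩
    · rcases hw with hw | ⟨-, hw⟩
      · exact Set.disjoint_left.1 (hSl _ _ hij) hv hw
      · rw [hw] at hv
        exact hh _ _ hv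
    · rcases hw with hw | ⟨-, hw⟩
      · rw [hv] at hw
        exact hh _ _ hw
      · rw [hv] at hw
        exact hij (hinj hw)
  exact k23 hf h hne hAA (hZarc a n) (hZarc b (s - n)) l1 l2.symm hlink

end OTh
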