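import Pool.Agent.Lib.MP_9750df_co.NC

section

/-!
Drawing: paths.

PROOFS.
`Drawn.path`: induction on `g` (for all `x`, `w`, `E`): `g = [v]`: `pendant`.  `g = v :: g'`, `g' ≠ []`: `pendant` gives `x :: v :: x :: w`, rotate to `v :: x :: w ++ [x]`, apply the
induction hypothesis to `v`, `w := x :: w ++ [x]`: `v :: g' ++ (g'.dropLast.reverse ++ v :: x :: w ++ [x])`, rotate back by one.
`Drawn.between`: `Drawn.path` with `w := w₁ ++ y :: w₂` gives `x :: g ++ (g.dropLast.reverse ++ x :: w₁ ++ y :: w₂)`; let `g = g₀ ++ [l]`; rotate to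
`l :: (g₀.reverse ++ x :: w₁) ++ y :: (w₂ ++ x :: g₀)`, `chord` with `u = l`, `v = y`: the faces `l :: g₀.reverse ++ x :: w₁ ++ [y] = g.reverse ++ x :: w₁ ++ [y]` and
`y :: w₂ ++ x :: g₀ ++ [l]`, rotated: `x :: g ++ y :: w₂`.
`Drawn.cycle`: in the same way with `y = x`: `x :: g ++ (g₀.reverse ++ x :: w)`, rotate to `l :: g₀.reverse ++ x :: (w ++ x :: g₀)`, `chord` with `u = l`, `v = x` (the
second occurrence): the faces `l :: g₀.reverse ++ [x] = g.reverse ++ [x]` and `x :: w ++ x :: g₀ ++ [l]`, rotated `x :: g ++ x :: w`.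
The sets of edges are equal by `Set.ext` (or use `h ▸`); a lemma `pe x (g ++ [y]) = insert s(last, y) (pe x g)` is useful.
-/

set_option autoImplicit false

namespace OTh

variable {V : Type*}

private theorem drP_mem_vs {f : List V} {F : List (List V)} {v : V} :
    v ∈ vs (f :: F) ↔ v ∈ f ∨ v ∈ vs F := by
  simp [vs]

private theorem drP_pe_append (x y : V) (g : List V) (l : V) :
    pe x (g ++ [l] ++ [y]) = insert s(l, y) (pe x (g ++ [l])) := by
  induction g generalizing x with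
  | nil =>
    simp only [List.nil_append, pe, List.cons_append]
    exact Set.insert_comm _ _ _
  | cons a g ih =>
    have h1 : a :: g ++ [l] ++ [y] = a :: (g ++ [l] ++ [y]) := by simp
    have h2 : a :: g ++ [l] = a :: (g ++ [l]) := by simp
    rw [h1, h2]
    simp only [pe]
    rw [ih a]
    exact Set.insert_comm _ _ _

theorem Drawn.path {E : Set (Sym2 V)} {x : V} {w : List V} {F : List (List V)} {g : List V}
    (h : Drawn E ((x :: w) :: F)) (hg : g ≠ []) (hnd : g.Nodup)
    (hfr : ∀ v ∈ g, v ∉ vs ((x :: w) :: F)) :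
    Drawn (E ∪ pe x g) ((x :: g ++ (g.dropLast.reverse ++ x :: w)) :: F) := by
  induction g generalizing x w E with
  | nil => exact absurd rfl hg
  | cons v g' ih =>
    have hv : ∀ f ∈ (x :: w) :: F, v ∉ f := by
      intro f hf hvf
      exact hfr v (by simp) ⟨f, hf, hvf⟩
    have h1 := Drawn.pendant E x v w F h hv
    by_cases hg' : g' = []
    · subst hg'
      have e1 : E ∪ pe x [v] = insert s(x, v) E := by
        ext z
        simp [pe, or_comm]
      rw [e1]
      simpa using h1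
    · have h2 : Drawn (insert s(x, v) E) ((v :: (x :: w ++ [x])) :: F) :=
        Drawn.rot h1 (by
          have : (x :: v :: x :: w) = [x] ++ (v :: x :: w) := by simp
          rw [this]
          have h3 : v :: (x :: w ++ [x]) = (v :: x :: w) ++ [x] := by simp
          rw [h3]
          exact List.isRotated_append)
      have hnd' : g'.Nodup := (List.nodup_cons.mp hnd).2
      have hvg : v ∉ g' := (List.nodup_cons.mp hnd).1
      have h3 := ih h2 hg' hnd' (by
        intro u hu hu2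
        rw [drP_mem_vs] at hu2
        have hu3 := hfr u (List.mem_cons_of_mem _ hu)
        rw [drP_mem_vs] at hu3
        apply hu3
        rcases hu2 with h4 | h4
        · simp only [List.mem_cons, List.mem_append, List.not_mem_nil, or_false,
            List.cons_append] at h4
          rcases h4 with h4 | h4 | h4 | h4
          · exact absurd (h4 ▸ hu) hvg
          · left; simp [h4]
          · left; simp [h4]
          · left; simp [h4]
        · exact Or.inr h4)
      have e1 : E ∪ pe x (v :: g') = insert s(x, v) E ∪ pe v g' := by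
        simp only [pe]
        rw [Set.union_insert, Set.insert_union]
      rw [e1]
      refine Drawn.rot h3 ?_
      have e2 : v :: g' ++ (g'.dropLast.reverse ++ v :: (x :: w ++ [x]))
          = (v :: g' ++ (g'.dropLast.reverse ++ v :: (x :: w))) ++ [x] := by simp
      have e3 : x :: (v :: g') ++ ((v :: g').dropLast.reverse ++ x :: w)
          = [x] ++ (v :: g' ++ (g'.dropLast.reverse ++ v :: (x :: w))) := by
        rw [List.dropLast_cons_of_ne_nil hg']
        simp
      rw [e2, e3]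
      exact List.isRotated_append

private theorem drP_mid {E : Set (Sym2 V)} {x y : V} {w₁ w₂ : List V} {F : List (List V)}
    {g₀ : List V} {l : V} (hly : l ≠ y)
    (h : Drawn E ((x :: (g₀ ++ [l]) ++ ((g₀ ++ [l]).dropLast.reverse ++ (x :: w₁ ++ y :: w₂))) :: F)) :
    Drawn (insert s(l, y) E) ((x :: (g₀ ++ [l]) ++ y :: w₂) ::
      ((g₀ ++ [l]).reverse ++ (x :: w₁ ++ [y])) :: F) := by
  have h1 : Drawn E ((l :: (g₀.reverse ++ x :: w₁) ++ y :: (w₂ ++ x :: g₀)) :: F) := by
    refine Drawn.rot h ?_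
    have e1 : x :: (g₀ ++ [l]) ++ ((g₀ ++ [l]).dropLast.reverse ++ (x :: w₁ ++ y :: w₂))
        = (x :: g₀) ++ (l :: (g₀.reverse ++ x :: w₁) ++ y :: w₂) := by simp
    have e2 : l :: (g₀.reverse ++ x :: w₁) ++ y :: (w₂ ++ x :: g₀)
        = (l :: (g₀.reverse ++ x :: w₁) ++ y :: w₂) ++ (x :: g₀) := by simp
    rw [e1, e2]
    exact List.isRotated_append
  have h2 := Drawn.chord E l y (g₀.reverse ++ x :: w₁) (w₂ ++ x :: g₀) F h1 hly
  have h3 : Drawn (insert s(l, y) E) ((y :: (w₂ ++ x :: g₀) ++ [l]) ::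
      (l :: (g₀.reverse ++ x :: w₁) ++ [y]) :: F) :=
    Drawn.perm _ _ _ h2 (List.Perm.swap _ _ _)
  have h4 : Drawn (insert s(l, y) E) ((x :: (g₀ ++ [l]) ++ y :: w₂) ::
      (l :: (g₀.reverse ++ x :: w₁) ++ [y]) :: F) := by
    refine Drawn.rot h3 ?_
    have e1 : y :: (w₂ ++ x :: g₀) ++ [l] = (y :: w₂) ++ (x :: (g₀ ++ [l])) := by simp
    rw [e1]
    exact List.isRotated_append
  have e5 : (g₀ ++ [l]).reverse ++ (x :: w₁ ++ [y]) = l :: (g₀.reverse ++ x :: w₁) ++ [y] := by
    simp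
  rw [e5]
  exact h4

theorem Drawn.between {E : Set (Sym2 V)} {x y : V} {w₁ w₂ : List V} {F : List (List V)}
    {g : List V} (h : Drawn E ((x :: w₁ ++ y :: w₂) :: F)) (hg : g ≠ [])
    (hnd : g.Nodup) (hfr : ∀ v ∈ g, v ∉ vs ((x :: w₁ ++ y :: w₂) :: F)) :
    Drawn (E ∪ pe x (g ++ [y])) ((x :: g ++ y :: w₂) :: (g.reverse ++ x :: w₁ ++ [y]) :: F) := by
  have h1 := Drawn.path (w := w₁ ++ y :: w₂) h hg hnd hfr
  obtain ⟨g₀, l, rfl⟩ : ∃ g₀ l, g = g₀ ++ [l] :=
    ⟨g.dropLast, g.getLast hg, (List.dropLast_append_getLast hg).symm⟩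
  have hly : l ≠ y := by
    rintro rfl
    apply hfr l (by simp)
    rw [drP_mem_vs]
    left
    simp
  have h2 := drP_mid hly h1
  rw [drP_pe_append, Set.union_insert]
  have e5 : (g₀ ++ [l]).reverse ++ x :: w₁ ++ [y] = (g₀ ++ [l]).reverse ++ (x :: w₁ ++ [y]) := by
    simp
  rw [e5]
  exact h2

theorem Drawn.cycle {E : Set (Sym2 V)} {x : V} {w : List V} {F : List (List V)}
    {g : List V} (h : Drawn E ((x :: w) :: F)) (hg : g ≠ [])
    (hnd : g.Nodup) (hfr : ∀ v ∈ g, v ∉ vs ((x :: w) :: F)) :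
    Drawn (E ∪ pe x (g ++ [x])) ((x :: g ++ x :: w) :: (g.reverse ++ [x]) :: F) := by
  have h1 := Drawn.path h hg hnd hfr
  obtain ⟨g₀, l, rfl⟩ : ∃ g₀ l, g = g₀ ++ [l] :=
    ⟨g.dropLast, g.getLast hg, (List.dropLast_append_getLast hg).symm⟩
  have hlx : l ≠ x := by
    rintro rfl
    apply hfr l (by simp)
    rw [drP_mem_vs]
    left
    simp
  have h2 : Drawn (E ∪ pe x (g₀ ++ [l])) ((l :: g₀.reverse ++ x :: (w ++ x :: g₀)) :: F) := by
    refine Drawn.rot h1 ?_
    have e1 : x :: (g₀ ++ [l]) ++ ((g₀ ++ [l]).dropLast.reverse ++ x :: w)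
        = (x :: g₀) ++ (l :: g₀.reverse ++ x :: w) := by simp
    have e2 : l :: g₀.reverse ++ x :: (w ++ x :: g₀) = (l :: g₀.reverse ++ x :: w) ++ (x :: g₀) := by
      simp
    rw [e1, e2]
    exact List.isRotated_append
  have h3 := Drawn.chord _ l x g₀.reverse (w ++ x :: g₀) F h2 hlx
  have h4 : Drawn (insert s(l, x) (E ∪ pe x (g₀ ++ [l]))) ((x :: (w ++ x :: g₀) ++ [l]) ::
      (l :: g₀.reverse ++ [x]) :: F) :=
    Drawn.perm _ _ _ h3 (List.Perm.swap _ _ _)
  have h5 : Drawn (insert s(l, x) (E ∪ pe x (g₀ ++ [l]))) ((x :: (g₀ ++ [l]) ++ x :: w) ::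
      (l :: g₀.reverse ++ [x]) :: F) := by
    refine Drawn.rot h4 ?_
    have e1 : x :: (w ++ x :: g₀) ++ [l] = (x :: w) ++ (x :: (g₀ ++ [l])) := by simp
    rw [e1]
    exact List.isRotated_append
  rw [drP_pe_append, Set.union_insert]
  have e5 : (g₀ ++ [l]).reverse ++ [x] = l :: g₀.reverse ++ [x] := by simp
  rw [e5]
  exact h5

end OTh
end

section

/-!
A graph without interleaving edges contains no `K_{2,3}`.

PROOF of `k23`.  Choose `i ∈ S`, `j ∈ T`, `k ∈ U` (the first inner vertices).  Two of the three are on the same side of the pair `x, y` (strictly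
between or not); by symmetry (the statement is symmetric in `x, y` and in the three sets, `Link.symm`) they are `i ∈ S`, `j ∈ T`, `f x < f y`, `f i < f j`.
All of `S ∪ {x}`, `S ∪ {y}`, `T ∪ {x}`, .. are connected sets.  Use `nc_sets`:
 * `x < i < j < y`: the sets `{x} ∪ T ∋ x, j` and `{y} ∪ S ∋ i, y`;
 * `i < j < x < y`: `{x} ∪ S ∋ i, x` and `{y} ∪ T ∋ j, y`;
 * `x < y < i < j`: `{x} ∪ S ∋ x, i` and `{y} ∪ T ∋ y, j`;
 * `i < x < y < j`: `{y} ∪ S ∋ i, y` and `{x} ∪ T ∋ x, j`.
-/

set_option autoImplicit false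

namespace OTh

variable {V : Type*}

/-- the first inner vertex of a link, connected to both ends -/
private theorem k23_inner {P : SimpleGraph V} {x y : V} {S : Set V} (h : Link P x y S) :
    x ∉ S ∧ y ∉ S ∧ ∃ i ∈ S, In P (insert x S) x i ∧ In P (insert x S) i x ∧
      In P (insert y S) y i ∧ In P (insert y S) i y := by
  obtain ⟨hx, hy, a, b, ha, hb, hxa, hby, hab⟩ := h
  have h1 : In P (insert x S) x a :=
    Relation.ReflTransGen.single ⟨hxa, Set.mem_insert_of_mem x ha⟩
  have h2 : In P (insert x S) a x :=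
    Relation.ReflTransGen.single ⟨hxa.symm, Set.mem_insert x S⟩
  have h3 : In P (insert y S) a y :=
    Relation.ReflTransGen.tail (In.mono le_rfl (Set.subset_insert y S) hab)
      ⟨hby, Set.mem_insert y S⟩
  have h4 : In P (insert y S) y a := In.symm h3 (Set.mem_insert_of_mem y ha)
  exact ⟨hx, hy, a, ha, h1, h2, h4, h3⟩

private theorem k23_disj {x y : V} (hxy : x ≠ y) {S T : Set V} (hST : Disjoint S T)
    (hxT : x ∉ T) (hyS : y ∉ S) : Disjoint (insert x S) (insert y T) := by
  rw [Set.disjoint_left] at hST ⊢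
  intro z hz hz'
  rcases hz with rfl | hz
  · rcases hz' with h | h
    · exact hxy h
    · exact hxT h
  · rcases hz' with rfl | h
    · exact hyS hz
    · exact hST hz h

/-- two inner vertices on the same side, in a fixed order -/
private theorem k23_side {P : SimpleGraph V} {f : V → ℕ} (hf : Function.Injective f)
    (h : NonCr P f) {x y : V} (hxy : x ≠ y) {S T : Set V} (hST : Disjoint S T)
    (hxS : x ∉ S) (hyS : y ∉ S) (hxT : x ∉ T) (hyT : y ∉ T) {i j : V} (hi : i ∈ S) (hj : j ∈ T)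
    (i1 : In P (insert x S) x i) (i2 : In P (insert x S) i x)
    (i4 : In P (insert y S) i y)
    (j1 : In P (insert x T) x j)
    (j3 : In P (insert y T) y j) (j4 : In P (insert y T) j y)
    (hlt : f x < f y) (hij : f i < f j)
    (hs : (f x < f i ∧ f i < f y ↔ f x < f j ∧ f j < f y)) : False := by
  have hix : f i ≠ f x := fun e => hxS (hf e ▸ hi)
  have hiy : f i ≠ f y := fun e => hyS (hf e ▸ hi)
  have hjx : f j ≠ f x := fun e => hxT (hf e ▸ hj)
  have hjy : f j ≠ f y := fun e => hyT (hf e ▸ hj)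
  have d1 : Disjoint (insert x T) (insert y S) := k23_disj hxy hST.symm hxS hyT
  have d2 : Disjoint (insert x S) (insert y T) := k23_disj hxy hST hxT hyS
  by_cases hin : f x < f i ∧ f i < f y
  · have hjn := hs.1 hin
    exact nc_sets hf h d1 (Set.mem_insert x T) (Set.mem_insert_of_mem y hi) j1 i4
      ⟨hin.1, hij, hjn.2⟩
  · have hjn : ¬ (f x < f j ∧ f j < f y) := fun e => hin (hs.2 e)
    rcases lt_or_gt_of_ne hix with hix' | hix'
    · rcases lt_or_gt_of_ne hjx with hjx' | hjx'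
      · -- i < j < x < y
        exact nc_sets hf h d2 (Set.mem_insert_of_mem x hi) (Set.mem_insert_of_mem y hj) i2 j4
          ⟨hij, hjx', hlt⟩
      · -- i < x < y < j
        have hyj : f y < f j := by
          rcases lt_or_gt_of_ne hjy with h' | h'
          · exact absurd ⟨hjx', h'⟩ hjn
          · exact h'
        exact nc_sets hf h d1.symm (Set.mem_insert_of_mem y hi) (Set.mem_insert x T) i4 j1
          ⟨hix', hlt, hyj⟩
    · -- x < y < i < j
      have hyi : f y < f i := by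
        rcases lt_or_gt_of_ne hiy with h' | h'
        · exact absurd ⟨hix', h'⟩ hin
        · exact h'
      exact nc_sets hf h d2 (Set.mem_insert x S) (Set.mem_insert y T) i1 j3
        ⟨hlt, hyi, hij⟩

/-- two links with first inner vertices on the same side -/
private theorem k23_two {P : SimpleGraph V} {f : V → ℕ} (hf : Function.Injective f)
    (h : NonCr P f) {x y : V} (hxy : x ≠ y) {S T : Set V} (hST : Disjoint S T)
    (hxS : x ∉ S) (hyS : y ∉ S) (hxT : x ∉ T) (hyT : y ∉ T) {i j : V} (hi : i ∈ S) (hj : j ∈ T)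
    (i1 : In P (insert x S) x i) (i2 : In P (insert x S) i x)
    (i3 : In P (insert y S) y i) (i4 : In P (insert y S) i y)
    (j1 : In P (insert x T) x j) (j2 : In P (insert x T) j x)
    (j3 : In P (insert y T) y j) (j4 : In P (insert y T) j y)
    (hlt : f x < f y)
    (hs : (f x < f i ∧ f i < f y ↔ f x < f j ∧ f j < f y)) : False := by
  have hne : f i ≠ f j := fun e => Set.disjoint_left.1 hST hi (hf e ▸ hj)
  rcases lt_or_gt_of_ne hne with hij | hij
  · exact k23_side hf h hxy hST hxS hyS hxT hyT hi hj i1 i2 i4 j1 j3 j4 hlt hij hs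
  · exact k23_side hf h hxy hST.symm hxT hyT hxS hyS hj hi j1 j2 j4 i1 i3 i4 hlt hij hs.symm

private theorem k23_lt {P : SimpleGraph V} {f : V → ℕ} (hf : Function.Injective f)
    (h : NonCr P f) {x y : V} (hxy : x ≠ y) {S T U : Set V} (hST : Disjoint S T)
    (hSU : Disjoint S U) (hTU : Disjoint T U)
    (h1 : Link P x y S) (h2 : Link P x y T) (h3 : Link P x y U) (hlt : f x < f y) : False := by
  obtain ⟨hxS, hyS, i, hi, i1, i2, i3, i4⟩ := k23_inner h1
  obtain ⟨hxT, hyT, j, hj, j1, j2, j3, j4⟩ := k23_inner h2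
  obtain ⟨hxU, hyU, k, hk, k1, k2, k3, k4⟩ := k23_inner h3
  by_cases e1 : (f x < f i ∧ f i < f y ↔ f x < f j ∧ f j < f y)
  · exact k23_two hf h hxy hST hxS hyS hxT hyT hi hj i1 i2 i3 i4 j1 j2 j3 j4 hlt e1
  · by_cases e2 : (f x < f i ∧ f i < f y ↔ f x < f k ∧ f k < f y)
    · exact k23_two hf h hxy hSU hxS hyS hxU hyU hi hk i1 i2 i3 i4 k1 k2 k3 k4 hlt e2
    · have e3 : (f x < f j ∧ f j < f y ↔ f x < f k ∧ f k < f y) := by tauto
      exact k23_two hf h hxy hTU hxT hyT hxU hyU hj hk j1 j2 j3 j4 k1 k2 k3 k4 hlt e3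

theorem k23 {P : SimpleGraph V} {f : V → ℕ} (hf : Function.Injective f) (h : NonCr P f) {x y : V}
    (hxy : x ≠ y) {S T U : Set V} (hST : Disjoint S T) (hSU : Disjoint S U) (hTU : Disjoint T U)
    (h1 : Link P x y S) (h2 : Link P x y T) (h3 : Link P x y U) : False := by
  have hne : f x ≠ f y := fun e => hxy (hf e)
  rcases lt_or_gt_of_ne hne with hlt | hlt
  · exact k23_lt hf h hxy hST hSU hTU h1 h2 h3 hlt
  · exact k23_lt hf h hxy.symm hST hSU hTU h1.symm h2.symm h3.symm hlt

end OTh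
end

section

/-!
Links from reachability, composition of links, images of links.

PROOFS.
`link_of_reach`.  Let `C` be the set of `p` with `p = x`, or `p ∈ S` and `∃ a ∈ S, P.Adj x a ∧ In P S a p`.  `y ∉ C` (`y ∈ H`, `y ≠ x`).  Along a
walk from `x` to `y` there are adjacent `p ∈ C`, `q ∉ C`.  If `p = x` then `q ∈ S` (one end of each edge lies in `S`, `x ∉ S`), so `q ∈ C`,
contradiction.  If `p ∈ S` then `q ∈ S` is impossible (it would be in `C`), so `q ∈ H` (all vertices of edges are in `H ∪ S`), `q ≠ x`,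
and `Link P x q S`.

`Link.trans`: the path from `x` to `y`, then `y`, then the path from `y` to `z`.
-/

set_option autoImplicit false

namespace OTh

variable {V : Type*}

theorem link_of_reach {P : SimpleGraph V} {H S : Set V} (hHS : Disjoint H S)
    (h1 : ∀ u v, P.Adj u v → u ∈ H ∪ S) (h2 : ∀ u v, P.Adj u v → u ∈ S ∨ v ∈ S) {x y : V}
    (hx : x ∈ H) (hy : y ∈ H) (hxy : x ≠ y) (hr : P.Reachable x y) :
    ∃ z ∈ H, z ≠ x ∧ Link P x z S := by
  classical
  by_contra hcon
  push Not at hcon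
  have hxS : x ∉ S := Set.disjoint_left.1 hHS hx
  have key : ∀ v, Relation.ReflTransGen P.Adj x v →
      v = x ∨ (v ∈ S ∧ ∃ a ∈ S, P.Adj x a ∧ In P S a v) := by
    intro v hv
    induction hv with
    | refl => exact Or.inl rfl
    | tail hab hbc ih =>
      rename_i b c
      rcases ih with rfl | ⟨hbS, a, haS, hxa, hab'⟩
      · rcases h2 _ _ hbc with h | h
        · exact absurd h hxS
        · exact Or.inr ⟨h, c, h, hbc, Relation.ReflTransGen.refl⟩
      · by_cases hcS : c ∈ S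
        · exact Or.inr ⟨hcS, a, haS, hxa, Relation.ReflTransGen.tail hab' ⟨hbc, hcS⟩⟩
        · left
          by_contra hcx
          have hcH : c ∈ H := (h1 _ _ hbc.symm).resolve_right hcS
          exact hcon c hcH hcx ⟨hxS, hcS, a, b, haS, hbS, hxa, hbc, hab'⟩
  have h3 : Relation.ReflTransGen P.Adj x y := (SimpleGraph.reachable_iff_reflTransGen x y).1 hr
  rcases key y h3 with h | ⟨h, -⟩
  · exact hxy h.symm
  · exact Set.disjoint_left.1 hHS hy h

theorem Link.trans {P : SimpleGraph V} {x y z : V} {S T : Set V} (h1 : Link P x y S)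
    (h2 : Link P y z T) (hxT : x ∉ T) (hzS : z ∉ S) (hxy : x ≠ y) (hyz : y ≠ z) :
    Link P x z (S ∪ T ∪ {y}) := by
  obtain ⟨hx, hy, a, b, ha, hb, hxa, hby, hab⟩ := h1
  obtain ⟨hy', hz, a', b', ha', hb', hya', hb'z, hab'⟩ := h2
  have hS : S ⊆ S ∪ T ∪ {y} := fun v hv => Or.inl (Or.inl hv)
  have hT : T ⊆ S ∪ T ∪ {y} := fun v hv => Or.inl (Or.inr hv)
  refine ⟨?_, ?_, a, b', hS ha, hT hb', hxa, hb'z, ?_⟩
  · rintro ((h | h) | h)
    · exact hx h
    · exact hxT h
    · exact hxy h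
  · rintro ((h | h) | h)
    · exact hzS h
    · exact hz h
    · exact hyz h.symm
  · have e1 : In P (S ∪ T ∪ {y}) a b := hab.mono le_rfl hS
    have e2 : In P (S ∪ T ∪ {y}) a' b' := hab'.mono le_rfl hT
    unfold In at e1 e2 ⊢
    exact ((e1.tail ⟨hby, Or.inr rfl⟩).tail ⟨hya', hT ha'⟩).trans e2

theorem Link.map {V W : Type*} {R : SimpleGraph W} {P : SimpleGraph V} (e : W → V)
    (he : Function.Injective e) (hRP : ∀ u v, R.Adj u v → P.Adj (e u) (e v)) {x y : W} {S : Set W}
    (h : Link R x y S) : Link P (e x) (e y) (e '' S) := by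
  obtain ⟨hx, hy, a, b, ha, hb, hxa, hby, hab⟩ := h
  refine ⟨?_, ?_, e a, e b, ⟨a, ha, rfl⟩, ⟨b, hb, rfl⟩, hRP _ _ hxa, hRP _ _ hby, ?_⟩
  · rintro ⟨u, hu, hux⟩
    exact hx (he hux ▸ hu)
  · rintro ⟨u, hu, hux⟩
    exact hy (he hux ▸ hu)
  · unfold In at hab ⊢
    clear hb hby
    induction hab with
    | refl => exact Relation.ReflTransGen.refl
    | tail _ hbc ih => exact ih.tail ⟨hRP _ _ hbc.1, _, hbc.2, rfl⟩

end OTh
end

section

/-!
The principal square root.
-/

set_option autoImplicit false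

namespace OTh

open Set Filter Topology Complex

/-- the principal square root -/
noncomputable def csq (z : ℂ) : ℂ := z ^ (1 / 2 : ℂ)

theorem csq_sq (z : ℂ) : csq z ^ 2 = z := by
  unfold csq
  rw [← Complex.cpow_nat_mul]
  simp

theorem csq_zero : csq 0 = 0 := by
  unfold csq
  simp

theorem csq_arg {z : ℂ} (hz : z ≠ 0) : csq z = Complex.exp (Complex.log z / 2) := by
  unfold csq
  rw [Complex.cpow_def_of_ne_zero hz]
  ring_nf

theorem csq_eq {z : ℂ} (hz : z ≠ 0) : csq z = (Real.exp ((Complex.log z).re / 2) : ℂ) *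
    (Real.cos (arg z / 2) + Real.sin (arg z / 2) * I) := by
  rw [csq_arg hz]
  have : Complex.log z / 2 = (((Complex.log z).re / 2 : ℝ) : ℂ) + ((arg z / 2 : ℝ) : ℂ) * I := by
    apply Complex.ext <;> simp [Complex.log_im]
  rw [this, Complex.exp_add, Complex.exp_mul_I, ← Complex.ofReal_exp, ← Complex.ofReal_cos,
    ← Complex.ofReal_sin]

theorem csq_re {z : ℂ} (hz : z ≠ 0) :
    (csq z).re = Real.exp ((Complex.log z).re / 2) * Real.cos (arg z / 2) := by
  rw [csq_eq hz, Complex.re_ofReal_mul]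
  simp only [add_re, mul_re, I_re, I_im, ofReal_re, ofReal_im]
  ring

theorem csq_im {z : ℂ} (hz : z ≠ 0) :
    (csq z).im = Real.exp ((Complex.log z).re / 2) * Real.sin (arg z / 2) := by
  rw [csq_eq hz, Complex.im_ofReal_mul]
  simp only [add_im, mul_im, I_re, I_im, ofReal_re, ofReal_im]
  ring

theorem csq_re_pos {z : ℂ} (hz : z ∈ slitPlane) : 0 < (csq z).re := by
  rw [csq_re (slitPlane_ne_zero hz)]
  apply mul_pos (Real.exp_pos _)
  have h := Complex.mem_slitPlane_iff_arg.1 hz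
  have h1 := Complex.neg_pi_lt_arg z
  have h2 := lt_of_le_of_ne (Complex.arg_le_pi z) h.1
  apply Real.cos_pos_of_mem_Ioo
  constructor <;> linarith

theorem csq_im_pos {z : ℂ} (hz : 0 < z.im) : 0 < (csq z).im := by
  have hz0 : z ≠ 0 := by rintro rfl; simp at hz
  rw [csq_im hz0]
  apply mul_pos (Real.exp_pos _)
  have h1 : 0 ≤ arg z := Complex.arg_nonneg_iff.2 hz.le
  have h2 : arg z ≠ 0 := by
    intro h
    have := Complex.arg_eq_zero_iff.1 h
    linarith [this.2]
  have h3 := Complex.arg_le_pi z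
  have h4 : 0 < arg z := lt_of_le_of_ne h1 (Ne.symm h2)
  apply Real.sin_pos_of_pos_of_lt_pi <;> linarith [Real.pi_pos]

theorem csq_im_neg {z : ℂ} (hz : z.im < 0) : (csq z).im < 0 := by
  have hz0 : z ≠ 0 := by rintro rfl; simp at hz
  rw [csq_im hz0]
  apply mul_neg_of_pos_of_neg (Real.exp_pos _)
  have h1 : arg z < 0 := Complex.arg_neg_iff.2 hz
  have h3 := Complex.neg_pi_lt_arg z
  apply Real.sin_neg_of_neg_of_neg_pi_lt <;> linarith [Real.pi_pos]

theorem csq_ofReal {r : ℝ} (hr : 0 ≤ r) : csq r = (Real.sqrt r : ℂ) := by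
  unfold csq
  rw [Real.sqrt_eq_rpow, Complex.ofReal_cpow hr]
  norm_num

theorem csq_differentiableAt {z : ℂ} (hz : z ∈ slitPlane) : DifferentiableAt ℂ csq z := by
  unfold csq
  exact DifferentiableAt.cpow_const differentiableAt_id hz

theorem csq_continuousAt {z : ℂ} (hz : z ∈ slitPlane) : ContinuousAt csq z :=
  (csq_differentiableAt hz).continuousAt

theorem csq_continuousAt_zero : ContinuousAt csq 0 := by
  have h := Complex.continuousAt_cpow_zero_of_re_pos (z := (1 / 2 : ℂ)) (by norm_num)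
  have h2 : ContinuousAt (fun z : ℂ => ((z, (1 / 2 : ℂ)) : ℂ × ℂ)) 0 := by fun_prop
  exact ContinuousAt.comp (f := fun z : ℂ => ((z, (1 / 2 : ℂ)) : ℂ × ℂ)) (g := fun x : ℂ × ℂ => x.1 ^ x.2)
    (x := (0 : ℂ)) h h2

/-- two numbers with positive real parts and equal squares are equal -/
theorem eq_of_sq_eq {z w : ℂ} (h : z ^ 2 = w ^ 2) (hz : 0 < z.re) (hw : 0 < w.re) : z = w := by
  rcases sq_eq_sq_iff_eq_or_eq_neg.1 h with h | h
  · exact h
  · rw [h] at hz
    simp at hz
    linarith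

theorem csq_inv {z : ℂ} (hz : z ∈ slitPlane) : csq z⁻¹ = (csq z)⁻¹ := by
  have hz0 := slitPlane_ne_zero hz
  have hz' : z⁻¹ ∈ slitPlane := by
    rw [Complex.mem_slitPlane_iff_arg] at hz ⊢
    constructor
    · rw [Complex.arg_inv]
      split_ifs with h
      · exact absurd h hz.1
      · intro h'
        linarith [Complex.neg_pi_lt_arg z]
    · exact inv_ne_zero hz0
  apply eq_of_sq_eq
  · rw [inv_pow, csq_sq, csq_sq]
  · exact csq_re_pos hz'
  · rw [Complex.inv_re]
    apply div_pos (csq_re_pos hz)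
    apply Complex.normSq_pos.2
    intro h
    have := csq_re_pos hz
    rw [h] at this
    simp at this

theorem csq_neg {z : ℂ} (hz : 0 < z.im) : csq (-z) = -(I * csq z) := by
  have hz1 : z ∈ slitPlane := Or.inr hz.ne'
  have hz2 : -z ∈ slitPlane := Or.inr (by simpa using hz.ne')
  apply eq_of_sq_eq
  · rw [csq_sq, neg_sq, mul_pow, csq_sq, I_sq]
    ring
  · exact csq_re_pos hz2
  · have := csq_im_pos hz
    simp
    exact this

end OTh
end

section

/-!
Arcs.

* `isArc_symm`: `fun s => γ (1 - s)`.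
* `arc_image`: continuity at `0`: `γ s → γ 0` inside `HH` for `s → 0, s > 0`.
-/

set_option autoImplicit false

namespace OTh

open Set Filter Topology Complex

private theorem TArc_isOpen_HH : IsOpen HH := isOpen_lt continuous_const Complex.continuous_im

/-- Take `fun s => if s ≤ 0 then p else if 1 ≤ s then q else φ (γ s)`. -/
theorem arc_image {φ : ℂ → ℂ} {γ : ℝ → ℂ} {p q : ℂ} (hγ : ContinuousOn γ (Icc 0 1))
    (hinj : InjOn γ (Icc 0 1)) (hH : ∀ s ∈ Ioo (0 : ℝ) 1, γ s ∈ HH) (hφc : ContinuousOn φ HH)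
    (hφi : InjOn φ HH) (h0 : Tendsto φ (𝓝[HH] (γ 0)) (𝓝 p)) (h1 : Tendsto φ (𝓝[HH] (γ 1)) (𝓝 q))
    (hpq : p ≠ q) (hp : ∀ s ∈ Ioo (0 : ℝ) 1, φ (γ s) ≠ p) (hq : ∀ s ∈ Ioo (0 : ℝ) 1, φ (γ s) ≠ q) :
    IsArc (insert p (insert q ((fun s => φ (γ s)) '' Ioo 0 1))) p q := by
  obtain ⟨g, hg⟩ : ∃ g : ℝ → ℂ, g = fun s => if s ≤ 0 then p else if 1 ≤ s then q else φ (γ s) :=
    ⟨_, rfl⟩
  have g0 : g 0 = p := by rw [hg]; simp
  have g1 : g 1 = q := by rw [hg]; simp
  have gI : ∀ s ∈ Ioo (0 : ℝ) 1, g s = φ (γ s) := by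
    intro s hs
    rw [hg]
    dsimp only
    rw [if_neg (not_le.2 hs.1), if_neg (not_le.2 hs.2)]
  have hcI : ∀ s ∈ Icc (0 : ℝ) 1, s = 0 ∨ s = 1 ∨ s ∈ Ioo (0 : ℝ) 1 := by
    intro s hs
    rcases eq_or_lt_of_le hs.1 with h | h
    · exact Or.inl h.symm
    · rcases eq_or_lt_of_le hs.2 with h' | h'
      · exact Or.inr (Or.inl h')
      · exact Or.inr (Or.inr ⟨h, h'⟩)
  have hend : ∀ (u : ℝ) (r : ℂ), u ∈ Icc (0 : ℝ) 1 → Tendsto φ (𝓝[HH] (γ u)) (𝓝 r) →
      Tendsto g (𝓝[Ioo 0 1] u) (𝓝 r) := by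
    intro u r hu hr
    have e1 : Tendsto γ (𝓝[Ioo 0 1] u) (𝓝[HH] (γ u)) := by
      rw [tendsto_nhdsWithin_iff]
      refine ⟨(hγ u hu).mono Ioo_subset_Icc_self, ?_⟩
      filter_upwards [self_mem_nhdsWithin] with s hs using hH s hs
    refine (hr.comp e1).congr' ?_
    filter_upwards [self_mem_nhdsWithin] with s hs
    exact (gI s hs).symm
  refine ⟨g, ?_, ?_, g0, g1, ?_⟩
  · intro s hs
    rcases hcI s hs with rfl | rfl | h
    · have e1 : ContinuousWithinAt g (insert 0 (Ioo 0 1)) 0 := by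
        rw [continuousWithinAt_insert_self]
        unfold ContinuousWithinAt
        rw [g0]
        exact hend 0 p hs h0
      refine e1.mono_of_mem_nhdsWithin ?_
      filter_upwards [self_mem_nhdsWithin, mem_nhdsWithin_of_mem_nhds
        (Iio_mem_nhds (show (0 : ℝ) < 1 by norm_num))] with x hx hx'
      rcases eq_or_lt_of_le hx.1 with h' | h'
      · exact Or.inl h'.symm
      · exact Or.inr ⟨h', hx'⟩
    · have e1 : ContinuousWithinAt g (insert 1 (Ioo 0 1)) 1 := by
        rw [continuousWithinAt_insert_self]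
        unfold ContinuousWithinAt
        rw [g1]
        exact hend 1 q hs h1
      refine e1.mono_of_mem_nhdsWithin ?_
      filter_upwards [self_mem_nhdsWithin, mem_nhdsWithin_of_mem_nhds
        (Ioi_mem_nhds (show (0 : ℝ) < 1 by norm_num))] with x hx hx'
      rcases eq_or_lt_of_le hx.2 with h' | h'
      · exact Or.inl h'
      · exact Or.inr ⟨hx', h'⟩
    · have e1 : ContinuousAt γ s := (hγ s hs).continuousAt (Icc_mem_nhds h.1 h.2)
      have e2 : ContinuousAt φ (γ s) :=
        (hφc (γ s) (hH s h)).continuousAt (TArc_isOpen_HH.mem_nhds (hH s h))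
      have e3 : ContinuousAt (fun s => φ (γ s)) s := ContinuousAt.comp e2 e1
      have e4 : (fun s => φ (γ s)) =ᶠ[𝓝 s] g := by
        filter_upwards [Ioo_mem_nhds h.1 h.2] with x hx using (gI x hx).symm
      exact (e3.congr e4).continuousWithinAt
  · have key : ∀ s ∈ Ioo (0 : ℝ) 1, ∀ t ∈ Ioo (0 : ℝ) 1, g s = g t → s = t := by
      intro s hs t ht h
      rw [gI s hs, gI t ht] at h
      exact hinj (Ioo_subset_Icc_self hs) (Ioo_subset_Icc_self ht) (hφi (hH s hs) (hH t ht) h)
    intro s hs t ht h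
    rcases hcI s hs with rfl | rfl | hs'
    · rcases hcI t ht with rfl | rfl | ht'
      · rfl
      · rw [g0, g1] at h
        exact absurd h hpq
      · rw [g0, gI t ht'] at h
        exact absurd h.symm (hp t ht')
    · rcases hcI t ht with rfl | rfl | ht'
      · rw [g0, g1] at h
        exact absurd h.symm hpq
      · rfl
      · rw [g1, gI t ht'] at h
        exact absurd h.symm (hq t ht')
    · rcases hcI t ht with rfl | rfl | ht'
      · rw [g0, gI s hs'] at h
        exact absurd h (hp s hs')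
      · rw [g1, gI s hs'] at h
        exact absurd h (hq s hs')
      · exact key s hs' t ht' h
  · ext z
    constructor
    · rintro ⟨s, hs, rfl⟩
      rcases hcI s hs with rfl | rfl | h
      · rw [g0]
        exact Or.inl rfl
      · rw [g1]
        exact Or.inr (Or.inl rfl)
      · exact Or.inr (Or.inr ⟨s, h, (gI s h).symm⟩)
    · rintro (rfl | rfl | ⟨s, h, rfl⟩)
      · exact ⟨0, by norm_num, g0⟩
      · exact ⟨1, by norm_num, g1⟩
      · exact ⟨s, Ioo_subset_Icc_self h, gI s h⟩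

theorem isArc_symm {A : Set ℂ} {p q : ℂ} (h : IsArc A p q) : IsArc A q p := by
  obtain ⟨γ, h1, h2, h3, h4, h5⟩ := h
  have hm : ∀ s ∈ Icc (0 : ℝ) 1, 1 - s ∈ Icc (0 : ℝ) 1 := by
    intro s hs
    exact ⟨by linarith [hs.2], by linarith [hs.1]⟩
  refine ⟨fun s => γ (1 - s), ?_, ?_, ?_, ?_, ?_⟩
  · exact h1.comp (by fun_prop) hm
  · intro s hs t ht h
    have := h2 (hm s hs) (hm t ht) h
    linarith
  · simpa using h4
  · simpa using h3
  · rw [← h5]
    ext z
    constructor
    · rintro ⟨s, hs, rfl⟩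
      exact ⟨1 - s, hm s hs, rfl⟩
    · rintro ⟨s, hs, rfl⟩
      exact ⟨1 - s, hm s hs, by simp⟩

/-- Take `γ s = a + min (2 * s) 1 * (c - a) + max (2 * s - 1) 0 * (b - c)`; its imaginary part is `c.im * (1 - |2 * s - 1|)`. -/
theorem poly_arc {a b : ℝ} (hab : a ≠ b) {c : ℂ} (hc : c ∈ HH) : ∃ γ : ℝ → ℂ,
    ContinuousOn γ (Icc 0 1) ∧ InjOn γ (Icc 0 1) ∧ (∀ s ∈ Ioo (0 : ℝ) 1, γ s ∈ HH) ∧ γ 0 = a ∧
    γ 1 = b ∧ γ '' Ioo 0 1 = poly a c b ∩ HH := by
  have hc' : 0 < c.im := hc
  obtain ⟨γ, hγ⟩ : ∃ γ : ℝ → ℂ, γ = fun s => (a : ℂ) + ((min (2 * s) 1 : ℝ) : ℂ) * (c - a) +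
    ((max (2 * s - 1) 0 : ℝ) : ℂ) * (b - c) := ⟨_, rfl⟩
  have hL : ∀ s ≤ (1 / 2 : ℝ), γ s = a + ((2 * s : ℝ) : ℂ) * (c - a) := by
    intro s hs
    rw [hγ]
    dsimp only
    rw [min_eq_left (by linarith), max_eq_right (by linarith)]
    simp
  have hR : ∀ s, (1 / 2 : ℝ) ≤ s → γ s = c + ((2 * s - 1 : ℝ) : ℂ) * (b - c) := by
    intro s hs
    rw [hγ]
    dsimp only
    rw [min_eq_right (by linarith), max_eq_left (by linarith)]
    simp
  have hLi : ∀ s ≤ (1 / 2 : ℝ), (γ s).im = 2 * s * c.im := by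
    intro s hs
    rw [hL s hs]
    simp
  have hRi : ∀ s, (1 / 2 : ℝ) ≤ s → (γ s).im = (2 - 2 * s) * c.im := by
    intro s hs
    rw [hR s hs]
    simp
    ring
  have hLr : ∀ s ≤ (1 / 2 : ℝ), (γ s).re = a + 2 * s * (c.re - a) := by
    intro s hs
    rw [hL s hs]
    simp
  have hRr : ∀ s, (1 / 2 : ℝ) ≤ s → (γ s).re = c.re + (2 * s - 1) * (b - c.re) := by
    intro s hs
    rw [hR s hs]
    simp
  have hpos : ∀ s ∈ Ioo (0 : ℝ) 1, γ s ∈ HH := by
    intro s hs
    show 0 < (γ s).im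
    rcases le_total s (1 / 2) with h | h
    · rw [hLi s h]
      have := hs.1
      positivity
    · rw [hRi s h]
      exact mul_pos (by linarith [hs.2]) hc'
  have hLL : ∀ s ≤ (1 / 2 : ℝ), ∀ t ≤ (1 / 2 : ℝ), γ s = γ t → s = t := by
    intro s hs t ht h
    have h' := congrArg Complex.im h
    rw [hLi s hs, hLi t ht] at h'
    have := mul_right_cancel₀ hc'.ne' h'
    linarith
  have hRR : ∀ s, (1 / 2 : ℝ) ≤ s → ∀ t, (1 / 2 : ℝ) ≤ t → γ s = γ t → s = t := by
    intro s hs t ht h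
    have h' := congrArg Complex.im h
    rw [hRi s hs, hRi t ht] at h'
    have := mul_right_cancel₀ hc'.ne' h'
    linarith
  have hLR : ∀ s ≤ (1 / 2 : ℝ), ∀ t, (1 / 2 : ℝ) ≤ t → γ s = γ t → s = t := by
    intro s hs t ht h
    have h' := congrArg Complex.im h
    rw [hLi s hs, hRi t ht] at h'
    have h2 := mul_right_cancel₀ hc'.ne' h'
    have h3 := congrArg Complex.re h
    rw [hLr s hs, hRr t ht] at h3
    have h4 : t = 1 - s := by linarith
    rw [h4] at h3
    have h5 : (a - b) * (1 - 2 * s) = 0 := by linarith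
    rcases mul_eq_zero.1 h5 with h6 | h6
    · exact absurd (sub_eq_zero.1 h6) hab
    · linarith
  refine ⟨γ, ?_, ?_, hpos, ?_, ?_, ?_⟩
  · rw [hγ]
    apply Continuous.continuousOn
    fun_prop
  · intro s hs t ht h
    rcases le_total s (1 / 2) with h1 | h1 <;> rcases le_total t (1 / 2) with h2 | h2
    · exact hLL s h1 t h2 h
    · exact hLR s h1 t h2 h
    · exact (hLR t h2 s h1 h.symm).symm
    · exact hRR s h1 t h2 h
  · rw [hL 0 (by norm_num)]
    simp
  · rw [hR 1 (by norm_num)]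
    norm_num
  · ext z
    constructor
    · rintro ⟨s, hs, rfl⟩
      refine ⟨?_, hpos s hs⟩
      rcases le_total s (1 / 2) with h | h
      · left
        rw [segment_eq_image']
        refine ⟨2 * s, ⟨by linarith [hs.1], by linarith⟩, ?_⟩
        rw [hL s h]
        dsimp only
        rw [Complex.real_smul]
      · right
        rw [segment_eq_image']
        refine ⟨2 * s - 1, ⟨by linarith, by linarith [hs.2]⟩, ?_⟩
        rw [hR s h]
        dsimp only
        rw [Complex.real_smul]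
    · rintro ⟨hz | hz, hzH⟩
      · rw [segment_eq_image'] at hz
        obtain ⟨t, ht, rfl⟩ := hz
        have hzi : 0 < ((a : ℂ) + t • (c - a)).im := hzH
        rw [Complex.real_smul] at hzi
        simp at hzi
        have ht0 : 0 < t := by
          by_contra hcon
          have : t = 0 := le_antisymm (not_lt.1 hcon) ht.1
          rw [this] at hzi
          simp at hzi
        refine ⟨t / 2, ⟨by linarith, by linarith [ht.2]⟩, ?_⟩
        rw [hL (t / 2) (by linarith [ht.2])]
        dsimp only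
        rw [Complex.real_smul]
        congr 2
        congr 1
        ring
      · rw [segment_eq_image'] at hz
        obtain ⟨t, ht, rfl⟩ := hz
        have hzi : 0 < (c + t • ((b : ℂ) - c)).im := hzH
        rw [Complex.real_smul] at hzi
        simp at hzi
        have ht1 : t < 1 := by
          by_contra hcon
          have : t = 1 := le_antisymm ht.2 (not_lt.1 hcon)
          rw [this] at hzi
          simp at hzi
        refine ⟨(1 + t) / 2, ⟨by linarith [ht.1], by linarith⟩, ?_⟩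
        rw [hR ((1 + t) / 2) (by linarith [ht.1])]
        dsimp only
        rw [Complex.real_smul]
        congr 2
        congr 1
        ring

/-- the intersection of `poly a c b` with the real axis -/
theorem poly_real {a b : ℝ} {c : ℂ} (hc : c ∈ HH) {z : ℂ} (hz : z ∈ poly a c b) :
    z ∈ HH ∨ z = a ∨ z = b := by
  have hc' : 0 < c.im := hc
  rcases hz with hz | hz
  · rw [segment_eq_image'] at hz
    obtain ⟨t, ht, rfl⟩ := hz
    rcases eq_or_lt_of_le ht.1 with h | h
    · right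
      left
      rw [← h]
      simp
    · left
      show 0 < ((a : ℂ) + t • (c - a)).im
      rw [Complex.real_smul]
      simp
      positivity
  · rw [segment_eq_image'] at hz
    obtain ⟨t, ht, rfl⟩ := hz
    rcases eq_or_lt_of_le ht.2 with h | h
    · right
      right
      rw [h]
      simp
    · left
      show 0 < (c + t • ((b : ℂ) - c)).im
      rw [Complex.real_smul]
      simp
      nlinarith

theorem neBot_HH (a : ℝ) : (𝓝[HH] (a : ℂ)).NeBot := by
  rw [← mem_closure_iff_nhdsWithin_neBot, Metric.mem_closure_iff]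
  intro ε hε
  refine ⟨(a : ℂ) + ((ε / 2 : ℝ) : ℂ) * I, ?_, ?_⟩
  · show 0 < ((a : ℂ) + ((ε / 2 : ℝ) : ℂ) * I).im
    simp
    exact hε
  · rw [dist_comm, Complex.dist_eq]
    have : (a : ℂ) + ((ε / 2 : ℝ) : ℂ) * I - a = ((ε / 2 : ℝ) : ℂ) * I := by ring
    rw [this, norm_mul, Complex.norm_I, mul_one, Complex.norm_real, Real.norm_eq_abs,
      abs_of_pos (by linarith)]
    linarith

end OTh
end
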