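import Pool.Agent.Lib.MP_9750df_co.TArc
import Pool.Agent.Lib.MP_9750df_co.Ring

section

/-!
The maps of the upper half plane onto the two sides of a chord (a half circle with ends `a` and `b`).
-/

set_option autoImplicit false

namespace OTh

open Set Filter Topology Complex

/-- this Moebius map maps `a, b` to `0, ∞` -/
noncomputable def Mo (a b : ℝ) (z : ℂ) : ℂ := (z - a) / (b - z)

private theorem TChA_im_div (z w : ℂ) : (z / w).im = (z * (starRingEnd ℂ) w).im / normSq w := by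
  rw [Complex.div_im]
  simp only [mul_im, conj_re, conj_im]
  ring

private theorem TChA_b_sub_ne (b : ℝ) {z : ℂ} (hz : z ∈ HH) : (b : ℂ) - z ≠ 0 := by
  intro h
  have h1 := congrArg Complex.im h
  simp only [sub_im, ofReal_im, zero_im] at h1
  have h2 : 0 < z.im := hz
  linarith

private theorem TChA_one_add_ne {w : ℂ} (hw : w ∈ HH) : (1 : ℂ) + w ≠ 0 := by
  intro h
  have h1 := congrArg Complex.im h
  simp only [add_im, one_im, zero_im] at h1
  have h2 : 0 < w.im := hw
  linarith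

theorem Mo_HH {a b : ℝ} (hab : a < b) {z : ℂ} (hz : z ∈ HH) : Mo a b z ∈ HH := by
  have hz' : 0 < z.im := hz
  show 0 < (Mo a b z).im
  unfold Mo
  rw [TChA_im_div]
  apply div_pos _ (Complex.normSq_pos.2 (TChA_b_sub_ne b hz))
  have : ((z - a) * (starRingEnd ℂ) ((b : ℂ) - z)).im = z.im * (b - a) := by
    simp only [mul_im, conj_re, conj_im, sub_re, sub_im, ofReal_re, ofReal_im]
    ring
  rw [this]
  exact mul_pos hz' (sub_pos.2 hab)

/-- the inverse of `Mo` -/
theorem Mo_inv {a b : ℝ} (hab : a < b) {w : ℂ} (hw : 1 + w ≠ 0) :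
    Mo a b ((a + b * w) / (1 + w)) = w := by
  unfold Mo
  have hba : (b : ℂ) - a ≠ 0 := by
    rw [← Complex.ofReal_sub]
    exact Complex.ofReal_ne_zero.2 (sub_pos.2 hab).ne'
  have h1 : ((a : ℂ) + b * w) / (1 + w) - a = (b - a) * w / (1 + w) := by
    field_simp
    ring
  have h2 : (b : ℂ) - (a + b * w) / (1 + w) = (b - a) / (1 + w) := by
    field_simp
    ring
  rw [h1, h2]
  field_simp

theorem Mo_inv_HH {a b : ℝ} (hab : a < b) {w : ℂ} (hw : w ∈ HH) : (a + b * w) / (1 + w) ∈ HH := by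
  have hw' : 0 < w.im := hw
  show 0 < ((a + b * w) / (1 + w)).im
  rw [TChA_im_div]
  apply div_pos _ (Complex.normSq_pos.2 (TChA_one_add_ne hw))
  have : (((a : ℂ) + b * w) * (starRingEnd ℂ) (1 + w)).im = w.im * (b - a) := by
    simp only [mul_im, mul_re, conj_re, conj_im, add_re, add_im, ofReal_re, ofReal_im, one_re,
      one_im]
    ring
  rw [this]
  exact mul_pos hw' (sub_pos.2 hab)

theorem Mo_inj {a b : ℝ} (hab : a < b) : InjOn (Mo a b) HH := by
  intro z hz w hw h
  unfold Mo at h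
  have hba : (b : ℂ) - a ≠ 0 := by
    rw [← Complex.ofReal_sub]
    exact Complex.ofReal_ne_zero.2 (sub_pos.2 hab).ne'
  rw [div_eq_div_iff (TChA_b_sub_ne b hz) (TChA_b_sub_ne b hw)] at h
  have h2 : ((b : ℂ) - a) * (z - w) = 0 := by linear_combination h
  rcases mul_eq_zero.1 h2 with h3 | h3
  · exact absurd h3 hba
  · exact sub_eq_zero.1 h3

/-- the chord -/
noncomputable def chArc (a b : ℝ) (s : ℝ) : ℂ := (a * (1 - s) + b * s * I) / ((1 - s) + s * I)

private theorem TChA_den_ne (s : ℝ) : ((1 : ℂ) - s) + s * I ≠ 0 := by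
  intro h
  have h1 := congrArg Complex.re h
  have h2 := congrArg Complex.im h
  simp only [add_re, add_im, sub_re, sub_im, one_re, one_im, mul_re, mul_im, ofReal_re,
    ofReal_im, I_re, I_im, zero_re, zero_im] at h1 h2
  linarith

theorem chArc_cont (a b : ℝ) : ContinuousOn (chArc a b) (Icc 0 1) := by
  apply Continuous.continuousOn
  unfold chArc
  apply Continuous.div
  · fun_prop
  · fun_prop
  · intro s
    exact TChA_den_ne s

theorem chArc_inj {a b : ℝ} (hab : a < b) : InjOn (chArc a b) (Icc 0 1) := by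
  intro s hs t ht h
  unfold chArc at h
  rw [div_eq_div_iff (TChA_den_ne s) (TChA_den_ne t)] at h
  have h2 := congrArg Complex.im h
  simp only [add_re, add_im, sub_re, sub_im, one_re, one_im, mul_re, mul_im, ofReal_re,
    ofReal_im, I_re, I_im] at h2
  have h3 : (b - a) * (s - t) = 0 := by linear_combination h2
  rcases mul_eq_zero.1 h3 with h4 | h4
  · exact absurd h4 (sub_pos.2 hab).ne'
  · exact sub_eq_zero.1 h4

theorem chArc_zero (a b : ℝ) : chArc a b 0 = a := by
  unfold chArc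
  simp

theorem chArc_one (a b : ℝ) : chArc a b 1 = b := by
  unfold chArc
  simp

private theorem TChA_arc_eq (a b : ℝ) {s : ℝ} (hs : s ∈ Ioo (0 : ℝ) 1) :
    chArc a b s = (a + b * ((s / (1 - s) : ℝ) * I)) / (1 + (s / (1 - s) : ℝ) * I) := by
  unfold chArc
  have h1 : (1 : ℂ) - s ≠ 0 := by
    have : (1 : ℂ) - s = ((1 - s : ℝ) : ℂ) := by push_cast; ring
    rw [this]
    exact Complex.ofReal_ne_zero.2 (sub_pos.2 hs.2).ne'
  have h2 : (1 : ℂ) + (s / (1 - s) : ℝ) * I = ((1 - s) + s * I) / (1 - s) := by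
    push_cast
    field_simp
  have h3 : (a : ℂ) + b * ((s / (1 - s) : ℝ) * I) = (a * (1 - s) + b * s * I) / (1 - s) := by
    push_cast
    field_simp
  rw [h2, h3, div_div_div_cancel_right₀ h1]

private theorem TChA_w_HH {s : ℝ} (hs : s ∈ Ioo (0 : ℝ) 1) : (((s / (1 - s) : ℝ) : ℂ) * I) ∈ HH := by
  show 0 < (((s / (1 - s) : ℝ) : ℂ) * I).im
  rw [Complex.im_ofReal_mul, I_im, mul_one]
  exact div_pos hs.1 (sub_pos.2 hs.2)

theorem chArc_HH {a b : ℝ} (hab : a < b) {s : ℝ} (hs : s ∈ Ioo 0 1) : chArc a b s ∈ HH := by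
  rw [TChA_arc_eq a b hs]
  exact Mo_inv_HH hab (TChA_w_HH hs)

theorem Mo_chArc {a b : ℝ} (hab : a < b) {s : ℝ} (hs : s ∈ Ioo 0 1) :
    (Mo a b (chArc a b s)).re = 0 := by
  rw [TChA_arc_eq a b hs, Mo_inv hab (TChA_one_add_ne (TChA_w_HH hs)), Complex.re_ofReal_mul, I_re,
    mul_zero]

end OTh
end

section

/-!
The inner side of the chord.
-/

set_option autoImplicit false

namespace OTh

open Set Filter Topology Complex

private noncomputable def TChBS (a b : ℝ) (z : ℂ) : ℂ := csq (Mo a b z)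

private noncomputable def TChBψ (a b : ℝ) (z : ℂ) : ℂ := (a + b * TChBS a b z) / (1 + TChBS a b z)

private theorem TChB_slit {a b : ℝ} (hab : a < b) {z : ℂ} (hz : z ∈ HH) : Mo a b z ∈ slitPlane := by
  have h : 0 < (Mo a b z).im := Mo_HH hab hz
  exact Or.inr h.ne'

private theorem TChB_re {a b : ℝ} (hab : a < b) {z : ℂ} (hz : z ∈ HH) : 0 < (TChBS a b z).re :=
  csq_re_pos (TChB_slit hab hz)

private theorem TChB_im {a b : ℝ} (hab : a < b) {z : ℂ} (hz : z ∈ HH) : 0 < (TChBS a b z).im := by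
  have h : 0 < (Mo a b z).im := Mo_HH hab hz
  exact csq_im_pos h

private theorem TChB_W {a b : ℝ} (hab : a < b) {z : ℂ} (hz : z ∈ HH) : TChBS a b z ∈ HH :=
  TChB_im hab hz

private theorem TChB_maps {a b : ℝ} (hab : a < b) : MapsTo (TChBψ a b) HH HH := by
  intro z hz
  exact Mo_inv_HH hab (TChB_W hab hz)

private theorem TChB_ne {a b : ℝ} (hab : a < b) {z : ℂ} (hz : z ∈ HH) : 1 + TChBS a b z ≠ 0 := by
  intro h
  have h1 := TChB_im hab hz
  have h2 := congrArg Complex.im h
  rw [Complex.add_im] at h2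
  simp at h2
  linarith

private theorem TChB_Mo {a b : ℝ} (hab : a < b) {z : ℂ} (hz : z ∈ HH) :
    Mo a b (TChBψ a b z) = TChBS a b z :=
  Mo_inv hab (TChB_ne hab hz)

private theorem TChB_inj {a b : ℝ} (hab : a < b) : InjOn (TChBψ a b) HH := by
  intro z hz w hw h
  have h1 := TChB_Mo hab hz
  rw [h, TChB_Mo hab hw] at h1
  have h3 : Mo a b w = Mo a b z := by
    have e1 := csq_sq (Mo a b w)
    have e2 := csq_sq (Mo a b z)
    rw [← e1, ← e2]
    have : csq (Mo a b w) = csq (Mo a b z) := h1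
    rw [this]
  exact (Mo_inj hab hw hz h3).symm

private theorem TChB_Mo_diff {a b : ℝ} {z : ℂ} (hz : (b : ℂ) - z ≠ 0) :
    DifferentiableAt ℂ (Mo a b) z := by
  unfold Mo
  exact DifferentiableAt.div (by fun_prop) (by fun_prop) hz

private theorem TChB_HH_ne {r : ℝ} {z : ℂ} (hz : z ∈ HH) : (r : ℂ) - z ≠ 0 := by
  intro h
  have h1 : 0 < z.im := hz
  have h2 := congrArg Complex.im h
  simp at h2
  linarith

private theorem TChB_diff {a b : ℝ} (hab : a < b) : DifferentiableOn ℂ (TChBψ a b) HH := by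
  intro z hz
  apply DifferentiableAt.differentiableWithinAt
  have h1 : DifferentiableAt ℂ (TChBS a b) z := by
    have h2 : DifferentiableAt ℂ (fun z => Mo a b z) z := TChB_Mo_diff (TChB_HH_ne hz)
    exact DifferentiableAt.comp z (csq_differentiableAt (TChB_slit hab hz)) h2
  unfold TChBψ
  exact DifferentiableAt.div (by fun_prop) (by fun_prop) (TChB_ne hab hz)

private theorem TChB_corner {a b : ℝ} (hab : a < b) {s t : ℝ}
    (h : Tendsto (TChBψ a b) (𝓝[HH] (s : ℂ)) (𝓝 (t : ℂ))) : CornerR (TChBψ a b) s t := by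
  unfold CornerR
  rw [tendsto_nhdsWithin_iff]
  refine ⟨h, ?_⟩
  filter_upwards [self_mem_nhdsWithin] with z hz
  exact TChB_maps hab hz

private theorem TChB_a {a b : ℝ} (hab : a < b) : CornerR (TChBψ a b) a a := by
  apply TChB_corner hab
  apply Tendsto.mono_left _ nhdsWithin_le_nhds
  have hb : (b : ℂ) - (a : ℂ) ≠ 0 := by
    rw [← Complex.ofReal_sub]
    exact Complex.ofReal_ne_zero.2 (by linarith)
  have h1 : ContinuousAt (fun z => Mo a b z) (a : ℂ) := (TChB_Mo_diff hb).continuousAt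
  have h2 : Mo a b (a : ℂ) = 0 := by
    unfold Mo
    simp
  have h3 : ContinuousAt (TChBS a b) (a : ℂ) := by
    apply ContinuousAt.comp (f := fun z => Mo a b z) (g := csq)
    · show ContinuousAt csq (Mo a b (a : ℂ))
      rw [h2]
      exact csq_continuousAt_zero
    · exact h1
  have h4 : TChBS a b (a : ℂ) = 0 := by
    unfold TChBS
    rw [h2, csq_zero]
  have h5 : ContinuousAt (TChBψ a b) (a : ℂ) := by
    unfold TChBψ
    apply ContinuousAt.div
    · fun_prop
    · fun_prop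
    · rw [h4]
      norm_num
  have h6 : TChBψ a b (a : ℂ) = a := by
    unfold TChBψ
    rw [h4]
    simp
  have h7 := h5.tendsto
  rwa [h6] at h7

private theorem TChB_b {a b : ℝ} (hab : a < b) : CornerR (TChBψ a b) b b := by
  apply TChB_corner hab
  have hb : (b : ℂ) - (a : ℂ) ≠ 0 := by
    rw [← Complex.ofReal_sub]
    exact Complex.ofReal_ne_zero.2 (by linarith)
  have h1 : ContinuousAt (fun z : ℂ => ((b : ℂ) - z) / (z - a)) (b : ℂ) := by
    apply ContinuousAt.div
    · fun_prop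
    · fun_prop
    · exact hb
  have h2 : ((b : ℂ) - b) / ((b : ℂ) - a) = 0 := by simp
  have h3 : ContinuousAt (fun z : ℂ => csq (((b : ℂ) - z) / (z - a))) (b : ℂ) := by
    apply ContinuousAt.comp (f := fun z : ℂ => ((b : ℂ) - z) / (z - a)) (g := csq)
    · show ContinuousAt csq (((b : ℂ) - b) / ((b : ℂ) - a))
      rw [h2]
      exact csq_continuousAt_zero
    · exact h1
  have h4 : csq (((b : ℂ) - b) / ((b : ℂ) - a)) = 0 := by
    rw [h2, csq_zero]
  have h5 : ContinuousAt (fun z : ℂ => ((a : ℂ) * csq (((b : ℂ) - z) / (z - a)) + b) /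
      (csq (((b : ℂ) - z) / (z - a)) + 1)) (b : ℂ) := by
    apply ContinuousAt.div
    · fun_prop
    · fun_prop
    · rw [h4]
      norm_num
  have h6 : ((a : ℂ) * csq (((b : ℂ) - b) / ((b : ℂ) - a)) + b) /
      (csq (((b : ℂ) - b) / ((b : ℂ) - a)) + 1) = b := by
    rw [h4]
    simp
  have h7 := h5.tendsto
  rw [h6] at h7
  apply (h7.mono_left (nhdsWithin_le_nhds (s := HH))).congr'
  filter_upwards [self_mem_nhdsWithin] with z hz
  have h8 : ((b : ℂ) - z) / (z - a) = (Mo a b z)⁻¹ := by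
    unfold Mo
    rw [inv_div]
  have h9 : csq (((b : ℂ) - z) / (z - a)) = (TChBS a b z)⁻¹ := by
    rw [h8, csq_inv (TChB_slit hab hz)]
    rfl
  have hS : TChBS a b z ≠ 0 := by
    intro h
    have := TChB_re hab hz
    rw [h] at this
    simp at this
  have hS1 := TChB_ne hab hz
  have hS2 : (TChBS a b z)⁻¹ + 1 ≠ 0 := by
    intro h
    apply hS1
    have h' : (TChBS a b z)⁻¹ = -1 := by linear_combination h
    have h'' : TChBS a b z = -1 := by
      rw [← inv_inv (TChBS a b z), h']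
      norm_num
    rw [h'']
    ring
  rw [h9]
  unfold TChBψ
  rw [div_eq_div_iff hS2 hS1]
  field_simp

private noncomputable def TChBg (a b : ℝ) (t : ℝ) : ℝ :=
  (a * (b - t) ^ 2 + b * (t - a) ^ 2) / ((b - t) ^ 2 + (t - a) ^ 2)

private theorem TChB_den {a b : ℝ} (hab : a < b) (t : ℝ) : 0 < (b - t) ^ 2 + (t - a) ^ 2 := by
  nlinarith [sq_nonneg ((b - t) - (t - a)), mul_pos (sub_pos.2 hab) (sub_pos.2 hab)]

private theorem TChB_t {a b : ℝ} (hab : a < b) {t : ℝ} (ht : t ∈ Ioo a b) :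
    CornerR (TChBψ a b) (TChBg a b t) t := by
  apply TChB_corner hab
  apply Tendsto.mono_left _ nhdsWithin_le_nhds
  obtain ⟨hat, htb⟩ := ht
  set s : ℝ := TChBg a b t with hs
  have hd : 0 < (b - t) ^ 2 + (t - a) ^ 2 := TChB_den hab t
  have hbt : 0 < b - t := by linarith
  have hta : 0 < t - a := by linarith
  have hba : 0 < b - a := by linarith
  have hd' : (b - t) ^ 2 + (t - a) ^ 2 ≠ 0 := hd.ne'
  have hbs : b - s = (b - a) * (b - t) ^ 2 / ((b - t) ^ 2 + (t - a) ^ 2) := by
    rw [hs, TChBg, eq_div_iff hd', sub_mul, div_mul_cancel₀ _ hd']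
    ring
  have hsa : s - a = (b - a) * (t - a) ^ 2 / ((b - t) ^ 2 + (t - a) ^ 2) := by
    rw [hs, TChBg, eq_div_iff hd', sub_mul, div_mul_cancel₀ _ hd']
    ring
  have hbs' : 0 < b - s := by
    rw [hbs]
    positivity
  have hb : (b : ℂ) - (s : ℂ) ≠ 0 := by
    rw [← Complex.ofReal_sub]
    exact Complex.ofReal_ne_zero.2 hbs'.ne'
  have h1 : ContinuousAt (fun z => Mo a b z) (s : ℂ) := (TChB_Mo_diff hb).continuousAt
  have h2 : Mo a b (s : ℂ) = ((((t - a) / (b - t)) ^ 2 : ℝ) : ℂ) := by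
    have e : ((t - a) / (b - t)) ^ 2 = (s - a) / (b - s) := by
      rw [hsa, hbs, div_div_div_cancel_right₀ hd', div_pow, mul_div_mul_left _ _ hba.ne']
    rw [e]
    unfold Mo
    push_cast
    rfl
  have hr : 0 < (t - a) / (b - t) := by positivity
  have h3 : ContinuousAt (TChBS a b) (s : ℂ) := by
    apply ContinuousAt.comp (f := fun z => Mo a b z) (g := csq)
    · show ContinuousAt csq (Mo a b (s : ℂ))
      rw [h2]
      apply csq_continuousAt
      rw [Complex.ofReal_mem_slitPlane]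
      positivity
    · exact h1
  have h4 : TChBS a b (s : ℂ) = (((t - a) / (b - t) : ℝ) : ℂ) := by
    unfold TChBS
    rw [h2, csq_ofReal (by positivity), Real.sqrt_sq hr.le]
  have hne : (1 : ℝ) + (t - a) / (b - t) ≠ 0 := by positivity
  have hne' : (1 : ℂ) + (((t - a) / (b - t) : ℝ) : ℂ) ≠ 0 := by
    rw [← Complex.ofReal_one, ← Complex.ofReal_add]
    exact Complex.ofReal_ne_zero.2 hne
  have h5 : ContinuousAt (TChBψ a b) (s : ℂ) := by
    unfold TChBψ
    apply ContinuousAt.div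
    · fun_prop
    · fun_prop
    · rw [h4]
      exact hne'
  have h6 : TChBψ a b (s : ℂ) = t := by
    unfold TChBψ
    rw [h4, div_eq_iff hne']
    have e : a + b * ((t - a) / (b - t)) = t * (1 + (t - a) / (b - t)) := by
      field_simp
      ring
    have e' := congrArg (fun x : ℝ => (x : ℂ)) e
    simp only [Complex.ofReal_add, Complex.ofReal_mul, Complex.ofReal_one] at e'
    simpa using e'
  have h7 := h5.tendsto
  rwa [h6] at h7

/-- Take `ψ z = (a + b * csq (Mo a b z)) / (1 + csq (Mo a b z))`; for the limit at `b` note that on `HH` we have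
`ψ z = (a * T + b) / (T + 1)`, `T = csq ((b - z) / (z - a))` (`csq_inv`).  If `m = (t - a) / (b - t)`
then `g t = (a + b * m ^ 2) / (1 + m ^ 2)`. -/
theorem exists_inner {a b : ℝ} (hab : a < b) : ∃ (ψ : ℂ → ℂ) (g : ℝ → ℝ), SelfMap ψ ∧
    StrictMonoOn g (Ioo a b) ∧ MapsTo g (Ioo a b) (Ioo a b) ∧ (∀ t ∈ Ioo a b, CornerR ψ (g t) t) ∧
    CornerR ψ a a ∧ CornerR ψ b b ∧ ∀ z ∈ HH, 0 < (Mo a b (ψ z)).re := by
  refine ⟨TChBψ a b, TChBg a b, ⟨TChB_diff hab, TChB_inj hab, TChB_maps hab⟩, ?_, ?_, ?_,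
    TChB_a hab, TChB_b hab, ?_⟩
  · intro u hu v hv huv
    obtain ⟨hau, hub⟩ := hu
    obtain ⟨hav, hvb⟩ := hv
    unfold TChBg
    rw [div_lt_div_iff₀ (TChB_den hab u) (TChB_den hab v)]
    have e0 : 0 < u - a := by linarith
    have e1 : 0 < v - a := by linarith
    have e2 : 0 < b - u := by linarith
    have e3 : 0 < b - v := by linarith
    have e4 : 0 < b - a := by linarith
    have e5 : (u - a) * (b - v) < (v - a) * (b - u) := by nlinarith
    have e6 : ((u - a) * (b - v)) ^ 2 < ((v - a) * (b - u)) ^ 2 := by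
      apply pow_lt_pow_left₀ e5 (by positivity) (by norm_num)
    nlinarith [mul_pos e4 (sub_pos.2 e6)]
  · intro t ht
    obtain ⟨hat, htb⟩ := ht
    have e1 : 0 < t - a := by linarith
    have e2 : 0 < b - t := by linarith
    have e4 : 0 < b - a := by linarith
    constructor
    · unfold TChBg
      rw [lt_div_iff₀ (TChB_den hab t)]
      have : 0 < (b - a) * (t - a) ^ 2 := by positivity
      nlinarith [this]
    · unfold TChBg
      rw [div_lt_iff₀ (TChB_den hab t)]
      have : 0 < (b - a) * (b - t) ^ 2 := by positivity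
      nlinarith [this]
  · intro t ht
    exact TChB_t hab ht
  · intro z hz
    rw [TChB_Mo hab hz]
    exact TChB_re hab hz

end OTh
end

section

/-!
The outer side of the chord.
-/

set_option autoImplicit false

namespace OTh

open Set Filter Topology Complex

private noncomputable def TChCS (a b : ℝ) (z : ℂ) : ℂ := csq (-Mo a b z)

private noncomputable def TChCψ (a b : ℝ) (z : ℂ) : ℂ := (a - b * TChCS a b z) / (1 - TChCS a b z)

private theorem TChC_slit {a b : ℝ} (hab : a < b) {z : ℂ} (hz : z ∈ HH) : -Mo a b z ∈ slitPlane := by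
  have h : 0 < (Mo a b z).im := Mo_HH hab hz
  refine Or.inr ?_
  rw [Complex.neg_im]
  linarith

private theorem TChC_re {a b : ℝ} (hab : a < b) {z : ℂ} (hz : z ∈ HH) : 0 < (TChCS a b z).re :=
  csq_re_pos (TChC_slit hab hz)

private theorem TChC_im {a b : ℝ} (hab : a < b) {z : ℂ} (hz : z ∈ HH) : (TChCS a b z).im < 0 := by
  have h : 0 < (Mo a b z).im := Mo_HH hab hz
  apply csq_im_neg
  rw [Complex.neg_im]
  linarith

private theorem TChC_W {a b : ℝ} (hab : a < b) {z : ℂ} (hz : z ∈ HH) : -TChCS a b z ∈ HH := by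
  have h := TChC_im hab hz
  show 0 < (-TChCS a b z).im
  rw [Complex.neg_im]
  linarith

private theorem TChC_psi (a b : ℝ) (z : ℂ) :
    TChCψ a b z = (a + b * (-TChCS a b z)) / (1 + (-TChCS a b z)) := by
  unfold TChCψ
  congr 1
  ring

private theorem TChC_maps {a b : ℝ} (hab : a < b) : MapsTo (TChCψ a b) HH HH := by
  intro z hz
  rw [TChC_psi]
  exact Mo_inv_HH hab (TChC_W hab hz)

private theorem TChC_ne {a b : ℝ} (hab : a < b) {z : ℂ} (hz : z ∈ HH) : 1 - TChCS a b z ≠ 0 := by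
  intro h
  have h1 := TChC_im hab hz
  have h2 := congrArg Complex.im h
  rw [Complex.sub_im] at h2
  simp at h2
  linarith

private theorem TChC_Mo {a b : ℝ} (hab : a < b) {z : ℂ} (hz : z ∈ HH) :
    Mo a b (TChCψ a b z) = -TChCS a b z := by
  rw [TChC_psi]
  apply Mo_inv hab
  have := TChC_ne hab hz
  rwa [sub_eq_add_neg] at this

private theorem TChC_inj {a b : ℝ} (hab : a < b) : InjOn (TChCψ a b) HH := by
  intro z hz w hw h
  have h1 := TChC_Mo hab hz
  rw [h, TChC_Mo hab hw] at h1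
  have h2 : TChCS a b w = TChCS a b z := neg_injective h1
  have h3 : -Mo a b w = -Mo a b z := by
    have e1 := csq_sq (-Mo a b w)
    have e2 := csq_sq (-Mo a b z)
    rw [← e1, ← e2]
    have : csq (-Mo a b w) = csq (-Mo a b z) := h2
    rw [this]
  exact (Mo_inj hab hw hz (neg_injective h3)).symm

private theorem TChC_Mo_diff {a b : ℝ} {z : ℂ} (hz : (b : ℂ) - z ≠ 0) :
    DifferentiableAt ℂ (Mo a b) z := by
  unfold Mo
  exact DifferentiableAt.div (by fun_prop) (by fun_prop) hz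

private theorem TChC_HH_ne {r : ℝ} {z : ℂ} (hz : z ∈ HH) : (r : ℂ) - z ≠ 0 := by
  intro h
  have h1 : 0 < z.im := hz
  have h2 := congrArg Complex.im h
  simp at h2
  linarith

private theorem TChC_diff {a b : ℝ} (hab : a < b) : DifferentiableOn ℂ (TChCψ a b) HH := by
  intro z hz
  apply DifferentiableAt.differentiableWithinAt
  have h1 : DifferentiableAt ℂ (TChCS a b) z := by
    have h2 : DifferentiableAt ℂ (fun z => -Mo a b z) z := (TChC_Mo_diff (TChC_HH_ne hz)).neg
    exact DifferentiableAt.comp z (csq_differentiableAt (TChC_slit hab hz)) h2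
  unfold TChCψ
  exact DifferentiableAt.div (by fun_prop) (by fun_prop) (TChC_ne hab hz)

private theorem TChC_corner {a b : ℝ} (hab : a < b) {s t : ℝ}
    (h : Tendsto (TChCψ a b) (𝓝[HH] (s : ℂ)) (𝓝 (t : ℂ))) : CornerR (TChCψ a b) s t := by
  unfold CornerR
  rw [tendsto_nhdsWithin_iff]
  refine ⟨h, ?_⟩
  filter_upwards [self_mem_nhdsWithin] with z hz
  exact TChC_maps hab hz

private theorem TChC_a {a b : ℝ} (hab : a < b) : CornerR (TChCψ a b) a a := by
  apply TChC_corner hab
  apply Tendsto.mono_left _ nhdsWithin_le_nhds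
  have hb : (b : ℂ) - (a : ℂ) ≠ 0 := by
    rw [← Complex.ofReal_sub]
    exact Complex.ofReal_ne_zero.2 (by linarith)
  have h1 : ContinuousAt (fun z => -Mo a b z) (a : ℂ) := (TChC_Mo_diff hb).neg.continuousAt
  have h2 : -Mo a b (a : ℂ) = 0 := by
    unfold Mo
    simp
  have h3 : ContinuousAt (TChCS a b) (a : ℂ) := by
    apply ContinuousAt.comp (f := fun z => -Mo a b z) (g := csq)
    · show ContinuousAt csq (-Mo a b (a : ℂ))
      rw [h2]
      exact csq_continuousAt_zero
    · exact h1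
  have h4 : TChCS a b (a : ℂ) = 0 := by
    unfold TChCS
    rw [h2, csq_zero]
  have h5 : ContinuousAt (TChCψ a b) (a : ℂ) := by
    unfold TChCψ
    apply ContinuousAt.div
    · fun_prop
    · fun_prop
    · rw [h4]
      norm_num
  have h6 : TChCψ a b (a : ℂ) = a := by
    unfold TChCψ
    rw [h4]
    simp
  have h7 := h5.tendsto
  rwa [h6] at h7

private theorem TChC_b {a b : ℝ} (hab : a < b) : CornerR (TChCψ a b) b b := by
  apply TChC_corner hab
  have hb : (b : ℂ) - (a : ℂ) ≠ 0 := by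
    rw [← Complex.ofReal_sub]
    exact Complex.ofReal_ne_zero.2 (by linarith)
  have h1 : ContinuousAt (fun z : ℂ => (z - b) / (z - a)) (b : ℂ) := by
    apply ContinuousAt.div
    · fun_prop
    · fun_prop
    · exact hb
  have h2 : ((b : ℂ) - b) / ((b : ℂ) - a) = 0 := by simp
  have h3 : ContinuousAt (fun z : ℂ => csq ((z - b) / (z - a))) (b : ℂ) := by
    apply ContinuousAt.comp (f := fun z : ℂ => (z - b) / (z - a)) (g := csq)
    · show ContinuousAt csq (((b : ℂ) - b) / ((b : ℂ) - a))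
      rw [h2]
      exact csq_continuousAt_zero
    · exact h1
  have h4 : csq (((b : ℂ) - b) / ((b : ℂ) - a)) = 0 := by
    rw [h2, csq_zero]
  have h5 : ContinuousAt (fun z : ℂ => ((a : ℂ) * csq ((z - b) / (z - a)) - b) /
      (csq ((z - b) / (z - a)) - 1)) (b : ℂ) := by
    apply ContinuousAt.div
    · fun_prop
    · fun_prop
    · rw [h4]
      norm_num
  have h6 : ((a : ℂ) * csq (((b : ℂ) - b) / ((b : ℂ) - a)) - b) /
      (csq (((b : ℂ) - b) / ((b : ℂ) - a)) - 1) = b := by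
    rw [h4]
    simp
  have h7 := h5.tendsto
  rw [h6] at h7
  apply (h7.mono_left (nhdsWithin_le_nhds (s := HH))).congr'
  filter_upwards [self_mem_nhdsWithin] with z hz
  have hza : z - (a : ℂ) ≠ 0 := by
    intro h
    exact TChC_HH_ne (r := a) hz (by linear_combination -h)
  have hzb : (b : ℂ) - z ≠ 0 := TChC_HH_ne hz
  have hzb' : z - (b : ℂ) ≠ 0 := by
    intro h
    exact hzb (by linear_combination -h)
  have h8 : (z - (b : ℂ)) / (z - a) = (-Mo a b z)⁻¹ := by
    unfold Mo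
    rw [← neg_div, inv_div, ← neg_sub z (b : ℂ), neg_div_neg_eq]
  have h9 : csq ((z - (b : ℂ)) / (z - a)) = (TChCS a b z)⁻¹ := by
    rw [h8, csq_inv (TChC_slit hab hz)]
    rfl
  have hS : TChCS a b z ≠ 0 := by
    intro h
    have := TChC_re hab hz
    rw [h] at this
    simp at this
  have hS1 := TChC_ne hab hz
  have hS2 : (TChCS a b z)⁻¹ - 1 ≠ 0 := by
    intro h
    apply hS1
    have h' : (TChCS a b z)⁻¹ = 1 := by linear_combination h
    have h'' : TChCS a b z = 1 := by
      rw [← inv_inv (TChCS a b z), h', inv_one]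
    rw [h'']
    ring
  rw [h9]
  unfold TChCψ
  rw [div_eq_div_iff hS2 hS1]
  field_simp

private theorem TChC_t {a b : ℝ} (hab : a < b) {t : ℝ} (ht : b < t) :
    CornerR (TChCψ a b) ((t ^ 2 - a * b) / (2 * t - a - b)) t := by
  apply TChC_corner hab
  apply Tendsto.mono_left _ nhdsWithin_le_nhds
  set s : ℝ := (t ^ 2 - a * b) / (2 * t - a - b) with hs
  have hd : 0 < 2 * t - a - b := by linarith
  have htb : 0 < t - b := by linarith
  have hta : 0 < t - a := by linarith
  have hd' : 2 * t - a - b ≠ 0 := hd.ne'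
  have htb' : t - b ≠ 0 := htb.ne'
  have hsb : s - b = (t - b) ^ 2 / (2 * t - a - b) := by
    rw [hs, eq_div_iff hd', sub_mul, div_mul_cancel₀ _ hd']
    ring
  have hsa : s - a = (t - a) ^ 2 / (2 * t - a - b) := by
    rw [hs, eq_div_iff hd', sub_mul, div_mul_cancel₀ _ hd']
    ring
  have hbs : 0 < s - b := by
    rw [hsb]
    positivity
  have hb : (b : ℂ) - (s : ℂ) ≠ 0 := by
    rw [← Complex.ofReal_sub]
    exact Complex.ofReal_ne_zero.2 (by linarith)
  have h1 : ContinuousAt (fun z => -Mo a b z) (s : ℂ) := (TChC_Mo_diff hb).neg.continuousAt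
  have h2 : -Mo a b (s : ℂ) = ((((t - a) / (t - b)) ^ 2 : ℝ) : ℂ) := by
    have e : ((t - a) / (t - b)) ^ 2 = (s - a) / (s - b) := by
      rw [hsa, hsb, div_div_div_cancel_right₀ hd', div_pow]
    rw [e]
    unfold Mo
    push_cast
    rw [← neg_sub (s : ℂ) (b : ℂ), div_neg, neg_neg]
  have hr : 0 < (t - a) / (t - b) := by positivity
  have h3 : ContinuousAt (TChCS a b) (s : ℂ) := by
    apply ContinuousAt.comp (f := fun z => -Mo a b z) (g := csq)
    · show ContinuousAt csq (-Mo a b (s : ℂ))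
      rw [h2]
      apply csq_continuousAt
      rw [Complex.ofReal_mem_slitPlane]
      positivity
    · exact h1
  have h4 : TChCS a b (s : ℂ) = (((t - a) / (t - b) : ℝ) : ℂ) := by
    unfold TChCS
    rw [h2, csq_ofReal (by positivity), Real.sqrt_sq hr.le]
  have hne : (1 : ℝ) - (t - a) / (t - b) ≠ 0 := by
    have : (1 : ℝ) - (t - a) / (t - b) = (a - b) / (t - b) := by
      field_simp
      ring
    rw [this]
    apply div_ne_zero
    · linarith
    · linarith
  have hne' : (1 : ℂ) - (((t - a) / (t - b) : ℝ) : ℂ) ≠ 0 := by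
    rw [← Complex.ofReal_one, ← Complex.ofReal_sub]
    exact Complex.ofReal_ne_zero.2 hne
  have h5 : ContinuousAt (TChCψ a b) (s : ℂ) := by
    unfold TChCψ
    apply ContinuousAt.div
    · fun_prop
    · fun_prop
    · rw [h4]
      exact hne'
  have h6 : TChCψ a b (s : ℂ) = t := by
    unfold TChCψ
    rw [h4, div_eq_iff hne']
    have e : a - b * ((t - a) / (t - b)) = t * (1 - (t - a) / (t - b)) := by
      field_simp
      ring
    have e' := congrArg (fun x : ℝ => (x : ℂ)) e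
    simp only [Complex.ofReal_sub, Complex.ofReal_mul, Complex.ofReal_one] at e'
    simpa using e'
  have h7 := h5.tendsto
  rwa [h6] at h7

/-- Take `ψ z = (a - b * csq (- Mo a b z)) / (1 - csq (- Mo a b z))`; for the limit at `b` note that on `HH` we have
`ψ z = (a * T - b) / (T - 1)`, `T = csq ((z - b) / (z - a))` (`csq_inv`).  If `m = (t - a) / (b - t) < - 1`
then `g t = (a - b * m ^ 2) / (1 - m ^ 2)`. -/
theorem exists_outer {a b : ℝ} (hab : a < b) : ∃ (ψ : ℂ → ℂ) (g : ℝ → ℝ), SelfMap ψ ∧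
    StrictMonoOn g (Ioi b) ∧ MapsTo g (Ioi b) (Ioi b) ∧ (∀ t ∈ Ioi b, CornerR ψ (g t) t) ∧
    CornerR ψ a a ∧ CornerR ψ b b ∧ ∀ z ∈ HH, (Mo a b (ψ z)).re < 0 := by
  refine ⟨TChCψ a b, fun t => (t ^ 2 - a * b) / (2 * t - a - b),
    ⟨TChC_diff hab, TChC_inj hab, TChC_maps hab⟩, ?_, ?_, ?_, TChC_a hab, TChC_b hab, ?_⟩
  · intro u hu v hv huv
    have hu' : b < u := hu
    have hv' : b < v := hv
    show (u ^ 2 - a * b) / (2 * u - a - b) < (v ^ 2 - a * b) / (2 * v - a - b)
    rw [div_lt_div_iff₀ (by linarith) (by linarith)]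
    have h1 : 0 < (v - u) * ((u - b) * (v - b) * 2 + (b - a) * ((u - b) + (v - b))) := by
      have e1 : 0 < v - u := by linarith
      have e2 : 0 < u - b := by linarith
      have e3 : 0 < v - b := by linarith
      have e4 : 0 < b - a := by linarith
      positivity
    nlinarith [h1]
  · intro t ht
    have ht' : b < t := ht
    show b < (t ^ 2 - a * b) / (2 * t - a - b)
    rw [lt_div_iff₀ (by linarith)]
    have : 0 < (t - b) ^ 2 := by
      have : 0 < t - b := by linarith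
      positivity
    nlinarith [this]
  · intro t ht
    exact TChC_t hab ht
  · intro z hz
    rw [TChC_Mo hab hz, Complex.neg_re]
    have := TChC_re hab hz
    linarith

end OTh
end

section

/-!
A chord divides a face.

Let `L = (a, u) :: L₁ ++ (b, v) :: L₂` be the list of corners (`List.map_eq_append_iff` etc.).  First face: `ψ₁, g₁` of `exists_inner`, corners
`(a, u) :: L₁.map (fun p => (g₁ p.1, p.2)) ++ [(b, v)]`.  Second face: with `ψ, g` of `exists_outer` the map `φ ∘ ψ` is a `FaceMap` for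
`u :: v :: w₂` with corners `(a, u) :: (b, v) :: L₂.map (fun p => (g p.1, p.2))`; then `faceMap_rotate` gives `ψ'` and `ψ₂ = ψ ∘ ψ'`.
-/

set_option autoImplicit false

namespace OTh

open Set Filter Topology Complex

private theorem TFmC_comp {ψ ψ' : ℂ → ℂ} (h : SelfMap ψ) (h' : SelfMap ψ') : SelfMap (ψ ∘ ψ') :=
  ⟨h.diff.comp h'.diff h'.maps, h.inj.comp h'.inj h'.maps, h.maps.comp h'.maps⟩

/-- Use `exists_inner` for the first face; `exists_outer` and `faceMap_rotate` for the second face. -/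
theorem faceMap_chord {V : Type*} {pt : V → ℂ} {u v : V} {w₁ w₂ : List V} {φ : ℂ → ℂ}
    (h : FaceMap pt (u :: w₁ ++ v :: w₂) φ) :
    ∃ (ψ₁ ψ₂ : ℂ → ℂ) (a b : ℝ), a < b ∧ SelfMap ψ₁ ∧ SelfMap ψ₂ ∧
      Tendsto φ (𝓝[HH] (a : ℂ)) (𝓝 (pt u)) ∧ Tendsto φ (𝓝[HH] (b : ℂ)) (𝓝 (pt v)) ∧
      (∀ z ∈ HH, 0 < (Mo a b (ψ₁ z)).re) ∧ (∀ z ∈ HH, (Mo a b (ψ₂ z)).re < 0) ∧
      FaceMap pt (u :: w₁ ++ [v]) (φ ∘ ψ₁) ∧ FaceMap pt (v :: w₂ ++ [u]) (φ ∘ ψ₂) := by
  obtain ⟨hd, hi, L, hL, hp, ht⟩ := h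
  obtain ⟨La, Lb, rfl, hLa, hLb⟩ := List.map_eq_append_iff.1 hL
  obtain ⟨⟨a, u'⟩, L₁, rfl, hu, hL₁⟩ := List.map_eq_cons_iff.1 hLa
  obtain ⟨⟨b, v'⟩, L₂, rfl, hv, hL₂⟩ := List.map_eq_cons_iff.1 hLb
  simp only at hu hv
  subst hu hv hL₁ hL₂
  rw [List.cons_append, List.pairwise_cons, List.pairwise_append, List.pairwise_cons] at hp
  obtain ⟨hpa, hp1, ⟨hpb, hp2⟩, hp12⟩ := hp
  have hab : a < b := hpa (b, v') (by simp)
  have hta : Tendsto φ (𝓝[HH] (a : ℂ)) (𝓝 (pt u')) := ht (a, u') (by simp)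
  have htb : Tendsto φ (𝓝[HH] (b : ℂ)) (𝓝 (pt v')) := ht (b, v') (by simp)
  have hIoo : ∀ p ∈ L₁, p.1 ∈ Ioo a b := fun p hpL =>
    ⟨hpa p (by simp [hpL]), hp12 p hpL (b, v') (by simp)⟩
  have hIoi : ∀ p ∈ L₂, p.1 ∈ Ioi b := fun p hpL => hpb p hpL
  obtain ⟨ψ₁, g₁, hψ₁, hg₁m, hg₁, hc₁, hc₁a, hc₁b, hre₁⟩ := exists_inner hab
  obtain ⟨ψ, g, hψ, hgm, hg, hc, hca, hcb, hre⟩ := exists_outer hab
  have hface1 : FaceMap pt (u' :: L₁.map Prod.snd ++ [v']) (φ ∘ ψ₁) := by
    refine ⟨hd.comp hψ₁.diff hψ₁.maps, hi.comp hψ₁.inj hψ₁.maps,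
      (a, u') :: L₁.map (fun p => (g₁ p.1, p.2)) ++ [(b, v')], ?_, ?_, ?_⟩
    · simp [Function.comp_def]
    · rw [List.cons_append, List.pairwise_cons, List.pairwise_append]
      refine ⟨?_, ?_, by simp, ?_⟩
      · intro p hpL
        simp only [List.mem_append, List.mem_map, List.mem_singleton] at hpL
        rcases hpL with ⟨q, hq, rfl⟩ | rfl
        · exact (hg₁ (hIoo q hq)).1
        · exact hab
      · rw [List.pairwise_map]
        refine List.Pairwise.imp_of_mem ?_ hp1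
        intro p q hpL hqL hpq
        exact hg₁m (hIoo p hpL) (hIoo q hqL) hpq
      · intro p hpL q hqL
        simp only [List.mem_map] at hpL
        rw [List.mem_singleton] at hqL
        obtain ⟨r, hr, rfl⟩ := hpL
        subst hqL
        exact (hg₁ (hIoo r hr)).2
    · intro p hpL
      simp only [List.mem_append, List.mem_cons, List.mem_map, List.not_mem_nil, or_false] at hpL
      rcases hpL with (rfl | ⟨q, hq, rfl⟩) | rfl
      · exact hta.comp hc₁a
      · exact (ht q (by simp [hq])).comp (hc₁ q.1 (hIoo q hq))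
      · exact htb.comp hc₁b
  have hface2 : FaceMap pt (u' :: v' :: L₂.map Prod.snd) (φ ∘ ψ) := by
    refine ⟨hd.comp hψ.diff hψ.maps, hi.comp hψ.inj hψ.maps,
      (a, u') :: (b, v') :: L₂.map (fun p => (g p.1, p.2)), ?_, ?_, ?_⟩
    · simp [Function.comp_def]
    · rw [List.pairwise_cons, List.pairwise_cons]
      refine ⟨?_, ?_, ?_⟩
      · intro p hpL
        simp only [List.mem_cons, List.mem_map] at hpL
        rcases hpL with rfl | ⟨q, hq, rfl⟩
        · exact hab
        · exact hab.trans (hg (hIoi q hq))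
      · intro p hpL
        simp only [List.mem_map] at hpL
        obtain ⟨q, hq, rfl⟩ := hpL
        exact hg (hIoi q hq)
      · rw [List.pairwise_map]
        refine List.Pairwise.imp_of_mem ?_ hp2
        intro p q hpL hqL hpq
        exact hgm (hIoi p hpL) (hIoi q hqL) hpq
    · intro p hpL
      simp only [List.mem_cons, List.mem_map] at hpL
      rcases hpL with rfl | rfl | ⟨q, hq, rfl⟩
      · exact hta.comp hca
      · exact htb.comp hcb
      · exact (ht q (by simp [hq])).comp (hc q.1 (hIoi q hq))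
  obtain ⟨ψ', hψ', hface3⟩ := faceMap_rotate hface2
  refine ⟨ψ₁, ψ ∘ ψ', a, b, hab, hψ₁, TFmC_comp hψ hψ', hta, htb, hre₁,
    fun z hz => hre _ (hψ'.maps hz), hface1, hface3⟩

end OTh
end

section

/-!
A chord.

`Φ = φ :: Φ₀`; `ψ₁, ψ₂, a, b` of `faceMap_chord`, `Φ' = φ ∘ ψ₁ :: φ ∘ ψ₂ :: Φ₀`, `pt' = pt`.  If `s(u, v) ∈ E` then `arc' = arc` and `insert s(u, v) E = E`.  Otherwise
`arc' = Function.update arc s(u, v) (insert (pt u) (insert (pt v) ((fun s => φ (γ s)) '' Ioo 0 1)))` with `γ = chArc a b`, which is an arc by `arc_image`.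
The points `φ (γ s)`, `0 < s < 1`, are in `φ '' HH`, so they are not points of vertices, not on old arcs and not in the other faces; they are not in
`(φ ∘ ψ₁) '' HH`, `(φ ∘ ψ₂) '' HH` since `(Mo a b (γ s)).re = 0` and `φ` is injective on `HH`.  The two new faces are disjoint since `(Mo a b z).re` is positive
on one and negative on the other.
-/

set_option autoImplicit false

namespace OTh

open Set Filter Topology Complex

private theorem tstc_onF {V : Type*} {u v : V} {w₁ w₂ : List V} {F : List (List V)} (x : V) :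
    OnF ((u :: w₁ ++ [v]) :: (v :: w₂ ++ [u]) :: F) x ↔ OnF ((u :: w₁ ++ v :: w₂) :: F) x := by
  unfold OnF
  simp only [List.mem_cons, exists_eq_or_imp, List.mem_append, List.not_mem_nil, or_false]
  tauto

private theorem tstc_image_sub {φ ψ : ℂ → ℂ} (hψ : SelfMap ψ) : (φ ∘ ψ) '' HH ⊆ φ '' HH := by
  rintro _ ⟨z, hz, rfl⟩
  exact ⟨ψ z, hψ.maps hz, rfl⟩

/-- the fields which do not concern the new arc -/
private theorem tstc_base {V : Type*} {E : Set (Sym2 V)} {u v : V} {w₁ w₂ : List V}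
    {F : List (List V)} {pt : V → ℂ} {arc : Sym2 V → Set ℂ} {φ ψ₁ ψ₂ : ℂ → ℂ} {Φ₀ : List (ℂ → ℂ)}
    (h : Realized E ((u :: w₁ ++ v :: w₂) :: F) pt arc (φ :: Φ₀))
    (hφi : InjOn φ HH) {a b : ℝ} (hψ₁ : SelfMap ψ₁) (hψ₂ : SelfMap ψ₂)
    (h1 : ∀ z ∈ HH, 0 < (Mo a b (ψ₁ z)).re) (h2 : ∀ z ∈ HH, (Mo a b (ψ₂ z)).re < 0)
    (hF₁ : FaceMap pt (u :: w₁ ++ [v]) (φ ∘ ψ₁)) (hF₂ : FaceMap pt (v :: w₂ ++ [u]) (φ ∘ ψ₂)) :
    Realized E ((u :: w₁ ++ [v]) :: (v :: w₂ ++ [u]) :: F) pt arc
      ((φ ∘ ψ₁) :: (φ ∘ ψ₂) :: Φ₀) := by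
  have hface := (List.forall₂_cons.1 h.face).2
  have hdisj := List.pairwise_cons.1 h.disj
  have s1 : (φ ∘ ψ₁) '' HH ⊆ φ '' HH := tstc_image_sub hψ₁
  have s2 : (φ ∘ ψ₂) '' HH ⊆ φ '' HH := tstc_image_sub hψ₂
  constructor
  · exact List.Forall₂.cons hF₁ (List.Forall₂.cons hF₂ hface)
  · refine List.pairwise_cons.2 ⟨?_, List.pairwise_cons.2 ⟨?_, hdisj.2⟩⟩
    · intro χ hχ
      rcases List.mem_cons.1 hχ with rfl | hχ
      · rw [Set.disjoint_left]
        rintro _ ⟨z, hz, rfl⟩ ⟨w, hw, hzw⟩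
        have e := hφi (hψ₂.maps hw) (hψ₁.maps hz) hzw
        have := h1 z hz
        have := h2 w hw
        rw [e] at this
        linarith
      · exact (hdisj.1 χ hχ).mono_left s1
    · intro χ hχ
      exact (hdisj.1 χ hχ).mono_left s2
  · intro x hx χ hχ
    have hx' := (tstc_onF x).1 hx
    rcases List.mem_cons.1 hχ with rfl | hχ
    · exact fun h' => h.pt_face x hx' φ (by simp) (s1 h')
    · rcases List.mem_cons.1 hχ with rfl | hχ
      · exact fun h' => h.pt_face x hx' φ (by simp) (s2 h')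
      · exact h.pt_face x hx' χ (by simp [hχ])
  · intro e he χ hχ
    rcases List.mem_cons.1 hχ with rfl | hχ
    · exact (h.arc_face e he φ (by simp)).mono_right s1
    · rcases List.mem_cons.1 hχ with rfl | hχ
      · exact (h.arc_face e he φ (by simp)).mono_right s2
      · exact h.arc_face e he χ (by simp [hχ])
  · intro e he x hx
    exact (tstc_onF x).2 (h.ends e he x hx)
  · intro x y hx hy
    exact h.pt_inj x y ((tstc_onF x).1 hx) ((tstc_onF y).1 hy)
  · exact h.isArc
  · intro e he x hx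
    exact h.no_vertex e he x ((tstc_onF x).1 hx)
  · intro e he f hf hne z hz
    obtain ⟨w, hw, hw'⟩ := h.inter e he f hf hne z hz
    exact ⟨w, (tstc_onF w).2 hw, hw'⟩

/-- the new arc -/
private theorem tstc_new {V : Type*} {E : Set (Sym2 V)} {u v : V}
    {F : List (List V)} {pt : V → ℂ} {arc : Sym2 V → Set ℂ} {Φ : List (ℂ → ℂ)} {A : Set ℂ}
    {D : Set ℂ} (h : Realized E F pt arc Φ) (hE : s(u, v) ∉ E) (hu : OnF F u) (hv : OnF F v)
    (hA : IsArc A (pt u) (pt v)) (hAD : ∀ z ∈ A, z = pt u ∨ z = pt v ∨ z ∈ D)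
    (hDpt : ∀ w, OnF F w → pt w ∉ D) (hDarc : ∀ e ∈ E, Disjoint (arc e) D)
    (hDface : ∀ φ ∈ Φ, Disjoint D (φ '' HH)) :
    ∃ arc', Realized (insert s(u, v) E) F pt arc' Φ := by
  classical
  refine ⟨Function.update arc s(u, v) A, ?_⟩
  have hne : ∀ e ∈ E, e ≠ s(u, v) := fun e he h' => hE (h' ▸ he)
  have hup : ∀ e ∈ E, Function.update arc s(u, v) A e = arc e := fun e he =>
    Function.update_of_ne (hne e he) _ _
  have hself : Function.update arc s(u, v) A s(u, v) = A := Function.update_self _ _ _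
  constructor
  · exact h.face
  · exact h.disj
  · exact h.pt_face
  · intro e he φ hφ
    rcases Set.mem_insert_iff.1 he with rfl | he
    · rw [hself, Set.disjoint_left]
      intro z hz
      rcases hAD z hz with rfl | rfl | hz
      · exact h.pt_face u hu φ hφ
      · exact h.pt_face v hv φ hφ
      · exact Set.disjoint_left.1 (hDface φ hφ) hz
    · rw [hup e he]
      exact h.arc_face e he φ hφ
  · intro e he x hx
    rcases Set.mem_insert_iff.1 he with rfl | he
    · rcases Sym2.mem_iff.1 hx with rfl | rfl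
      · exact hu
      · exact hv
    · exact h.ends e he x hx
  · exact h.pt_inj
  · intro x y hxy
    rcases Set.mem_insert_iff.1 hxy with hxy | hxy
    · rw [hxy, hself]
      rcases Sym2.eq_iff.1 hxy with ⟨rfl, rfl⟩ | ⟨rfl, rfl⟩
      · exact hA
      · exact isArc_symm hA
    · rw [hup _ hxy]
      exact h.isArc x y hxy
  · intro e he w hw hw'
    rcases Set.mem_insert_iff.1 he with rfl | he
    · rw [hself] at hw'
      rcases hAD _ hw' with h' | h' | h'
      · rw [h.pt_inj w u hw hu h']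
        exact Sym2.mem_mk_left _ _
      · rw [h.pt_inj w v hw hv h']
        exact Sym2.mem_mk_right _ _
      · exact absurd h' (hDpt w hw)
    · rw [hup e he] at hw'
      exact h.no_vertex e he w hw hw'
  · have key : ∀ f ∈ E, ∀ z ∈ A ∩ arc f, ∃ w, OnF F w ∧ pt w = z := by
      rintro f hf z ⟨hz, hz'⟩
      rcases hAD z hz with rfl | rfl | hz
      · exact ⟨u, hu, rfl⟩
      · exact ⟨v, hv, rfl⟩
      · exact absurd hz (Set.disjoint_left.1 (hDarc f hf) hz')
    intro e he f hf hef z hz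
    rcases Set.mem_insert_iff.1 he with rfl | he
    · rcases Set.mem_insert_iff.1 hf with rfl | hf
      · exact absurd rfl hef
      · rw [hself, hup f hf] at hz
        exact key f hf z hz
    · rcases Set.mem_insert_iff.1 hf with rfl | hf
      · rw [hself, hup e he] at hz
        exact key e he z ⟨hz.2, hz.1⟩
      · rw [hup e he, hup f hf] at hz
        exact h.inter e he f hf hef z hz

/-- By `faceMap_chord`; the new arc is the image of `chArc a b` (if `s(u, v)` is in `E` already then `arc` is not changed). -/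
theorem realized_chord {V : Type*} {E : Set (Sym2 V)} {u v : V} {w₁ w₂ : List V}
    {F : List (List V)} {pt : V → ℂ} {arc : Sym2 V → Set ℂ} {Φ : List (ℂ → ℂ)}
    (h : Realized E ((u :: w₁ ++ v :: w₂) :: F) pt arc Φ) (huv : u ≠ v) :
    ∃ pt' arc' Φ', Realized (insert s(u, v) E) ((u :: w₁ ++ [v]) :: (v :: w₂ ++ [u]) :: F)
      pt' arc' Φ' := by
  obtain ⟨φ, Φ₀, hφ, -, rfl⟩ := List.forall₂_cons_left_iff.1 h.face
  have hφd : DifferentiableOn ℂ φ HH := hφ.1
  have hφi : InjOn φ HH := hφ.2.1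
  obtain ⟨ψ₁, ψ₂, a, b, hab, hψ₁, hψ₂, ha, hb, h1, h2, hF₁, hF₂⟩ := faceMap_chord hφ
  have hbase := tstc_base h hφi hψ₁ hψ₂ h1 h2 hF₁ hF₂
  by_cases hE : s(u, v) ∈ E
  · exact ⟨pt, arc, _, by rw [Set.insert_eq_of_mem hE]; exact hbase⟩
  have hu : OnF ((u :: w₁ ++ v :: w₂) :: F) u := ⟨_, List.mem_cons_self, by simp⟩
  have hv : OnF ((u :: w₁ ++ v :: w₂) :: F) v := ⟨_, List.mem_cons_self, by simp⟩
  have hpuv : pt u ≠ pt v := fun h' => huv (h.pt_inj u v hu hv h')
  have hin : ∀ s ∈ Ioo (0 : ℝ) 1, φ (chArc a b s) ∈ φ '' HH := fun s hs =>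
    ⟨_, chArc_HH hab hs, rfl⟩
  have hpu : pt u ∉ φ '' HH := h.pt_face u hu φ (by simp)
  have hpv : pt v ∉ φ '' HH := h.pt_face v hv φ (by simp)
  have hA := arc_image (φ := φ) (γ := chArc a b) (p := pt u) (q := pt v) (chArc_cont a b)
    (chArc_inj hab) (fun s hs => chArc_HH hab hs) hφd.continuousOn hφi
    (by rw [chArc_zero]; exact ha) (by rw [chArc_one]; exact hb) hpuv
    (fun s hs h' => hpu (h' ▸ hin s hs)) (fun s hs h' => hpv (h' ▸ hin s hs))
  obtain ⟨arc', h'⟩ := tstc_new (D := (fun s => φ (chArc a b s)) '' Ioo 0 1) hbase hE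
    ((tstc_onF u).2 hu) ((tstc_onF v).2 hv) hA (by
      intro z hz
      rcases Set.mem_insert_iff.1 hz with hz | hz
      · exact Or.inl hz
      · rcases Set.mem_insert_iff.1 hz with hz | hz
        · exact Or.inr (Or.inl hz)
        · exact Or.inr (Or.inr hz)) (by
      rintro w hw ⟨s, hs, hs'⟩
      exact h.pt_face w ((tstc_onF w).1 hw) φ (by simp) (hs' ▸ hin s hs)) (by
      intro e he
      rw [Set.disjoint_right]
      rintro _ ⟨s, hs, rfl⟩
      exact Set.disjoint_right.1 (h.arc_face e he φ (by simp)) (hin s hs)) (by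
      intro χ hχ
      rw [Set.disjoint_left]
      rintro _ ⟨s, hs, rfl⟩ hz
      rcases List.mem_cons.1 hχ with rfl | hχ
      · obtain ⟨w, hw, hw'⟩ := hz
        have e := hφi (hψ₁.maps hw) (chArc_HH hab hs) hw'
        have := h1 w hw
        rw [e, Mo_chArc hab hs] at this
        exact lt_irrefl _ this
      · rcases List.mem_cons.1 hχ with rfl | hχ
        · obtain ⟨w, hw, hw'⟩ := hz
          have e := hφi (hψ₂.maps hw) (chArc_HH hab hs) hw'
          have := h2 w hw
          rw [e, Mo_chArc hab hs] at this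
          exact lt_irrefl _ this
        · exact Set.disjoint_left.1 ((List.pairwise_cons.1 h.disj).1 χ hχ) (hin s hs) hz)
  exact ⟨pt, arc', _, h'⟩

end OTh
end
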