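import Pool.Agent.Lib.MP_9750df_co.Triv
import Pool.Agent.Lib.MP_9750df_co.Frame
import Pool.Agent.Lib.MP_9750df_co.TArc
import Pool.Agent.Lib.MP_9750df_co.NCc
import Pool.Agent.Lib.MP_9750df_co.DrD2
import Pool.Agent.Lib.MP_9750df_co.TStC

section

/-!
The bound for bipartite outerplanar graphs with separated vertices.

PROOFS.
`rotate_nc`: the order is rotated such that the points with `f u < θ` come last.  If `f' a < f' c < f' b < f' d` then the shifted ones among
these four form a final segment of `a, c, b, d`: none: as before; only `d`: `d < a < c < b`; `b, d`: `b < d < a < c`; `c, b, d`: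
`c < b < d < a`; all: as before; each time two edges interleave for `f` (use `P.symm`).

`bipB`: apply `bipB_min` to the order rotated with `θ = f (inr x)` (`N` larger than all values of `f` on the finitely many ends of edges; for
`α`, `β` finite take `N = ∑ u, f u + 1`).

`bip_sep`: induction on `S`.  `S = ∅`: `bipA`.  `S = insert x S'`: let `K` be the set of vertices reachable from `inr x`; `A = A₁ ∪ A₂`, `B = B₁ ∪ B₂`,
`E = E₁ ∪ E₂`, `1`: the part in `K`, `2`: outside.  `E₁ ⊆ A₁ ×ˢ B₁`, `E₂ ⊆ A₂ ×ˢ B₂` (the ends of an edge are both in `K` or both outside), `x ∈ B₁`, `S' ⊆ B₂`.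
`bipB` for `E₁` and the induction hypothesis for `E₂` (subsets of `E` are non-crossing; reachable in the subgraph implies reachable).
-/

set_option autoImplicit false

namespace OTh

open Finset
open scoped Classical

theorem rotate_nc {V : Type*} {P : SimpleGraph V} {f : V → ℕ} (h : NonCr P f) (θ N : ℕ)
    (hN : ∀ u, f u < N) : NonCr P (fun u => if f u < θ then f u + N else f u) := by
  rintro a b c d hab hcd ⟨l1, l2, l3⟩
  have na := hN a
  have nb := hN b
  have nc := hN c
  have nd := hN d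
  have h1 := h a b c d hab hcd
  have h2 := h d c a b hcd.symm hab
  have h3 := h b a d c hab.symm hcd.symm
  have h4 := h c d b a hcd hab.symm
  simp only at l1 l2 l3
  split_ifs at l1 l2 l3 <;> omega

variable {α β : Type*} [Fintype α] [Fintype β]

theorem bipB (f : α ⊕ β → ℕ) (hf : Function.Injective f) (A : Finset α) (B : Finset β)
    (E : Finset (α × β)) (hE : E ⊆ A ×ˢ B) (h : NonCr (bipG (E : Set (α × β))) f) (x : β)
    (hx : x ∈ B) : E.card + 2 ≤ A.card + 2 * B.card := by
  have hN : ∀ u, f u < ∑ v, f v + 1 := fun u =>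
    Nat.lt_succ_of_le (Finset.single_le_sum (f := f) (fun _ _ => Nat.zero_le _) (Finset.mem_univ u))
  refine bipB_min (fun u => if f u < f (Sum.inr x) then f u + (∑ v, f v + 1) else f u) ?_ A B E hE
    (rotate_nc h (f (Sum.inr x)) _ hN) x hx ?_
  · intro u v huv
    have nu := hN u
    have nv := hN v
    simp only at huv
    apply hf
    split_ifs at huv <;> omega
  · intro u
    have nx := hN (Sum.inr x)
    simp only [lt_irrefl, if_false]
    split_ifs <;> omega

theorem bip_sep (f : α ⊕ β → ℕ) (hf : Function.Injective f) (A : Finset α) (B : Finset β)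
    (E : Finset (α × β)) (hE : E ⊆ A ×ˢ B) (h : NonCr (bipG (E : Set (α × β))) f) (S : Finset β)
    (hS : S ⊆ B)
    (hsep : ∀ x ∈ S, ∀ y ∈ S, x ≠ y →
      ¬ (bipG (E : Set (α × β))).Reachable (Sum.inr x) (Sum.inr y)) :
    E.card + 2 * S.card ≤ A.card + 2 * B.card := by
  induction S using Finset.induction_on generalizing A B E with
  | empty => simpa using bipA f hf A B E hE h
  | insert x S' hxS ih =>
    let K : Set (α ⊕ β) := {v | (bipG (E : Set (α × β))).Reachable (Sum.inr x) v}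
    have hedge : ∀ e ∈ E, (Sum.inl e.1 ∈ K ↔ Sum.inr e.2 ∈ K) := by
      rintro ⟨a, b⟩ he
      have hadj : (bipG (E : Set (α × β))).Adj (Sum.inl a) (Sum.inr b) :=
        ⟨a, b, by exact_mod_cast he, Or.inl ⟨rfl, rfl⟩⟩
      exact ⟨fun h1 => h1.trans hadj.reachable, fun h1 => h1.trans hadj.symm.reachable⟩
    have hmono : ∀ E' : Finset (α × β), E' ⊆ E →
        bipG (E' : Set (α × β)) ≤ bipG (E : Set (α × β)) := by
      rintro E' hE' u v ⟨a, b, hab, h1⟩
      exact ⟨a, b, by exact_mod_cast hE' (by exact_mod_cast hab), h1⟩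
    have hnc : ∀ E' : Finset (α × β), E' ⊆ E → NonCr (bipG (E' : Set (α × β))) f :=
      fun E' hE' a b c d hab hcd => h a b c d (hmono E' hE' hab) (hmono E' hE' hcd)
    have hx : x ∈ B := hS (Finset.mem_insert_self _ _)
    have h1 := bipB f hf (A.filter fun a => Sum.inl a ∈ K) (B.filter fun b => Sum.inr b ∈ K)
      (E.filter fun e => Sum.inl e.1 ∈ K) (by
        intro e he
        have h2 := Finset.mem_filter.1 he
        have h3 := Finset.mem_product.1 (hE h2.1)
        exact Finset.mem_product.2 ⟨Finset.mem_filter.2 ⟨h3.1, h2.2⟩,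
          Finset.mem_filter.2 ⟨h3.2, (hedge e h2.1).1 h2.2⟩⟩)
      (hnc _ (Finset.filter_subset _ _)) x
      (Finset.mem_filter.2 ⟨hx, SimpleGraph.Reachable.refl _⟩)
    have h2 := ih (A.filter fun a => ¬ Sum.inl a ∈ K) (B.filter fun b => ¬ Sum.inr b ∈ K)
      (E.filter fun e => ¬ Sum.inl e.1 ∈ K) (by
        intro e he
        have h2 := Finset.mem_filter.1 he
        have h3 := Finset.mem_product.1 (hE h2.1)
        exact Finset.mem_product.2 ⟨Finset.mem_filter.2 ⟨h3.1, h2.2⟩,
          Finset.mem_filter.2 ⟨h3.2, fun h4 => h2.2 ((hedge e h2.1).2 h4)⟩⟩)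
      (hnc _ (Finset.filter_subset _ _)) (by
        intro y hy
        refine Finset.mem_filter.2 ⟨hS (Finset.mem_insert_of_mem hy), ?_⟩
        have hxy : x ≠ y := fun h4 => hxS (h4 ▸ hy)
        exact hsep x (Finset.mem_insert_self _ _) y (Finset.mem_insert_of_mem hy) hxy) (by
        intro y hy z hz hyz h4
        exact hsep y (Finset.mem_insert_of_mem hy) z (Finset.mem_insert_of_mem hz) hyz
          (h4.mono (hmono _ (Finset.filter_subset _ _))))
    have c1 := Finset.card_filter_add_card_filter_not (s := A) (fun a => Sum.inl a ∈ K)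
    have c2 := Finset.card_filter_add_card_filter_not (s := B) (fun b => Sum.inr b ∈ K)
    have c3 := Finset.card_filter_add_card_filter_not (s := E) (fun e => Sum.inl e.1 ∈ K)
    rw [Finset.card_insert_of_notMem hxS]
    omega

end OTh
end

section

/-!
The pockets.  `s = 2 a + 2` hubs, `T = 2 m + 2`, colours `I = Fin s × Fin (m + 1)`, `c = |I| = s (m + 1)`.

`B` side: `Fin s × Fin T`, `(k, 0)` is the hub `k`, `(k, t)`, `t ≠ 0`, the other vertices of the gap `k` (between the hubs `k` and `k + 1`).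
`A` side: `Fin s × Fin T` (first kind) and `Bool × I` (second kind).  In the colour `i`:
 * `e1 k t`: `(k, t) + φ i` of the first kind is joined with `(k, t)`; `e2 k t`: also with the next vertex `(k, t + 1)` of the gap;
 * `e3 k t`, `e4 k`: the centre `(parity of k, i + δ (k / 2, 0))` of the gap `k` is joined with all `(k, t)` and with the hub `(k + 1, 0)`;
 * `e5 ε κ t`: the vertex `(ε, i + δ (κ, t))`, `t ≠ 0`, of the second kind is joined with the vertex `(2 κ + (1 - ε), t)`.

PROOF of `pl_inj`.  Let `pl i e = pl i' e'`.  First kind (`e1`, `e2`): if the pair is `(x, y)` then `x - y = φ i` for `e1` and `φ i - (0, 1)` for `e2`; the second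
coordinate of `φ i` is even and `T` is even, so `e1` against `e2` is impossible by parity, and otherwise `φ i = φ i'`, `i = i'` (`φ` is
injective), and then `e = e'` from the `B` vertex.  Second kind, `B` vertex `(k', t)`, `A` vertex `(ε, z)`: if `t ≠ 0`: `e3 k' t` (`ε` = parity of `k'`) or `e5`
(`ε ≠` parity of `k'`), not both; if `t = 0`: `e3 k' 0` (`ε` = parity of `k'`) or `e4 (k' - 1)` (`ε` = parity of `k' - 1 ≠` parity of `k'`, as `s` is even).  In each case
`e = e'` and `z = i + δ .. = i' + δ ..`, `i = i'`.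

PROOF of `card_Pl`: `s T + s (T - 1) + s T + s + 2 (a + 1) (T - 1) = 4 s T - s = 8 c - s`.
-/

set_option autoImplicit false

namespace OTh

open Finset
open scoped Classical

section
variable (a m : ℕ)

/-- number of hubs -/
abbrev sn : ℕ := 2 * a + 2

/-- colours -/
abbrev Co := Fin (2 * a + 2) × Fin (m + 1)

/-- `B` side of a pocket -/
abbrev Be := Fin (2 * a + 2) × Fin (2 * m + 2)

/-- `A` side of a pocket -/
abbrev Al := (Fin (2 * a + 2) × Fin (2 * m + 2)) ⊕ (Bool × Co a m)

/-- labels of the edges of one colour of a pocket -/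
inductive Pl
  | e1 (k : Fin (2 * a + 2)) (t : Fin (2 * m + 2))
  | e2 (k : Fin (2 * a + 2)) (t : Fin (2 * m + 1))
  | e3 (k : Fin (2 * a + 2)) (t : Fin (2 * m + 2))
  | e4 (k : Fin (2 * a + 2))
  | e5 (ε : Bool) (κ : Fin (a + 1)) (t : Fin (2 * m + 1))
  deriving DecidableEq, Fintype

end

variable {a m : ℕ}

/-- even translations -/
def phi (i : Co a m) : Be a m := (i.1, ⟨2 * i.2.val, by have := i.2.isLt; omega⟩)

/-- parity of a gap -/
def par (k : Fin (2 * a + 2)) : Bool := decide (k.val % 2 = 1)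

/-- half of a gap -/
def hlf (k : Fin (2 * a + 2)) : Fin (a + 1) := ⟨k.val / 2, by have := k.isLt; omega⟩

/-- the gap with the given half and parity -/
def gp (κ : Fin (a + 1)) (ε : Bool) : Fin (2 * a + 2) :=
  ⟨2 * κ.val + ε.toNat, by have := κ.isLt; cases ε <;> simp <;> omega⟩

/-- the codes of the vertices of the second kind -/
noncomputable def del : Fin (a + 1) × Fin (2 * m + 2) ≃ Co a m :=
  Fintype.equivOfCardEq (by simp only [Fintype.card_prod, Fintype.card_fin]; ring)

/-- the edges of the colour `i` -/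
noncomputable def pl (i : Co a m) : Pl a m → Al a m × Be a m
  | .e1 k t => (.inl ((k, t) + phi i), (k, t))
  | .e2 k t => (.inl ((k, t.castSucc) + phi i), (k, t.succ))
  | .e3 k t => (.inr (par k, i + del (hlf k, 0)), (k, t))
  | .e4 k => (.inr (par k, i + del (hlf k, 0)), (k + 1, 0))
  | .e5 ε κ t => (.inr (ε, i + del (κ, t.succ)), (gp κ (!ε), t.succ))

private theorem pock_phi_inj {i i' : Co a m} (h : phi i = phi i') : i = i' := by
  obtain ⟨x, y⟩ := i
  obtain ⟨x', y'⟩ := i'
  simp only [phi, Prod.mk.injEq, Fin.mk.injEq] at h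
  obtain ⟨h1, h2⟩ := h
  refine Prod.ext h1 (Fin.ext ?_)
  show y.val = y'.val
  omega

private theorem pock_mod (x y m : ℕ) (h : x % (2 * m + 2) = y % (2 * m + 2)) : x % 2 = y % 2 := by
  have hd : 2 ∣ 2 * m + 2 := ⟨m + 1, by ring⟩
  have h1 := Nat.mod_mod_of_dvd x hd
  have h2 := Nat.mod_mod_of_dvd y hd
  rw [← h1, ← h2, h]

private theorem pock_12 (k k' : Fin (2 * a + 2)) (t : Fin (2 * m + 2)) (t' : Fin (2 * m + 1)) (i i' : Co a m)
    (h1 : ((k, t) : Be a m) + phi i = (k', t'.castSucc) + phi i')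
    (h2 : ((k, t) : Be a m) = (k', t'.succ)) : False := by
  obtain ⟨x, y⟩ := i
  obtain ⟨x', y'⟩ := i'
  have h3 := congrArg (fun z : Be a m => z.2.val) h1
  have h4 := congrArg (fun z : Be a m => z.2.val) h2
  simp only [phi, Prod.mk_add_mk, Fin.val_add, Fin.val_castSucc, Fin.val_succ] at h3 h4
  have h5 := pock_mod _ _ _ h3
  omega

private theorem pock_par_succ (k : Fin (2 * a + 2)) : par (k + 1) ≠ par k := by
  intro h
  unfold par at h
  have h1 : (k + 1).val % 2 = (k.val + 1) % 2 := by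
    have h2 : (k + 1).val = (k.val + 1) % (2 * a + 2) := by
      rw [Fin.val_add]
      rfl
    rw [h2]
    exact Nat.mod_mod_of_dvd _ ⟨a + 1, by ring⟩
  rw [h1] at h
  rw [decide_eq_decide] at h
  omega

private theorem pock_par_gp (κ : Fin (a + 1)) (ε : Bool) : par (gp κ ε) = ε := by
  unfold par gp
  cases ε
  · simp
  · simp only [Bool.toNat_true]
    rw [decide_eq_true_eq]
    omega

private theorem pock_gp_inj {κ κ' : Fin (a + 1)} {ε : Bool} (h : gp κ ε = gp κ' ε) : κ = κ' := by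
  have h1 := congrArg Fin.val h
  simp only [gp] at h1
  apply Fin.ext
  omega

theorem pl_inj (i i' : Co a m) (e e' : Pl a m) (h : pl i e = pl i' e') : i = i' ∧ e = e' := by
  cases e with
  | e1 k t =>
    cases e' with
    | e1 k' t' =>
      simp only [pl, Prod.mk.injEq, Sum.inl.injEq] at h
      obtain ⟨h1, h2, h3⟩ := h
      subst h2; subst h3
      exact ⟨pock_phi_inj (add_left_cancel h1), rfl⟩
    | e2 k' t' =>
      simp only [pl, Prod.mk.injEq, Sum.inl.injEq] at h
      exact (pock_12 _ _ _ _ _ _ h.1 (Prod.ext h.2.1 h.2.2)).elim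
    | e3 k' t' => simp [pl] at h
    | e4 k' => simp [pl] at h
    | e5 ε' κ' t' => simp [pl] at h
  | e2 k t =>
    cases e' with
    | e1 k' t' =>
      simp only [pl, Prod.mk.injEq, Sum.inl.injEq] at h
      exact (pock_12 _ _ _ _ _ _ h.1.symm (Prod.ext h.2.1.symm h.2.2.symm)).elim
    | e2 k' t' =>
      simp only [pl, Prod.mk.injEq, Sum.inl.injEq, Fin.succ_inj] at h
      obtain ⟨h1, h2, h3⟩ := h
      subst h2; subst h3
      exact ⟨pock_phi_inj (add_left_cancel h1), rfl⟩
    | e3 k' t' => simp [pl] at h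
    | e4 k' => simp [pl] at h
    | e5 ε' κ' t' => simp [pl] at h
  | e3 k t =>
    cases e' with
    | e1 k' t' => simp [pl] at h
    | e2 k' t' => simp [pl] at h
    | e3 k' t' =>
      simp only [pl, Prod.mk.injEq, Sum.inr.injEq] at h
      obtain ⟨⟨_, h1⟩, h2, h3⟩ := h
      subst h2; subst h3
      exact ⟨add_right_cancel h1, rfl⟩
    | e4 k' =>
      simp only [pl, Prod.mk.injEq, Sum.inr.injEq] at h
      obtain ⟨⟨h0, _⟩, h2, _⟩ := h
      rw [h2] at h0
      exact (pock_par_succ _ h0).elim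
    | e5 ε' κ' t' =>
      simp only [pl, Prod.mk.injEq, Sum.inr.injEq] at h
      obtain ⟨⟨h0, _⟩, h2, _⟩ := h
      rw [h2, pock_par_gp] at h0
      cases ε' <;> simp at h0
  | e4 k =>
    cases e' with
    | e1 k' t' => simp [pl] at h
    | e2 k' t' => simp [pl] at h
    | e3 k' t' =>
      simp only [pl, Prod.mk.injEq, Sum.inr.injEq] at h
      obtain ⟨⟨h0, _⟩, h2, _⟩ := h
      rw [← h2] at h0
      exact (pock_par_succ _ h0.symm).elim
    | e4 k' =>
      simp only [pl, Prod.mk.injEq, Sum.inr.injEq] at h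
      obtain ⟨⟨_, h1⟩, h2, _⟩ := h
      have h3 : k = k' := add_right_cancel h2
      subst h3
      exact ⟨add_right_cancel h1, rfl⟩
    | e5 ε' κ' t' =>
      simp only [pl, Prod.mk.injEq, Sum.inr.injEq] at h
      exact absurd h.2.2.symm (Fin.succ_ne_zero _)
  | e5 ε κ t =>
    cases e' with
    | e1 k' t' => simp [pl] at h
    | e2 k' t' => simp [pl] at h
    | e3 k' t' =>
      simp only [pl, Prod.mk.injEq, Sum.inr.injEq] at h
      obtain ⟨⟨h0, _⟩, h2, _⟩ := h
      rw [← h2, pock_par_gp] at h0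
      cases ε <;> simp at h0
    | e4 k' =>
      simp only [pl, Prod.mk.injEq, Sum.inr.injEq] at h
      exact absurd h.2.2 (Fin.succ_ne_zero _)
    | e5 ε' κ' t' =>
      simp only [pl, Prod.mk.injEq, Sum.inr.injEq, Fin.succ_inj] at h
      obtain ⟨⟨h0, h1⟩, h2, h3⟩ := h
      subst h0; subst h3
      have h4 := pock_gp_inj h2
      subst h4
      exact ⟨add_right_cancel h1, rfl⟩

theorem card_Co : Fintype.card (Co a m) = (2 * a + 2) * (m + 1) := by
  simp only [Fintype.card_prod, Fintype.card_fin]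

private def pock_equiv : Pl a m ≃ (Fin (2 * a + 2) × Fin (2 * m + 2)) ⊕ (Fin (2 * a + 2) × Fin (2 * m + 1)) ⊕
    (Fin (2 * a + 2) × Fin (2 * m + 2)) ⊕ Fin (2 * a + 2) ⊕ (Bool × Fin (a + 1) × Fin (2 * m + 1)) where
  toFun
    | .e1 k t => .inl (k, t)
    | .e2 k t => .inr (.inl (k, t))
    | .e3 k t => .inr (.inr (.inl (k, t)))
    | .e4 k => .inr (.inr (.inr (.inl k)))
    | .e5 ε κ t => .inr (.inr (.inr (.inr (ε, κ, t))))
  invFun
    | .inl (k, t) => .e1 k t
    | .inr (.inl (k, t)) => .e2 k t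
    | .inr (.inr (.inl (k, t))) => .e3 k t
    | .inr (.inr (.inr (.inl k))) => .e4 k
    | .inr (.inr (.inr (.inr (ε, κ, t)))) => .e5 ε κ t
  left_inv e := by cases e <;> rfl
  right_inv e := by rcases e with ⟨_, _⟩ | ⟨_, _⟩ | ⟨_, _⟩ | _ | ⟨_, _, _⟩ <;> rfl

theorem card_Pl : Fintype.card (Pl a m) + (2 * a + 2) = 8 * ((2 * a + 2) * (m + 1)) := by
  rw [Fintype.card_congr (pock_equiv (a := a) (m := m))]
  simp only [Fintype.card_sum, Fintype.card_prod, Fintype.card_fin, Fintype.card_bool]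
  ring

/-- the vertices of a pocket in the graph -/
abbrev Pv (a m : ℕ) := Al a m ⊕ Be a m

/-- the graph vertices -/
abbrev Vt (Q : Type) (L a m : ℕ) := Vx Q (2 * a + 2) L (Pv a m)

/-- the pocket of the unit `U` in the graph: the hubs are vertices of the ring -/
def pem {Q : Type} {L : ℕ} (U : Q × Fin L) : Pv a m → Vt Q L a m
  | .inl q => .p U.1 U.2 (.inl q)
  | .inr q => if q.2 = 0 then .fx U.1 U.2 q.1 else .p U.1 U.2 (.inr q)

theorem pem_inj {Q : Type} {L : ℕ} (U : Q × Fin L) :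
    Function.Injective (pem (a := a) (m := m) U) := by
  rintro (q | ⟨k, t⟩) (q' | ⟨k', t'⟩) h
  · simp only [pem, Vx.p.injEq, true_and] at h
    exact h
  · simp only [pem] at h
    split_ifs at h
    simp at h
  · simp only [pem] at h
    split_ifs at h
    simp at h
  · simp only [pem] at h
    split_ifs at h with h1 h2 h2
    · simp only [Vx.fx.injEq, true_and] at h
      subst h1; subst h2; rw [h]
    · simp only [Vx.p.injEq, true_and] at h
      exact h

end OTh
end

section

/-!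
The edges of a graph in one unit; links of consecutive hubs in the ring.

PROOF of `slot_link`: `R = lgr rep {e ∈ XF .. | e.1.1 = k}` on `Rg`, `H = {x k, x (k+1)}`, `S = slotS k`: each edge has both ends in `H ∪ S` and at least one end in `S`.
`x k ≠ x (k+1)` (at least two hubs), so `link_of_reach` gives `Link R (x k) (x (k+1)) S`; `Link.map` with `emb γ U` (`emb_inj`; edges of `R` are mapped to edges of `P`).
-/

set_option autoImplicit false

namespace OTh

open Finset
open scoped Classical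

variable {Q : Type} [Group Q] {L a m : ℕ}

/-- the edges of `P` in the ring of the unit `U` -/
noncomputable def XF (γ : Gam (2 * a + 2) L (Co a m) → Q) (P : SimpleGraph (Vt Q L a m))
    (U : Q × Fin L) : Finset (Lb (2 * a + 2) (Co a m)) :=
  univ.filter fun e => P.Adj (emb γ U (rep e).1) (emb γ U (rep e).2)

/-- the edges of `P` in the pocket of the unit `U` -/
noncomputable def YF (P : SimpleGraph (Vt Q L a m)) (U : Q × Fin L) :
    Finset (Co a m × Pl a m) :=
  univ.filter fun e => P.Adj (pem U (.inl (pl e.1 e.2).1)) (pem U (.inr (pl e.1 e.2).2))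

/-- the vertices of a slot, without the hubs -/
def slotS (k : Fin (2 * a + 2)) : Set (Rg (2 * a + 2) (Co a m)) :=
  {u | (∃ σ, u = .y (k, σ)) ∨ (∃ i, u = .v k i) ∨ (∃ σ i, u = .t (k, σ) i) ∨
    ∃ σ i, u = .b (k, σ) i}

private theorem UnA_ds_mem (k : Fin (2 * a + 2)) (m' : Fin (2 * a + 2) × Bool) (hm : m'.1 = k)
    (w : Dv (Co a m)) :
    ds m' w ∈ ({Rg.x k, Rg.x (k + 1)} : Set (Rg (2 * a + 2) (Co a m))) ∪ slotS k := by
  obtain ⟨k', σ⟩ := m'
  simp only at hm
  subst hm
  cases w with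
  | x =>
    left
    cases σ
    · right
      simp [ds, hub]
    · left
      simp [ds, hub]
  | y => exact Or.inr (Or.inl ⟨σ, rfl⟩)
  | v i => exact Or.inr (Or.inr (Or.inl ⟨i, rfl⟩))
  | t i => exact Or.inr (Or.inr (Or.inr (Or.inl ⟨σ, i, rfl⟩)))
  | b i => exact Or.inr (Or.inr (Or.inr (Or.inr ⟨σ, i, rfl⟩)))

private theorem UnA_ds_S (k : Fin (2 * a + 2)) (m' : Fin (2 * a + 2) × Bool) (hm : m'.1 = k)
    (w : Dv (Co a m)) (hw : w ≠ .x) :
    ds m' w ∈ (slotS k : Set (Rg (2 * a + 2) (Co a m))) := by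
  obtain ⟨k', σ⟩ := m'
  simp only at hm
  subst hm
  cases w with
  | x => exact absurd rfl hw
  | y => exact Or.inl ⟨σ, rfl⟩
  | v i => exact Or.inr (Or.inl ⟨i, rfl⟩)
  | t i => exact Or.inr (Or.inr (Or.inl ⟨σ, i, rfl⟩))
  | b i => exact Or.inr (Or.inr (Or.inr ⟨σ, i, rfl⟩))

private theorem UnA_dep (p : Co a m × Ed) : (dep p).1 ≠ .x ∨ (dep p).2 ≠ .x := by
  obtain ⟨i, e⟩ := p
  cases e <;> simp [dep]

theorem slot_link {γ : Gam (2 * a + 2) L (Co a m) → Q} {n : ℕ} (hγ : GoodG γ n) (hn : 2 ≤ n)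
    (P : SimpleGraph (Vt Q L a m)) (U : Q × Fin L) (hfull : full (XF γ P U))
    (k : Fin (2 * a + 2)) :
    Link P (Vx.fx U.1 U.2 k) (Vx.fx U.1 U.2 (k + 1)) (emb γ U '' slotS k) := by
  have hkk : k ≠ k + 1 := by
    intro h
    have h1 : (1 : Fin (2 * a + 2)) = 0 := by
      have h2 : k + 0 = k + 1 := by rw [add_zero]; exact h
      exact (add_left_cancel h2).symm
    have h3 := congrArg Fin.val h1
    simp at h3
  have hxx : (Rg.x k : Rg (2 * a + 2) (Co a m)) ≠ Rg.x (k + 1) := by
    intro h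
    exact hkk (by simpa using h)
  obtain ⟨z, hz, hzx, hl⟩ := link_of_reach
    (P := lgr rep {e | e ∈ XF γ P U ∧ e.1.1 = k})
    (H := {Rg.x k, Rg.x (k + 1)}) (S := slotS k) (x := Rg.x k) (y := Rg.x (k + 1))
    (by
      rw [Set.disjoint_left]
      intro u hu hu'
      simp only [Set.mem_insert_iff, Set.mem_singleton_iff] at hu
      rcases hu with rfl | rfl <;>
        (rcases hu' with ⟨σ, h⟩ | ⟨i, h⟩ | ⟨σ, i, h⟩ | ⟨σ, i, h⟩ <;> exact absurd h (by simp)))
    (by
      rintro u v ⟨_, e, he, h | h⟩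
      · have h1 : u = ds e.1 (dep e.2).1 := by
          have := congrArg Prod.fst h
          exact this.symm
        rw [h1]
        exact UnA_ds_mem k e.1 he.2 _
      · have h1 : u = ds e.1 (dep e.2).2 := by
          have := congrArg Prod.snd h
          exact this.symm
        rw [h1]
        exact UnA_ds_mem k e.1 he.2 _)
    (by
      rintro u v ⟨_, e, he, h | h⟩
      · have h1 : u = ds e.1 (dep e.2).1 := (congrArg Prod.fst h).symm
        have h2 : v = ds e.1 (dep e.2).2 := (congrArg Prod.snd h).symm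
        rw [h1, h2]
        rcases UnA_dep e.2 with h3 | h3
        · exact Or.inl (UnA_ds_S k e.1 he.2 _ h3)
        · exact Or.inr (UnA_ds_S k e.1 he.2 _ h3)
      · have h1 : v = ds e.1 (dep e.2).1 := (congrArg Prod.fst h).symm
        have h2 : u = ds e.1 (dep e.2).2 := (congrArg Prod.snd h).symm
        rw [h1, h2]
        rcases UnA_dep e.2 with h3 | h3
        · exact Or.inr (UnA_ds_S k e.1 he.2 _ h3)
        · exact Or.inl (UnA_ds_S k e.1 he.2 _ h3))
    (by simp) (by simp) hxx (hfull k)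
  have hz' : z = Rg.x (k + 1) := by
    simp only [Set.mem_insert_iff, Set.mem_singleton_iff] at hz
    rcases hz with h | h
    · exact absurd h hzx
    · exact h
  subst hz'
  have h5 := Link.map (P := P) (emb γ U) (emb_inj hγ hn U) (by
    rintro u v ⟨_, e, he, h | h⟩
    · have h1 := (mem_filter.1 he.1).2
      rw [h] at h1
      exact h1
    · have h1 := (mem_filter.1 he.1).2
      rw [h] at h1
      exact h1.symm) hl
  exact h5

end OTh
end

section

/-!
If the ring is closed then the hubs are separated in the pocket.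

PROOF of `pocket_sep`: let `E = (YF P U).image (fun e => pl e.1 e.2)` and suppose `inr (k, 0)`, `inr (k', 0)` are joined in `bipG E`, `k ≠ k'`.  `link_of_reach` with
`H = {inr (k, 0)}` (all `k`), `S` = complement of `H` (each edge has an end `inl _ ∈ S`), gives a link of `inr (k, 0)` and some `inr (k'', 0)`, `k'' ≠ k`, in `S`; `Link.map` with
`pem U` (`pem_inj`; edges of `bipG E` are mapped to edges of `P`): a link of `fx k` and `fx k''` in `pem U '' S ⊆ Z = {p U.1 U.2 q}` (`Link.mono`).  This contradicts `sep_hubs` with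
`hb k = fx U.1 U.2 k`, `Sl k = emb γ U '' slotS k`, and `slot_link` for all `k` (`full`).  The sets `slotS k` are disjoint for different `k`, so their images are (`emb_inj`); `fx ..`
and `p ..` are not in them.
-/

set_option autoImplicit false

namespace OTh

open Finset
open scoped Classical

variable {Q : Type} [Group Q] {L a m : ℕ}

private theorem unC_slot_disj {k l : Fin (2 * a + 2)} (hkl : k ≠ l) :
    Disjoint (slotS (a := a) (m := m) k) (slotS (a := a) (m := m) l) := by
  rw [Set.disjoint_left]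
  rintro u hu hv
  rcases hu with ⟨σ, rfl⟩ | ⟨i, rfl⟩ | ⟨σ, i, rfl⟩ | ⟨σ, i, rfl⟩ <;>
    rcases hv with ⟨σ', h⟩ | ⟨i', h⟩ | ⟨σ', i', h⟩ | ⟨σ', i', h⟩ <;>
    simp_all

private theorem unC_emb_slot {γ : Gam (2 * a + 2) L (Co a m) → Q} (U : Q × Fin L)
    {k : Fin (2 * a + 2)} {w : Vt Q L a m} (hw : w ∈ emb γ U '' slotS (a := a) (m := m) k) :
    (∀ l, w ≠ Vx.fx U.1 U.2 l) ∧ ∀ q, w ≠ Vx.p U.1 U.2 q := by
  obtain ⟨u, hu, rfl⟩ := hw
  rcases hu with ⟨σ, rfl⟩ | ⟨i, rfl⟩ | ⟨σ, i, rfl⟩ | ⟨σ, i, rfl⟩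
  · unfold emb
    constructor
    · intro l
      dsimp only
      split_ifs <;> simp
    · intro l
      dsimp only
      split_ifs <;> simp
  · exact ⟨fun l => by simp [emb], fun l => by simp [emb]⟩
  · exact ⟨fun l => by simp [emb], fun l => by simp [emb]⟩
  · exact ⟨fun l => by simp [emb], fun l => by simp [emb]⟩

theorem pocket_sep {γ : Gam (2 * a + 2) L (Co a m) → Q} {n : ℕ} (hγ : GoodG γ n) (hn : 2 ≤ n)
    (P : SimpleGraph (Vt Q L a m)) {f : Vt Q L a m → ℕ} (hf : Function.Injective f)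
    (hP : NonCr P f) (U : Q × Fin L) (hfull : full (XF γ P U)) (k k' : Fin (2 * a + 2))
    (hk : k ≠ k') :
    ¬ (bipG (((YF P U).image fun e => pl e.1 e.2 : Finset (Al a m × Be a m)) :
      Set (Al a m × Be a m))).Reachable (Sum.inr (k, 0)) (Sum.inr (k', 0)) := by
  intro hr
  set H : Set (Pv a m) := {u | ∃ l : Fin (2 * a + 2), u = Sum.inr (l, 0)} with hH
  obtain ⟨z, hzH, hzne, hlink⟩ := link_of_reach (H := H) (S := Hᶜ) disjoint_compl_right
    (fun u v _ => by rw [Set.union_compl_self]; exact Set.mem_univ _)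
    (by
      rintro u v ⟨x, y, -, ⟨rfl, rfl⟩ | ⟨rfl, rfl⟩⟩
      · left
        rintro ⟨l, hl⟩
        simp at hl
      · right
        rintro ⟨l, hl⟩
        simp at hl)
    (x := Sum.inr (k, 0)) (y := Sum.inr (k', 0)) ⟨k, rfl⟩ ⟨k', rfl⟩
    (by
      intro h
      rw [Sum.inr.injEq, Prod.mk.injEq] at h
      exact hk h.1) hr
  obtain ⟨k2, rfl⟩ := hzH
  have hk2 : k ≠ k2 := by
    rintro rfl
    exact hzne rfl
  have hl2 := Link.map (P := P) (pem U) (pem_inj U) (by
    rintro u v ⟨x, y, hxy, h⟩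
    rw [Finset.mem_coe, Finset.mem_image] at hxy
    obtain ⟨e, he, hexy⟩ := hxy
    unfold YF at he
    rw [Finset.mem_filter] at he
    have h1 := he.2
    rw [hexy] at h1
    rcases h with ⟨rfl, rfl⟩ | ⟨rfl, rfl⟩
    · exact h1
    · exact h1.symm) hlink
  have hpem : ∀ l : Fin (2 * a + 2),
      pem U (Sum.inr (l, 0) : Pv a m) = (Vx.fx U.1 U.2 l : Vt Q L a m) := by
    intro l
    simp [pem]
  rw [hpem, hpem] at hl2
  have hZ : ∀ w ∈ pem U '' (Hᶜ : Set (Pv a m)), ∃ q, w = (Vx.p U.1 U.2 q : Vt Q L a m) := by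
    rintro w ⟨u, hu, rfl⟩
    rcases u with q | ⟨l, t⟩
    · exact ⟨_, rfl⟩
    · have ht : t ≠ 0 := by
        rintro rfl
        exact hu ⟨l, rfl⟩
      refine ⟨Sum.inr (l, t), ?_⟩
      simp only [pem]
      rw [if_neg ht]
  refine sep_hubs (P := P) hf hP (hb := fun l => (Vx.fx U.1 U.2 l : Vt Q L a m))
    (Sl := fun l => emb γ U '' slotS (a := a) (m := m) l) ?_ ?_ ?_ ?_ ?_ ?_ hk2 hl2
  · intro x y hxy
    simpa using hxy
  · intro x y hxy
    exact (Set.disjoint_image_iff (emb_inj hγ hn U)).2 (unC_slot_disj hxy)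
  · intro x y hxy
    exact (unC_emb_slot U hxy).1 x rfl
  · intro x
    exact slot_link hγ hn P U hfull x
  · intro x
    rw [Set.disjoint_left]
    intro w hw hw'
    obtain ⟨q, rfl⟩ := hZ w hw
    exact (unC_emb_slot U hw').2 q rfl
  · intro x hx
    obtain ⟨q, hq⟩ := hZ _ hx
    simp at hq

end OTh
end

section

/-!
The number of edges in a pocket.

PROOF of `pocket_bound`: `E = (YF P U).image (fun e => pl e.1 e.2)` has `(YF P U).card` elements (`pl_inj`); `bip_sep` for `f ∘ pem U` (`pem_inj`, edges of `bipG E` are mapped to edges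
of `P`), `A = univ`, `B = univ`, `S = {(0, 0)}` or, if `full`, `S` = all `(k, 0)` (`2 a + 2` elements, `pocket_sep`);
`Fintype.card (Al a m) + 2 * Fintype.card (Be a m) = 8 (2 a + 2) (m + 1)`.
-/

set_option autoImplicit false

namespace OTh

open Finset
open scoped Classical

variable {Q : Type} [Group Q] {L a m : ℕ}

theorem pocket_bound {γ : Gam (2 * a + 2) L (Co a m) → Q} {n : ℕ} (hγ : GoodG γ n) (hn : 2 ≤ n)
    (P : SimpleGraph (Vt Q L a m)) {f : Vt Q L a m → ℕ} (hf : Function.Injective f)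
    (hP : NonCr P f) (U : Q × Fin L) :
    (YF P U).card + (if full (XF γ P U) then 2 * (2 * a + 2) else 2) ≤
      8 * ((2 * a + 2) * (m + 1)) := by
  set E : Finset (Al a m × Be a m) := (YF P U).image fun e => pl e.1 e.2 with hEdef
  have hcard : E.card = (YF P U).card := by
    rw [hEdef, Finset.card_image_of_injective]
    rintro ⟨i, e⟩ ⟨i', e'⟩ h
    obtain ⟨h1, h2⟩ := pl_inj i i' e e' h
    rw [h1, h2]
  have hadj : ∀ u v, (bipG (E : Set (Al a m × Be a m))).Adj u v → P.Adj (pem U u) (pem U v) := by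
    rintro u v ⟨x, y, hxy, h⟩
    rw [Finset.mem_coe, hEdef, Finset.mem_image] at hxy
    obtain ⟨e, he, hexy⟩ := hxy
    unfold YF at he
    rw [Finset.mem_filter] at he
    have h1 := he.2
    rw [hexy] at h1
    rcases h with ⟨rfl, rfl⟩ | ⟨rfl, rfl⟩
    · exact h1
    · exact h1.symm
  have hnc : NonCr (bipG (E : Set (Al a m × Be a m))) (fun u => f (pem U u)) := by
    intro a b c d hab hcd h
    exact hP _ _ _ _ (hadj _ _ hab) (hadj _ _ hcd) h
  have hA : (univ : Finset (Al a m)).card = 4 * ((2 * a + 2) * (m + 1)) := by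
    rw [Finset.card_univ]
    simp only [Fintype.card_sum, Fintype.card_prod, Fintype.card_fin, Fintype.card_bool]
    ring
  have hB : (univ : Finset (Be a m)).card = 2 * ((2 * a + 2) * (m + 1)) := by
    rw [Finset.card_univ]
    simp only [Fintype.card_prod, Fintype.card_fin]
    ring
  have key : ∀ S : Finset (Be a m), (∀ x ∈ S, ∀ y ∈ S, x ≠ y →
      ¬ (bipG (E : Set (Al a m × Be a m))).Reachable (Sum.inr x) (Sum.inr y)) →
      (YF P U).card + 2 * S.card ≤ 8 * ((2 * a + 2) * (m + 1)) := by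
    intro S hS
    have h := bip_sep (fun u => f (pem U u)) (hf.comp (pem_inj U)) univ univ E
      (fun x _ => Finset.mem_product.2 ⟨Finset.mem_univ _, Finset.mem_univ _⟩) hnc S
      (Finset.subset_univ _) hS
    rw [hcard, hA, hB] at h
    omega
  by_cases hF : full (XF γ P U)
  · rw [if_pos hF]
    have h := key ((univ : Finset (Fin (2 * a + 2))).image fun k => ((k, 0) : Be a m)) (by
      intro x hx y hy hxy
      rw [Finset.mem_image] at hx hy
      obtain ⟨k, -, rfl⟩ := hx
      obtain ⟨k', -, rfl⟩ := hy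
      refine pocket_sep hγ hn P hf hP U hF k k' ?_
      rintro rfl
      exact hxy rfl)
    rw [Finset.card_image_of_injective _ (by
      intro k k' hk
      exact (Prod.mk.inj hk).1), Finset.card_univ, Fintype.card_fin] at h
    exact h
  · rw [if_neg hF]
    have h := key {((0, 0) : Be a m)} (by
      intro x hx y hy hxy
      rw [Finset.mem_singleton] at hx hy
      exact absurd (hx.trans hy.symm) hxy)
    rw [Finset.card_singleton] at h
    exact h

end OTh
end

section

/-!
The edges of an outerplanar graph in one unit.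
-/

set_option autoImplicit false

namespace OTh

open Finset
open scoped Classical

variable {Q : Type} [Group Q] {L a m : ℕ}

theorem unit_bound {γ : Gam (2 * a + 2) L (Co a m) → Q} {n : ℕ} (hγ : GoodG γ n) (hn : 2 ≤ n)
    (P : SimpleGraph (Vt Q L a m)) {f : Vt Q L a m → ℕ} (hf : Function.Injective f)
    (hP : NonCr P f) (U : Q × Fin L) :
    (2 * a + 1) * (∑ e ∈ XF γ P U, w2 e.2.2) + 2 * (YF P U).card +
      4 * (2 * a + 1) * Nat.card (lgr rep (XF γ P U : Set (Lb (2 * a + 2) (Co a m)))).ConnectedComponent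
      + 4 ≤ 4 * (2 * a + 1) * Fintype.card (Rg (2 * a + 2) (Co a m)) +
        16 * ((2 * a + 2) * (m + 1)) := by
  have h1 : NonCr (lgr rep (XF γ P U : Set (Lb (2 * a + 2) (Co a m)))) (fun u => f (emb γ U u)) := by
    have key : ∀ u v, (lgr rep (XF γ P U : Set (Lb (2 * a + 2) (Co a m)))).Adj u v →
        P.Adj (emb γ U u) (emb γ U v) := by
      rintro u v ⟨-, e, he, h | h⟩
      · have := (Finset.mem_filter.1 (Finset.mem_coe.1 he)).2
        rw [h] at this
        exact this
      · have := (Finset.mem_filter.1 (Finset.mem_coe.1 he)).2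
        rw [h] at this
        exact this.symm
    intro a b c d hab hcd h
    exact hP _ _ _ _ (key _ _ hab) (key _ _ hcd) h
  have h2 := ring_bound (XF γ P U) (fun u => f (emb γ U u)) (hf.comp (emb_inj hγ hn U)) h1
  have h3 := pocket_bound hγ hn P hf hP U
  rw [card_Rg]
  rw [card_Co] at h2 ⊢
  generalize hc : (2 * a + 2) * (m + 1) = c at *
  generalize (∑ e ∈ XF γ P U, w2 e.2.2) = S at *
  generalize Nat.card (lgr rep (XF γ P U : Set (Lb (2 * a + 2) (Co a m)))).ConnectedComponent = N at *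
  generalize (YF P U).card = y at *
  generalize hD : 3 * (2 * a + 2) + 5 * (2 * a + 2) * c = D at *
  have h4 : (2 * a + 1) * (S + 4 * N) ≤ (2 * a + 1) * (4 * D + if full (XF γ P U) then 4 else 0) :=
    Nat.mul_le_mul_left _ h2
  by_cases hF : full (XF γ P U)
  · simp only [hF, if_true] at h3 h4
    nlinarith
  · simp only [hF, if_false] at h3 h4
    nlinarith

end OTh
end

section

/-!
Drawing: insertion of a unit (ring of one colour and pocket in the hole of the ring).

`e : Rg s Unit → V` are the vertices of the ring, `q : Pv a m → V` the vertices of the pocket.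

PROOF of `draw_unit`.
(1) `draw_ring` for the blocks `B k = ⟨e (x k), e (b (k, true)), e (y (k, true)), e (t (k, true)), e (v k), e (t (k, false)), e (y (k, false)), e (b (k, false))⟩` (`v k` is `v k ()`
etc.).  `(List.ofFn B).flatMap Bk.flat` is `Nodup` and contains exactly the values of `e`.  Each edge `rep (m, (), ed)` of the ring is (up to `Sym2.eq_swap`) in
`rim` or `chords` of the block `m.1` (cases `m.2`, `ed`; the hub of `(k, false)` is `x (k + 1)`).
(2) `draw_gaps` for `n = 2 m`, `x k = e (x k) = q (inr (k, 0))`, `v k = e (v k)`, `al k t = q (inl (inl ((k, t.castSucc) + phi i)))`, `bb k t = q (inr (k, t.succ))`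
(`t : Fin (2 m + 1)`), `a k = q (inl (inr (par k, i + del (hlf k, 0))))`.  The gap lists are `Nodup` and fresh: the listed vertices of the pocket are pairwise different
(`(k, t) ↦ (k, t) + phi i` is injective; `k ↦ (par k, hlf k)` is injective) and not hubs.
(3) `Drawn.leaves` in the face `w'` of (2) with the pairs `(q (inr (k, last)), q (inl (inl ((k, last) + phi i))))`, `k : Fin s`, and
`(q (inr (gp κ (!ε), t.succ)), q (inl (inr (ε, i + del (κ, t.succ)))))`, `ε, κ, t`.  The new vertices are pairwise different and fresh.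
The outer face `w'` of (1) is one of the faces in `F''` of (2): bring it to the front (`perm`, `List.append_of_mem`); the faces `f ∈ F` and the pocket face are different from it (it contains
a new vertex `e u`, and no pocket vertex other than hubs), so they are still among the others.
All vertices of the pocket are now in the pocket face: `(k, t)` of the first kind is `(k', t') + phi i`, with `t' = t''.castSucc` or `t' = last`; `(ε, z)` of the second kind: `z = i + del (κ, t)`,
`t = 0`: centre of the gap `gp κ ε` (`par (gp κ ε) = ε`, `hlf (gp κ ε) = κ`), `t = t'.succ`: a leaf.  The edges `pl i`: `e1 k t`: `t = 0`: `s(x k, al k 0)`, `t = t'.castSucc` with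
`t' = t''.succ`: `s(bb, al)`, `t = last`: leaf; `e2`: `s(al k t, bb k t)`; `e3 k 0`: `s(a k, x k)`, `e3 k t.succ`: `s(a k, bb k t)`; `e4`; `e5`: leaf.
-/

set_option autoImplicit false

namespace OTh

open Finset

variable {V : Type*} {a m : ℕ}

private theorem DrE_flat_nodup {s : ℕ} (L : Fin s → List V) (h1 : ∀ k, (L k).Nodup)
    (h2 : ∀ k k' u, u ∈ L k → u ∈ L k' → k = k') : ((List.ofFn L).flatten).Nodup := by
  rw [List.nodup_flatten]
  refine ⟨?_, ?_⟩
  · intro l hl
    obtain ⟨k, rfl⟩ := List.mem_ofFn.1 hl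
    exact h1 k
  · rw [List.pairwise_ofFn]
    intro k k' hk u hu hu'
    exact absurd (h2 k k' u hu hu') hk.ne

private theorem DrE_mem_flat {s : ℕ} (L : Fin s → List V) (u : V) :
    u ∈ (List.ofFn L).flatten ↔ ∃ k, u ∈ L k := by
  rw [List.mem_flatten]
  constructor
  · rintro ⟨l, hl, hu⟩
    obtain ⟨k, rfl⟩ := List.mem_ofFn.1 hl
    exact ⟨k, hu⟩
  · rintro ⟨k, hu⟩
    exact ⟨_, List.mem_ofFn.2 ⟨k, rfl⟩, hu⟩

private theorem DrE_mem_gapl {n : ℕ} (al bb : Fin n → V) (c u : V) :
    u ∈ gapl al bb c ↔ (∃ t, u = al t ∨ u = bb t) ∨ u = c := by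
  unfold gapl
  rw [List.mem_append, DrE_mem_flat, List.mem_singleton]
  simp only [List.mem_cons, List.not_mem_nil, or_false]

private theorem DrE_gapl_nodup {n : ℕ} (al bb : Fin n → V) (c : V) (h1 : Function.Injective al)
    (h2 : Function.Injective bb) (h3 : ∀ t t', al t ≠ bb t') (h4 : ∀ t, al t ≠ c)
    (h5 : ∀ t, bb t ≠ c) : (gapl al bb c).Nodup := by
  unfold gapl
  rw [List.nodup_append]
  refine ⟨DrE_flat_nodup _ ?_ ?_, List.nodup_singleton _, ?_⟩
  · intro t
    simp only [List.nodup_cons, List.mem_singleton, List.not_mem_nil, not_false_eq_true,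
      List.nodup_nil, and_true]
    exact h3 t t
  · intro k k' u hu hu'
    simp only [List.mem_cons, List.not_mem_nil, or_false] at hu hu'
    rcases hu with rfl | rfl <;> rcases hu' with hu' | hu'
    · exact h1 hu'
    · exact absurd hu' (h3 _ _)
    · exact absurd hu'.symm (h3 _ _)
    · exact h2 hu'
  · intro u hu u' hu' huu
    rw [List.mem_singleton] at hu'
    subst hu'
    subst huu
    obtain ⟨t, ht⟩ := (DrE_mem_flat _ _).1 hu
    simp only [List.mem_cons, List.not_mem_nil, or_false] at ht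
    rcases ht with ht | ht
    · exact h4 t ht.symm
    · exact h5 t ht.symm

/-- the slot `k` of the ring -/
private def DrE_B (e : Rg (2 * a + 2) Unit → V) (k : Fin (2 * a + 2)) : Bk V :=
  ⟨e (.x k), e (.b (k, true) ()), e (.y (k, true)), e (.t (k, true) ()), e (.v k ()),
    e (.t (k, false) ()), e (.y (k, false)), e (.b (k, false) ())⟩

/-- the slot of a vertex of the ring -/
private def DrE_slot : Rg (2 * a + 2) Unit → Fin (2 * a + 2)
  | .x k => k
  | .y m => m.1
  | .v k _ => k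
  | .t m _ => m.1
  | .b m _ => m.1

private theorem DrE_mem_slot (e : Rg (2 * a + 2) Unit → V) (k : Fin (2 * a + 2)) (v : V) :
    v ∈ (DrE_B e k).flat ↔ ∃ u, DrE_slot u = k ∧ v = e u := by
  simp only [DrE_B, Bk.flat, List.mem_cons, List.not_mem_nil, or_false]
  constructor
  · rintro (h | h | h | h | h | h | h | h)
    · exact ⟨_, rfl, h⟩
    · exact ⟨.b (k, true) (), rfl, h⟩
    · exact ⟨.y (k, true), rfl, h⟩
    · exact ⟨.t (k, true) (), rfl, h⟩
    · exact ⟨.v k (), rfl, h⟩
    · exact ⟨.t (k, false) (), rfl, h⟩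
    · exact ⟨.y (k, false), rfl, h⟩
    · exact ⟨.b (k, false) (), rfl, h⟩
  · rintro ⟨u, hu, rfl⟩
    cases u with
    | x k' => simp only [DrE_slot] at hu; subst hu; simp
    | y m' => obtain ⟨k', ε⟩ := m'; simp only [DrE_slot] at hu; subst hu; cases ε <;> simp
    | v k' i' => simp only [DrE_slot] at hu; subst hu; simp
    | t m' i' => obtain ⟨k', ε⟩ := m'; simp only [DrE_slot] at hu; subst hu; cases ε <;> simp
    | b m' i' => obtain ⟨k', ε⟩ := m'; simp only [DrE_slot] at hu; subst hu; cases ε <;> simp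

private theorem DrE_mem_ring (e : Rg (2 * a + 2) Unit → V) (v : V) :
    v ∈ (List.ofFn (DrE_B e)).flatMap Bk.flat ↔ ∃ u, v = e u := by
  rw [List.mem_flatMap]
  constructor
  · rintro ⟨B, hB, hv⟩
    obtain ⟨k, rfl⟩ := List.mem_ofFn.1 hB
    obtain ⟨u, -, hu⟩ := (DrE_mem_slot e k v).1 hv
    exact ⟨u, hu⟩
  · rintro ⟨u, hu⟩
    exact ⟨_, List.mem_ofFn.2 ⟨DrE_slot u, rfl⟩, (DrE_mem_slot e _ v).2 ⟨u, rfl, hu⟩⟩

private theorem DrE_ring_nodup (e : Rg (2 * a + 2) Unit → V) (he : Function.Injective e) :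
    ((List.ofFn (DrE_B e)).flatMap Bk.flat).Nodup := by
  have h0 : (List.ofFn (DrE_B e)).flatMap Bk.flat
      = (List.ofFn fun k => (DrE_B e k).flat).flatten := by
    rw [List.flatMap_def, List.map_ofFn]
    rfl
  rw [h0]
  refine DrE_flat_nodup _ ?_ ?_
  · intro k
    have h1 : (DrE_B e k).flat = List.map e [.x k, .b (k, true) (), .y (k, true), .t (k, true) (),
        .v k (), .t (k, false) (), .y (k, false), .b (k, false) ()] := rfl
    rw [h1]
    refine List.Nodup.map he ?_
    simp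
  · intro k k' u hu hu'
    obtain ⟨v, hv, rfl⟩ := (DrE_mem_slot e k u).1 hu
    obtain ⟨v', hv', hvv⟩ := (DrE_mem_slot e k' _).1 hu'
    rw [← hv, ← hv', he hvv]

private theorem DrE_ring_edge (e : Rg (2 * a + 2) Unit → V) (l : Lb (2 * a + 2) Unit) :
    s(e (rep l).1, e (rep l).2) ∈
      (DrE_B e l.1.1).rim (DrE_B e (l.1.1 + 1)).x ∪ (DrE_B e l.1.1).chords (DrE_B e (l.1.1 + 1)).x := by
  obtain ⟨⟨k, ε⟩, ⟨⟩, ed⟩ := l
  cases ε <;> cases ed <;>
    simp [rep, ds, dep, hub, DrE_B, Bk.rim, Bk.chords]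

private theorem DrE_parhlf {k k' : Fin (2 * a + 2)} (h1 : par k = par k') (h2 : hlf k = hlf k') :
    k = k' := by
  unfold par at h1
  unfold hlf at h2
  rw [decide_eq_decide] at h1
  rw [Fin.mk.injEq] at h2
  apply Fin.ext
  omega

private theorem DrE_par_gp (κ : Fin (a + 1)) (ε : Bool) : par (gp κ ε) = ε := by
  unfold par gp
  cases ε
  · simp
  · simp only [Bool.toNat_true]
    rw [decide_eq_true_eq]
    omega

private theorem DrE_hlf_gp (κ : Fin (a + 1)) (ε : Bool) : hlf (gp κ ε) = κ := by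
  unfold hlf gp
  apply Fin.ext
  cases ε
  · simp
  · simp only [Bool.toNat_true]
    omega

/-- the leaves: vertices of the `A` side -/
private noncomputable def DrE_la (i : Co a m) :
    Fin (2 * a + 2) ⊕ (Bool × Fin (a + 1) × Fin (2 * m + 1)) → Al a m
  | .inl k => .inl ((k, Fin.last (2 * m + 1)) + phi i)
  | .inr p => .inr (p.1, i + del (p.2.1, p.2.2.succ))

/-- the leaves: their neighbours -/
private def DrE_lb : Fin (2 * a + 2) ⊕ (Bool × Fin (a + 1) × Fin (2 * m + 1)) → Be a m
  | .inl k => (k, Fin.last (2 * m + 1))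
  | .inr p => (gp p.2.1 (!p.1), p.2.2.succ)

private theorem DrE_la_inj (i : Co a m) : Function.Injective (DrE_la (a := a) (m := m) i) := by
  rintro (k | ⟨ε, κ, t⟩) (k' | ⟨ε', κ', t'⟩) h
  · simp only [DrE_la, Sum.inl.injEq] at h
    have h1 := add_right_cancel h
    rw [Prod.mk.injEq] at h1
    rw [h1.1]
  · simp [DrE_la] at h
  · simp [DrE_la] at h
  · simp only [DrE_la, Sum.inr.injEq, Prod.mk.injEq] at h
    have h1 := del.injective (add_left_cancel h.2)
    rw [Prod.mk.injEq, Fin.succ_inj] at h1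
    rw [h.1, h1.1, h1.2]

private theorem DrE_lb_ne (p : Fin (2 * a + 2) ⊕ (Bool × Fin (a + 1) × Fin (2 * m + 1))) :
    ∃ t : Fin (2 * m + 1), (DrE_lb (a := a) (m := m) p).2 = t.succ := by
  rcases p with k | ⟨ε, κ, t⟩
  · exact ⟨Fin.last (2 * m), by simp only [DrE_lb, Fin.succ_last]⟩
  · exact ⟨t, rfl⟩

theorem draw_unit (i : Co a m) (e : Rg (2 * a + 2) Unit → V) (q : Pv a m → V)
    (he : Function.Injective e) (hq : Function.Injective q)
    (hub' : ∀ k, q (.inr (k, 0)) = e (.x k))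
    (hdis : ∀ u v, e u = q v → ∃ k, v = .inr (k, 0))
    {E : Set (Sym2 V)} {w : List V} {F : List (List V)} (h : Drawn E (w :: F))
    (hz : e (.y (0, true)) ∈ w) (hfr : ∀ u, u ≠ .y (0, true) → e u ∉ vs (w :: F))
    (hfr' : ∀ u, (∀ k, u ≠ .inr (k, 0)) → q u ∉ vs (w :: F)) :
    ∃ E' w' F', Drawn E' (w' :: F') ∧ E ⊆ E' ∧ (∀ v ∈ w, v ∈ w') ∧ (∀ u, e u ∈ w') ∧
      (∀ f ∈ F, f ∈ F') ∧ (∃ f ∈ F', ∀ u, q u ∈ f) ∧
      (∀ l : Lb (2 * a + 2) Unit, s(e (rep l).1, e (rep l).2) ∈ E') ∧
      (∀ l : Pl a m, s(q (.inl (pl i l).1), q (.inr (pl i l).2)) ∈ E') ∧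
      vs (w' :: F') ⊆ vs (w :: F) ∪ Set.range e ∪ Set.range q := by
  have hs : 2 ≤ 2 * a + 2 := by omega
  -- (1) the ring
  obtain ⟨E₁, w₁, F₁, h1, hE1, hrim, hch, hw1, hw1', hF1, hvs1⟩ :=
    draw_ring hs (DrE_B e) h hz (DrE_ring_nodup e he) (by
      intro v hv hne
      obtain ⟨u, rfl⟩ := (DrE_mem_ring e v).1 hv
      refine hfr u ?_
      rintro rfl
      exact hne rfl)
  have hred : (List.ofFn (DrE_B e)).flatMap Bk.red
      = (List.ofFn fun k => [e (.x k), e (.v k ())]).flatten := by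
    rw [List.flatMap_def, List.map_ofFn]
    rfl
  rw [hred] at h1
  have hvs1' : ∀ u, u ∈ vs (((List.ofFn fun k => [e (.x k), e (.v k ())]).flatten) :: w₁ :: F₁) →
      u ∈ vs (w :: F) ∨ ∃ v, u = e v := by
    rintro u ⟨f, hf, hu⟩
    rcases List.mem_cons.1 hf with rfl | hf
    · obtain ⟨k, hk⟩ := (DrE_mem_flat _ _).1 hu
      simp only [List.mem_cons, List.not_mem_nil, or_false] at hk
      rcases hk with rfl | rfl
      · exact Or.inr ⟨_, rfl⟩
      · exact Or.inr ⟨_, rfl⟩
    · rcases hvs1 ⟨f, hf, hu⟩ with h2 | h2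
      · exact Or.inl h2
      · exact Or.inr ((DrE_mem_ring e u).1 h2)
  have hfresh : ∀ u, (∀ k, u ≠ .inr (k, 0)) →
      q u ∉ vs (((List.ofFn fun k => [e (.x k), e (.v k ())]).flatten) :: w₁ :: F₁) := by
    intro u hu hu'
    rcases hvs1' _ hu' with h2 | ⟨v, hv⟩
    · exact hfr' u hu h2
    · obtain ⟨k, hk⟩ := hdis v u hv.symm
      exact hu k hk
  -- (2) the gaps
  obtain ⟨al, hal⟩ : ∃ al : Fin (2 * a + 2) → Fin (2 * m + 1) → V,
      al = fun k t => q (.inl (.inl ((k, t.castSucc) + phi i))) := ⟨_, rfl⟩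
  obtain ⟨bb, hbb⟩ : ∃ bb : Fin (2 * a + 2) → Fin (2 * m + 1) → V,
      bb = fun k t => q (.inr (k, t.succ)) := ⟨_, rfl⟩
  obtain ⟨c, hc⟩ : ∃ c : Fin (2 * a + 2) → V,
      c = fun k => q (.inl (.inr (par k, i + del (hlf k, 0)))) := ⟨_, rfl⟩
  have hal_inj : ∀ k k' t t', al k t = al k' t' → k = k' ∧ t = t' := by
    intro k k' t t' h2
    rw [hal] at h2
    have h3 := hq h2
    rw [Sum.inl.injEq, Sum.inl.injEq] at h3
    have h4 := add_right_cancel h3
    rw [Prod.mk.injEq, Fin.castSucc_inj] at h4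
    exact h4
  have hbb_inj : ∀ k k' t t', bb k t = bb k' t' → k = k' ∧ t = t' := by
    intro k k' t t' h2
    rw [hbb] at h2
    have h3 := hq h2
    rw [Sum.inr.injEq, Prod.mk.injEq, Fin.succ_inj] at h3
    exact h3
  have hc_inj : ∀ k k', c k = c k' → k = k' := by
    intro k k' h2
    rw [hc] at h2
    have h3 := hq h2
    rw [Sum.inl.injEq, Sum.inr.injEq, Prod.mk.injEq] at h3
    have h4 := del.injective (add_left_cancel h3.2)
    rw [Prod.mk.injEq] at h4
    exact DrE_parhlf h3.1 h4.1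
  have hab : ∀ k k' t t', al k t ≠ bb k' t' := by
    intro k k' t t' h2
    rw [hal, hbb] at h2
    exact absurd (hq h2) (by simp)
  have hac : ∀ k k' t, al k t ≠ c k' := by
    intro k k' t h2
    rw [hal, hc] at h2
    exact absurd (hq h2) (by simp)
  have hbc : ∀ k k' t, bb k t ≠ c k' := by
    intro k k' t h2
    rw [hbb, hc] at h2
    exact absurd (hq h2) (by simp)
  have hgap : ∀ u, u ∈ (List.ofFn fun k => gapl (al k) (bb k) (c k)).flatten ↔
      ∃ k, (∃ t, u = al k t ∨ u = bb k t) ∨ u = c k := by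
    intro u
    rw [DrE_mem_flat]
    simp only [DrE_mem_gapl]
  have hgapq : ∀ u, u ∈ (List.ofFn fun k => gapl (al k) (bb k) (c k)).flatten →
      ∃ v, u = q v ∧ ∀ k, v ≠ .inr (k, 0) := by
    intro u hu
    obtain ⟨k, ⟨t, h2 | h2⟩ | h2⟩ := (hgap u).1 hu
    · rw [hal] at h2
      exact ⟨_, h2, by simp⟩
    · rw [hbb] at h2
      refine ⟨_, h2, ?_⟩
      intro k' h3
      rw [Sum.inr.injEq, Prod.mk.injEq] at h3
      exact Fin.succ_ne_zero _ h3.2
    · rw [hc] at h2
      exact ⟨_, h2, by simp⟩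
  obtain ⟨E₂, w₂, F₂, h2, hE2, g1, g2, g3, g4, g5, g6, hF2, hw2, hvs2⟩ :=
    draw_gaps hs (fun k => e (.x k)) (fun k => e (.v k ())) al bb c h1
      (by
        refine DrE_flat_nodup _ ?_ ?_
        · intro k
          simp only [List.nodup_cons, List.mem_singleton, List.not_mem_nil, not_false_eq_true,
            List.nodup_nil, and_true]
          intro h2
          exact absurd (he h2) (by simp)
        · intro k k' u hu hu'
          simp only [List.mem_cons, List.not_mem_nil, or_false] at hu hu'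
          rcases hu with rfl | rfl <;> rcases hu' with hu' | hu'
          · simpa using he hu'
          · exact absurd (he hu') (by simp)
          · exact absurd (he hu') (by simp)
          · simpa using he hu')
      (by
        refine DrE_flat_nodup _ ?_ ?_
        · intro k
          refine DrE_gapl_nodup _ _ _ ?_ ?_ ?_ ?_ ?_
          · intro t t' h2
            exact (hal_inj _ _ _ _ h2).2
          · intro t t' h2
            exact (hbb_inj _ _ _ _ h2).2
          · exact fun t t' => hab k k t t'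
          · exact fun t => hac k k t
          · exact fun t => hbc k k t
        · intro k k' u hu hu'
          rw [DrE_mem_gapl] at hu hu'
          rcases hu with ⟨t, rfl | rfl⟩ | rfl <;> rcases hu' with ⟨t', hu' | hu'⟩ | hu'
          · exact (hal_inj _ _ _ _ hu').1
          · exact absurd hu' (hab _ _ _ _)
          · exact absurd hu' (hac _ _ _)
          · exact absurd hu'.symm (hab _ _ _ _)
          · exact (hbb_inj _ _ _ _ hu').1
          · exact absurd hu' (hbc _ _ _)
          · exact absurd hu'.symm (hac _ _ _)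
          · exact absurd hu'.symm (hbc _ _ _)
          · exact hc_inj _ _ hu')
      (by
        intro u hu
        obtain ⟨v, rfl, hv⟩ := hgapq u hu
        exact hfresh v hv)
  -- (3) the leaves
  have hx : ∀ k, q (.inr (k, 0)) ∈ w₂ := by
    intro k
    rw [hub']
    exact (hw2 k).1
  have hb : ∀ k (t : Fin (2 * m + 1)), q (.inr (k, t.succ)) ∈ w₂ := by
    intro k t
    have h3 := ((hw2 k).2.2 t).2
    rw [hbb] at h3
    exact h3
  obtain ⟨E₃, w₃, h3, hE3, hleaf, hw3⟩ := Drawn.leaves h2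
    ((Finset.univ : Finset (Fin (2 * a + 2) ⊕ (Bool × Fin (a + 1) × Fin (2 * m + 1)))).toList.map
      fun p => (q (.inr (DrE_lb p)), q (.inl (DrE_la i p))))
    (by
      intro p hp
      obtain ⟨p', -, rfl⟩ := List.mem_map.1 hp
      obtain ⟨t, ht⟩ := DrE_lb_ne p'
      have h4 : DrE_lb p' = ((DrE_lb p').1, t.succ) := by rw [← ht]
      show q (.inr (DrE_lb p')) ∈ w₂
      rw [h4]
      exact hb _ _)
    (by
      rw [List.map_map]
      refine List.Nodup.map ?_ (Finset.nodup_toList _)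
      intro p p' hpp
      have h4 := hq hpp
      rw [Sum.inl.injEq] at h4
      exact DrE_la_inj i h4)
    (by
      intro p hp
      obtain ⟨p', -, rfl⟩ := List.mem_map.1 hp
      show q (.inl (DrE_la i p')) ∉ _
      intro h4
      rcases hvs2 h4 with h5 | h5
      · exact hfresh _ (by simp) h5
      · obtain ⟨k, ⟨t, h6 | h6⟩ | h6⟩ := (hgap _).1 h5
        · rw [hal] at h6
          have h7 := hq h6
          rw [Sum.inl.injEq] at h7
          rcases p' with k' | p'
          · simp only [DrE_la, Sum.inl.injEq] at h7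
            have h8 := add_right_cancel h7
            rw [Prod.mk.injEq] at h8
            exact absurd h8.2.symm (Fin.castSucc_lt_last t).ne
          · simp [DrE_la] at h7
        · rw [hbb] at h6
          exact absurd (hq h6) (by simp)
        · rw [hc] at h6
          have h7 := hq h6
          rw [Sum.inl.injEq] at h7
          rcases p' with k' | p'
          · simp [DrE_la] at h7
          · simp only [DrE_la, Sum.inr.injEq, Prod.mk.injEq] at h7
            have h8 := del.injective (add_left_cancel h7.2)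
            rw [Prod.mk.injEq] at h8
            exact Fin.succ_ne_zero _ h8.2)
  have hleaf' : ∀ p, s(q (.inr (DrE_lb p)), q (.inl (DrE_la i p))) ∈ E₃ := by
    intro p
    exact hleaf _ (List.mem_map.2 ⟨p, Finset.mem_toList.2 (Finset.mem_univ p), rfl⟩)
  have hla : ∀ p, q (.inl (DrE_la i p)) ∈ w₃ := by
    intro p
    rw [hw3]
    right
    rw [List.map_map]
    exact List.mem_map.2 ⟨p, Finset.mem_toList.2 (Finset.mem_univ p), rfl⟩
  have hsub3 : ∀ u ∈ w₂, u ∈ w₃ := fun u hu => (hw3 u).2 (Or.inl hu)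
  -- the pocket face
  have hpocket : ∀ u, q u ∈ w₃ := by
    rintro ((z | ⟨ε, z⟩) | ⟨k, t⟩)
    · obtain ⟨⟨k, t⟩, hz'⟩ : ∃ y : Be a m, z = y + phi i := ⟨z - phi i, by rw [sub_add_cancel]⟩
      subst hz'
      induction t using Fin.lastCases with
      | last => exact hla (.inl k)
      | cast t =>
        have h4 := ((hw2 k).2.2 t).1
        rw [hal] at h4
        exact hsub3 _ h4
    · obtain ⟨⟨κ, t⟩, hz'⟩ : ∃ y, z = i + del y := ⟨del.symm (z - i), by
        rw [Equiv.apply_symm_apply, add_sub_cancel]⟩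
      subst hz'
      induction t using Fin.cases with
      | zero =>
        have h4 := (hw2 (gp κ ε)).2.1
        rw [hc] at h4
        simp only [DrE_par_gp, DrE_hlf_gp] at h4
        exact hsub3 _ h4
      | succ t => exact hla (.inr (ε, κ, t))
    · induction t using Fin.cases with
      | zero => exact hsub3 _ (hx k)
      | succ t => exact hsub3 _ (hb k t)
  -- (4) the outer face
  obtain ⟨Fa, Fb, hFab⟩ := List.append_of_mem (hF2 w₁ List.mem_cons_self)
  have hmemF : ∀ f, f ∈ F₂ ↔ f = w₁ ∨ f ∈ Fa ++ Fb := by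
    intro f
    rw [hFab]
    simp only [List.mem_append, List.mem_cons]
    tauto
  refine ⟨E₃, w₁, w₃ :: (Fa ++ Fb), ?_, (hE1.trans hE2).trans hE3, hw1,
    fun u => hw1' _ ((DrE_mem_ring e _).2 ⟨u, rfl⟩), ?_, ⟨w₃, List.mem_cons_self, hpocket⟩, ?_, ?_, ?_⟩
  · refine Drawn.perm _ _ _ h3 ?_
    rw [hFab]
    exact (List.Perm.cons _ List.perm_middle).trans (List.Perm.swap _ _ _)
  · intro f hf
    rcases (hmemF f).1 (hF2 f (List.mem_cons_of_mem _ (hF1 f hf))) with h4 | h4
    · exfalso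
      subst h4
      exact hfr (.x 0) (by simp) ⟨f, List.mem_cons_of_mem _ hf,
        hw1' _ ((DrE_mem_ring e _).2 ⟨_, rfl⟩)⟩
    · exact List.mem_cons_of_mem _ h4
  · intro l
    refine hE3 (hE2 ?_)
    rcases DrE_ring_edge e l with h4 | h4
    · exact hrim _ h4
    · exact hch _ h4
  · have hal' : ∀ k t, al k t = q (.inl (.inl ((k, t.castSucc) + phi i))) := fun k t => by rw [hal]
    have hbb' : ∀ k t, bb k t = q (.inr (k, t.succ)) := fun k t => by rw [hbb]
    have hc' : ∀ k, c k = q (.inl (.inr (par k, i + del (hlf k, 0)))) := fun k => by rw [hc]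
    intro l
    cases l with
    | e1 k t =>
      simp only [pl]
      rw [Sym2.eq_swap]
      induction t using Fin.lastCases with
      | last => exact hleaf' (.inl k)
      | cast t =>
        refine hE3 ?_
        induction t using Fin.cases with
        | zero =>
          have h4 := g1 k
          rw [hal', ← hub'] at h4
          exact h4
        | succ t =>
          have h4 := g3 k t
          rw [hal', hbb'] at h4
          exact h4
    | e2 k t =>
      have h4 := g2 k t
      rw [hal', hbb'] at h4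
      exact hE3 h4
    | e3 k t =>
      refine hE3 ?_
      simp only [pl]
      induction t using Fin.cases with
      | zero =>
        have h4 := g5 k
        rw [hc', ← hub'] at h4
        exact h4
      | succ t =>
        have h4 := g4 k t
        rw [hc', hbb'] at h4
        exact h4
    | e4 k =>
      have h4 := g6 k
      rw [hc', ← hub'] at h4
      exact hE3 h4
    | e5 ε κ t =>
      have h4 := hleaf' (.inr (ε, κ, t))
      rw [Sym2.eq_swap] at h4
      exact h4
  · have hE : ∀ u, u ∈ vs (w₂ :: F₂) → u ∈ vs (w :: F) ∪ Set.range e ∪ Set.range q := by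
      intro u hu
      rcases hvs2 hu with h4 | h4
      · rcases hvs1' u h4 with h5 | ⟨v, rfl⟩
        · exact Or.inl (Or.inl h5)
        · exact Or.inl (Or.inr ⟨v, rfl⟩)
      · obtain ⟨v, rfl, -⟩ := hgapq u h4
        exact Or.inr ⟨v, rfl⟩
    rintro u ⟨f, hf, hu⟩
    rcases List.mem_cons.1 hf with rfl | hf
    · exact hE u ⟨f, List.mem_cons_of_mem _ ((hmemF f).2 (Or.inl rfl)), hu⟩
    rcases List.mem_cons.1 hf with rfl | hf
    · rcases (hw3 u).1 hu with h4 | h4
      · exact hE u ⟨w₂, List.mem_cons_self, h4⟩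
      · rw [List.map_map] at h4
        obtain ⟨p, -, rfl⟩ := List.mem_map.1 h4
        exact Or.inr ⟨_, rfl⟩
    · exact hE u ⟨f, List.mem_cons_of_mem _ ((hmemF f).2 (Or.inr hf)), hu⟩

end OTh
end

section

/-!
Drawing: one colour.

PROOF of `draw_colour`.  Let `one i : Rg s Unit → Rg s I` be the inclusion (`v k () ↦ v k i` etc.), `e U = emb γ U ∘ one i`, `q U = pem U`.
(0) Choose `U₀ = (j₀, l₀)` (`Q` is a group, `0 < L`).  Start with `Drawn.edge (z j₀) (fy j₀ l₀ (0, true))` (this vertex `fy` is in no ring) and draw the other `z j` as leaves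
(`Drawn.leaves` with the pairs `(z j₀, z j)`, `j ≠ j₀`): one face `w₀` that contains all `z j`, `vs = {z j} ∪ {fy j₀ l₀ (0, true)}`.
(1) Induction over a list (`Nodup`) of units: for each list `l` of units there are `E`, `w`, `F` with `Drawn E (w :: F)`, `w₀ ⊆ w`, and for all `U ∈ l`: `e U u ∈ w` for all `u`, some
`f ∈ F` contains all `pem U q`, all edges of the colour `i` of `U` are in `E`; and `vs (w :: F) ⊆ w₀ ∪ ⋃_{U ∈ l} (range (e U) ∪ range (q U))`.  Step: `draw_unit` for
`e U`, `q U`: `e U` is injective (`emb_inj`, `one i` injective), `pem_inj`, `pem U (inr (k, 0)) = fx .. = emb γ U (x k)`; the vertices of the unit other than `z U.1` are new: for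
`U' ≠ U` a common vertex of `range (e U) ∪ range (q U)` and `range (e U') ∪ range (q U')` is a `z`: private vertices `u w l ρ` with `w = U.1 * γ (i, l, ρ)` determine
`U.1`, all others contain `U.1` and `U.2`.
(2) Apply it to the list of all units.  `emb γ U u` for any `u : Rg s I` lies in `w`: for `u = v k i'` it is `.u (U.1 * γ (i', ..)) U.2 (.v k) = e (U.1 * γ (i', ..) * (γ (i, ..))⁻¹, U.2) (v k ())`
and similarly for `t`, `b`; `x k`, `y m` directly.
-/

set_option autoImplicit false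

namespace OTh

open Finset

variable {Q : Type} [Group Q] [Fintype Q] {L a m : ℕ}

/-- the ring of one colour in the ring -/
private def DrF_one {s : ℕ} {I : Type} (i : I) : Rg s Unit → Rg s I
  | .x k => .x k
  | .y m => .y m
  | .v k _ => .v k i
  | .t m _ => .t m i
  | .b m _ => .b m i

private theorem DrF_one_inj {s : ℕ} {I : Type} (i : I) :
    Function.Injective (DrF_one (s := s) i) := by
  rintro (k | m | ⟨k, u⟩ | ⟨m, u⟩ | ⟨m, u⟩) (k' | m' | ⟨k', u'⟩ | ⟨m', u'⟩ | ⟨m', u'⟩) h <;>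
    simp_all [DrF_one]

private theorem DrF_rep1 {s : ℕ} [NeZero s] {I : Type} (i : I) (μ : Fin s × Bool) (e : Ed) :
    (rep (μ, i, e)).1 = DrF_one i (rep (μ, (), e)).1 := by
  cases e <;> rfl

private theorem DrF_rep2 {s : ℕ} [NeZero s] {I : Type} (i : I) (μ : Fin s × Bool) (e : Ed) :
    (rep (μ, i, e)).2 = DrF_one i (rep (μ, (), e)).2 := by
  cases e <;> rfl

/-- the ring of the colour `i` of the unit `U` -/
private def DrF_e (γ : Gam (2 * a + 2) L (Co a m) → Q) (i : Co a m) (U : Q × Fin L)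
    (u : Rg (2 * a + 2) Unit) : Vt Q L a m := emb γ U (DrF_one i u)

/-- the unit of a vertex -/
private def DrF_own (γ : Gam (2 * a + 2) L (Co a m) → Q) (i : Co a m) :
    Vt Q L a m → Option (Q × Fin L)
  | .z _ => none
  | .fx j l _ => some (j, l)
  | .fy j l m => if m = (0, true) then none else some (j, l)
  | .u w l ρ => some (w * (γ (i, l, ρ))⁻¹, l)
  | .p j l _ => some (j, l)

private theorem DrF_own_e (γ : Gam (2 * a + 2) L (Co a m) → Q) (i : Co a m) (U : Q × Fin L)
    (u : Rg (2 * a + 2) Unit) (hu : u ≠ .y (0, true)) :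
    DrF_own γ i (DrF_e γ i U u) = some U := by
  rcases u with k | μ | ⟨k, u⟩ | ⟨μ, u⟩ | ⟨μ, u⟩
  · simp [DrF_own, DrF_e, DrF_one, emb]
  · have h : μ ≠ (0, true) := fun h => hu (by rw [h])
    simp [DrF_own, DrF_e, DrF_one, emb, h]
  · simp [DrF_own, DrF_e, DrF_one, emb]
  · simp [DrF_own, DrF_e, DrF_one, emb]
  · simp [DrF_own, DrF_e, DrF_one, emb]

private theorem DrF_e_z (γ : Gam (2 * a + 2) L (Co a m) → Q) (i : Co a m) (U : Q × Fin L) :
    DrF_e γ i U (.y (0, true)) = .z U.1 := by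
  simp [DrF_e, DrF_one, emb]

private theorem DrF_own_q (γ : Gam (2 * a + 2) L (Co a m) → Q) (i : Co a m) (U : Q × Fin L)
    (v : Pv a m) : DrF_own γ i (pem U v) = some U := by
  rcases v with q | ⟨k, t⟩
  · simp [DrF_own, pem]
  · by_cases ht : t = 0
    · simp [DrF_own, pem, ht]
    · simp [DrF_own, pem, ht]

private theorem DrF_hub (γ : Gam (2 * a + 2) L (Co a m) → Q) (i : Co a m) (U : Q × Fin L)
    (k : Fin (2 * a + 2)) :
    pem (a := a) (m := m) U (.inr (k, 0)) = DrF_e γ i U (.x k) := by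
  simp [DrF_e, DrF_one, emb, pem]

private theorem DrF_dis (γ : Gam (2 * a + 2) L (Co a m) → Q) (i : Co a m) (U : Q × Fin L)
    (u : Rg (2 * a + 2) Unit) (v : Pv a m) (h : DrF_e γ i U u = pem U v) :
    ∃ k, v = .inr (k, 0) := by
  rcases v with q | ⟨k, t⟩
  · exfalso
    rcases u with k | μ | ⟨k, u⟩ | ⟨μ, u⟩ | ⟨μ, u⟩
    · simp [DrF_e, DrF_one, emb, pem] at h
    · by_cases hμ : μ = (0, true)
      · simp [DrF_e, DrF_one, emb, pem, hμ] at h
      · simp [DrF_e, DrF_one, emb, pem, hμ] at h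
    · simp [DrF_e, DrF_one, emb, pem] at h
    · simp [DrF_e, DrF_one, emb, pem] at h
    · simp [DrF_e, DrF_one, emb, pem] at h
  · by_cases ht : t = 0
    · exact ⟨k, by rw [ht]⟩
    · exfalso
      rcases u with k | μ | ⟨k, u⟩ | ⟨μ, u⟩ | ⟨μ, u⟩
      · simp [DrF_e, DrF_one, emb, pem, ht] at h
      · by_cases hμ : μ = (0, true)
        · simp [DrF_e, DrF_one, emb, pem, hμ, ht] at h
        · simp [DrF_e, DrF_one, emb, pem, hμ, ht] at h
      · simp [DrF_e, DrF_one, emb, pem, ht] at h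
      · simp [DrF_e, DrF_one, emb, pem, ht] at h
      · simp [DrF_e, DrF_one, emb, pem, ht] at h

private theorem DrF_start (γ : Gam (2 * a + 2) L (Co a m) → Q) (i : Co a m) (U₀ : Q × Fin L) :
    ∃ (E : Set (Sym2 (Vt Q L a m))) (w : List (Vt Q L a m)), Drawn E [w] ∧
      (∀ j : Q, Vx.z j ∈ w) ∧ ∀ v ∈ w, DrF_own γ i v = none := by
  classical
  have h0 : (Vx.z U₀.1 : Vt Q L a m) ≠ .fy U₀.1 U₀.2 (0, true) := by simp
  have h1 : Drawn {s((Vx.z U₀.1 : Vt Q L a m), .fy U₀.1 U₀.2 (0, true))}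
      [[(Vx.z U₀.1 : Vt Q L a m), .fy U₀.1 U₀.2 (0, true)]] := Drawn.edge _ _ h0
  obtain ⟨E', f', hD, -, -, hm⟩ := h1.leaves
    (((Finset.univ.erase U₀.1 : Finset Q).toList).map
      fun j => ((Vx.z U₀.1 : Vt Q L a m), (Vx.z j : Vt Q L a m)))
    (by
      intro p hp
      obtain ⟨j, -, rfl⟩ := List.mem_map.1 hp
      simp)
    (by
      rw [List.map_map]
      refine List.Nodup.map ?_ (Finset.nodup_toList _)
      intro x y hxy
      simpa using hxy)
    (by
      intro p hp
      obtain ⟨j, hj, rfl⟩ := List.mem_map.1 hp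
      rw [Finset.mem_toList, Finset.mem_erase] at hj
      rintro ⟨f, hf, hv⟩
      rw [List.mem_singleton] at hf
      subst hf
      simp only [List.mem_cons, List.not_mem_nil, or_false] at hv
      rcases hv with hv | hv
      · exact hj.1 (by simpa using hv)
      · simp at hv)
  refine ⟨E', f', hD, ?_, ?_⟩
  · intro j
    rw [hm]
    by_cases hj : j = U₀.1
    · left
      rw [hj]
      exact List.mem_cons_self
    · right
      rw [List.map_map, List.mem_map]
      exact ⟨j, by rw [Finset.mem_toList, Finset.mem_erase]; exact ⟨hj, Finset.mem_univ _⟩, rfl⟩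
  · intro v hv
    rw [hm] at hv
    rcases hv with hv | hv
    · simp only [List.mem_cons, List.not_mem_nil, or_false] at hv
      rcases hv with hv | hv
      · rw [hv]; rfl
      · rw [hv]; simp [DrF_own]
    · rw [List.map_map, List.mem_map] at hv
      obtain ⟨j, -, rfl⟩ := hv
      rfl

private theorem DrF_step {γ : Gam (2 * a + 2) L (Co a m) → Q} {n : ℕ} (hγ : GoodG γ n)
    (hn : 2 ≤ n) (U₀ : Q × Fin L) (i : Co a m) (l : List (Q × Fin L)) (hl : l.Nodup) :
    ∃ (E : Set (Sym2 (Vt Q L a m))) (w : List (Vt Q L a m)) (F : List (List (Vt Q L a m))),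
      Drawn E (w :: F) ∧ (∀ j : Q, Vx.z j ∈ w) ∧
      (∀ v ∈ vs (w :: F), ∀ U, DrF_own γ i v = some U → U ∈ l) ∧
      (∀ U ∈ l, ∀ u, DrF_e γ i U u ∈ w) ∧ (∀ U ∈ l, ∃ f ∈ F, ∀ v, pem U v ∈ f) ∧
      (∀ U ∈ l, ∀ lb : Lb (2 * a + 2) Unit,
        s(DrF_e γ i U (rep lb).1, DrF_e γ i U (rep lb).2) ∈ E) ∧
      ∀ U ∈ l, ∀ lp : Pl a m, s(pem U (.inl (pl i lp).1), pem U (.inr (pl i lp).2)) ∈ E := by
  induction l with
  | nil =>
    obtain ⟨E, w, h1, h2, h3⟩ := DrF_start γ i U₀
    refine ⟨E, w, [], h1, h2, ?_, by simp, by simp, by simp, by simp⟩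
    rintro v ⟨f, hf, hv⟩ U hU
    rw [List.mem_singleton] at hf
    subst hf
    rw [h3 v hv] at hU
    simp at hU
  | cons U l ih =>
    obtain ⟨hUl, hl'⟩ := List.nodup_cons.1 hl
    obtain ⟨E, w, F, h1, h2, h3, h4, h5, h6, h7⟩ := ih hl'
    obtain ⟨E', w', F', g1, g2, g3, g4, g5, g6, g7, g8, g9⟩ :=
      draw_unit i (DrF_e γ i U) (pem U)
        (fun x y hxy => DrF_one_inj i (emb_inj hγ hn U hxy)) (pem_inj U)
        (fun k => DrF_hub γ i U k) (fun u v huv => DrF_dis γ i U u v huv) h1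
        (by rw [DrF_e_z]; exact h2 _)
        (fun u hu hmem => hUl (h3 _ hmem U (DrF_own_e γ i U u hu)))
        (fun v _ hmem => hUl (h3 _ hmem U (DrF_own_q γ i U v)))
    refine ⟨E', w', F', g1, fun j => g3 _ (h2 j), ?_, ?_, ?_, ?_, ?_⟩
    · intro v hv U' hU'
      rcases g9 hv with (hv | ⟨u, rfl⟩) | ⟨u, rfl⟩
      · exact List.mem_cons_of_mem _ (h3 v hv U' hU')
      · by_cases hu : u = .y (0, true)
        · rw [hu, DrF_e_z] at hU'
          simp [DrF_own] at hU'
        · rw [DrF_own_e γ i U u hu] at hU'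
          rw [Option.some.inj hU']
          exact List.mem_cons_self
      · rw [DrF_own_q γ i U u] at hU'
        rw [Option.some.inj hU']
        exact List.mem_cons_self
    · intro U' hU' u
      rcases List.mem_cons.1 hU' with rfl | hU'
      · exact g4 u
      · exact g3 _ (h4 U' hU' u)
    · intro U' hU'
      rcases List.mem_cons.1 hU' with rfl | hU'
      · exact g6
      · obtain ⟨f, hf, hq⟩ := h5 U' hU'
        exact ⟨f, g5 f hf, hq⟩
    · intro U' hU' lb
      rcases List.mem_cons.1 hU' with rfl | hU'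
      · exact g7 lb
      · exact g2 (h6 U' hU' lb)
    · intro U' hU' lp
      rcases List.mem_cons.1 hU' with rfl | hU'
      · exact g8 lp
      · exact g2 (h7 U' hU' lp)

theorem draw_colour {γ : Gam (2 * a + 2) L (Co a m) → Q} {n : ℕ} (hγ : GoodG γ n) (hn : 2 ≤ n)
    (hL : 0 < L) (i : Co a m) :
    ∃ (E : Set (Sym2 (Vt Q L a m))) (F : List (List (Vt Q L a m))), Drawn E F ∧
      (∃ f ∈ F, ∀ U u, emb γ U u ∈ f) ∧ (∀ U : Q × Fin L, ∃ f ∈ F, ∀ v, pem U v ∈ f) ∧
      (∀ (U : Q × Fin L) (μ : Fin (2 * a + 2) × Bool) (e : Ed),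
        s(emb γ U (rep (μ, i, e)).1, emb γ U (rep (μ, i, e)).2) ∈ E) ∧
      ∀ (U : Q × Fin L) (l : Pl a m), s(pem U (.inl (pl i l).1), pem U (.inr (pl i l).2)) ∈ E := by
  classical
  obtain ⟨E, w, F, h1, -, -, h4, h5, h6, h7⟩ := DrF_step hγ hn ((1 : Q), (⟨0, hL⟩ : Fin L)) i
    (Finset.univ : Finset (Q × Fin L)).toList (Finset.nodup_toList _)
  have hU : ∀ U : Q × Fin L, U ∈ (Finset.univ : Finset (Q × Fin L)).toList := fun U => by
    rw [Finset.mem_toList]; exact Finset.mem_univ U
  refine ⟨E, w :: F, h1, ⟨w, List.mem_cons_self, ?_⟩, ?_, ?_, fun U lp => h7 U (hU U) lp⟩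
  · intro U u
    rcases u with k | μ | ⟨k, i'⟩ | ⟨μ, i'⟩ | ⟨μ, i'⟩
    · exact h4 U (hU U) (.x k)
    · exact h4 U (hU U) (.y μ)
    · have := h4 (U.1 * γ (i', U.2, .v k) * (γ (i, U.2, .v k))⁻¹, U.2) (hU _) (.v k ())
      simpa [DrF_e, DrF_one, emb] using this
    · have := h4 (U.1 * γ (i', U.2, .t μ) * (γ (i, U.2, .t μ))⁻¹, U.2) (hU _) (.t μ ())
      simpa [DrF_e, DrF_one, emb] using this
    · have := h4 (U.1 * γ (i', U.2, .b μ) * (γ (i, U.2, .b μ))⁻¹, U.2) (hU _) (.b μ ())
      simpa [DrF_e, DrF_one, emb] using this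
  · intro U
    obtain ⟨f, hf, hq⟩ := h5 U (hU U)
    exact ⟨f, List.mem_cons_of_mem _ hf, hq⟩
  · intro U μ e
    rw [DrF_rep1, DrF_rep2]
    exact h6 U (hU U) (μ, (), e)

end OTh
end

section

/-!
The weight of an outerplanar subgraph, and the lower bound for the outerthickness.
-/

set_option autoImplicit false

namespace OTh

open Finset
open scoped Classical

variable {Q : Type} [Group Q] [Fintype Q] {L a m : ℕ}

/-- the weight of the edges of `P` -/
noncomputable def wt (γ : Gam (2 * a + 2) L (Co a m) → Q) (P : SimpleGraph (Vt Q L a m)) : ℕ :=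
  ∑ U : Q × Fin L, ((2 * a + 1) * (∑ e ∈ XF γ P U, w2 e.2.2) + 2 * (YF P U).card)

/-- the constant `g` -/
def gc (L a : ℕ) : ℕ := L * (8 * (2 * a + 2) - 1) + 1

theorem wt_le {γ : Gam (2 * a + 2) L (Co a m) → Q} (hγ : GoodG γ (2 * (gc L a + 1)))
    (P : SimpleGraph (Vt Q L a m)) (hP : Outerplanar P) :
    wt γ P + 4 * (Fintype.card Q * L) ≤
      4 * (2 * a + 1) * ((gc L a + 1) * Fintype.card Q) +
        16 * ((2 * a + 2) * (m + 1)) * (Fintype.card Q * L) := by
  obtain ⟨f, hf, hP⟩ := hP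
  have hg : 1 ≤ gc L a := by unfold gc; omega
  obtain ⟨τ, hτ1, hτ2⟩ := forest_union hg hγ P hf hP
    (fun U => lgr rep (XF γ P U : Set (Lb (2 * a + 2) (Co a m)))) (by
      rintro U u v ⟨-, e, he, h | h⟩
      · have := (Finset.mem_filter.1 (Finset.mem_coe.1 he)).2
        rw [h] at this
        exact this
      · have := (Finset.mem_filter.1 (Finset.mem_coe.1 he)).2
        rw [h] at this
        exact this.symm)
  have hsum : ∑ U, τ U ≤ (gc L a + 1) * Fintype.card Q := by
    have h1 : gc L a * ∑ U, τ U ≤ gc L a * ((gc L a + 1) * Fintype.card Q) := by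
      refine hτ2.trans (le_of_eq ?_)
      show (gc L a + 1) * (Fintype.card Q * gc L a) = _
      ring
    exact Nat.le_of_mul_le_mul_left h1 (by omega)
  have hU : ∀ U : Q × Fin L, ((2 * a + 1) * (∑ e ∈ XF γ P U, w2 e.2.2) + 2 * (YF P U).card) + 4 ≤
      4 * (2 * a + 1) * τ U + 16 * ((2 * a + 2) * (m + 1)) := by
    intro U
    have h1 := unit_bound hγ (by omega) P hf hP U
    have h2 := hτ1 U
    rw [← h2] at h1
    generalize Nat.card (lgr rep (XF γ P U : Set (Lb (2 * a + 2) (Co a m)))).ConnectedComponent = N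
      at *
    generalize (∑ e ∈ XF γ P U, w2 e.2.2) = S at *
    nlinarith
  have hcard : Fintype.card (Q × Fin L) = Fintype.card Q * L := by
    rw [Fintype.card_prod, Fintype.card_fin]
  calc wt γ P + 4 * (Fintype.card Q * L)
      = ∑ U : Q × Fin L, (((2 * a + 1) * (∑ e ∈ XF γ P U, w2 e.2.2) + 2 * (YF P U).card) + 4) := by
        rw [Finset.sum_add_distrib, wt, Finset.sum_const, Finset.card_univ, hcard, smul_eq_mul,
          Nat.mul_comm 4]
    _ ≤ ∑ U : Q × Fin L, (4 * (2 * a + 1) * τ U + 16 * ((2 * a + 2) * (m + 1))) :=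
        Finset.sum_le_sum fun U _ => hU U
    _ = 4 * (2 * a + 1) * ∑ U, τ U + 16 * ((2 * a + 2) * (m + 1)) * (Fintype.card Q * L) := by
        rw [Finset.sum_add_distrib, ← Finset.mul_sum, Finset.sum_const, Finset.card_univ, hcard,
          smul_eq_mul, Nat.mul_comm (Fintype.card Q * L)]
    _ ≤ _ := by gcongr

/-- the graph -/
def GG (γ : Gam (2 * a + 2) L (Co a m) → Q) : SimpleGraph (Vt Q L a m) where
  Adj u v := (∃ (U : Q × Fin L) (e : Lb (2 * a + 2) (Co a m)),
      s(emb γ U (rep e).1, emb γ U (rep e).2) = s(u, v) ∧ u ≠ v) ∨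
    ∃ (U : Q × Fin L) (i : Co a m) (e : Pl a m),
      s(pem U (.inl (pl i e).1), pem U (.inr (pl i e).2)) = s(u, v) ∧ u ≠ v
  symm := ⟨by
    rintro u v (⟨U, e, h, h'⟩ | ⟨U, i, e, h, h'⟩)
    · exact Or.inl ⟨U, e, h.trans Sym2.eq_swap, h'.symm⟩
    · exact Or.inr ⟨U, i, e, h.trans Sym2.eq_swap, h'.symm⟩⟩
  loopless := ⟨by rintro u (⟨U, e, h, h'⟩ | ⟨U, i, e, h, h'⟩) <;> exact h' rfl⟩

theorem rep_ne {s : ℕ} [NeZero s] {I : Type} (e : Lb s I) : (rep e).1 ≠ (rep e).2 := by
  obtain ⟨m, i, e⟩ := e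
  cases e <;> simp [rep, dep, ds]

/-- total weight of one unit -/
theorem sum_w2 {s : ℕ} [NeZero s] {I : Type} [Fintype I] :
    (∑ e : Lb s I, w2 e.2.2) = 32 * s * Fintype.card I := by
  have h1 : (∑ e : Ed, w2 e) = 16 := by decide
  rw [Fintype.sum_prod_type]
  have h2 : ∀ x : Fin s × Bool, (∑ y : I × Ed, w2 y.2) = 16 * Fintype.card I := by
    intro x
    rw [Fintype.sum_prod_type]
    simp only [h1, Finset.sum_const, Finset.card_univ, smul_eq_mul]
    ring
  rw [Finset.sum_congr rfl fun x _ => h2 x, Finset.sum_const, Finset.card_univ,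
    Fintype.card_prod, Fintype.card_fin, Fintype.card_bool, smul_eq_mul]
  ring

theorem wt_GG {γ : Gam (2 * a + 2) L (Co a m) → Q} {n : ℕ} (hγ : GoodG γ n) (hn : 2 ≤ n)
    {k : ℕ} (P : Fin k → SimpleGraph (Vt Q L a m))
    (hcov : ∀ u v, (GG γ).Adj u v → ∃ i, (P i).Adj u v) :
    (Fintype.card Q * L) * (((2 * a + 1) * (32 * (2 * a + 2)) + 2 * (8 * ((2 * a + 2) * (m + 1)) -
      (2 * a + 2))) * ((2 * a + 2) * (m + 1))) ≤ ∑ i, wt γ (P i) := by
  have hX : ∀ U, (∑ e : Lb (2 * a + 2) (Co a m), w2 e.2.2) ≤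
      ∑ i, ∑ e ∈ XF γ (P i) U, w2 e.2.2 := by
    intro U
    calc (∑ e : Lb (2 * a + 2) (Co a m), w2 e.2.2)
        ≤ ∑ e : Lb (2 * a + 2) (Co a m), ∑ i, (if e ∈ XF γ (P i) U then w2 e.2.2 else 0) := by
          refine Finset.sum_le_sum fun e _ => ?_
          obtain ⟨i, hi⟩ := hcov (emb γ U (rep e).1) (emb γ U (rep e).2)
            (Or.inl ⟨U, e, rfl, fun h => rep_ne e (emb_inj hγ hn U h)⟩)
          have h1 : e ∈ XF γ (P i) U := Finset.mem_filter.2 ⟨Finset.mem_univ _, hi⟩
          calc w2 e.2.2 = (if e ∈ XF γ (P i) U then w2 e.2.2 else 0) := (if_pos h1).symm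
            _ ≤ _ := Finset.single_le_sum
              (f := fun i => if e ∈ XF γ (P i) U then w2 e.2.2 else 0)
              (fun _ _ => Nat.zero_le _) (Finset.mem_univ i)
      _ = ∑ i, ∑ e : Lb (2 * a + 2) (Co a m), (if e ∈ XF γ (P i) U then w2 e.2.2 else 0) :=
          Finset.sum_comm
      _ = _ := by
          refine Finset.sum_congr rfl fun i _ => ?_
          rw [← Finset.sum_filter]
          congr 1
          ext e
          simp
  have hY : ∀ U : Q × Fin L, Fintype.card (Co a m × Pl a m) ≤ ∑ i, (YF (P i) U).card := by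
    intro U
    rw [← Finset.card_univ]
    refine le_trans (Finset.card_le_card ?_) (Finset.card_biUnion_le (s := Finset.univ)
      (t := fun i => YF (P i) U))
    intro e _
    obtain ⟨i, hi⟩ := hcov (pem U (.inl (pl e.1 e.2).1)) (pem U (.inr (pl e.1 e.2).2))
      (Or.inr ⟨U, e.1, e.2, rfl, fun h => by
        have := pem_inj U h
        simp at this⟩)
    exact Finset.mem_biUnion.2 ⟨i, Finset.mem_univ _, Finset.mem_filter.2 ⟨Finset.mem_univ _, hi⟩⟩
  have hPl := card_Pl (a := a) (m := m)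
  have hcard : Fintype.card (Q × Fin L) = Fintype.card Q * L := by
    rw [Fintype.card_prod, Fintype.card_fin]
  calc (Fintype.card Q * L) * (((2 * a + 1) * (32 * (2 * a + 2)) +
        2 * (8 * ((2 * a + 2) * (m + 1)) - (2 * a + 2))) * ((2 * a + 2) * (m + 1)))
      = ∑ _U : Q × Fin L, ((2 * a + 1) * (∑ e : Lb (2 * a + 2) (Co a m), w2 e.2.2) +
          2 * Fintype.card (Co a m × Pl a m)) := by
        have h4 : Fintype.card (Co a m × Pl a m) =
            (2 * a + 2) * (m + 1) * Fintype.card (Pl a m) := by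
          rw [← card_Co]
          exact Fintype.card_prod _ _
        rw [Finset.sum_const, Finset.card_univ, hcard, smul_eq_mul, sum_w2, h4, card_Co]
        have : 8 * ((2 * a + 2) * (m + 1)) - (2 * a + 2) = Fintype.card (Pl a m) := by omega
        rw [this]
        ring
    _ ≤ ∑ U : Q × Fin L, ((2 * a + 1) * (∑ i, ∑ e ∈ XF γ (P i) U, w2 e.2.2) +
          2 * ∑ i, (YF (P i) U).card) := by
        refine Finset.sum_le_sum fun U _ => ?_
        gcongr
        · exact hX U
        · exact hY U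
    _ = ∑ U : Q × Fin L, ∑ i, ((2 * a + 1) * (∑ e ∈ XF γ (P i) U, w2 e.2.2) +
          2 * (YF (P i) U).card) := by
        refine Finset.sum_congr rfl fun U _ => ?_
        rw [Finset.sum_add_distrib, Finset.mul_sum, Finset.mul_sum]
    _ = ∑ i, wt γ (P i) := Finset.sum_comm

end OTh
end

section

/-!
The gap between the outerthickness and the uncrossed number is unbounded.
-/

set_option autoImplicit false

namespace OTh

open Finset
open scoped Classical

variable {Q : Type} [Group Q] [Fintype Q] {L a m : ℕ}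

theorem uncrossed_GG {γ : Gam (2 * a + 2) L (Co a m) → Q} {n : ℕ} (hγ : GoodG γ n) (hn : 2 ≤ n)
    (hL : 0 < L) : Uncrossed (GG γ) ((2 * a + 2) * (m + 1)) := by
  obtain ⟨ε⟩ : Nonempty (Fin ((2 * a + 2) * (m + 1)) ≃ Co a m) :=
    ⟨(Fintype.equivFinOfCardEq card_Co).symm⟩
  choose E F hD hf hp hE hE' using fun i : Co a m => draw_colour hγ hn hL i
  refine ⟨fun i => E (ε i), fun i => ⟨F (ε i), hD _, ?_⟩, ?_⟩
  · rintro u v (⟨U, e, h, -⟩ | ⟨U, c, e, h, -⟩)
    · obtain ⟨f, hf1, hf2⟩ := hf (ε i)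
      refine ⟨f, hf1, ?_⟩
      rcases Sym2.eq_iff.1 h with ⟨rfl, rfl⟩ | ⟨rfl, rfl⟩
      · exact ⟨hf2 _ _, hf2 _ _⟩
      · exact ⟨hf2 _ _, hf2 _ _⟩
    · obtain ⟨f, hf1, hf2⟩ := hp (ε i) U
      refine ⟨f, hf1, ?_⟩
      rcases Sym2.eq_iff.1 h with ⟨rfl, rfl⟩ | ⟨rfl, rfl⟩
      · exact ⟨hf2 _, hf2 _⟩
      · exact ⟨hf2 _, hf2 _⟩
  · rintro u v (⟨U, ⟨μ, i, e⟩, h, -⟩ | ⟨U, c, e, h, -⟩)
    · refine ⟨ε.symm i, ?_⟩
      show s(u, v) ∈ E (ε (ε.symm i))
      rw [← h, Equiv.apply_symm_apply]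
      exact hE i U μ e
    · refine ⟨ε.symm c, ?_⟩
      show s(u, v) ∈ E (ε (ε.symm c))
      rw [← h, Equiv.apply_symm_apply]
      exact hE' c U e

private theorem num (κ q s k S : ℕ) (hs : s = 32 * κ + 32) (hq : 0 < q)
  (h1 : q * 8 * (((s - 1) * (32 * s) + 2 * (8 * (s * (2 * s)) - s)) * (s * (2 * s))) ≤ S)
  (h2 : S + k * (4 * (q * 8)) ≤ k * (4 * (s - 1) * ((64 * s - 6) * q) + 16 * (s * (2 * s)) * (q * 8)))
  (hcon : k < s * (2 * s) + (κ + 1)) : False := by
  have hs1 : 1 ≤ s := by omega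
  obtain ⟨A, hA⟩ : ∃ A, A = (s - 1) * (32 * s) + 2 * (8 * (s * (2 * s)) - s) := ⟨_, rfl⟩
  obtain ⟨B, hB⟩ : ∃ B, B = 4 * (s - 1) * (64 * s - 6) + 16 * (s * (2 * s)) * 8 := ⟨_, rfl⟩
  have hA' : (A : ℤ) = 64 * s ^ 2 - 34 * s := by
    rw [hA]
    have h3 : s ≤ 8 * (s * (2 * s)) := by nlinarith
    push_cast [Nat.cast_sub hs1, Nat.cast_sub h3]
    ring
  have hB' : (B : ℤ) = 512 * s ^ 2 - 280 * s + 24 := by
    rw [hB]
    have h3 : 6 ≤ 64 * s := by omega
    push_cast [Nat.cast_sub hs1, Nat.cast_sub h3]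
    ring
  rw [← hA] at h1
  have h2' : S + k * (4 * (q * 8)) ≤ k * (B * q) := by
    refine h2.trans (le_of_eq ?_)
    rw [hB]; ring
  have h3 : q * (8 * (A * (s * (2 * s))) + k * 32) ≤ q * (k * B) := by
    calc q * (8 * (A * (s * (2 * s))) + k * 32) = q * 8 * (A * (s * (2 * s))) + k * (4 * (q * 8)) := by ring
      _ ≤ S + k * (4 * (q * 8)) := by gcongr
      _ ≤ _ := h2'
      _ = _ := by ring
  have h4 := Nat.le_of_mul_le_mul_left h3 hq
  have h5 : (8 * (A * (s * (2 * s))) + k * 32 : ℤ) ≤ k * B := by exact_mod_cast h4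
  rw [hA', hB'] at h5
  have h6 : (k : ℤ) ≤ 2 * s ^ 2 + κ := by
    have : k ≤ s * (2 * s) + κ := by omega
    have : (k : ℤ) ≤ s * (2 * s) + κ := by exact_mod_cast this
    nlinarith
  have h7 : (s : ℤ) = 32 * κ + 32 := by exact_mod_cast hs
  have h8 : (0 : ℤ) ≤ κ := by positivity
  have h9 : (0 : ℤ) ≤ 512 * s ^ 2 - 280 * s - 8 := by
    rw [h7]; nlinarith
  have h10 : (k : ℤ) * (512 * s ^ 2 - 280 * s - 8) ≤ (2 * s ^ 2 + κ) * (512 * s ^ 2 - 280 * s - 8) :=
    mul_le_mul_of_nonneg_right h6 h9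
  have h11 : (8 * ((64 * (s:ℤ) ^ 2 - 34 * s) * (s * (2 * s)))) ≤ (2 * s ^ 2 + κ) * (512 * s ^ 2 - 280 * s - 8) := by
    linarith
  have h12 : (κ : ℤ) = s / 32 - 1 := by omega
  rw [h7] at h11
  nlinarith [pow_nonneg h8 2, pow_nonneg h8 3]

theorem lower_GG {K : ℕ} (hK : 1 ≤ K) {γ : Gam (2 * (16 * K - 1) + 2) 8 (Co (16 * K - 1) (64 * K - 1)) → Q}
    (hγ : GoodG γ (2 * (gc 8 (16 * K - 1) + 1))) {k : ℕ} (h : OuterPart (GG γ) k) :
    (2 * (16 * K - 1) + 2) * (64 * K - 1 + 1) + K ≤ k := by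
  obtain ⟨P, -, hP, hcov⟩ := h
  have h1 := wt_GG hγ (by unfold gc; omega) P fun u v huv => (hcov u v huv).exists
  have h2 : ∑ i, wt γ (P i) + k * (4 * (Fintype.card Q * 8)) ≤ k *
      (4 * (2 * (16 * K - 1) + 1) * ((gc 8 (16 * K - 1) + 1) * Fintype.card Q) +
        16 * ((2 * (16 * K - 1) + 2) * (64 * K - 1 + 1)) * (Fintype.card Q * 8)) := by
    calc ∑ i, wt γ (P i) + k * (4 * (Fintype.card Q * 8))
        = ∑ i, (wt γ (P i) + 4 * (Fintype.card Q * 8)) := by
          rw [Finset.sum_add_distrib, Finset.sum_const, Finset.card_univ, Fintype.card_fin,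
            smul_eq_mul]
      _ ≤ ∑ _i : Fin k, _ := Finset.sum_le_sum fun i _ => wt_le hγ (P i) (hP i)
      _ = _ := by rw [Finset.sum_const, Finset.card_univ, Fintype.card_fin, smul_eq_mul]
  have hq : 0 < Fintype.card Q := Fintype.card_pos
  generalize Fintype.card Q = q at *
  generalize (∑ i, wt γ (P i)) = S at *
  obtain ⟨κ, rfl⟩ : ∃ κ, K = κ + 1 := ⟨K - 1, by omega⟩
  have e1 : 16 * (κ + 1) - 1 = 16 * κ + 15 := by omega
  have e2 : 64 * (κ + 1) - 1 = 64 * κ + 63 := by omega
  rw [e1, e2] at h1 h2 ⊢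
  have hg : gc 8 (16 * κ + 15) + 1 = 64 * (32 * κ + 32) - 6 := by unfold gc; omega
  rw [hg] at h2
  clear hcov hP hγ e1 e2 hg
  by_contra hcon
  push Not at hcon
  -- numbers
  obtain ⟨s, hs⟩ : ∃ s, s = 32 * κ + 32 := ⟨_, rfl⟩
  have e3 : 2 * (16 * κ + 15) + 2 = s := by omega
  have e4 : 2 * (16 * κ + 15) + 1 = s - 1 := by omega
  have e5 : 64 * κ + 63 + 1 = 2 * s := by omega
  rw [e3, e4, e5] at h1
  rw [e3, e5] at hcon
  rw [e3, e4, e5, ← hs] at h2
  exact num κ q s k S hs hq h1 h2 hcon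

/-- **the difference of the outerthickness and the uncrossed number is unbounded** -/
theorem main' (K : ℕ) : ∃ (V : Type) (_ : Fintype V) (G : SimpleGraph V) (c : ℕ),
    Uncrossed G c ∧ c + K ≤ outerthickness G := by
  rcases Nat.eq_zero_or_pos K with rfl | hK
  · exact ⟨Empty, inferInstance, ⊥, 0, ⟨fun i => i.elim0, fun i => i.elim0, fun u => u.elim⟩,
      Nat.zero_le _⟩
  · obtain ⟨Q, iG, iF, γ, hinv, hrel⟩ := exists_group
      (Gam (2 * (16 * K - 1) + 2) 8 (Co (16 * K - 1) (64 * K - 1)))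
      (2 * (gc 8 (16 * K - 1) + 1))
    have hγ : GoodG γ (2 * (gc 8 (16 * K - 1) + 1)) := ⟨hinv, hrel⟩
    refine ⟨Vt Q 8 (16 * K - 1) (64 * K - 1), inferInstance, GG γ,
      (2 * (16 * K - 1) + 2) * (64 * K - 1 + 1),
      uncrossed_GG hγ (by unfold gc; omega) (by norm_num), ?_⟩
    unfold outerthickness
    have h3 : {k | OuterPart (GG γ) k}.Nonempty := outerPart_exists _
    exact lower_GG hK hγ (Nat.sInf_mem h3)

theorem main (K : ℕ) : ∃ (V : Type) (_ : Fintype V) (G : SimpleGraph V),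
    unc G + K ≤ outerthickness G := by
  obtain ⟨V, iV, G, c, h1, h2⟩ := main' K
  have h3 : unc G ≤ c := Nat.sInf_le h1
  exact ⟨V, iV, G, by omega⟩

end OTh
end

section

/-!
The combinatorial drawings can be drawn in the plane.
-/

set_option autoImplicit false

namespace OTh

theorem realized_of_drawn {V : Type*} {E : Set (Sym2 V)} {F : List (List V)} (h : Drawn E F) :
    ∃ pt arc Φ, Realized E F pt arc Φ := by
  induction h with
  | edge u v huv => exact realized_edge u v huv
  | pendant E u v w F h hv ih => obtain ⟨pt, arc, Φ, ih⟩ := ih; exact realized_pendant ih hv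
  | chord E u v w₁ w₂ F h huv ih => obtain ⟨pt, arc, Φ, ih⟩ := ih; exact realized_chord ih huv
  | rotate E u w F h ih => obtain ⟨pt, arc, Φ, ih⟩ := ih; exact realized_rotate ih
  | perm E F F' h hF ih => obtain ⟨pt, arc, Φ, ih⟩ := ih; exact realized_perm ih hF

theorem drawn_ne_nil {V : Type*} {E : Set (Sym2 V)} {F : List (List V)} (h : Drawn E F) :
    F ≠ [] := by
  induction h with
  | edge u v huv => simp
  | pendant E u v w F h hv ih => simp
  | chord E u v w₁ w₂ F h huv ih => simp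
  | rotate E u w F h ih => simp
  | perm E F F' h hF ih =>
    rintro rfl
    exact ih (List.perm_nil.1 hF)

/-- the combinatorial drawings give drawings in the plane -/
theorem collection_of_uncrossed {V : Type*} [Finite V] {G : SimpleGraph V} {c : ℕ}
    (h : Uncrossed G c) : UncrossedCollection G c := by
  obtain ⟨E, h1, h2⟩ := h
  have h3 : ∀ i, ∃ D : Drawing G, ∀ e ∈ E i, D.Uncrossed e := by
    intro i
    obtain ⟨F, hF, hG⟩ := h1 i
    obtain ⟨pt, arc, Φ, hR⟩ := realized_of_drawn hF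
    exact drawing_of_realized G hR (drawn_ne_nil hF) hG
  choose D hD using h3
  refine ⟨D, fun e he => ?_⟩
  induction e using Sym2.ind with
  | _ u v =>
    obtain ⟨i, hi⟩ := h2 u v he
    exact ⟨i, hD i _ hi⟩

/-- **the difference of the outerthickness and the uncrossed number is unbounded** -/
theorem gap (K : ℕ) : ∃ (V : Type) (_ : Fintype V) (G : SimpleGraph V),
    (∃ c, UncrossedCollection G c) ∧ uncrossedNumber G + K ≤ outerthickness G := by
  obtain ⟨V, iV, G, c, h1, h2⟩ := main' K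
  have h3 : UncrossedCollection G c := collection_of_uncrossed h1
  have h4 : uncrossedNumber G ≤ c := Nat.sInf_le h3
  exact ⟨V, iV, G, ⟨c, h3⟩, by omega⟩

end OTh
end
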