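import Pool.Agent.Lib.MP_9750df_co.Defs
import Pool.Agent.Lib.MP_9750df_co.NC
import Pool.Agent.Lib.MP_9750df_co.TArc
import Pool.Agent.Lib.MP_9750df_co.Ring
import Pool.Agent.Lib.MP_9750df_co.Frame

section

/-!
Edges of bipartite outerplanar graphs.

`E` is a set of pairs `(a, b)`, the order is given by an injective `f : α ⊕ β → ℕ`; write `a < b` for `f (inl a) < f (inr b)` etc.

PROOF of `bipA`.  For `a ∈ A` let `L a` (`R a`) be the set of the neighbours `b` of `a` with `b < a` (`a < b`).  If `L a ≠ ∅` let `lm a` be its least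
element (the farthest left neighbour), if `R a ≠ ∅` let `rm a` be the largest element of `R a`.
 (1) If `b ∈ L a`, `b ≠ lm a` then `a' ≤ a` for all neighbours `a'` of `b` (else `lm a < b < a < a'` and the edges `(a, lm a)`, `(a', b)` interleave).
 (2) If `b ∈ R a`, `b ≠ rm a` then `a ≤ a'` for all neighbours `a'` of `b`.
 (3) If `L a ≠ ∅ ≠ R a` and some neighbour `a'` of `rm a` satisfies `a' < a` then all neighbours `a''` of `lm a` satisfy `a'' ≤ a`: else `a' < a < a''`,
   `lm a < a'` (as `lm a < a < rm a`, if `a' < lm a` then the edges `(a', rm a)` and `(a'', lm a)`: `a' < lm a < rm a`, and `a''`: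
   `rm a < a''` gives `a' < lm a < rm a < a''`, interleaving; `a'' < rm a` gives `lm a` < `a''` both inside `(a', rm a)`; then consider: the edges `(a, lm a)`,
   `(a', rm a)`, `(a, rm a)`, `(a'', lm a)`: `lm a < a < a'' < rm a`: `(a'', lm a)` and `(a, rm a)` interleave: `lm a < a < a'' < rm a`. In all cases two
   of these four edges interleave; the cleanest way is a case distinction on the order of the five points and `omega`).
Map `E → A ⊕ (B × Bool)`, injective (`true`: right slot, hit by `(a, b)` only if `a` is the largest neighbour of `b`; `false`: left slot,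
hit by `(a, b)` only if `a` is the smallest neighbour of `b`).  For `e = (a, b)`:
 * `b ∈ L a`, `b ≠ lm a`: `(b, true)`;  `b = lm a`: if `R a = ∅` then `a`; if `R a ≠ ∅` and `a` is the smallest neighbour of `rm a`: `a`; else `(b, true)`;
 * `b ∈ R a`, `b ≠ rm a`: `(b, false)`; `b = rm a`: if `L a = ∅` then `a`; if `L a ≠ ∅` and `a` is the smallest neighbour of `b`: `(b, false)`, else `a`.
`a` is hit at most once: by its left farthest or by its right farthest edge, not by both.

PROOF of `bipB` for an `x ∈ B` that is smaller than all other points: in the same map the slots `(x, false)` and `(x, true)` are not hit: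
`x` is in no `R a`; and `(x, true)` could only be hit by `(a, x)`, `x = lm a`, `R a ≠ ∅`, where `a` is not the smallest neighbour of `rm a`: `a' < a`, `x < a'`,
the edges `(a, x)`, `(a', rm a)` interleave: `x < a' < a < rm a`.
-/

set_option autoImplicit false

namespace OTh

open Finset
open scoped Classical

variable {α β : Type*}

/-- the bipartite graph of a set of pairs -/
def bipG (E : Set (α × β)) : SimpleGraph (α ⊕ β) where
  Adj u v := ∃ a b, (a, b) ∈ E ∧ ((u = Sum.inl a ∧ v = Sum.inr b) ∨ (u = Sum.inr b ∧ v = Sum.inl a))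
  symm := ⟨by rintro u v ⟨a, b, h, h' | h'⟩ <;> exact ⟨a, b, h, by tauto⟩⟩
  loopless := ⟨by rintro u ⟨a, b, _, ⟨h1, h2⟩ | ⟨h1, h2⟩⟩ <;> simp [h1] at h2⟩

private theorem bipA_adj {E : Finset (α × β)} {a : α} {b : β} (h : (a, b) ∈ E) :
    (bipG (E : Set (α × β))).Adj (Sum.inl a) (Sum.inr b) ∧
      (bipG (E : Set (α × β))).Adj (Sum.inr b) (Sum.inl a) :=
  ⟨⟨a, b, by exact_mod_cast h, Or.inl ⟨rfl, rfl⟩⟩, ⟨a, b, by exact_mod_cast h, Or.inr ⟨rfl, rfl⟩⟩⟩

/-- Edges at the vertices of `S` (at most one vertex, the first one) and edges `(a, b)` where `a` is neither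
the smallest nor the largest neighbour of `b` are charged to `a`; the other edges are charged to `b`. -/
private theorem bipA_aux (f : α ⊕ β → ℕ) (hf : Function.Injective f) (A : Finset α) (B : Finset β)
    (E : Finset (α × β)) (hE : E ⊆ A ×ˢ B) (h : NonCr (bipG (E : Set (α × β))) f) (S : Finset β)
    (hSB : S ⊆ B) (hS : ∀ x ∈ S, ∀ u, f (Sum.inr x) ≤ f u) :
    E.card + 2 * S.card ≤ A.card + 2 * B.card := by
  -- the edges that are charged to `A`
  let E1 := E.filter fun e => e.2 ∈ S ∨ ((∃ a', (a', e.2) ∈ E ∧ f (Sum.inl a') < f (Sum.inl e.1)) ∧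
    (∃ a'', (a'', e.2) ∈ E ∧ f (Sum.inl e.1) < f (Sum.inl a'')))
  let E2 := E.filter fun e => e.2 ∉ S ∧ ∀ a', (a', e.2) ∈ E → f (Sum.inl e.1) ≤ f (Sum.inl a')
  let E3 := E.filter fun e => e.2 ∉ S ∧ ∀ a', (a', e.2) ∈ E → f (Sum.inl a') ≤ f (Sum.inl e.1)
  have hcov : E ⊆ E1 ∪ E2 ∪ E3 := by
    intro e he
    by_cases h1 : e ∈ E1
    · exact mem_union_left _ (mem_union_left _ h1)
    by_cases h2 : e ∈ E2
    · exact mem_union_left _ (mem_union_right _ h2)
    refine mem_union_right _ ?_
    simp only [E1, E2, mem_filter, not_and, not_or, not_forall, not_le] at h1 h2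
    obtain ⟨h3, h4⟩ := h1 he
    obtain ⟨a', ha', hlt⟩ := h2 he h3
    refine mem_filter.2 ⟨he, h3, fun a'' ha'' => ?_⟩
    by_contra h5
    exact h4 ⟨a', ha', hlt⟩ ⟨a'', ha'', not_le.1 h5⟩
  have hne : ∀ (a : α) (b : β), f (Sum.inl a) ≠ f (Sum.inr b) := fun a b h0 =>
    Sum.inl_ne_inr (hf h0)
  -- no two edges that are charged to the same vertex of `A`
  have key : ∀ (a : α) (b₁ b₂ : β), (a, b₁) ∈ E → (a, b₂) ∈ E → f (Sum.inr b₁) < f (Sum.inr b₂) →
      (b₁ ∈ S ∨ ((∃ a', (a', b₁) ∈ E ∧ f (Sum.inl a') < f (Sum.inl a)) ∧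
        (∃ a'', (a'', b₁) ∈ E ∧ f (Sum.inl a) < f (Sum.inl a'')))) →
      (b₂ ∈ S ∨ ((∃ a', (a', b₂) ∈ E ∧ f (Sum.inl a') < f (Sum.inl a)) ∧
        (∃ a'', (a'', b₂) ∈ E ∧ f (Sum.inl a) < f (Sum.inl a'')))) → False := by
    intro a b₁ b₂ hb₁ hb₂ hlt h1 h2
    rcases h2 with h2 | ⟨⟨a₂, ha₂, hlt₂⟩, ⟨c₂, hc₂, hltc₂⟩⟩
    · exact absurd (hS b₂ h2 (Sum.inr b₁)) (not_le.2 hlt)
    have e1 := bipA_adj hb₁
    have e2 := bipA_adj hb₂
    have e3 := bipA_adj ha₂
    have e4 := bipA_adj hc₂
    rcases lt_or_gt_of_ne (hne a b₂) with hab | hab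
    · -- `a < b₂`
      rcases lt_or_gt_of_ne (hne a b₁) with hab1 | hab1
      · -- `a < b₁ < b₂`
        rcases h1 with h1 | ⟨⟨a₁, ha₁, hlt₁⟩, _⟩
        · exact absurd (hS b₁ h1 (Sum.inl a)) (not_le.2 hab1)
        · exact h _ _ _ _ (bipA_adj ha₁).1 e2.1 ⟨hlt₁, hab1, hlt⟩
      · -- `b₁ < a < b₂`
        rcases lt_or_gt_of_ne (hne a₂ b₁) with h3 | h3
        · rcases h1 with h1 | ⟨_, ⟨c₁, hc₁, hltc₁⟩⟩
          · exact absurd (hS b₁ h1 (Sum.inl a₂)) (not_le.2 h3)
          · rcases lt_or_gt_of_ne (hne c₁ b₂) with h4 | h4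
            · exact h _ _ _ _ (bipA_adj hc₁).2 e2.1 ⟨hab1, hltc₁, h4⟩
            · exact h _ _ _ _ e3.1 (bipA_adj hc₁).2 ⟨h3, hlt, h4⟩
        · exact h _ _ _ _ e1.2 e3.1 ⟨h3, hlt₂, hab⟩
    · -- `b₁ < b₂ < a`
      exact h _ _ _ _ e1.2 e4.2 ⟨hlt, hab, hltc₂⟩
  have c1 : E1.card ≤ A.card := by
    refine Finset.card_le_card_of_injOn Prod.fst (fun e he => ?_) ?_
    · exact (mem_product.1 (hE (mem_filter.1 he).1)).1
    · rintro ⟨a, b₁⟩ h1 ⟨a', b₂⟩ h2 h3
      simp only at h3
      subst h3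
      obtain ⟨h1a, h1b⟩ := mem_filter.1 (mem_coe.1 h1)
      obtain ⟨h2a, h2b⟩ := mem_filter.1 (mem_coe.1 h2)
      rcases lt_trichotomy (f (Sum.inr b₁)) (f (Sum.inr b₂)) with h4 | h4 | h4
      · exact (key a b₁ b₂ h1a h2a h4 h1b h2b).elim
      · rw [Sum.inr_injective (hf h4)]
      · exact (key a b₂ b₁ h2a h1a h4 h2b h1b).elim
  have c2 : E2.card ≤ (B \ S).card := by
    refine Finset.card_le_card_of_injOn Prod.snd (fun e he => ?_) ?_
    · obtain ⟨h1, h2, -⟩ := mem_filter.1 he
      exact mem_sdiff.2 ⟨(mem_product.1 (hE h1)).2, h2⟩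
    · rintro ⟨a, b₁⟩ h1 ⟨a', b₂⟩ h2 h3
      simp only at h3
      subst h3
      obtain ⟨h1a, -, h1b⟩ := mem_filter.1 (mem_coe.1 h1)
      obtain ⟨h2a, -, h2b⟩ := mem_filter.1 (mem_coe.1 h2)
      have h4 : f (Sum.inl a) = f (Sum.inl a') := le_antisymm (h1b a' h2a) (h2b a h1a)
      rw [Sum.inl_injective (hf h4)]
  have c3 : E3.card ≤ (B \ S).card := by
    refine Finset.card_le_card_of_injOn Prod.snd (fun e he => ?_) ?_
    · obtain ⟨h1, h2, -⟩ := mem_filter.1 he
      exact mem_sdiff.2 ⟨(mem_product.1 (hE h1)).2, h2⟩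
    · rintro ⟨a, b₁⟩ h1 ⟨a', b₂⟩ h2 h3
      simp only at h3
      subst h3
      obtain ⟨h1a, -, h1b⟩ := mem_filter.1 (mem_coe.1 h1)
      obtain ⟨h2a, -, h2b⟩ := mem_filter.1 (mem_coe.1 h2)
      have h4 : f (Sum.inl a) = f (Sum.inl a') := le_antisymm (h2b a h1a) (h1b a' h2a)
      rw [Sum.inl_injective (hf h4)]
  have c4 := card_sdiff_add_card_eq_card hSB
  have c5 := card_le_card hcov
  have c6 := card_union_le (E1 ∪ E2) E3
  have c7 := card_union_le E1 E2
  omega

theorem bipA (f : α ⊕ β → ℕ) (hf : Function.Injective f) (A : Finset α) (B : Finset β)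
    (E : Finset (α × β)) (hE : E ⊆ A ×ˢ B) (h : NonCr (bipG (E : Set (α × β))) f) :
    E.card ≤ A.card + 2 * B.card := by
  have h1 := bipA_aux f hf A B E hE h ∅ (by simp) (by simp)
  simpa using h1

theorem bipB_min (f : α ⊕ β → ℕ) (hf : Function.Injective f) (A : Finset α) (B : Finset β)
    (E : Finset (α × β)) (hE : E ⊆ A ×ˢ B) (h : NonCr (bipG (E : Set (α × β))) f) (x : β)
    (hx : x ∈ B) (hmin : ∀ u, f (Sum.inr x) ≤ f u) :
    E.card + 2 ≤ A.card + 2 * B.card := by
  have h1 := bipA_aux f hf A B E hE h {x} (by simpa using hx) (by simpa using hmin)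
  simpa using h1

end OTh
end

section

/-!
Drawing: cutting the blocks of a ring.

PROOFS.
`cut_block`.  The face is `x, b, y, t, v, t', y', b', x', r`.  Five or six applications of `Drawn.chordAt` (with rotations `Drawn.rot`): rotated to start with `b`: `b, y, t, ..`: chord
`b t` (`w₁ = [y]`): face `b, t, ..`; chord `x t` (`w₁ = [b]`): `x, t, v, ..`; chord `x v`: `x, v, t', y', b', x', r`; chord `t' b'`; chord `t' x'`; chord `v x'`: `x, v, x', r`.
The new faces are triangles whose vertices lie in the old face.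
-/

set_option autoImplicit false

namespace OTh

variable {V : Type*}

/-- a slot of the ring: the hub `x`, then `b, y, t` of the first side, `v`, then `t', y', b'` of the second side -/
structure Bk (V : Type*) where
  x : V
  b : V
  y : V
  t : V
  v : V
  t' : V
  y' : V
  b' : V

/-- the outer walk of the slot -/
def Bk.flat (B : Bk V) : List V := [B.x, B.b, B.y, B.t, B.v, B.t', B.y', B.b']

/-- the inner walk of the slot -/
def Bk.red (B : Bk V) : List V := [B.x, B.v]

/-- the edges of the outer walk; `x'` is the next hub -/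
def Bk.rim (B : Bk V) (x' : V) : Set (Sym2 V) :=
  {s(B.x, B.b), s(B.b, B.y), s(B.y, B.t), s(B.t, B.v), s(B.v, B.t'), s(B.t', B.y'), s(B.y', B.b'),
    s(B.b', x')}

/-- the inner edges -/
def Bk.chords (B : Bk V) (x' : V) : Set (Sym2 V) :=
  {s(B.b, B.t), s(B.x, B.t), s(B.x, B.v), s(B.t', B.b'), s(B.t', x'), s(B.v, x')}

private theorem DrB_rot1 (x b : V) (l : List V) : (x :: b :: l) ~r (b :: (l ++ [x])) := by
  refine ⟨1, ?_⟩
  rw [List.rotate_cons_succ, List.rotate_zero, List.cons_append]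

private theorem DrB_rot2 (x v t : V) (l : List V) :
    (x :: v :: t :: l) ~r (t :: (l ++ [x, v])) := by
  refine ⟨2, ?_⟩
  rw [List.rotate_cons_succ, List.cons_append, List.rotate_cons_succ, List.rotate_zero,
    List.cons_append, List.cons_append, List.append_assoc]
  rfl

private theorem DrB_rot3 (x v t : V) (l : List V) :
    (t :: (l ++ [x, v])) ~r (v :: t :: (l ++ [x])) := by
  refine List.IsRotated.symm ⟨1, ?_⟩
  rw [List.rotate_cons_succ, List.rotate_zero, List.cons_append, List.append_assoc]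
  rfl

theorem cut_block {E : Set (Sym2 V)} {F : List (List V)} (B : Bk V) (x' : V) (r : List V)
    (h : Drawn E ((B.flat ++ x' :: r) :: F)) (hnd : (B.flat ++ x' :: r).Nodup) :
    ∃ E' F', Drawn E' ((B.red ++ x' :: r) :: F') ∧ E ⊆ E' ∧ B.chords x' ⊆ E' ∧
      (∀ f ∈ F, f ∈ F') ∧ vs F' ⊆ vs ((B.flat ++ x' :: r) :: F) := by
  obtain ⟨x, b, y, t, v, t', y', b'⟩ := B
  simp only [Bk.flat, Bk.red, Bk.chords, List.cons_append, List.nil_append] at h hnd ⊢
  simp only [List.nodup_cons, List.mem_cons, not_or] at hnd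
  obtain ⟨⟨hxb, hxy, hxt, hxv, hxt', hxy', hxb', hxx', hxr⟩, ⟨hby, hbt, -⟩, -, -,
    ⟨hvt', hvy', hvb', hvx', -⟩, ⟨ht'y', ht'b', ht'x', -⟩, -⟩ := hnd
  have h1 := Drawn.chordAt (x := b) (y := t) (w₁ := [y])
    (w₂ := v :: t' :: y' :: b' :: x' :: (r ++ [x]))
    (Drawn.rot h (DrB_rot1 x b (y :: t :: v :: t' :: y' :: b' :: x' :: r))) hbt
  have h2 := Drawn.chordAt (x := x) (y := t) (w₁ := [b])
    (w₂ := v :: t' :: y' :: b' :: x' :: r)
    (Drawn.rot h1 (DrB_rot1 x b (t :: v :: t' :: y' :: b' :: x' :: r)).symm) hxt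
  have h3 := Drawn.chordAt (x := x) (y := v) (w₁ := [t])
    (w₂ := t' :: y' :: b' :: x' :: r) h2 hxv
  have h4 := Drawn.chordAt (x := t') (y := b') (w₁ := [y'])
    (w₂ := x' :: (r ++ [x, v]))
    (Drawn.rot h3 (DrB_rot2 x v t' (y' :: b' :: x' :: r))) ht'b'
  have h5 := Drawn.chordAt (x := t') (y := x') (w₁ := [b']) (w₂ := r ++ [x, v]) h4 ht'x'
  have h6 := Drawn.chordAt (x := v) (y := x') (w₁ := [t']) (w₂ := r ++ [x])
    (Drawn.rot h5 (DrB_rot3 x v t' (x' :: r))) hvx'
  have h7 := Drawn.rot h6 (DrB_rot1 x v (x' :: r)).symm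
  refine ⟨_, _, h7, ?_, ?_, ?_, ?_⟩
  · intro e he
    simp only [Set.mem_insert_iff]
    tauto
  · intro e he
    simp only [Set.mem_insert_iff, Set.mem_singleton_iff] at he ⊢
    tauto
  · intro f hf
    simp only [List.mem_cons]
    tauto
  · rintro z ⟨f, hf, hz⟩
    simp only [List.mem_cons] at hf
    rcases hf with rfl | rfl | rfl | rfl | rfl | rfl | hf
    all_goals first
      | exact ⟨f, List.mem_cons_of_mem _ hf, hz⟩
      | (refine ⟨_, List.mem_cons_self, ?_⟩
         simp only [List.mem_cons, List.mem_append, List.not_mem_nil, or_false] at hz ⊢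
         tauto)

end OTh
end

section

/-!
Drawing: cutting all blocks of a ring.

PROOF of `cut_blocks`.  By induction on `j ≤ s` there is a drawing whose first face is, up to rotation, `(blocks j .. s-1, flat) ++ (blocks 0 .. j-1, red)`; step: rotate such that
the block `j` comes first; the next vertex is the `x` of the block `j + 1` (cyclic): the first vertex of the next block (`flat` or, for the last block, `red`
of the block `0`; `2 ≤ s`).  All vertices are different (`Nodup`), this is preserved.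
-/

set_option autoImplicit false

namespace OTh

variable {V : Type*}

private theorem DrB2_red_sub (B : Bk V) : B.red.Sublist B.flat := by
  obtain ⟨x, b, y, t, v, t', y', b'⟩ := B
  simp only [Bk.flat, Bk.red]
  refine List.Sublist.cons_cons _ ?_
  refine List.Sublist.cons _ (List.Sublist.cons _ (List.Sublist.cons _ ?_))
  exact List.Sublist.cons_cons _ (List.nil_sublist _)

private theorem DrB2_sub (L : List (Bk V)) : (L.flatMap Bk.red).Sublist (L.flatMap Bk.flat) := by
  induction L with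
  | nil => simp
  | cons B L ih =>
    rw [List.flatMap_cons, List.flatMap_cons]
    exact (DrB2_red_sub B).append ih

private theorem DrB2_nodup {L : List (Bk V)} (h : (L.flatMap Bk.flat).Nodup) (j : ℕ) :
    ((L.drop j).flatMap Bk.flat ++ (L.take j).flatMap Bk.red).Nodup := by
  have h1 : ((L.take j).flatMap Bk.flat ++ (L.drop j).flatMap Bk.flat).Nodup := by
    rw [← List.flatMap_append, List.take_append_drop]
    exact h
  have h2 : ((L.drop j).flatMap Bk.flat ++ (L.take j).flatMap Bk.flat).Nodup :=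
    (List.perm_append_comm.nodup_iff).1 h1
  exact h2.sublist ((List.Sublist.refl _).append (DrB2_sub _))

private theorem DrB2_mem {L : List (Bk V)} {j : ℕ} {v : V}
    (h : v ∈ (L.drop j).flatMap Bk.flat ++ (L.take j).flatMap Bk.red) : v ∈ L.flatMap Bk.flat := by
  have h2 : v ∈ (L.drop j).flatMap Bk.flat ++ (L.take j).flatMap Bk.flat :=
    ((List.Sublist.refl _).append (DrB2_sub _)).subset h
  have h3 : v ∈ (L.take j).flatMap Bk.flat ++ (L.drop j).flatMap Bk.flat :=
    List.perm_append_comm.mem_iff.1 h2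
  rwa [← List.flatMap_append, List.take_append_drop] at h3

theorem cut_blocks {s : ℕ} [NeZero s] (hs : 2 ≤ s) {E : Set (Sym2 V)} {F : List (List V)}
    (B : Fin s → Bk V) (h : Drawn E (((List.ofFn B).flatMap Bk.flat) :: F))
    (hnd : ((List.ofFn B).flatMap Bk.flat).Nodup) :
    ∃ E' F', Drawn E' (((List.ofFn B).flatMap Bk.red) :: F') ∧ E ⊆ E' ∧
      (∀ k, (B k).chords (B (k + 1)).x ⊆ E') ∧ (∀ f ∈ F, f ∈ F') ∧
      vs F' ⊆ vs (((List.ofFn B).flatMap Bk.flat) :: F) := by
  obtain ⟨L, hL⟩ : ∃ L, L = List.ofFn B := ⟨_, rfl⟩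
  have hlen : L.length = s := by rw [hL, List.length_ofFn]
  have hget : ∀ (i : ℕ) (hi : i < L.length), L[i] = B ⟨i, by omega⟩ := by
    intro i hi
    subst hL
    rw [List.getElem_ofFn]
  rw [← hL] at h hnd ⊢
  have key : ∀ j ≤ s, ∃ E' F', Drawn E' (((L.drop j).flatMap Bk.flat ++
      (L.take j).flatMap Bk.red) :: F') ∧ E ⊆ E' ∧
      (∀ k : Fin s, (k : ℕ) < j → (B k).chords (B (k + 1)).x ⊆ E') ∧ (∀ f ∈ F, f ∈ F') ∧
      vs F' ⊆ vs ((L.flatMap Bk.flat) :: F) := by
    intro j
    induction j with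
    | zero =>
      intro _
      refine ⟨E, F, by simpa using h, le_rfl, fun k hk => absurd hk (Nat.not_lt_zero _),
        fun f hf => hf, ?_⟩
      rintro v ⟨f, hf, hv⟩
      exact ⟨f, List.mem_cons_of_mem _ hf, hv⟩
    | succ j ih =>
      intro hj
      obtain ⟨E', F', h1, h2, h3, h4, h5⟩ := ih (by omega)
      have hjL : j < L.length := by omega
      have hnd' := DrB2_nodup hnd j
      have hmem : ∀ v ∈ (L.drop j).flatMap Bk.flat ++ (L.take j).flatMap Bk.red,
          v ∈ L.flatMap Bk.flat := fun v hv => DrB2_mem hv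
      rw [List.drop_eq_getElem_cons hjL, List.flatMap_cons, List.append_assoc] at h1 hnd' hmem
      obtain ⟨r, hr⟩ : ∃ r, (L.drop (j + 1)).flatMap Bk.flat ++ (L.take j).flatMap Bk.red =
          (B (⟨j, by omega⟩ + 1)).x :: r := by
        rcases Nat.lt_or_ge (j + 1) s with h6 | h6
        · have h7 : j + 1 < L.length := by omega
          have h8 : (⟨j, by omega⟩ + 1 : Fin s) = ⟨j + 1, h6⟩ := by
            apply Fin.ext
            rw [Fin.val_add]
            simp only [Fin.val_one']
            rw [Nat.mod_eq_of_lt (show 1 < s by omega), Nat.mod_eq_of_lt h6]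
          rw [List.drop_eq_getElem_cons h7, List.flatMap_cons, hget _ h7, h8]
          simp only [Bk.flat, List.cons_append]
          exact ⟨_, rfl⟩
        · have h7 : j + 1 = s := by omega
          have h8 : (⟨j, by omega⟩ + 1 : Fin s) = ⟨0, by omega⟩ := by
            apply Fin.ext
            rw [Fin.val_add]
            simp only [Fin.val_one']
            rw [Nat.mod_eq_of_lt (show 1 < s by omega), h7, Nat.mod_self]
          have h9 : L.drop (j + 1) = [] := List.drop_eq_nil_of_le (by omega)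
          have h10 : L.take j = L[0] :: (L.take j).tail := by
            have h11 : 0 < (L.take j).length := by rw [List.length_take]; omega
            have h12 := List.drop_eq_getElem_cons h11
            rw [List.drop_zero] at h12
            rw [h12]
            simp
          rw [h9, h10, List.flatMap_nil, List.nil_append, List.flatMap_cons, hget 0 (by omega), h8]
          simp only [Bk.red, List.cons_append]
          exact ⟨_, rfl⟩
      rw [hr] at h1 hnd' hmem
      obtain ⟨E'', F'', g1, g2, g3, g4, g5⟩ := cut_block _ _ _ h1 hnd'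
      have g6 : (L[j].red ++ (B (⟨j, by omega⟩ + 1)).x :: r) ~r
          ((L.drop (j + 1)).flatMap Bk.flat ++ (L.take (j + 1)).flatMap Bk.red) := by
        have e1 : (L.take (j + 1)).flatMap Bk.red = (L.take j).flatMap Bk.red ++ L[j].red := by
          rw [List.take_succ_eq_append_getElem hjL, List.flatMap_append]
          simp
        rw [e1, ← List.append_assoc, hr]
        exact List.isRotated_append
      refine ⟨E'', F'', Drawn.rot g1 g6, h2.trans g2, ?_, fun f hf => g4 f (h4 f hf), ?_⟩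
      · intro k hk
        rcases Nat.lt_or_ge k j with h6 | h6
        · exact (h3 k h6).trans g2
        · have h7 : k = ⟨j, by omega⟩ := Fin.ext (by simp only; omega)
          rw [hget j hjL] at g3
          rw [h7]
          exact g3
      · refine g5.trans ?_
        rintro v ⟨f, hf, hv⟩
        rcases List.mem_cons.1 hf with rfl | hf
        · exact ⟨_, List.mem_cons_self, hmem v hv⟩
        · exact h5 ⟨f, hf, hv⟩
  obtain ⟨E', F', h1, h2, h3, h4, h5⟩ := key s le_rfl
  refine ⟨E', F', ?_, h2, fun k => h3 k k.2, h4, h5⟩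
  have e1 : L.drop s = [] := List.drop_eq_nil_of_le (by omega)
  have e2 : L.take s = L := List.take_of_length_le (by omega)
  rw [e1, e2] at h1
  simpa using h1

end OTh
end

section

/-!
Drawing: insertion of a ring at the vertex `z` of the outer face.

PROOF of `draw_ring`.  Let `C = (List.ofFn B).flatMap Bk.flat = x₀ :: b₀ :: z :: C'` (`z = (B 0).y`).  Rotate the first face such that it is `z :: w`.  Apply `Drawn.cycle` with
`g = (C' ++ [x₀, b₀]).reverse`: faces `z :: g ++ z :: w` and `g.reverse ++ [z] = C' ++ [x₀, b₀, z]`, rotated: `C`.  The set of edges `pe z (g ++ [z])` contains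
all edges of the closed walk `C` (lemma: `pe` of a list contains `s(u, v)` for neighbouring `u, v` in `x :: g`; reversed lists are the same up to
`Sym2.eq_swap`), so all `rim`s: neighbouring vertices in `flat`, and `b'` of the block `k` and `x` of the block `k + 1`.  Then permute the faces and apply
`cut_blocks`.
-/

set_option autoImplicit false

namespace OTh

variable {V : Type*}

private theorem DrC_pe_append (x a b : V) (g : List V) :
    pe x (g ++ [a, b]) = insert s(a, b) (pe x (g ++ [a])) := by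
  induction g generalizing x with
  | nil => simp only [List.nil_append, pe]; exact Set.insert_comm _ _ _
  | cons c g ih =>
    simp only [List.cons_append, pe]
    rw [ih]
    exact Set.insert_comm _ _ _

private theorem DrC_pe_rev (x y : V) (l : List V) : pe x (l.reverse ++ [y]) = pe y (l ++ [x]) := by
  induction l generalizing y with
  | nil => simp only [List.reverse_nil, List.nil_append, pe]; rw [Sym2.eq_swap]
  | cons a l ih =>
    have h1 : (a :: l).reverse ++ [y] = l.reverse ++ [a, y] := by simp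
    rw [h1, DrC_pe_append, ih]
    simp only [List.cons_append, pe]
    rw [Sym2.eq_swap]

/-- the edges of a closed walk -/
private def DrC_cyc : List V → Set (Sym2 V)
  | [] => ∅
  | x :: l => pe x (l ++ [x])

private theorem DrC_cyc_rot1 (x : V) (l : List V) : DrC_cyc (l ++ [x]) = DrC_cyc (x :: l) := by
  cases l with
  | nil => rfl
  | cons y l =>
    have h1 : DrC_cyc (y :: l ++ [x]) = pe y (l ++ [x, y]) := by
      change pe y ((l ++ [x]) ++ [y]) = _
      simp
    have h2 : DrC_cyc (x :: y :: l) = insert s(x, y) (pe y (l ++ [x])) := rfl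
    rw [h1, h2, DrC_pe_append]

private theorem DrC_cyc_rot {l l' : List V} (h : l ~r l') : DrC_cyc l = DrC_cyc l' := by
  obtain ⟨n, rfl⟩ := h
  induction n generalizing l with
  | zero => simp
  | succ n ih =>
    cases l with
    | nil => simp
    | cons x l =>
      rw [List.rotate_cons_succ, ← ih, DrC_cyc_rot1]

private theorem DrC_flatMap_rot {W : Type*} (f : W → List V) {l l' : List W} (h : l ~r l') :
    l.flatMap f ~r l'.flatMap f := by
  obtain ⟨n, rfl⟩ := h
  induction n generalizing l with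
  | zero =>
    rw [List.rotate_zero]
  | succ n ih =>
    cases l with
    | nil => simp
    | cons x l =>
      rw [List.rotate_cons_succ]
      refine List.IsRotated.trans ?_ (ih (l := l ++ [x]))
      rw [List.flatMap_cons, List.flatMap_append]
      have h2 : List.flatMap f [x] = f x := by simp
      rw [h2]
      exact List.isRotated_append

private theorem DrC_ofFn_rot {W : Type*} {s : ℕ} [NeZero s] (B : Fin s → W) (k : Fin s) :
    List.ofFn B ~r List.ofFn (fun i => B (i + k)) := by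
  refine ⟨k.1, ?_⟩
  apply List.ext_getElem
  · simp
  · intro n h1 h2
    rw [List.getElem_rotate]
    simp only [List.getElem_ofFn]
    congr 1
    apply Fin.ext
    simp [Fin.val_add]

private theorem DrC_rim {s : ℕ} [NeZero s] (hs : 2 ≤ s) (B : Fin s → Bk V) (k : Fin s) :
    (B k).rim (B (k + 1)).x ⊆ DrC_cyc ((List.ofFn B).flatMap Bk.flat) := by
  rw [DrC_cyc_rot (DrC_flatMap_rot Bk.flat (DrC_ofFn_rot B k))]
  obtain ⟨n, rfl⟩ : ∃ n, s = n + 2 := ⟨s - 2, by omega⟩
  have h0 : (0 : Fin (n + 2)) + k = k := by simp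
  have h1 : (Fin.succ (0 : Fin (n + 1))) + k = k + 1 := add_comm (1 : Fin (n + 2)) k
  rw [List.ofFn_succ, List.ofFn_succ]
  simp only [List.flatMap_cons, h0, h1]
  intro e he
  simp only [Bk.rim, Set.mem_insert_iff, Set.mem_singleton_iff] at he
  simp only [Bk.flat, List.cons_append, List.nil_append, DrC_cyc, pe, Set.mem_insert_iff]
  tauto

theorem draw_ring {s : ℕ} [NeZero s] (hs : 2 ≤ s) {E : Set (Sym2 V)} {w : List V}
    {F : List (List V)} (B : Fin s → Bk V) (h : Drawn E (w :: F)) (hz : (B 0).y ∈ w)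
    (hnd : ((List.ofFn B).flatMap Bk.flat).Nodup)
    (hfr : ∀ v ∈ (List.ofFn B).flatMap Bk.flat, v ≠ (B 0).y → v ∉ vs (w :: F)) :
    ∃ E' w' F', Drawn E' (((List.ofFn B).flatMap Bk.red) :: w' :: F') ∧ E ⊆ E' ∧
      (∀ k, (B k).rim (B (k + 1)).x ⊆ E') ∧ (∀ k, (B k).chords (B (k + 1)).x ⊆ E') ∧
      (∀ v ∈ w, v ∈ w') ∧ (∀ v ∈ (List.ofFn B).flatMap Bk.flat, v ∈ w') ∧ (∀ f ∈ F, f ∈ F') ∧
      vs (w' :: F') ⊆ vs (w :: F) ∪ {v | v ∈ (List.ofFn B).flatMap Bk.flat} := by
  have hrim := DrC_rim hs B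
  obtain ⟨z, hzdef⟩ : ∃ z, z = (B 0).y := ⟨_, rfl⟩
  obtain ⟨C, hCdef⟩ : ∃ C, C = (List.ofFn B).flatMap Bk.flat := ⟨_, rfl⟩
  -- the form of `C`
  have hC : ∃ x₀ b₀ C', C = x₀ :: b₀ :: z :: C' := by
    obtain ⟨n, rfl⟩ : ∃ n, s = n + 1 := ⟨s - 1, by omega⟩
    rw [List.ofFn_succ] at hCdef
    simp only [List.flatMap_cons, Bk.flat, List.cons_append] at hCdef
    rw [hCdef, hzdef]
    exact ⟨_, _, _, rfl⟩
  obtain ⟨x₀, b₀, C', hC⟩ := hC
  have hcb := fun (E₁ : Set (Sym2 V)) (F₁ : List (List V)) => cut_blocks (E := E₁) (F := F₁) hs B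
  rw [← hCdef] at hnd hfr hrim hcb ⊢
  rw [← hzdef] at hz hfr
  -- rotate the face
  obtain ⟨wa, wb, hw⟩ := List.append_of_mem hz
  have hwrot : w ~r z :: (wb ++ wa) := by
    rw [hw]
    exact List.isRotated_append
  have h1 := h.rot hwrot
  have hvs : ∀ v, v ∈ vs ((z :: (wb ++ wa)) :: F) → v ∈ vs (w :: F) := by
    rintro v ⟨f, hf, hv⟩
    rcases List.mem_cons.1 hf with rfl | hf
    · exact ⟨w, List.mem_cons_self, hwrot.mem_iff.2 hv⟩
    · exact ⟨f, List.mem_cons_of_mem _ hf, hv⟩
  rw [hC] at hnd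
  have hnd' : (C' ++ [x₀, b₀]).Nodup ∧ z ∉ C' ++ [x₀, b₀] := by
    have h2 : (z :: (C' ++ [x₀, b₀])).Nodup := by
      have h3 : (x₀ :: b₀ :: z :: C') ~r (z :: (C' ++ [x₀, b₀])) := by
        have := @List.isRotated_append V [x₀, b₀] (z :: C')
        simpa using this
      exact h3.nodup_iff.1 hnd
    exact ⟨(List.nodup_cons.1 h2).2, (List.nodup_cons.1 h2).1⟩
  have hmemC : ∀ v, v ∈ C ↔ v = z ∨ v ∈ C' ++ [x₀, b₀] := by
    intro v
    rw [hC]
    simp only [List.mem_cons, List.mem_append, List.not_mem_nil, or_false]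
    tauto
  have h2 := Drawn.cycle (g := (C' ++ [x₀, b₀]).reverse) h1 (by simp)
    (List.nodup_reverse.2 hnd'.1) (by
      intro v hv hv2
      rw [List.mem_reverse] at hv
      exact hfr v ((hmemC v).2 (Or.inr hv)) (fun hvz => hnd'.2 (hvz ▸ hv)) (hvs v hv2))
  rw [List.reverse_reverse] at h2
  -- the edges
  have hedge : pe z ((C' ++ [x₀, b₀]).reverse ++ [z]) = DrC_cyc C := by
    rw [DrC_pe_rev]
    have h3 : C ~r z :: (C' ++ [x₀, b₀]) := by
      rw [hC]
      have := @List.isRotated_append V [x₀, b₀] (z :: C')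
      simpa using this
    rw [DrC_cyc_rot h3]
    rfl
  rw [hedge] at h2
  have h3 := Drawn.perm _ _ _ h2 (List.Perm.swap _ _ _)
  have h4 : Drawn (E ∪ DrC_cyc C) (C :: (z :: (C' ++ [x₀, b₀]).reverse ++ z :: (wb ++ wa)) :: F) := by
    refine h3.rot ?_
    rw [hC]
    have := @List.isRotated_append V (C') ([x₀, b₀, z])
    simpa using this
  obtain ⟨E', F₁, h5, hE', hch, hF₁, hvs₁⟩ := hcb _ _ h4 (hC ▸ hnd)
  obtain ⟨w', hw'⟩ : ∃ w', w' = z :: (C' ++ [x₀, b₀]).reverse ++ z :: (wb ++ wa) := ⟨_, rfl⟩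
  rw [← hw'] at hF₁ hvs₁
  have hmemw' : ∀ v, v ∈ w' ↔ v ∈ C ∨ v ∈ w := by
    intro v
    rw [hw', hmemC, hw]
    simp only [List.mem_cons, List.mem_append, List.mem_reverse, List.cons_append]
    tauto
  obtain ⟨Fa, Fb, hFab⟩ := List.append_of_mem (hF₁ w' List.mem_cons_self)
  refine ⟨E', w', Fa ++ Fb, ?_, fun e he => hE' (Or.inl he), fun k e he => hE' (Or.inr (hrim k he)),
    hch, fun v hv => (hmemw' v).2 (Or.inr hv), fun v hv => (hmemw' v).2 (Or.inl hv), ?_, ?_⟩
  · refine Drawn.perm _ _ _ h5 ?_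
    rw [hFab]
    exact List.Perm.cons _ List.perm_middle
  · intro f hf
    have hf1 : f ∈ F₁ := hF₁ f (List.mem_cons_of_mem _ hf)
    have hb0 : b₀ ∈ C := by rw [hC]; simp
    have hne : f ≠ w' := by
      rintro rfl
      refine hfr b₀ hb0 ?_ ⟨f, List.mem_cons_of_mem _ hf, (hmemw' b₀).2 (Or.inl hb0)⟩
      rintro rfl
      exact hnd'.2 (by simp)
    rw [hFab] at hf1
    simp only [List.mem_append, List.mem_cons] at hf1 ⊢
    tauto
  · rintro v ⟨f, hf, hv⟩
    have hf1 : f ∈ F₁ := by
      rw [hFab]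
      simp only [List.mem_append, List.mem_cons] at hf ⊢
      tauto
    obtain ⟨f', hf', hv'⟩ := hvs₁ ⟨f, hf1, hv⟩
    rcases List.mem_cons.1 hf' with rfl | hf'
    · exact Or.inr hv'
    rcases List.mem_cons.1 hf' with rfl | hf'
    · rcases (hmemw' v).1 hv' with h6 | h6
      · exact Or.inr h6
      · exact Or.inl ⟨w, List.mem_cons_self, h6⟩
    · exact Or.inl ⟨f', List.mem_cons_of_mem _ hf', hv'⟩

end OTh
end

section

/-!
The weight of an outerplanar subgraph of a ring.

PROOF of `ring_bound`.  Take `Rx m`, `Rv m` from `side`, `R = lgr rep X`.  Right representatives `RR m = Rv m` if `m.2 = true` and `Rx m` if `m.2 = false`; left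
representatives `LL m = Rx m` if `m.2 = true`, `Rv m` if `m.2 = false`.  Claim: the number of components is at most
`∑ m, (RR m).card + [full]`, and the same for `LL`.  Adding, with `side` summed over the `2 s` sides:
`∑ w2 + 4 #components ≤ 2 s (6 + 10 c) + 4 [full] = 4 (3 s + 5 s c) + 4 [full]`.
Claim for `RR`: call `u` bad if it reaches (in `R`) no `ρ ∈ RR m`, any `m`; a vertex reachable from a bad one is bad.  If `x k` is bad then
(side `(k, true)`) it reaches some `v k i`, bad, inside the side, and this (side `(k, false)`, of which it is a vertex) reaches `x (k + 1)` inside the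
side, so `x k`, `x (k + 1)` are joined inside the slot `k` and `x (k + 1)` is bad.  So if some `x k` is bad then all `x k` are bad, and `full`.
Each bad `u` reaches some bad `x k`: `u` is a vertex of some side `m` (`x k`: nothing to show; `y m, t m i, b m i, v k i`): if `m.2 = false` it reaches
`x (hub m)`; if `m.2 = true` it reaches a `v m.1 i`, and then `x (m.1 + 1)`.  So each component contains an element of some `RR m`, or (only if `full`)
it is the component of `x 0`: the surjection from `{ρ} ∪ {*}`.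
The claim for `LL` is symmetric: side `(k, false)` from `x (k + 1)` to `v k i`, then side `(k, true)` to `x k`.
-/

set_option autoImplicit false

namespace OTh

open Finset
open scoped Classical

variable {s : ℕ} [NeZero s] {I : Type}

private theorem RingB_cyc {P : Fin s → Prop} (h : ∀ k, P k → P (k + 1)) {k₀ : Fin s} (h0 : P k₀)
    (j : Fin s) : P j := by
  have hs : 0 < s := Nat.pos_of_ne_zero (NeZero.ne s)
  have key : ∀ n : ℕ, P ⟨(k₀.val + n) % s, Nat.mod_lt _ hs⟩ := by
    intro n
    induction n with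
    | zero =>
      have h1 : (⟨(k₀.val + 0) % s, Nat.mod_lt _ hs⟩ : Fin s) = k₀ := by
        apply Fin.ext
        simp [Nat.mod_eq_of_lt k₀.2]
      rwa [h1]
    | succ n ih =>
      have h1 : (⟨(k₀.val + (n + 1)) % s, Nat.mod_lt _ hs⟩ : Fin s) =
          ⟨(k₀.val + n) % s, Nat.mod_lt _ hs⟩ + 1 := by
        apply Fin.ext
        have h2 : ((1 : Fin s) : ℕ) = 1 % s := rfl
        rw [Fin.val_add, h2]
        simp only [Nat.add_mod_mod, Nat.mod_add_mod]
        rfl
      rw [h1]
      exact h _ ih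
  have h1 := key (s - k₀.val + j.val)
  have h2 : (⟨(k₀.val + (s - k₀.val + j.val)) % s, Nat.mod_lt _ hs⟩ : Fin s) = j := by
    apply Fin.ext
    have h3 : k₀.val + (s - k₀.val + j.val) = s + j.val := by
      have := k₀.2
      omega
    simp only [h3, Nat.add_mod_left]
    exact Nat.mod_eq_of_lt j.2
  rwa [h2] at h1

private theorem RingB_cyc' {P : Fin s → Prop} (h : ∀ k, P (k + 1) → P k) {k₀ : Fin s} (h0 : P k₀)
    (j : Fin s) : P j := by
  by_contra hj
  exact RingB_cyc (P := fun k => ¬ P k) (fun k hk h1 => hk (h k h1)) hj k₀ h0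

private theorem RingB_count {W : Type*} (R : SimpleGraph W) (P : Finset W)
    (h : ∀ u, ∃ ρ ∈ P, R.Reachable u ρ) : Nat.card R.ConnectedComponent ≤ P.card := by
  have h1 : Function.Surjective (fun ρ : P => R.connectedComponentMk ρ.1) := by
    intro c
    induction c using SimpleGraph.ConnectedComponent.ind with
    | _ v =>
      obtain ⟨ρ, hρ, h2⟩ := h v
      exact ⟨⟨ρ, hρ⟩, SimpleGraph.ConnectedComponent.eq.2 h2.symm⟩
  have h2 := Nat.card_le_card_of_surjective _ h1
  rwa [Nat.card_eq_fintype_card (α := P), Fintype.card_coe] at h2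

private theorem RingB_comp (X : Finset (Lb s I)) (U : Finset (Rg s I))
    (h2 : ∀ u, (∃ ρ ∈ U, (lgr rep (X : Set (Lb s I))).Reachable u ρ) ∨
      ∃ k, (lgr rep (X : Set (Lb s I))).Reachable u (Rg.x k))
    (h3 : (¬ full X) → ∀ k, ∃ ρ ∈ U, (lgr rep (X : Set (Lb s I))).Reachable (Rg.x k) ρ) :
    Nat.card (lgr rep (X : Set (Lb s I))).ConnectedComponent ≤
      U.card + (if full X then 1 else 0) := by
  by_cases hf : full X
  · rw [if_pos hf]
    have h4 : ∀ k j : Fin s, (lgr rep (X : Set (Lb s I))).Reachable (Rg.x k) (Rg.x j) := by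
      intro k
      refine RingB_cyc (k₀ := k) (fun i hi => hi.trans ((hf i).mono (lgr_mono rep ?_)))
        (SimpleGraph.Reachable.refl _)
      intro e he
      exact he.1
    refine (RingB_count _ (insert (Rg.x (0 : Fin s)) U) fun u => ?_).trans
      (Finset.card_insert_le _ _)
    rcases h2 u with ⟨ρ, hρ, h5⟩ | ⟨k, h5⟩
    · exact ⟨ρ, Finset.mem_insert_of_mem hρ, h5⟩
    · exact ⟨_, Finset.mem_insert_self _ _, h5.trans (h4 k 0)⟩
  · rw [if_neg hf, add_zero]
    refine RingB_count _ U fun u => ?_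
    rcases h2 u with ⟨ρ, hρ, h5⟩ | ⟨k, h5⟩
    · exact ⟨ρ, hρ, h5⟩
    · obtain ⟨ρ, hρ, h6⟩ := h3 hf k
      exact ⟨ρ, hρ, h5.trans h6⟩

theorem ring_bound [Fintype I] (X : Finset (Lb s I)) (f : Rg s I → ℕ) (hf : Function.Injective f)
    (h : NonCr (lgr rep (X : Set (Lb s I))) f) :
    (∑ e ∈ X, w2 e.2.2) + 4 * Nat.card (lgr rep (X : Set (Lb s I))).ConnectedComponent ≤
      4 * (3 * s + 5 * s * Fintype.card I) + (if full X then 4 else 0) := by
  choose Rx Rv h1 h2 h3 using side X f hf h
  set R := lgr rep (X : Set (Lb s I)) with hR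
  have hSR : ∀ m : Fin s × Bool, lgr rep {e | e ∈ X ∧ e.1 = m} ≤ R := fun m =>
    lgr_mono rep fun e he => he.1
  have hSS : ∀ m : Fin s × Bool, lgr rep {e | e ∈ X ∧ e.1 = m} ≤
      lgr rep {e | e ∈ X ∧ e.1.1 = m.1} := fun m =>
    lgr_mono rep fun e he => ⟨he.1, by rw [he.2]⟩
  let RR : Fin s × Bool → Finset (Rg s I) := fun m => if m.2 then Rv m else Rx m
  let LL : Fin s × Bool → Finset (Rg s I) := fun m => if m.2 then Rx m else Rv m
  let UR : Finset (Rg s I) := Finset.univ.biUnion RR
  let UL : Finset (Rg s I) := Finset.univ.biUnion LL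
  have mR1 : ∀ k ρ, ρ ∈ Rv (k, true) → ρ ∈ UR := fun k ρ hρ =>
    Finset.mem_biUnion.2 ⟨(k, true), Finset.mem_univ _, hρ⟩
  have mR2 : ∀ k ρ, ρ ∈ Rx (k, false) → ρ ∈ UR := fun k ρ hρ =>
    Finset.mem_biUnion.2 ⟨(k, false), Finset.mem_univ _, hρ⟩
  have mL1 : ∀ k ρ, ρ ∈ Rx (k, true) → ρ ∈ UL := fun k ρ hρ =>
    Finset.mem_biUnion.2 ⟨(k, true), Finset.mem_univ _, hρ⟩
  have mL2 : ∀ k ρ, ρ ∈ Rv (k, false) → ρ ∈ UL := fun k ρ hρ =>
    Finset.mem_biUnion.2 ⟨(k, false), Finset.mem_univ _, hρ⟩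
  -- the right representatives
  have cR : Nat.card R.ConnectedComponent ≤ UR.card + (if full X then 1 else 0) := by
    have r1 : ∀ k i, (∃ ρ ∈ UR, R.Reachable (.v k i) ρ) ∨
        (lgr rep {e | e ∈ X ∧ e.1 = (k, false)}).Reachable (.v k i) (.x (k + 1)) := by
      intro k i
      rcases h1 (k, false) (.v i) with h4 | ⟨ρ, hρ, h4⟩
      · exact Or.inr h4
      · exact Or.inl ⟨ρ, mR2 k ρ hρ, h4.mono (hSR _)⟩
    have r2 : ∀ k (w : Dv I), (∃ ρ ∈ UR, R.Reachable (ds (k, true) w) ρ) ∨
        ∃ i, (lgr rep {e | e ∈ X ∧ e.1 = (k, true)}).Reachable (ds (k, true) w) (.v k i) := by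
      intro k w
      rcases h2 (k, true) w with h4 | ⟨ρ, hρ, h4⟩
      · exact Or.inr h4
      · exact Or.inl ⟨ρ, mR1 k ρ hρ, h4.mono (hSR _)⟩
    have r3 : ∀ (m : Fin s × Bool) (w : Dv I), (∃ ρ ∈ UR, R.Reachable (ds m w) ρ) ∨
        ∃ k, R.Reachable (ds m w) (Rg.x k) := by
      rintro ⟨k, b⟩ w
      cases b
      · rcases h1 (k, false) w with h4 | ⟨ρ, hρ, h4⟩
        · exact Or.inr ⟨k + 1, h4.mono (hSR _)⟩
        · exact Or.inl ⟨ρ, mR2 k ρ hρ, h4.mono (hSR _)⟩
      · rcases r2 k w with h4 | ⟨i, h4⟩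
        · exact Or.inl h4
        · rcases r1 k i with ⟨ρ, hρ, h5⟩ | h5
          · exact Or.inl ⟨ρ, hρ, (h4.mono (hSR _)).trans h5⟩
          · exact Or.inr ⟨k + 1, (h4.mono (hSR _)).trans (h5.mono (hSR _))⟩
    refine RingB_comp X UR (fun u => ?_) (fun hnf => ?_)
    · cases u with
      | x k => exact Or.inr ⟨k, SimpleGraph.Reachable.refl _⟩
      | y m => exact r3 m .y
      | v k i => exact r3 (k, false) (.v i)
      | t m i => exact r3 m (.t i)
      | b m i => exact r3 m (.b i)
    · have r4 : ∀ k, (∃ ρ ∈ UR, R.Reachable (Rg.x k) ρ) ∨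
          (lgr rep {e | e ∈ X ∧ e.1.1 = k}).Reachable (Rg.x k) (Rg.x (k + 1)) := by
        intro k
        rcases r2 k .x with h4 | ⟨i, h4⟩
        · exact Or.inl h4
        · rcases r1 k i with ⟨ρ, hρ, h5⟩ | h5
          · exact Or.inl ⟨ρ, hρ, (h4.mono (hSR _)).trans h5⟩
          · exact Or.inr ((h4.mono (hSS (k, true))).trans (h5.mono (hSS (k, false))))
      unfold full at hnf
      push Not at hnf
      obtain ⟨k₀, hk₀⟩ := hnf
      have h5 := (r4 k₀).resolve_right hk₀
      refine RingB_cyc' (fun k hk => ?_) h5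
      rcases r4 k with h6 | h6
      · exact h6
      · obtain ⟨ρ, hρ, h7⟩ := hk
        exact ⟨ρ, hρ, (h6.mono (lgr_mono rep fun e he => he.1)).trans h7⟩
  -- the left representatives
  have cL : Nat.card R.ConnectedComponent ≤ UL.card + (if full X then 1 else 0) := by
    have r1 : ∀ k i, (∃ ρ ∈ UL, R.Reachable (.v k i) ρ) ∨
        (lgr rep {e | e ∈ X ∧ e.1 = (k, true)}).Reachable (.v k i) (.x k) := by
      intro k i
      rcases h1 (k, true) (.v i) with h4 | ⟨ρ, hρ, h4⟩
      · exact Or.inr h4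
      · exact Or.inl ⟨ρ, mL1 k ρ hρ, h4.mono (hSR _)⟩
    have r2 : ∀ k (w : Dv I), (∃ ρ ∈ UL, R.Reachable (ds (k, false) w) ρ) ∨
        ∃ i, (lgr rep {e | e ∈ X ∧ e.1 = (k, false)}).Reachable (ds (k, false) w) (.v k i) := by
      intro k w
      rcases h2 (k, false) w with h4 | ⟨ρ, hρ, h4⟩
      · exact Or.inr h4
      · exact Or.inl ⟨ρ, mL2 k ρ hρ, h4.mono (hSR _)⟩
    have r3 : ∀ (m : Fin s × Bool) (w : Dv I), (∃ ρ ∈ UL, R.Reachable (ds m w) ρ) ∨
        ∃ k, R.Reachable (ds m w) (Rg.x k) := by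
      rintro ⟨k, b⟩ w
      cases b
      · rcases r2 k w with h4 | ⟨i, h4⟩
        · exact Or.inl h4
        · rcases r1 k i with ⟨ρ, hρ, h5⟩ | h5
          · exact Or.inl ⟨ρ, hρ, (h4.mono (hSR _)).trans h5⟩
          · exact Or.inr ⟨k, (h4.mono (hSR _)).trans (h5.mono (hSR _))⟩
      · rcases h1 (k, true) w with h4 | ⟨ρ, hρ, h4⟩
        · exact Or.inr ⟨k, h4.mono (hSR _)⟩
        · exact Or.inl ⟨ρ, mL1 k ρ hρ, h4.mono (hSR _)⟩
    refine RingB_comp X UL (fun u => ?_) (fun hnf => ?_)
    · cases u with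
      | x k => exact Or.inr ⟨k, SimpleGraph.Reachable.refl _⟩
      | y m => exact r3 m .y
      | v k i => exact r3 (k, false) (.v i)
      | t m i => exact r3 m (.t i)
      | b m i => exact r3 m (.b i)
    · have r4 : ∀ k, (∃ ρ ∈ UL, R.Reachable (Rg.x (k + 1)) ρ) ∨
          (lgr rep {e | e ∈ X ∧ e.1.1 = k}).Reachable (Rg.x k) (Rg.x (k + 1)) := by
        intro k
        rcases r2 k .x with h4 | ⟨i, h4⟩
        · exact Or.inl h4
        · rcases r1 k i with ⟨ρ, hρ, h5⟩ | h5
          · exact Or.inl ⟨ρ, hρ, (h4.mono (hSR _)).trans h5⟩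
          · exact Or.inr ((h4.mono (hSS (k, false))).trans (h5.mono (hSS (k, true)))).symm
      unfold full at hnf
      push Not at hnf
      obtain ⟨k₀, hk₀⟩ := hnf
      have h5 := (r4 k₀).resolve_right hk₀
      refine RingB_cyc (fun k hk => ?_) h5
      rcases r4 k with h6 | h6
      · exact h6
      · obtain ⟨ρ, hρ, h7⟩ := hk
        exact ⟨ρ, hρ, (h6.symm.mono (lgr_mono rep fun e he => he.1)).trans h7⟩
  -- the sum
  have hsum : (∑ e ∈ X, w2 e.2.2) =
      ∑ m : Fin s × Bool, ∑ e ∈ X.filter (fun e => e.1 = m), w2 e.2.2 :=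
    (Finset.sum_fiberwise X (fun e => e.1) fun e => w2 e.2.2).symm
  have cUR : UR.card ≤ ∑ m : Fin s × Bool, (RR m).card := Finset.card_biUnion_le
  have cUL : UL.card ≤ ∑ m : Fin s × Bool, (LL m).card := Finset.card_biUnion_le
  have cRL : (∑ m : Fin s × Bool, (RR m).card) + ∑ m : Fin s × Bool, (LL m).card =
      (∑ m : Fin s × Bool, (Rx m).card) + ∑ m : Fin s × Bool, (Rv m).card := by
    rw [← Finset.sum_add_distrib, ← Finset.sum_add_distrib]
    refine Finset.sum_congr rfl fun m _ => ?_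
    rcases m with ⟨k, b⟩
    cases b
    · rfl
    · exact add_comm _ _
  have htot : (∑ m : Fin s × Bool, ((∑ e ∈ X.filter (fun e => e.1 = m), w2 e.2.2) +
      2 * (Rx m).card + 2 * (Rv m).card)) ≤ ∑ _m : Fin s × Bool, (6 + 10 * Fintype.card I) :=
    Finset.sum_le_sum fun m _ => h3 m
  rw [Finset.sum_add_distrib, Finset.sum_add_distrib, ← hsum, ← Finset.mul_sum, ← Finset.mul_sum,
    Finset.sum_const, Finset.card_univ, Fintype.card_prod, Fintype.card_fin, Fintype.card_bool,
    smul_eq_mul] at htot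
  have e1 : s * 2 * (6 + 10 * Fintype.card I) = 4 * (3 * s + 5 * s * Fintype.card I) := by ring
  rw [e1] at htot
  split_ifs at cR cL ⊢ <;> omega

end OTh
end

section

/-!
The first edge; rotations and permutations.

* `realized_edge`: `pt x = if x = u then 0 else 1`, `arc _ = ofReal '' Icc 0 1`, `Φ = [fun z => z ^ 2]`, corners `[(0, u), (1, v)]`.  The square of `z ∈ HH` is not
  a nonnegative real number.
* `realized_rotate`: `Φ = φ :: Φ'`, replace `φ` by `φ ∘ ψ` of `faceMap_rotate`; `(φ ∘ ψ) '' HH ⊆ φ '' HH`; the vertices on faces (`OnF`) are the same.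
* `realized_perm`: `List.perm_comp_forall₂` or by induction on the permutation (swap).
-/

set_option autoImplicit false

namespace OTh

open Set Filter Topology Complex

private theorem TStA_sq_ne {z : ℂ} (hz : z ∈ HH) {r : ℝ} (hr : 0 ≤ r) : z ^ 2 ≠ (r : ℂ) := by
  intro h
  have hz' : 0 < z.im := hz
  have h1 := congrArg Complex.im h
  have h2 := congrArg Complex.re h
  simp only [sq, Complex.mul_im, Complex.mul_re, Complex.ofReal_im, Complex.ofReal_re] at h1 h2
  have h3 : z.re * z.im = 0 := by linarith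
  have h4 : z.re = 0 := by
    rcases mul_eq_zero.1 h3 with h4 | h4
    · exact h4
    · exact absurd h4 hz'.ne'
  rw [h4] at h2
  have := mul_pos hz' hz'
  linarith

private theorem TStA_faceMap {V : Type*} {pt : V → ℂ} {u v : V} (h0 : pt u = 0) (h1 : pt v = 1) :
    FaceMap pt [u, v] (fun z : ℂ => z ^ 2) := by
  refine ⟨by fun_prop, ?_, [(0, u), (1, v)], by simp, by simp, ?_⟩
  · intro z hz w hw h
    have hz' : 0 < z.im := hz
    have hw' : 0 < w.im := hw
    rcases sq_eq_sq_iff_eq_or_eq_neg.1 (show z ^ 2 = w ^ 2 from h) with h | h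
    · exact h
    · rw [h, Complex.neg_im] at hz'
      linarith
  · intro p hp
    have hc : Continuous (fun z : ℂ => z ^ 2) := by fun_prop
    simp only [List.mem_cons, List.not_mem_nil, or_false] at hp
    rcases hp with rfl | rfl
    · have h := (hc.tendsto ((0 : ℝ) : ℂ)).mono_left
        (nhdsWithin_le_nhds (s := HH) (a := ((0 : ℝ) : ℂ)))
      simpa [h0] using h
    · have h := (hc.tendsto ((1 : ℝ) : ℂ)).mono_left
        (nhdsWithin_le_nhds (s := HH) (a := ((1 : ℝ) : ℂ)))
      simpa [h1] using h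

/-- `u` is the point `0`, `v` the point `1`, the arc is the segment, the face is the image of `z ↦ z ^ 2`, with corners `0` and `1` -/
theorem realized_edge {V : Type*} (u v : V) (huv : u ≠ v) :
    ∃ pt arc Φ, Realized {s(u, v)} [[u, v]] pt arc Φ := by
  classical
  have hon : ∀ w : V, OnF [[u, v]] w → w = u ∨ w = v := by
    rintro w ⟨f, hf, hw⟩
    simp only [List.mem_cons, List.not_mem_nil, or_false] at hf
    subst hf
    simpa using hw
  set pt : V → ℂ := fun x => if x = u then 0 else 1 with hpt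
  have hu : pt u = 0 := by simp [hpt]
  have hv : pt v = 1 := by simp [hpt, huv.symm]
  refine ⟨pt, fun _ => Complex.ofReal '' Icc (0 : ℝ) 1, [fun z => z ^ 2], ?_, ?_, ?_, ?_, ?_, ?_, ?_, ?_, ?_⟩
  · exact List.Forall₂.cons (TStA_faceMap hu hv) List.Forall₂.nil
  · exact List.pairwise_singleton _ _
  · intro w hw φ hφ
    simp only [List.mem_cons, List.not_mem_nil, or_false] at hφ
    subst hφ
    rintro ⟨z, hz, hzw⟩
    rcases hon w hw with rfl | rfl
    · rw [hu] at hzw
      exact TStA_sq_ne hz (r := 0) le_rfl (by simpa using hzw)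
    · rw [hv] at hzw
      exact TStA_sq_ne hz (r := 1) zero_le_one (by simpa using hzw)
  · intro e _ φ hφ
    simp only [List.mem_cons, List.not_mem_nil, or_false] at hφ
    subst hφ
    rw [Set.disjoint_left]
    rintro _ ⟨r, hr, rfl⟩ ⟨z, hz, hzw⟩
    exact TStA_sq_ne hz hr.1 hzw
  · intro e he w hw
    rw [Set.mem_singleton_iff] at he
    subst he
    refine ⟨[u, v], by simp, ?_⟩
    rw [Sym2.mem_iff] at hw
    simpa using hw
  · intro a b ha hb hab
    rcases hon a ha with rfl | rfl <;> rcases hon b hb with rfl | rfl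
    · rfl
    · rw [hu, hv] at hab
      exact absurd hab zero_ne_one
    · rw [hu, hv] at hab
      exact absurd hab one_ne_zero
    · rfl
  · intro a b hab
    rw [Set.mem_singleton_iff, Sym2.eq_iff] at hab
    rcases hab with ⟨rfl, rfl⟩ | ⟨rfl, rfl⟩
    · refine ⟨fun t => (t : ℂ), Complex.continuous_ofReal.continuousOn, ?_, ?_, ?_, rfl⟩
      · intro s _ t _ h
        exact Complex.ofReal_injective h
      · simp [hu]
      · simp [hv]
    · refine ⟨fun t => ((1 - t : ℝ) : ℂ), ?_, ?_, ?_, ?_, ?_⟩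
      · exact (Complex.continuous_ofReal.comp (continuous_const.sub continuous_id)).continuousOn
      · intro s _ t _ h
        have h' := Complex.ofReal_injective h
        linarith
      · simp [hv]
      · simp [hu]
      · ext z
        constructor
        · rintro ⟨t, ht, rfl⟩
          exact ⟨1 - t, ⟨by linarith [ht.2], by linarith [ht.1]⟩, rfl⟩
        · rintro ⟨t, ht, rfl⟩
          refine ⟨1 - t, ⟨by linarith [ht.2], by linarith [ht.1]⟩, ?_⟩
          show ((1 - (1 - t) : ℝ) : ℂ) = (t : ℂ)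
          rw [sub_sub_cancel]
  · intro e he w hw _
    rw [Set.mem_singleton_iff] at he
    subst he
    rw [Sym2.mem_iff]
    exact hon w hw
  · intro e he f hf hef
    rw [Set.mem_singleton_iff] at he hf
    exact absurd (he.trans hf.symm) hef

theorem realized_rotate {V : Type*} {E : Set (Sym2 V)} {u : V} {w : List V} {F : List (List V)}
    {pt : V → ℂ} {arc : Sym2 V → Set ℂ} {Φ : List (ℂ → ℂ)}
    (h : Realized E ((u :: w) :: F) pt arc Φ) :
    ∃ pt' arc' Φ', Realized E ((w ++ [u]) :: F) pt' arc' Φ' := by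
  have hface := h.face
  obtain _ | ⟨hφ, hΦ⟩ := hface
  rename_i φ Φ'
  obtain ⟨ψ, hψ, hψf⟩ := faceMap_rotate hφ
  have hon : ∀ x, OnF ((w ++ [u]) :: F) x ↔ OnF ((u :: w) :: F) x := by
    intro x
    unfold OnF
    simp only [List.mem_cons, exists_eq_or_imp, List.mem_append, List.not_mem_nil, or_false]
    tauto
  have hsub : (φ ∘ ψ) '' HH ⊆ φ '' HH := by
    rintro _ ⟨z, hz, rfl⟩
    exact ⟨ψ z, hψ.maps hz, rfl⟩
  have hd := List.pairwise_cons.1 h.disj
  refine ⟨pt, arc, (φ ∘ ψ) :: Φ', List.Forall₂.cons hψf hΦ, ?_, ?_, ?_, ?_, ?_, ?_, ?_, ?_⟩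
  · rw [List.pairwise_cons]
    exact ⟨fun χ hχ => (hd.1 χ hχ).mono_left hsub, hd.2⟩
  · intro x hx χ hχ
    rw [hon] at hx
    rcases List.mem_cons.1 hχ with rfl | hχ
    · exact fun hm => h.pt_face x hx φ (by simp) (hsub hm)
    · exact h.pt_face x hx χ (by simp [hχ])
  · intro e he χ hχ
    rcases List.mem_cons.1 hχ with rfl | hχ
    · exact (h.arc_face e he φ (by simp)).mono_right hsub
    · exact h.arc_face e he χ (by simp [hχ])
  · intro e he x hx
    rw [hon]
    exact h.ends e he x hx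
  · intro x y hx hy
    rw [hon] at hx hy
    exact h.pt_inj x y hx hy
  · exact h.isArc
  · intro e he x hx
    rw [hon] at hx
    exact h.no_vertex e he x hx
  · intro e he f hf hef z hz
    obtain ⟨x, hx, hxz⟩ := h.inter e he f hf hef z hz
    exact ⟨x, (hon x).2 hx, hxz⟩

theorem realized_perm {V : Type*} {E : Set (Sym2 V)} {F F' : List (List V)}
    {pt : V → ℂ} {arc : Sym2 V → Set ℂ} {Φ : List (ℂ → ℂ)}
    (h : Realized E F pt arc Φ) (hF : F.Perm F') :
    ∃ pt' arc' Φ', Realized E F' pt' arc' Φ' := by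
  obtain ⟨Φ', hΦ', hperm⟩ := List.perm_comp_forall₂ hF.symm h.face
  have hon : ∀ x, OnF F' x ↔ OnF F x := by
    intro x
    unfold OnF
    simp only [hF.mem_iff]
  refine ⟨pt, arc, Φ', hΦ', ?_, ?_, ?_, ?_, ?_, ?_, ?_, ?_⟩
  · refine (hperm.pairwise_iff ?_).2 h.disj
    intro φ ψ hd
    exact hd.symm
  · intro x hx χ hχ
    rw [hon] at hx
    exact h.pt_face x hx χ (hperm.mem_iff.1 hχ)
  · intro e he χ hχ
    exact h.arc_face e he χ (hperm.mem_iff.1 hχ)
  · intro e he x hx
    rw [hon]
    exact h.ends e he x hx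
  · intro x y hx hy
    rw [hon] at hx hy
    exact h.pt_inj x y hx hy
  · exact h.isArc
  · intro e he x hx
    rw [hon] at hx
    exact h.no_vertex e he x hx
  · intro e he f hf hef z hz
    obtain ⟨x, hx, hxz⟩ := h.inter e he f hf hef z hz
    exact ⟨x, (hon x).2 hx, hxz⟩

end OTh
end

section

/-!
Short cycles through the units stay in one unit.

PROOF of `unit_lemma`.  Put `p' k = p k` for `k ≤ r`, `p' (r+1) = p 0`, `U' k = U k` for `k ≤ r`, `U' (r+1) = U 0`.  For `1 ≤ k ≤ r + 1` the vertex `p' k` lies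
in the units `U' (k-1)` and `U' k`:
 * `p' k = u w l ρ`: `l = (U' (k-1)).2 = (U' k).2`, `w = (U' (k-1)).1 * γ (i, l, ρ) = (U' k).1 * γ (i', l, ρ)` for some `i`, `i'`;
 * `p' k = z j`: `j = (U' (k-1)).1 = (U' k).1`;  * `p' k = fx ..`, `fy ..`, `p ..`: `U' (k-1) = U' k` (`p ..` is impossible).
By induction on `k` there is a word `W k : List Γ` with
 (1) `(U' k).1 = (U' 0).1 * ((W k).map γ).prod`;  (2) `(W k).IsChain (· ≠ ·)`;  (3) `(W k).length ≤ 2 k`;
 (4) if `g = (i, l, ρ)` is the last letter of `W k` then `p' m = u ((U' k).1 * γ g) l ρ` for some `m` with `1 ≤ m ≤ k`;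
 (5) if `W k = []` then `(U' k').1 = (U' 0).1` for all `k' ≤ k`, and `(U' k').2 = (U' (k' - 1)).2` for all `1 ≤ k' ≤ k` such that `p' k'` is not `z _`.
Step `k - 1 → k`: in the first case with `i ≠ i'` append `(i, l, ρ)`, `(i', l, ρ)`; `W (k-1)` does not end with `(i, l, ρ)`: by (4) it would be
`p' m = p' k` with `1 ≤ m < k ≤ r + 1`, impossible (for `k = r + 1`: `p m = p 0`).  In all other cases (`i = i'`: then `U' (k-1) = U' k`) keep the word.
For `k = r + 1`: `U' (r+1) = U 0`, so the product is `1`, and `W (r+1) = []` (length at most `2 (r+1) ≤ n`).  So by (5) all `(U k).1` are equal to `j`; the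
second components can change only at a `k` with `p' k = z j`, and there is at most one such `k` in `1 .. r+1`; as `U' 0 = U' (r+1)` they do not
change at all.
-/

set_option autoImplicit false

namespace OTh

variable {Q : Type} [Group Q] {s L : ℕ} [NeZero s] {I π : Type}

/-- two units with a common vertex -/
private theorem unitl_local (γ : Gam s L I → Q) (V W : Q × Fin L) (x y : Rg s I) (q : Vx Q s L π)
    (hx : emb γ V x = q) (hy : emb γ W y = q) :
    W = V ∨ (W.1 = V.1 ∧ q = Vx.z V.1) ∨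
      ∃ (w : Q) (l : Fin L) (ρ : Ro s) (i i' : I), q = Vx.u w l ρ ∧ V.2 = l ∧ W.2 = l ∧
        w = V.1 * γ (i, l, ρ) ∧ w = W.1 * γ (i', l, ρ) := by
  obtain ⟨j, l⟩ := V
  obtain ⟨j', l'⟩ := W
  subst hx
  rcases x with k | m | ⟨k, i⟩ | ⟨m, i⟩ | ⟨m, i⟩ <;>
    rcases y with k' | m' | ⟨k', i'⟩ | ⟨m', i'⟩ | ⟨m', i'⟩ <;>
    simp only [emb] at hy ⊢
  · simp only [Vx.fx.injEq] at hy
    left
    rw [hy.1, hy.2.1]
  · split_ifs at hy
  · exact absurd hy (by simp)
  · exact absurd hy (by simp)
  · exact absurd hy (by simp)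
  · split_ifs at hy
  · split_ifs at hy with h1 h2 h2
    · right; left
      simp only [Vx.z.injEq] at hy
      rw [if_pos h2]
      exact ⟨hy, rfl⟩
    · simp only [Vx.fy.injEq] at hy
      left
      rw [hy.1, hy.2.1]
  · split_ifs at hy
  · split_ifs at hy
  · split_ifs at hy
  · exact absurd hy (by simp)
  · split_ifs at hy
  · simp only [Vx.u.injEq, Ro.v.injEq] at hy
    obtain ⟨h1, h2, h3⟩ := hy
    subst h2 h3
    right; right
    exact ⟨_, _, _, i, i', rfl, rfl, rfl, rfl, h1.symm⟩
  · exact absurd hy (by simp)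
  · exact absurd hy (by simp)
  · exact absurd hy (by simp)
  · split_ifs at hy
  · exact absurd hy (by simp)
  · simp only [Vx.u.injEq, Ro.t.injEq] at hy
    obtain ⟨h1, h2, h3⟩ := hy
    subst h2 h3
    right; right
    exact ⟨_, _, _, i, i', rfl, rfl, rfl, rfl, h1.symm⟩
  · exact absurd hy (by simp)
  · exact absurd hy (by simp)
  · split_ifs at hy
  · exact absurd hy (by simp)
  · exact absurd hy (by simp)
  · simp only [Vx.u.injEq, Ro.b.injEq] at hy
    obtain ⟨h1, h2, h3⟩ := hy
    subst h2 h3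
    right; right
    exact ⟨_, _, _, i, i', rfl, rfl, rfl, rfl, h1.symm⟩

omit [Group Q] in
private theorem unitl_const (U : ℕ → Q × Fin L) (a b : ℕ) (hab : a ≤ b)
    (h : ∀ m, a < m → m ≤ b → U m = U (m - 1)) : U b = U a := by
  induction b, hab using Nat.le_induction with
  | base => rfl
  | succ c hc ih =>
    have h1 := h (c + 1) (by omega) le_rfl
    rw [h1, Nat.add_sub_cancel]
    exact ih fun m hm hm' => h m hm (by omega)

private theorem unitl_aux {γ : Gam s L I → Q} {n : ℕ} (hγ : GoodG γ n) (r : ℕ)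
    (hrn : 2 * (r + 1) ≤ n) (p : ℕ → Vx Q s L π)
    (hp : ∀ i j, 1 ≤ i → i ≤ r + 1 → 1 ≤ j → j ≤ r + 1 → p i = p j → i = j)
    (U : ℕ → Q × Fin L) (hU : U (r + 1) = U 0)
    (hst : ∀ k ≤ r, ∃ x y : Rg s I, emb γ (U k) x = p (k + 1) ∧ emb γ (U (k + 1)) y = p (k + 1)) :
    ∀ k ≤ r + 1, U k = U 0 := by
  have main : ∀ k ≤ r + 1, ∃ W : List (Gam s L I), (U k).1 = (U 0).1 * (W.map γ).prod ∧
      W.IsChain (· ≠ ·) ∧ W.length ≤ 2 * k ∧
      (∀ g ∈ W.getLast?, ∃ m, 1 ≤ m ∧ m ≤ k ∧ p m = Vx.u ((U k).1 * γ g) g.2.1 g.2.2) ∧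
      (W = [] → ∀ k', 1 ≤ k' → k' ≤ k → U k' = U (k' - 1) ∨ p k' = Vx.z (U 0).1) := by
    intro k
    induction k with
    | zero =>
      intro _
      refine ⟨[], by simp, by simp, by simp, by simp, ?_⟩
      intro _ k' h1 h2
      omega
    | succ k ih =>
      intro hk
      obtain ⟨W, h1, h2, h3, h4, h5⟩ := ih (by omega)
      obtain ⟨x, y, hx, hy⟩ := hst k (by omega)
      -- the cases in which the word is kept
      have keep : (U (k + 1)).1 = (U k).1 →
          (W = [] → U (k + 1) = U k ∨ p (k + 1) = Vx.z (U 0).1) →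
          ∃ W : List (Gam s L I), (U (k + 1)).1 = (U 0).1 * (W.map γ).prod ∧
            W.IsChain (· ≠ ·) ∧ W.length ≤ 2 * (k + 1) ∧
            (∀ g ∈ W.getLast?, ∃ m, 1 ≤ m ∧ m ≤ k + 1 ∧
              p m = Vx.u ((U (k + 1)).1 * γ g) g.2.1 g.2.2) ∧
            (W = [] → ∀ k', 1 ≤ k' → k' ≤ k + 1 → U k' = U (k' - 1) ∨ p k' = Vx.z (U 0).1) := by
        intro e1 e2
        refine ⟨W, by rw [e1, h1], h2, by omega, ?_, ?_⟩
        · intro g hg
          obtain ⟨m, m1, m2, m3⟩ := h4 g hg
          exact ⟨m, m1, by omega, by rw [e1, m3]⟩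
        · intro hW k' q1 q2
          rcases Nat.lt_or_ge k' (k + 1) with q3 | q3
          · exact h5 hW k' q1 (by omega)
          · have q4 : k' = k + 1 := by omega
            subst q4
            rw [Nat.add_sub_cancel]
            exact e2 hW
      rcases unitl_local γ (U k) (U (k + 1)) x y (p (k + 1)) hx hy with e | ⟨e, e'⟩ | e
      · exact keep (by rw [e]) fun _ => Or.inl e
      · refine keep e fun hW => Or.inr ?_
        rw [e', h1, hW]
        simp
      · obtain ⟨w, l, ρ, i, i', c1, c2, c3, c4, c5⟩ := e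
        by_cases hi : i = i'
        · subst hi
          have e1 : (U (k + 1)).1 = (U k).1 := by
            have := c5.symm.trans c4
            exact mul_right_cancel this
          exact keep e1 fun _ => Or.inl (Prod.ext e1 (by rw [c2, c3]))
        · refine ⟨W ++ [(i, l, ρ), (i', l, ρ)], ?_, ?_, ?_, ?_, ?_⟩
          · rw [List.map_append, List.prod_append]
            simp only [List.map_cons, List.map_nil, List.prod_cons, List.prod_nil, mul_one]
            rw [← mul_assoc, ← mul_assoc, ← h1, ← c4, c5, mul_assoc, hγ.inv, mul_one]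
          · rw [List.isChain_append]
            refine ⟨h2, by simp [hi], ?_⟩
            intro g hg g' hg'
            simp only [List.head?_cons, Option.mem_def, Option.some.injEq] at hg'
            subst hg'
            intro hgg
            obtain ⟨m, m1, m2, m3⟩ := h4 g hg
            rw [hgg] at m3
            simp only at m3
            rw [← c4, ← c1] at m3
            have := hp m (k + 1) m1 (by omega) (by omega) hk m3
            omega
          · simp only [List.length_append, List.length_cons, List.length_nil]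
            omega
          · intro g hg
            have hg' : g = (i', l, ρ) := by
              simpa using hg.symm
            subst hg'
            exact ⟨k + 1, by omega, le_rfl, by rw [c1, c5]⟩
          · intro h
            simp at h
  obtain ⟨W, h1, h2, h3, h4, h5⟩ := main (r + 1) le_rfl
  have hW : W = [] := by
    by_contra hne
    refine hγ.rel W hne (h3.trans hrn) h2 ?_
    rw [hU] at h1
    exact (mul_eq_left.1 h1.symm)
  have h6 := h5 hW
  intro k hk
  by_contra hne
  -- a change before `k`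
  have c1 : ∃ m, 0 < m ∧ m ≤ k ∧ p m = Vx.z (U 0).1 := by
    by_contra hc
    push Not at hc
    refine hne (unitl_const U 0 k (by omega) fun m m1 m2 => ?_)
    rcases h6 m m1 (by omega) with h | h
    · exact h
    · exact absurd h (hc m m1 m2)
  have c2 : ∃ m, k < m ∧ m ≤ r + 1 ∧ p m = Vx.z (U 0).1 := by
    by_contra hc
    push Not at hc
    refine hne ?_
    rw [← hU]
    refine (unitl_const U k (r + 1) hk fun m m1 m2 => ?_).symm
    rcases h6 m (by omega) m2 with h | h
    · exact h
    · exact absurd h (hc m m1 m2)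
  obtain ⟨m, m1, m2, m3⟩ := c1
  obtain ⟨m', m1', m2', m3'⟩ := c2
  have := hp m m' m1 (by omega) (by omega) m2' (m3.trans m3'.symm)
  omega

theorem unit_lemma {γ : Gam s L I → Q} {n : ℕ} (hγ : GoodG γ n) (r : ℕ) (hr : 1 ≤ r)
    (hrn : 2 * (r + 1) ≤ n) (p : ℕ → Vx Q s L π) (hp : ∀ i ≤ r, ∀ j ≤ r, p i = p j → i = j)
    (U : ℕ → Q × Fin L) (a b : ℕ → Rg s I) (ha : ∀ k ≤ r, emb γ (U k) (a k) = p k)
    (hb : ∀ k < r, emb γ (U k) (b k) = p (k + 1)) (hb' : emb γ (U r) (b r) = p 0) :
    ∀ k ≤ r, U k = U 0 := by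
  have h := unitl_aux hγ r hrn (fun k => if k ≤ r then p k else p 0)
    (by
      intro i j i1 i2 j1 j2 hij
      split_ifs at hij with h1 h2 h2
      · exact hp i h1 j h2 hij
      · have := hp i h1 0 (by omega) hij
        omega
      · have := hp 0 (by omega) j h2 hij
        omega
      · omega)
    (fun k => if k ≤ r then U k else U 0) (by simp)
    (by
      intro k hk
      rcases Nat.lt_or_ge k r with h1 | h1
      · refine ⟨b k, a (k + 1), ?_, ?_⟩
        · simp only [if_pos hk, if_pos (show k + 1 ≤ r by omega)]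
          exact hb k h1
        · simp only [if_pos (show k + 1 ≤ r by omega)]
          exact ha (k + 1) h1
      · have h2 : k = r := by omega
        subst h2
        refine ⟨b k, a 0, ?_, ?_⟩
        · simp only [if_pos hk, if_neg (show ¬ k + 1 ≤ k by omega)]
          exact hb'
        · simp only [if_neg (show ¬ k + 1 ≤ k by omega)]
          exact ha 0 (by omega))
  intro k hk
  have h1 := h k (by omega)
  simpa only [if_pos hk, if_pos (Nat.zero_le r)] using h1

end OTh
end

section

/-!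
The union of the spanning forests of the rings has large girth.

PROOF of `forest_union`.  Take `T U` from `exists_forest (R U)`, `τ U = (T U).edgeSet.ncard`.  Let `T` be the graph on `Vx` with the edges
`emb γ U u, emb γ U v` for `(T U).Adj u v`.  `T ≤ P`, so `NonCr T f`.  All ends of edges lie in `Wset γ`.
 * Its number of edges is `∑ U, τ U`: the map `(U, edge of T U) ↦ edge of T` is a bijection: surjective by definition, and if the edges `a b` of `T U` and
   `a' b'` of `T U'` have the same image then `U = U'` by `unit_lemma` with `r = 1` (`p 0, p 1` the two ends, `U 0 = U`, `U 1 = U'`) and then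
   they are equal by `emb_inj`.  (`≥` is enough: `∑ τ U ≤ T.edgeSet.ncard`.)
 * `hcyc` of `girth_bound`: `2 ≤ r ≤ g`, `p` a cycle in `T`: for `k < r` there are `U k`, `a k`, `b k` with `(T (U k)).Adj (a k) (b k)`, `emb (a k) = p k`,
   `emb (b k) = p (k+1)`, and for `k = r` with `emb (b r) = p 0`.  By `unit_lemma` all `U k` are equal to `U 0`, by `emb_inj` `b k = a (k+1)`,
   `b r = a 0`: a cycle in `T (U 0)`, contradiction to `NoCyc`.
`girth_bound` gives `g * ∑ τ ≤ (g + 1) * (Wset γ).card`, and `card_W`.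
-/

set_option autoImplicit false

namespace OTh

open Finset
open scoped Classical

variable {Q : Type} [Group Q] [Fintype Q] {s L : ℕ} [NeZero s] {I π : Type} [Fintype I] [Fintype π]

omit [Fintype Q] [Fintype I] [Fintype π] in
private theorem un_unit2 {γ : Gam s L I → Q} {n : ℕ} (hγ : GoodG γ n) (hn : 4 ≤ n)
    (U U' : Q × Fin L) (a b a' b' : Rg s I) (hab : a ≠ b)
    (h1 : emb (π := π) γ U a = emb γ U' a') (h2 : emb (π := π) γ U b = emb γ U' b') :
    U' = U := by
  have hinj := emb_inj (π := π) hγ (by omega) U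
  have key := unit_lemma (π := π) hγ 1 le_rfl (by omega)
    (fun k => if k = 0 then emb γ U a else emb γ U b) (by
      intro i hi j hj hij
      interval_cases i <;> interval_cases j <;> simp at hij ⊢
      · exact hab (hinj hij)
      · exact hab (hinj hij).symm)
    (fun k => if k = 0 then U else U') (fun k => if k = 0 then a else b')
    (fun k => if k = 0 then b else a') (by
      intro k hk
      interval_cases k
      · simp
      · simp [h2]) (by
      intro k hk
      interval_cases k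
      simp) (by simp [h1]) 1 le_rfl
  simpa using key

omit [Fintype Q] [Fintype I] [Fintype π] in
private theorem un_sym2 {γ : Gam s L I → Q} {n : ℕ} (hγ : GoodG γ n) (hn : 4 ≤ n)
    (U U' : Q × Fin L) (e e' : Sym2 (Rg s I)) (he : ¬ e.IsDiag)
    (h : Sym2.map (emb (π := π) γ U) e = Sym2.map (emb γ U') e') : U' = U := by
  induction e using Sym2.ind with
  | _ a b =>
    induction e' using Sym2.ind with
    | _ a' b' =>
      have hab : a ≠ b := by simpa using he
      rw [Sym2.map_mk, Sym2.map_mk, Sym2.eq_iff] at h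
      rcases h with ⟨h1, h2⟩ | ⟨h1, h2⟩
      · exact un_unit2 hγ hn U U' a b a' b' hab h1 h2
      · exact un_unit2 hγ hn U U' a b b' a' hab h1 h2

theorem forest_union {γ : Gam s L I → Q} {g : ℕ} (hg : 1 ≤ g) (hγ : GoodG γ (2 * (g + 1)))
    (P : SimpleGraph (Vx Q s L π)) {f : Vx Q s L π → ℕ} (hf : Function.Injective f)
    (hP : NonCr P f) (R : Q × Fin L → SimpleGraph (Rg s I))
    (hR : ∀ U u v, (R U).Adj u v → P.Adj (emb γ U u) (emb γ U v)) :
    ∃ τ : Q × Fin L → ℕ,
      (∀ U, τ U + Nat.card (R U).ConnectedComponent = Fintype.card (Rg s I)) ∧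
      g * ∑ U, τ U ≤ (g + 1) * (Fintype.card Q * (L * (8 * s - 1) + 1)) := by
  have hT := fun U => exists_forest (R U)
  choose T hTR hTc hTn using hT
  refine ⟨fun U => (T U).edgeSet.ncard, hTc, ?_⟩
  have hinj : ∀ U, Function.Injective (emb (π := π) γ U) := fun U => emb_inj hγ (by omega) U
  let Tt : SimpleGraph (Vx Q s L π) :=
    { Adj := fun x y => ∃ U u v, (T U).Adj u v ∧ emb γ U u = x ∧ emb γ U v = y
      symm := ⟨by
        rintro x y ⟨U, u, v, h, h1, h2⟩
        exact ⟨U, v, u, h.symm, h2, h1⟩⟩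
      loopless := ⟨by
        rintro x ⟨U, u, v, h, h1, h2⟩
        exact h.ne (hinj U (h1.trans h2.symm))⟩ }
  have hTP : ∀ x y, Tt.Adj x y → P.Adj x y := by
    rintro x y ⟨U, u, v, h, rfl, rfl⟩
    exact hR U u v (hTR U h)
  have hnc : NonCr Tt f := fun a b c d h1 h2 => hP a b c d (hTP _ _ h1) (hTP _ _ h2)
  have hW : ∀ u v, Tt.Adj u v → u ∈ Wset (π := π) γ := by
    rintro x y ⟨U, u, v, h, rfl, rfl⟩
    exact Finset.mem_image.2 ⟨(U, u), Finset.mem_univ _, rfl⟩
  have hcyc : ∀ (r : ℕ) (p : ℕ → Vx Q s L π), 2 ≤ r → r ≤ g →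
      (∀ i ≤ r, ∀ j ≤ r, p i = p j → i = j) →
      (∀ i < r, Tt.Adj (p i) (p (i + 1))) → Tt.Adj (p r) (p 0) → False := by
    intro r p hr hrg hp hadj hadj'
    have hex : ∀ k, ∃ U u v, (T U).Adj u v ∧ emb γ U u = p (min k r) ∧
        emb γ U v = (if k < r then p (k + 1) else p 0) := by
      intro k
      by_cases hk : k < r
      · have := hadj k hk
        rw [if_pos hk, min_eq_left hk.le]
        exact this
      · rw [if_neg hk, min_eq_right (not_lt.1 hk)]
        exact hadj'
    choose U a b hab ha hb using hex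
    have ha' : ∀ k ≤ r, emb γ (U k) (a k) = p k := by
      intro k hk
      rw [ha k, min_eq_left hk]
    have hb' : ∀ k < r, emb γ (U k) (b k) = p (k + 1) := by
      intro k hk
      rw [hb k, if_pos hk]
    have hb'' : emb γ (U r) (b r) = p 0 := by
      rw [hb r, if_neg (lt_irrefl _)]
    have hU := unit_lemma hγ r (by omega) (by omega) p hp U a b ha' hb' hb''
    refine hTn (U 0) r a hr ?_ ?_ ?_
    · intro i hi j hj hij
      apply hp i hi j hj
      rw [← ha' i hi, ← ha' j hj, hU i hi, hU j hj, hij]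
    · intro i hi
      have h1 : b i = a (i + 1) := by
        apply hinj (U 0)
        have e1 := hb' i hi
        have e2 := ha' (i + 1) hi
        rw [hU i hi.le] at e1
        rw [hU (i + 1) hi] at e2
        rw [e1, e2]
      have h2 := hab i
      rw [hU i hi.le, h1] at h2
      exact h2
    · have h1 : b r = a 0 := by
        apply hinj (U 0)
        have e1 := hb''
        have e2 := ha' 0 (Nat.zero_le _)
        rw [hU r le_rfl] at e1
        rw [e1, e2]
      have h2 := hab r
      rw [hU r le_rfl, h1] at h2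
      exact h2
  have hbound := girth_bound Tt hf hnc (Wset (π := π) γ) hW g hg hcyc
  have hcard := card_W (π := π) γ (Nat.one_le_iff_ne_zero.2 (NeZero.ne s))
  have hsum : ∑ U, (T U).edgeSet.ncard ≤ Tt.edgeSet.ncard := by
    let E : Q × Fin L → Finset (Sym2 (Vx Q s L π)) := fun U =>
      ((T U).edgeSet.toFinset).image (Sym2.map (emb γ U))
    have hE : ∀ U, (E U).card = (T U).edgeSet.ncard := by
      intro U
      rw [Set.ncard_eq_toFinset_card']
      exact Finset.card_image_of_injective _ (Sym2.map.injective (hinj U))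
    have hdisj : ∀ U ∈ (univ : Finset (Q × Fin L)), ∀ U' ∈ (univ : Finset (Q × Fin L)), U ≠ U' →
        Disjoint (E U) (E U') := by
      intro U _ U' _ hne
      rw [Finset.disjoint_left]
      intro x hx hx'
      obtain ⟨e, he, rfl⟩ := Finset.mem_image.1 hx
      obtain ⟨e', he', h⟩ := Finset.mem_image.1 hx'
      have he2 := Set.mem_toFinset.1 he
      exact hne (un_sym2 hγ (by omega) U U' e e' ((T U).not_isDiag_of_mem_edgeSet he2) h.symm).symm
    have hsub : (univ.biUnion E) ⊆ Tt.edgeSet.toFinset := by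
      intro x hx
      obtain ⟨U, _, hx⟩ := Finset.mem_biUnion.1 hx
      obtain ⟨e, he, rfl⟩ := Finset.mem_image.1 hx
      rw [Set.mem_toFinset] at he ⊢
      induction e using Sym2.ind with
      | _ u v =>
        rw [Sym2.map_mk, SimpleGraph.mem_edgeSet]
        exact ⟨U, u, v, he, rfl, rfl⟩
    rw [Set.ncard_eq_toFinset_card' Tt.edgeSet]
    calc ∑ U, (T U).edgeSet.ncard = ∑ U, (E U).card := by simp only [hE]
      _ = (univ.biUnion E).card := (Finset.card_biUnion hdisj).symm
      _ ≤ _ := Finset.card_le_card hsub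
  calc g * ∑ U, (T U).edgeSet.ncard ≤ g * Tt.edgeSet.ncard := Nat.mul_le_mul_left _ hsum
    _ ≤ (g + 1) * (Wset (π := π) γ).card := hbound
    _ ≤ _ := Nat.mul_le_mul_left _ hcard

end OTh
end

section

/-!
Trivialities.

PROOF of `outerPart_exists`.  Let `e : Fin k ≃ G.edgeSet` (finite).  `P i` is the graph with the single edge `e i` (`SimpleGraph.fromEdgeSet {(e i : Sym2 V)}`).  It is outerplanar for
any injective `f : V → ℕ` (`Fintype.equivFin`): two edges have the same ends, `f a < f c < f b < f d` is impossible.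
-/

set_option autoImplicit false

namespace OTh

theorem outerPart_exists {V : Type*} [Fintype V] (G : SimpleGraph V) : ∃ k, OuterPart G k := by
  classical
  obtain ⟨k, ⟨e⟩⟩ : ∃ k, Nonempty (G.edgeSet ≃ Fin k) :=
    ⟨Fintype.card G.edgeSet, ⟨Fintype.equivFin _⟩⟩
  refine ⟨k, fun i => SimpleGraph.fromEdgeSet {((e.symm i : G.edgeSet) : Sym2 V)}, ?_, ?_, ?_⟩
  · intro i u v h
    rw [SimpleGraph.fromEdgeSet_adj] at h
    have h1 : s(u, v) = ((e.symm i : G.edgeSet) : Sym2 V) := h.1
    have h2 := (e.symm i).2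
    rw [← h1] at h2
    exact h2
  · intro i
    obtain ⟨g⟩ : Nonempty (V ≃ Fin (Fintype.card V)) := ⟨Fintype.equivFin V⟩
    refine ⟨fun v => (g v : ℕ), ?_, ?_⟩
    · intro a b hab
      exact g.injective (Fin.ext hab)
    · intro a b c d hab hcd ⟨h1, h2, h3⟩
      rw [SimpleGraph.fromEdgeSet_adj] at hab hcd
      have h4 : s(a, b) = s(c, d) := (Set.mem_singleton_iff.mp hab.1).trans
        (Set.mem_singleton_iff.mp hcd.1).symm
      rw [Sym2.eq_iff] at h4
      rcases h4 with ⟨h5, h6⟩ | ⟨h5, h6⟩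
      · subst h5
        exact lt_irrefl _ h1
      · subst h6
        exact lt_irrefl _ h2
  · intro u v huv
    have hm : s(u, v) ∈ G.edgeSet := huv
    refine ⟨e ⟨s(u, v), hm⟩, ?_, ?_⟩
    · show (SimpleGraph.fromEdgeSet _).Adj u v
      rw [SimpleGraph.fromEdgeSet_adj]
      refine ⟨?_, huv.ne⟩
      simp
    · intro i hi
      change (SimpleGraph.fromEdgeSet _).Adj u v at hi
      rw [SimpleGraph.fromEdgeSet_adj] at hi
      have h1 : s(u, v) = ((e.symm i : G.edgeSet) : Sym2 V) := hi.1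
      have h2 : e.symm i = ⟨s(u, v), hm⟩ := Subtype.ext h1.symm
      rw [← h2]
      simp

end OTh
end
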